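import Mathlib
import Pool.Agent.Lib.MP_f9aece_nt_h97.Total
import Pool.Agent.Lib.MP_f9aece_nt_h97.OffA

/-!
The dual kernel attached to `K.phi T`: its Mellin transform and the functional equation.
-/

set_option autoImplicit false

namespace Pool.Agent.Lib.MP_f9aece_nt_h97

open MeasureTheory Set Filter Topology Complex FourierTransform
open scoped ENNReal ComplexConjugate
open Pool.Agent.Lib.MP_f9aece_nt (DP pair BK K2 K2_nonneg K2_eq_inv_lcm ev ev_apply)

/-- the standard Gaussian -/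
noncomputable def Ga (x : ℝ) : ℝ := Real.exp (-Real.pi * x ^ 2)

lemma Ga_pos (x : ℝ) : 0 < Ga x := Real.exp_pos _

lemma Ga_cont : Continuous Ga := by unfold Ga; fun_prop

lemma Ga_neg (x : ℝ) : Ga (-x) = Ga x := by unfold Ga; rw [neg_sq]

lemma Ga_hasMellin {s : ℂ} (hs : 0 < s.re) : HasMellin (fun x => (Ga x : ℂ)) s (Gammaℝ s / 2) := by
  constructor
  · refine (mellin_convergent_iff_norm (f := fun x => (Ga x : ℂ)) Subset.rfl measurableSet_Ioi
      (Complex.continuous_ofReal.comp Ga_cont).aestronglyMeasurable).mpr ?_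
    have h := integrableOn_rpow_mul_exp_neg_mul_sq (b := Real.pi) Real.pi_pos
      (s := s.re - 1) (by linarith)
    refine IntegrableOn.congr_fun h (fun x _ => ?_) measurableSet_Ioi
    rw [Complex.norm_real, Real.norm_eq_abs, abs_of_pos (Ga_pos x), Ga]
  · have h1 := mellin_comp_rpow (fun u : ℝ => cexp (-(Real.pi * u))) s 2
    have e1 : (fun t : ℝ => cexp (-((Real.pi : ℂ) * ((t ^ (2 : ℝ) : ℝ) : ℂ))))
        = fun x => (Ga x : ℂ) := by
      funext x
      unfold Ga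
      rw [Real.rpow_two]
      push_cast
      ring_nf
    simp only [e1] at h1
    rw [h1]
    have h2 := integral_cpow_mul_exp_neg_mul_Ioi (a := s / 2) (r := Real.pi)
      (by simp only [Complex.div_ofNat_re]; linarith) Real.pi_pos
    have h3 : mellin (fun u : ℝ => cexp (-(Real.pi * u))) (s / ((2 : ℝ) : ℂ))
        = (1 / (Real.pi : ℂ)) ^ (s / 2) * Gamma (s / 2) := by
      rw [← h2, mellin]
      push_cast
      simp only [smul_eq_mul]
    rw [h3, Gammaℝ_def, abs_of_pos (by norm_num : (0 : ℝ) < 2)]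
    have h4 : (1 / (Real.pi : ℂ)) ^ (s / 2) = (Real.pi : ℂ) ^ (-s / 2) := by
      rw [one_div, Complex.inv_cpow, ← Complex.cpow_neg]
      · congr 1; ring
      · rw [Complex.arg_ofReal_of_nonneg Real.pi_pos.le]
        exact Real.pi_pos.ne
    rw [h4, Complex.real_smul]
    push_cast
    ring

/-- cosine transform of the Gaussian -/
lemma Ga_cos {Z : ℝ} (hZ : 0 < Z) (y : ℝ) :
    ∫ X in Ioi (0 : ℝ), Real.cos (2 * Real.pi * y * X) * Ga (X * Z) = (1 / (2 * Z)) * Ga (y / Z) := by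
  have hb : 0 < ((Real.pi * Z ^ 2 : ℝ) : ℂ).re := by
    rw [Complex.ofReal_re]; positivity
  have h := fourierIntegral_gaussian hb ((2 * Real.pi * y : ℝ) : ℂ)
  have hpt : ∀ X : ℝ, (cexp (I * ((2 * Real.pi * y : ℝ) : ℂ) * X)
      * cexp (-((Real.pi * Z ^ 2 : ℝ) : ℂ) * X ^ 2)).re
      = Real.cos (2 * Real.pi * y * X) * Ga (X * Z) := by
    intro X
    have e1 : cexp (-((Real.pi * Z ^ 2 : ℝ) : ℂ) * X ^ 2) = ((Ga (X * Z) : ℝ) : ℂ) := by
      unfold Ga
      push_cast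
      congr 1
      ring
    have e2 : I * ((2 * Real.pi * y : ℝ) : ℂ) * X = ((2 * Real.pi * y * X : ℝ) : ℂ) * I := by
      push_cast; ring
    rw [e1, e2, Complex.re_mul_ofReal, Complex.exp_ofReal_mul_I_re]
  have hint : Integrable (fun X : ℝ => cexp (I * ((2 * Real.pi * y : ℝ) : ℂ) * X)
      * cexp (-((Real.pi * Z ^ 2 : ℝ) : ℂ) * X ^ 2)) := by
    have := integrable_cexp_quadratic hb (I * ((2 * Real.pi * y : ℝ) : ℂ)) 0
    refine this.congr (Eventually.of_forall fun X => ?_)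
    simp only
    rw [← Complex.exp_add]
    congr 1
    ring
  have h2 := integral_re hint
  rw [RCLike.re_to_complex, h] at h2
  simp only [RCLike.re_to_complex, hpt] at h2
  have h3 : ((Real.pi : ℂ) / ((Real.pi * Z ^ 2 : ℝ) : ℂ)) ^ (1 / 2 : ℂ)
      * cexp (-((2 * Real.pi * y : ℝ) : ℂ) ^ 2 / (4 * ((Real.pi * Z ^ 2 : ℝ) : ℂ)))
      = ((1 / Z * Ga (y / Z) : ℝ) : ℂ) := by
    have hpi : (Real.pi : ℂ) ≠ 0 := by exact_mod_cast Real.pi_pos.ne'
    have hZc : (Z : ℂ) ≠ 0 := by exact_mod_cast hZ.ne'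
    have e1 : ((Real.pi : ℂ) / ((Real.pi * Z ^ 2 : ℝ) : ℂ)) = ((1 / Z ^ 2 : ℝ) : ℂ) := by
      push_cast
      field_simp
    have e2 : (((1 / Z ^ 2 : ℝ) : ℂ)) ^ (1 / 2 : ℂ) = ((1 / Z : ℝ) : ℂ) := by
      have : (1 / 2 : ℂ) = ((1 / 2 : ℝ) : ℂ) := by push_cast; ring
      rw [this, ← Complex.ofReal_cpow (by positivity)]
      congr 1
      rw [← Real.sqrt_eq_rpow, Real.sqrt_div zero_le_one, Real.sqrt_one, Real.sqrt_sq hZ.le]
    rw [e1, e2]
    unfold Ga
    push_cast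
    congr 2
    field_simp
    ring
  rw [h3, Complex.ofReal_re] at h2
  have h5 := integral_comp_abs (f := fun X => Real.cos (2 * Real.pi * y * X) * Ga (X * Z))
  have h6 : (∫ X : ℝ, Real.cos (2 * Real.pi * y * |X|) * Ga (|X| * Z))
      = ∫ X : ℝ, Real.cos (2 * Real.pi * y * X) * Ga (X * Z) := by
    refine integral_congr_ae (Eventually.of_forall fun X => ?_)
    simp only
    rcases abs_cases X with ⟨h, _⟩ | ⟨h, _⟩
    · rw [h]
    · rw [h, mul_neg, Real.cos_neg, neg_mul, Ga_neg]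
  rw [h6, h2] at h5
  have : (1 / (2 * Z)) * Ga (y / Z) = (1 / Z * Ga (y / Z)) / 2 := by
    field_simp
  rw [this]
  linarith

/-- Mellin transform of a multiplicative convolution with the Gaussian. -/
lemma mellin_gauss_conv {k : ℝ → ℝ} (hk : Continuous k) {s : ℂ} (hs : 0 < s.re)
    (hc : MellinConvergent (fun x => (k x : ℂ)) (1 - s)) :
    mellin (fun Z => ((∫ X in Ioi (0 : ℝ), k X * Ga (X * Z) : ℝ) : ℂ)) s
      = (Gammaℝ s / 2) * mellin (fun x => (k x : ℂ)) (1 - s) := by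
  set f : ℝ → ℝ → ℂ := fun X Z => (k X : ℂ) * ((Z : ℂ) ^ (s - 1) * (Ga (X * Z) : ℂ)) with hf
  have hmell : ∀ X : ℝ, 0 < X → HasMellin (fun Z => (Ga (X * Z) : ℂ)) s
      ((X : ℂ) ^ (-s) * (Gammaℝ s / 2)) := by
    intro X hX
    have h1 := Ga_hasMellin hs
    refine ⟨(MellinConvergent.comp_mul_left (f := fun x => (Ga x : ℂ)) hX).mpr h1.1, ?_⟩
    rw [mellin_comp_mul_left (fun x => (Ga x : ℂ)) s hX, h1.2, smul_eq_mul]
  have hmellr : ∀ X : ℝ, 0 < X → (∫ Z in Ioi (0 : ℝ), Z ^ (s.re - 1) * Ga (X * Z))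
      = X ^ (-s.re) * (∫ Z in Ioi (0 : ℝ), Z ^ (s.re - 1) * Ga Z) := by
    intro X hX
    have h1 := integral_comp_mul_left_Ioi (fun Z => Z ^ (s.re - 1) * Ga Z) 0 hX
    rw [mul_zero, smul_eq_mul] at h1
    have h2 : (∫ Z in Ioi (0 : ℝ), (X * Z) ^ (s.re - 1) * Ga (X * Z))
        = X ^ (s.re - 1) * ∫ Z in Ioi (0 : ℝ), Z ^ (s.re - 1) * Ga (X * Z) := by
      rw [← integral_const_mul]
      refine setIntegral_congr_fun measurableSet_Ioi fun Z hZ => ?_
      have hZ0 : (0 : ℝ) < Z := hZ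
      rw [Real.mul_rpow hX.le hZ0.le]
      ring
    rw [h2] at h1
    have h3 : X ^ (1 - s.re) * X ^ (s.re - 1) = 1 := by
      rw [← Real.rpow_add hX]; simp
    have h4 : X ^ (1 - s.re) * X⁻¹ = X ^ (-s.re) := by
      rw [← Real.rpow_neg_one, ← Real.rpow_add hX]; congr 1; ring
    calc (∫ Z in Ioi (0 : ℝ), Z ^ (s.re - 1) * Ga (X * Z))
        = (X ^ (1 - s.re) * X ^ (s.re - 1)) * ∫ Z in Ioi (0 : ℝ), Z ^ (s.re - 1) * Ga (X * Z) := by
          rw [h3, one_mul]
      _ = X ^ (1 - s.re) * (X⁻¹ * ∫ Z in Ioi (0 : ℝ), Z ^ (s.re - 1) * Ga Z) := by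
          rw [mul_assoc, h1]
      _ = _ := by rw [← mul_assoc, h4]
  have hmeas : AEStronglyMeasurable (Function.uncurry f)
      ((volume.restrict (Ioi (0 : ℝ))).prod (volume.restrict (Ioi (0 : ℝ)))) := by
    rw [Measure.prod_restrict]
    refine ContinuousOn.aestronglyMeasurable ?_ (measurableSet_Ioi.prod measurableSet_Ioi)
    rintro ⟨X, Z⟩ ⟨hX, hZ⟩
    have hZ0 : (0 : ℝ) < Z := hZ
    refine ContinuousAt.continuousWithinAt ?_
    simp only [hf]
    refine ContinuousAt.mul ?_ (ContinuousAt.mul ?_ ?_)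
    · exact (Complex.continuous_ofReal.comp (hk.comp continuous_fst)).continuousAt
    · exact ContinuousAt.comp (f := fun p : ℝ × ℝ => p.2) (g := fun x : ℝ => (x : ℂ) ^ (s - 1))
        (x := (X, Z)) (continuousAt_ofReal_cpow_const _ _ (Or.inr hZ0.ne')) continuousAt_snd
    · refine (Complex.continuous_ofReal.comp (Ga_cont.comp ?_)).continuousAt
      fun_prop
  have hint : Integrable (Function.uncurry f)
      ((volume.restrict (Ioi (0 : ℝ))).prod (volume.restrict (Ioi (0 : ℝ)))) := by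
    rw [integrable_prod_iff hmeas]
    constructor
    · filter_upwards [ae_restrict_mem measurableSet_Ioi] with X hX
      have := (hmell X hX).1
      simp only [Function.uncurry, hf]
      exact this.const_mul _
    · have h1 : IntegrableOn (fun X : ℝ => X ^ ((1 - s).re - 1) * ‖(k X : ℂ)‖) (Ioi 0) :=
        (mellin_convergent_iff_norm (f := fun x => (k x : ℂ)) Subset.rfl measurableSet_Ioi
          (Complex.continuous_ofReal.comp hk).aestronglyMeasurable).mp hc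
      have h2 := h1.mul_const (∫ Z in Ioi (0 : ℝ), Z ^ (s.re - 1) * Ga Z)
      refine Integrable.congr h2 ?_
      filter_upwards [ae_restrict_mem measurableSet_Ioi] with X hX
      have hX0 : (0 : ℝ) < X := hX
      have h3 : (∫ Z in Ioi (0 : ℝ), ‖Function.uncurry f (X, Z)‖)
          = ‖(k X : ℂ)‖ * ∫ Z in Ioi (0 : ℝ), Z ^ (s.re - 1) * Ga (X * Z) := by
        rw [← integral_const_mul]
        refine setIntegral_congr_fun measurableSet_Ioi fun Z hZ => ?_
        have hZ0 : (0 : ℝ) < Z := hZ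
        simp only [Function.uncurry, hf]
        rw [norm_mul, norm_mul, Complex.norm_cpow_eq_rpow_re_of_pos hZ0, Complex.norm_real (Ga _),
          Real.norm_eq_abs, abs_of_pos (Ga_pos _)]
        simp
      rw [h3, hmellr X hX0]
      have h4 : (1 - s).re - 1 = -s.re := by simp
      rw [h4]
      ring
  have hswap := integral_integral_swap hint
  have hL : (∫ X in Ioi (0 : ℝ), ∫ Z in Ioi (0 : ℝ), f X Z)
      = (Gammaℝ s / 2) * mellin (fun x => (k x : ℂ)) (1 - s) := by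
    rw [mellin, ← integral_const_mul]
    refine setIntegral_congr_fun measurableSet_Ioi fun X hX => ?_
    have hX0 : (0 : ℝ) < X := hX
    have h1 := (hmell X hX0).2
    simp only [hf, smul_eq_mul]
    rw [integral_const_mul]
    have h2 : (∫ Z in Ioi (0 : ℝ), (Z : ℂ) ^ (s - 1) * (Ga (X * Z) : ℂ))
        = (X : ℂ) ^ (-s) * (Gammaℝ s / 2) := by
      rw [← h1, mellin]
      simp only [smul_eq_mul]
    rw [h2]
    have h3 : (1 - s - 1 : ℂ) = -s := by ring
    rw [h3]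
    ring
  have hR : (∫ Z in Ioi (0 : ℝ), ∫ X in Ioi (0 : ℝ), f X Z)
      = mellin (fun Z => ((∫ X in Ioi (0 : ℝ), k X * Ga (X * Z) : ℝ) : ℂ)) s := by
    rw [mellin]
    refine setIntegral_congr_fun measurableSet_Ioi fun Z hZ => ?_
    simp only [hf, smul_eq_mul]
    rw [← integral_complex_ofReal, ← integral_const_mul]
    refine integral_congr_ae (Eventually.of_forall fun X => ?_)
    simp only
    push_cast
    ring
  rw [← hR, ← hswap, hL]

lemma mellin_congr_Ioi {f g : ℝ → ℂ} {s : ℂ} (h : ∀ x : ℝ, 0 < x → f x = g x) :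
    mellin f s = mellin g s :=
  setIntegral_congr_fun measurableSet_Ioi fun x hx => by
    simp only [h x hx]

namespace Ker

variable (K : Ker)

/-- cosine transform of `K.phi T` -/
noncomputable def hh (T X : ℝ) : ℝ := T⁻¹ * K.G (X / T) * Real.cos (2 * Real.pi * X)

lemma hh_cont (T : ℝ) : Continuous (K.hh T) := by
  unfold hh
  have := K.G_cont
  fun_prop

lemma integral_sin_zero (w : ℝ) : ∫ v, K.g v * Real.sin (2 * Real.pi * v * w) = 0 := by
  have h := integral_neg_eq_self (fun v => K.g v * Real.sin (2 * Real.pi * v * w)) volume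
  have h2 : (∫ v, K.g (-v) * Real.sin (2 * Real.pi * (-v) * w))
      = - ∫ v, K.g v * Real.sin (2 * Real.pi * v * w) := by
    rw [← integral_neg]
    refine integral_congr_ae (Eventually.of_forall fun v => ?_)
    beta_reduce
    rw [K.even, show 2 * Real.pi * -v * w = -(2 * Real.pi * v * w) by ring, Real.sin_neg]
    ring
  rw [h2] at h
  linarith

lemma g_mul_int (f : ℝ → ℝ) (hf : Continuous f) : Integrable (fun v => K.g v * f v) := by
  refine (K.cont.mul hf).integrable_of_hasCompactSupport ?_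
  exact K.cs.mul_right

lemma hh_eq_full {T : ℝ} (hT : 0 < T) (X : ℝ) :
    K.hh T X = ∫ y, K.phi T y * Real.cos (2 * Real.pi * y * X) := by
  have h1 := integral_comp_aff hT (fun v => K.g v * Real.cos (2 * Real.pi * X * (1 + v / T)))
  have h2 : (fun y => K.g (T * (y - 1)) * Real.cos (2 * Real.pi * X * (1 + T * (y - 1) / T)))
      = fun y => K.phi T y * Real.cos (2 * Real.pi * y * X) := by
    funext y
    unfold phi
    congr 2
    field_simp
    ring
  rw [h2] at h1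
  rw [h1]
  have h3 : (∫ v, K.g v * Real.cos (2 * Real.pi * X * (1 + v / T)))
      = Real.cos (2 * Real.pi * X) * K.G (X / T) := by
    rw [K.G_eq_integral]
    have e1 : (fun v => K.g v * Real.cos (2 * Real.pi * X * (1 + v / T)))
        = fun v => Real.cos (2 * Real.pi * X) * (K.g v * Real.cos (2 * Real.pi * v * (X / T)))
          - Real.sin (2 * Real.pi * X) * (K.g v * Real.sin (2 * Real.pi * v * (X / T))) := by
      funext v
      rw [show 2 * Real.pi * X * (1 + v / T) = 2 * Real.pi * X + 2 * Real.pi * v * (X / T) by ring,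
        Real.cos_add]
      ring
    rw [e1, integral_sub, integral_const_mul, integral_const_mul, K.integral_sin_zero]
    · ring
    · exact (K.g_mul_int _ (by fun_prop)).const_mul _
    · exact (K.g_mul_int _ (by fun_prop)).const_mul _
  rw [h3]
  unfold hh
  ring

lemma phi_pos_supp {T : ℝ} (hT : 2 * K.L ≤ T) {y : ℝ} (hy : y ∉ Ioi (0 : ℝ)) : K.phi T y = 0 := by
  by_contra h
  have := (K.phi_bmp hT).supp y h
  exact hy (by rw [mem_Ioi]; linarith)

lemma hh_eq {T : ℝ} (hT : 2 * K.L ≤ T) (X : ℝ) :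
    K.hh T X = ∫ y in Ioi (0 : ℝ), K.phi T y * Real.cos (2 * Real.pi * y * X) := by
  have hL := K.hL
  rw [K.hh_eq_full (by linarith), setIntegral_eq_integral_of_forall_compl_eq_zero]
  intro y hy
  rw [K.phi_pos_supp hT hy, zero_mul]

lemma hh_bound {T : ℝ} (hT : 0 < T) : ∃ C : ℝ, 0 ≤ C ∧ ∀ X : ℝ, 0 < X → |K.hh T X| ≤ C / (1 + X) := by
  obtain ⟨B0, hB0, h0⟩ := K.G_decay 0
  obtain ⟨B1, hB1, h1⟩ := K.G_decay 1
  refine ⟨T⁻¹ * B0 + B1, by positivity, fun X hX => ?_⟩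
  have e0 := h0 (X / T)
  have e1 := h1 (X / T)
  rw [pow_zero, one_mul] at e0
  rw [pow_one, abs_of_pos (by positivity : 0 < X / T)] at e1
  rw [le_div_iff₀ (by positivity)]
  have hc := Real.abs_cos_le_one (2 * Real.pi * X)
  have e2 : |K.hh T X| ≤ T⁻¹ * |K.G (X / T)| := by
    unfold hh
    rw [abs_mul, abs_mul, abs_of_pos (inv_pos.mpr hT)]
    exact mul_le_of_le_one_right (by positivity) hc
  calc |K.hh T X| * (1 + X) ≤ (T⁻¹ * |K.G (X / T)|) * (1 + X) := by gcongr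
    _ = T⁻¹ * |K.G (X / T)| + (X / T) * |K.G (X / T)| := by
        field_simp
    _ ≤ T⁻¹ * B0 + B1 := by gcongr

lemma hh_conv {T : ℝ} (hT : 0 < T) {s : ℂ} (h0 : 0 < s.re) (h1 : s.re < 1) :
    MellinConvergent (fun x => (K.hh T x : ℂ)) s := by
  obtain ⟨C, hC, h⟩ := K.hh_bound hT
  refine (mellin_convergent_iff_norm (f := fun x => (K.hh T x : ℂ)) Subset.rfl measurableSet_Ioi
    (Complex.continuous_ofReal.comp (K.hh_cont T)).aestronglyMeasurable).mpr ?_
  refine Integrable.mono' (integrable_bound_g h0 h1 C) ?_ ?_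
  · refine ContinuousOn.aestronglyMeasurable ?_ measurableSet_Ioi
    refine ContinuousOn.mul ?_ (Complex.continuous_ofReal.comp (K.hh_cont T)).norm.continuousOn
    exact fun x hx => (Real.continuousAt_rpow_const _ _ (Or.inl (ne_of_gt hx))).continuousWithinAt
  · filter_upwards [ae_restrict_mem measurableSet_Ioi] with x hx
    have hx0 : (0 : ℝ) < x := hx
    rw [Real.norm_eq_abs, abs_mul, abs_of_nonneg (by positivity : (0 : ℝ) ≤ x ^ (s.re - 1)),
      abs_norm, Complex.norm_real, Real.norm_eq_abs]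
    gcongr
    exact h x hx0

/-- The Gaussian convolutions of `hh` and `phi` are dual to each other. -/
lemma gauss_dual {T : ℝ} (hT : 2 * K.L ≤ T) {Z : ℝ} (hZ : 0 < Z) :
    ∫ X in Ioi (0 : ℝ), K.hh T X * Ga (X * Z)
      = (1 / (2 * Z)) * ∫ y in Ioi (0 : ℝ), K.phi T y * Ga (y * Z⁻¹) := by
  have hGi : Integrable (fun X : ℝ => Ga (X * Z)) := by
    have := integrable_exp_neg_mul_sq (b := Real.pi * Z ^ 2) (by positivity)
    refine this.congr (Eventually.of_forall fun X => ?_)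
    simp only [Ga]
    congr 1
    ring
  have hint : Integrable (Function.uncurry fun X y : ℝ =>
      K.phi T y * Real.cos (2 * Real.pi * y * X) * Ga (X * Z))
      ((volume.restrict (Ioi (0 : ℝ))).prod (volume.restrict (Ioi (0 : ℝ)))) := by
    have h1 : Integrable (fun p : ℝ × ℝ => Ga (p.1 * Z) * K.phi T p.2)
        ((volume.restrict (Ioi (0 : ℝ))).prod (volume.restrict (Ioi (0 : ℝ)))) :=
      (hGi.restrict (s := Ioi 0)).mul_prod ((K.phi_bmp hT).integrable.restrict (s := Ioi 0))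
    have h2 := h1.bdd_mul (c := 1)
      (f := fun p : ℝ × ℝ => Real.cos (2 * Real.pi * p.2 * p.1)) ?_ ?_
    · refine h2.congr (Eventually.of_forall fun p => ?_)
      simp only [Function.uncurry]
      ring
    · exact (by fun_prop : Continuous fun p : ℝ × ℝ =>
        Real.cos (2 * Real.pi * p.2 * p.1)).aestronglyMeasurable
    · exact Eventually.of_forall fun p => by
        rw [Real.norm_eq_abs]; exact Real.abs_cos_le_one _
  have hswap := integral_integral_swap hint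
  have hL : (∫ X in Ioi (0 : ℝ), ∫ y in Ioi (0 : ℝ),
      K.phi T y * Real.cos (2 * Real.pi * y * X) * Ga (X * Z))
      = ∫ X in Ioi (0 : ℝ), K.hh T X * Ga (X * Z) := by
    refine setIntegral_congr_fun measurableSet_Ioi fun X _ => ?_
    rw [integral_mul_const, ← K.hh_eq hT]
  have hR : (∫ y in Ioi (0 : ℝ), ∫ X in Ioi (0 : ℝ),
      K.phi T y * Real.cos (2 * Real.pi * y * X) * Ga (X * Z))
      = (1 / (2 * Z)) * ∫ y in Ioi (0 : ℝ), K.phi T y * Ga (y * Z⁻¹) := by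
    rw [← integral_const_mul]
    refine setIntegral_congr_fun measurableSet_Ioi fun y _ => ?_
    simp_rw [mul_assoc (K.phi T y)]
    rw [integral_const_mul, Ga_cos hZ, div_eq_mul_inv y Z]
    ring
  rw [← hL, hswap, hR]

theorem mellin_hh {T : ℝ} (hT : 2 * K.L ≤ T) {s : ℂ} (h0 : 0 < s.re) (h1 : s.re < 1) :
    Gammaℝ s * (2 * mellin (fun x => (K.hh T x : ℂ)) (1 - s))
      = Gammaℝ (1 - s) * mellin (fun x => (K.phi T x : ℂ)) s := by
  have hL := K.hL
  have hT0 : 0 < T := by linarith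
  have r1 : (1 - s).re = 1 - s.re := by simp
  have a1 := mellin_gauss_conv (K.hh_cont T) h0
    (K.hh_conv hT0 (s := 1 - s) (by rw [r1]; linarith) (by rw [r1]; linarith))
  have a2 := mellin_gauss_conv (k := K.phi T) (K.phi_bmp hT).cont (s := 1 - s)
    (by rw [r1]; linarith) ((K.phi_bmp hT).mellinConv _)
  rw [sub_sub_cancel] at a2
  set C : ℝ → ℂ := fun W => ((∫ y in Ioi (0 : ℝ), K.phi T y * Ga (y * W) : ℝ) : ℂ) with hC
  have a3 : mellin (fun Z => ((∫ X in Ioi (0 : ℝ), K.hh T X * Ga (X * Z) : ℝ) : ℂ)) s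
      = (1 / 2) * mellin C (1 - s) := by
    have b1 : mellin (fun Z => ((∫ X in Ioi (0 : ℝ), K.hh T X * Ga (X * Z) : ℝ) : ℂ)) s
        = mellin (fun Z => (1 / 2 : ℂ) • (fun W : ℝ => (W : ℂ) ^ (1 : ℂ) • C W) Z⁻¹) s := by
      refine mellin_congr_Ioi fun Z hZ => ?_
      simp only
      rw [K.gauss_dual hT hZ, hC]
      simp only [smul_eq_mul]
      push_cast
      rw [Complex.cpow_one]
      field_simp
    rw [b1, mellin_const_smul, mellin_comp_inv (fun W : ℝ => (W : ℂ) ^ (1 : ℂ) • C W),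
      mellin_cpow_smul, smul_eq_mul]
    congr 2
    ring
  rw [a1] at a3
  rw [a2] at a3
  linear_combination 4 * a3

/-- the dual kernel -/
noncomputable def Vn (T : ℝ) (n : ℕ) (x : ℝ) : ℝ :=
  2 / (x * T) * K.G (n / (x * T)) * Real.cos (2 * Real.pi * n / x)

lemma Vn_one (T x : ℝ) : K.Vn T 1 x = 2 * (x⁻¹ * K.hh T x⁻¹) := by
  unfold Vn hh
  rw [Nat.cast_one, mul_one]
  have e1 : x⁻¹ / T = 1 / (x * T) := by
    rw [one_div, mul_inv, div_eq_mul_inv]
  have e2 : 2 * Real.pi * x⁻¹ = 2 * Real.pi / x := by rw [div_eq_mul_inv]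
  rw [e1, e2, div_mul_eq_div_div, div_eq_mul_inv, div_eq_mul_inv]
  ring

lemma Vn_scale (T : ℝ) {n : ℕ} (hn : 1 ≤ n) (x : ℝ) :
    K.Vn T n x = (n : ℝ)⁻¹ * K.Vn T 1 ((n : ℝ)⁻¹ * x) := by
  unfold Vn
  have hn0 : (n : ℝ) ≠ 0 := by
    have : (0 : ℝ) < n := by exact_mod_cast hn
    exact this.ne'
  rw [Nat.cast_one]
  have e1 : 1 / ((n : ℝ)⁻¹ * x * T) = n / (x * T) := by
    rw [one_div, mul_inv, mul_inv, inv_inv, mul_assoc, div_eq_mul_inv, mul_inv]
  have e2 : 2 * Real.pi * 1 / ((n : ℝ)⁻¹ * x) = 2 * Real.pi * n / x := by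
    rw [div_eq_mul_inv, mul_inv, inv_inv, div_eq_mul_inv]; ring
  have e3 : 2 / ((n : ℝ)⁻¹ * x * T) = n * (2 / (x * T)) := by
    rw [div_eq_mul_inv, mul_inv, mul_inv, inv_inv, div_eq_mul_inv, mul_inv]; ring
  rw [e1, e2, e3]
  field_simp

/-- Mellin transform of the dual kernel -/
noncomputable def vv (T : ℝ) (s : ℂ) : ℂ := mellin (fun x => (K.Vn T 1 x : ℂ)) s

lemma Vn_one_fun (T : ℝ) : (fun x => (K.Vn T 1 x : ℂ))
    = fun x : ℝ => (2 : ℂ) • (fun W : ℝ => (W : ℂ) ^ (1 : ℂ) • (K.hh T W : ℂ)) x⁻¹ := by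
  funext x
  rw [K.Vn_one]
  simp only [smul_eq_mul, Complex.cpow_one]
  push_cast
  ring

lemma vv_eq (T : ℝ) (s : ℂ) : K.vv T s = 2 * mellin (fun x => (K.hh T x : ℂ)) (1 - s) := by
  unfold vv
  rw [K.Vn_one_fun, mellin_const_smul,
    mellin_comp_inv (fun W : ℝ => (W : ℂ) ^ (1 : ℂ) • (K.hh T W : ℂ)), mellin_cpow_smul,
    smul_eq_mul]
  congr 2
  ring

/-- the functional equation of the dual kernel -/
theorem vv_fe {T : ℝ} (hT : 2 * K.L ≤ T) {s : ℂ} (h0 : 0 < s.re) (h1 : s.re < 1) :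
    Gammaℝ s * K.vv T s = Gammaℝ (1 - s) * mellin (fun x => (K.phi T x : ℂ)) s := by
  rw [K.vv_eq]; exact K.mellin_hh hT h0 h1

end Ker

lemma Gammaℝ_conj (s : ℂ) : Gammaℝ (conj s) = conj (Gammaℝ s) := by
  rw [Gammaℝ_def, Gammaℝ_def, map_mul, ← Complex.Gamma_conj]
  have e0 : conj (2 : ℂ) = 2 := Complex.conj_ofNat 2
  have e1 : conj s / 2 = conj (s / 2) := by rw [map_div₀, e0]
  have e2 : -conj s / 2 = conj (-s / 2) := by rw [map_div₀, map_neg, e0]
  rw [e1, e2]
  congr 1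
  rw [Complex.cpow_conj _ _ ?_, Complex.conj_ofReal]
  rw [Complex.arg_ofReal_of_nonneg Real.pi_pos.le]
  exact Real.pi_pos.ne

namespace Ker

variable (K : Ker)

/-- N1.3 -/
theorem vv_eq_explicit {T : ℝ} (hT : 2 * K.L ≤ T) {s : ℂ} (h0 : 0 < s.re) (h1 : s.re < 1) :
    K.vv T s = 2 * Gamma (1 - s) * (2 * Real.pi : ℂ) ^ (s - 1) * Complex.cos (Real.pi * (1 - s) / 2)
      * mellin (fun x => (K.phi T x : ℂ)) s := by
  have h := K.vv_fe hT h0 h1
  have hne : Gammaℝ s ≠ 0 := Gammaℝ_ne_zero_of_re_pos h0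
  have h2 := Gammaℝ_div_Gammaℝ_one_sub (s := 1 - s) (fun n hn => by
    have := congrArg Complex.re hn
    simp at this
    have h3 : (0 : ℝ) ≤ n := by positivity
    linarith)
  rw [sub_sub_cancel, div_eq_iff hne, Gammaℂ_def] at h2
  rw [h2] at h
  have h3 : -(1 - s) = s - 1 := by ring
  rw [h3] at h
  refine mul_left_cancel₀ hne ?_
  rw [h]
  ring

/-- the dual kernel exchanges `ζ(s)` and `ζ(1-s)` -/
theorem vv_mul_zeta {T : ℝ} (hT : 2 * K.L ≤ T) {s : ℂ} (h0 : 0 < s.re) (h1 : s.re < 1) :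
    K.vv T s * riemannZeta (1 - s) = riemannZeta s * mellin (fun x => (K.phi T x : ℂ)) s := by
  have h := K.vv_fe hT h0 h1
  have hne : Gammaℝ s ≠ 0 := Gammaℝ_ne_zero_of_re_pos h0
  have hne' : Gammaℝ (1 - s) ≠ 0 := Gammaℝ_ne_zero_of_re_pos (by simp; linarith)
  have hs0 : s ≠ 0 := fun hs => by rw [hs] at h0; simp at h0
  have hs1 : 1 - s ≠ 0 := fun hs => by
    have : s = 1 := by linear_combination -hs
    rw [this] at h1; simp at h1
  rw [riemannZeta_def_of_ne_zero hs0, riemannZeta_def_of_ne_zero hs1, completedRiemannZeta_one_sub]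
  field_simp
  linear_combination (completedRiemannZeta s) * h

lemma one_sub_half (t : ℝ) : (1 : ℂ) - (1 / 2 + I * t) = conj (1 / 2 + I * (t : ℂ)) := by
  simp only [map_add, map_mul, Complex.conj_I, Complex.conj_ofReal, map_div₀, map_one]
  have : conj (2 : ℂ) = 2 := Complex.conj_ofNat 2
  rw [this]
  ring

/-- N1.4 -/
theorem vv_mul_conj_zeta {T : ℝ} (hT : 2 * K.L ≤ T) (t : ℝ) :
    K.vv T (1 / 2 + I * t) * conj (riemannZeta (1 / 2 + I * t))
      = riemannZeta (1 / 2 + I * t) * mellin (fun x => (K.phi T x : ℂ)) (1 / 2 + I * t) := by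
  have h := K.vv_mul_zeta hT (s := 1 / 2 + I * t) (by simp) (by simp; norm_num)
  rw [one_sub_half, riemannZeta_conj] at h
  exact h

/-- N1.4 -/
theorem norm_vv {T : ℝ} (hT : 2 * K.L ≤ T) (t : ℝ) :
    ‖K.vv T (1 / 2 + I * t)‖ = ‖mellin (fun x => (K.phi T x : ℂ)) (1 / 2 + I * t)‖ := by
  have h := K.vv_fe hT (s := 1 / 2 + I * t) (by simp) (by simp; norm_num)
  rw [one_sub_half, Gammaℝ_conj] at h
  have h2 := congrArg (fun z => ‖z‖) h
  simp only [norm_mul, RCLike.norm_conj] at h2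
  have hne : Gammaℝ (1 / 2 + I * t) ≠ 0 := Gammaℝ_ne_zero_of_re_pos (by simp)
  exact mul_left_cancel₀ (norm_ne_zero_iff.mpr hne) h2

/-! ### bounds for the dual kernel -/

lemma Vn_cont {T : ℝ} (hT : 0 < T) (n : ℕ) : ContinuousOn (K.Vn T n) (Ioi 0) := by
  unfold Vn
  have hG := K.G_cont
  refine ContinuousOn.mul (ContinuousOn.mul ?_ ?_) ?_
  · refine ContinuousOn.div continuousOn_const (by fun_prop) fun x hx => ?_
    have : (0 : ℝ) < x := hx
    positivity
  · refine hG.comp_continuousOn (ContinuousOn.div continuousOn_const (by fun_prop) fun x hx => ?_)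
    have : (0 : ℝ) < x := hx
    positivity
  · refine Real.continuous_cos.comp_continuousOn
      (ContinuousOn.div continuousOn_const (by fun_prop) fun x hx => ?_)
    have : (0 : ℝ) < x := hx
    positivity

/-- N1.1 -/
lemma Vn_decay (k : ℕ) : ∃ C : ℝ, 0 ≤ C ∧ ∀ T : ℝ, 0 < T → ∀ n : ℕ, 1 ≤ n → ∀ x : ℝ, 0 < x →
    |K.Vn T n x| ≤ C / (x * T) * (x * T / n) ^ k := by
  obtain ⟨B, hB, h⟩ := K.G_decay k
  refine ⟨2 * B, by positivity, fun T hT n hn x hx => ?_⟩
  have hn0 : (0 : ℝ) < n := by exact_mod_cast hn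
  have h1 := h (n / (x * T))
  have h2 : 0 < n / (x * T) := by positivity
  rw [abs_of_pos h2] at h1
  have h3 : |K.G (n / (x * T))| ≤ B * (x * T / n) ^ k := by
    have h4 : (n / (x * T)) ^ k * (x * T / n) ^ k = 1 := by
      rw [← mul_pow]
      have : n / (x * T) * (x * T / n) = 1 := by field_simp
      rw [this, one_pow]
    calc |K.G (n / (x * T))| = (n / (x * T)) ^ k * |K.G (n / (x * T))| * (x * T / n) ^ k := by
          rw [mul_right_comm, h4, one_mul]
      _ ≤ B * (x * T / n) ^ k := by gcongr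
  unfold Vn
  rw [abs_mul, abs_mul, abs_of_pos (by positivity : 0 < 2 / (x * T))]
  calc 2 / (x * T) * |K.G (n / (x * T))| * |Real.cos (2 * Real.pi * n / x)|
      ≤ 2 / (x * T) * |K.G (n / (x * T))| :=
        mul_le_of_le_one_right (by positivity) (Real.abs_cos_le_one _)
    _ ≤ 2 / (x * T) * (B * (x * T / n) ^ k) := by gcongr
    _ = 2 * B / (x * T) * (x * T / n) ^ k := by ring

lemma Vn_bound : ∃ C : ℝ, 0 ≤ C ∧ ∀ T : ℝ, 1 ≤ T → ∀ n : ℕ, 1 ≤ n → ∀ x : ℝ, 0 < x →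
    |K.Vn T n x| ≤ C / (1 + x) := by
  obtain ⟨C0, hC0, h0⟩ := K.Vn_decay 0
  obtain ⟨C1, hC1, h1⟩ := K.Vn_decay 1
  refine ⟨C0 + C1, by positivity, fun T hT n hn x hx => ?_⟩
  have hT0 : 0 < T := by linarith
  have hn1 : (1 : ℝ) ≤ n := by exact_mod_cast hn
  have hn0 : (0 : ℝ) < n := by linarith
  have e0 := h0 T hT0 n hn x hx
  have e1 := h1 T hT0 n hn x hx
  rw [pow_zero, mul_one] at e0
  rw [pow_one] at e1
  have e2 : C1 / (x * T) * (x * T / n) = C1 / n := by field_simp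
  rw [e2] at e1
  rw [le_div_iff₀ (by positivity)]
  have e3 : |K.Vn T n x| * x ≤ C0 := by
    calc |K.Vn T n x| * x ≤ C0 / (x * T) * x := by gcongr
      _ = C0 / T := by field_simp
      _ ≤ C0 := div_le_self hC0 hT
  have e4 : |K.Vn T n x| ≤ C1 := e1.trans (div_le_self hC1 hn1)
  linarith

/-- finite combination of dual kernels -/
noncomputable def Wc (T : ℝ) (c : DP) (x : ℝ) : ℝ :=
  ∑ n ∈ c.coeff.support, c.coeff n * K.Vn T n x

lemma Wc_cont {T : ℝ} (hT : 0 < T) (c : DP) : ContinuousOn (K.Wc T c) (Ioi 0) := by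
  unfold Wc
  exact continuousOn_finsetSum _ fun n _ => continuousOn_const.mul (K.Vn_cont hT n)

lemma Wc_bound : ∃ C : ℝ, 0 ≤ C ∧ ∀ T : ℝ, 1 ≤ T → ∀ c : DP, (∀ n, c.coeff n ≠ 0 → 1 ≤ n) →
    ∀ x : ℝ, 0 < x → |K.Wc T c x| ≤ nrm c * (C / (1 + x)) := by
  obtain ⟨C, hC, h⟩ := K.Vn_bound
  refine ⟨C, hC, fun T hT c hc x hx => ?_⟩
  unfold Wc nrm
  rw [Finset.sum_mul]
  refine (Finset.abs_sum_le_sum_abs _ _).trans (Finset.sum_le_sum fun n hn => ?_)
  rw [abs_mul]
  exact mul_le_mul_of_nonneg_left (h T hT n (hc n (Finsupp.mem_support_iff.mp hn)) x hx)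
    (abs_nonneg _)

/-- trivial bound, sharp for large `x` -/
lemma Wc_bound' : ∃ C : ℝ, 0 ≤ C ∧ ∀ T : ℝ, 0 < T → ∀ c : DP, (∀ n, c.coeff n ≠ 0 → 1 ≤ n) →
    ∀ x : ℝ, 0 < x → |K.Wc T c x| ≤ nrm c * (C / (x * T)) := by
  obtain ⟨C, hC, h⟩ := K.Vn_decay 0
  refine ⟨C, hC, fun T hT c hc x hx => ?_⟩
  unfold Wc nrm
  rw [Finset.sum_mul]
  refine (Finset.abs_sum_le_sum_abs _ _).trans (Finset.sum_le_sum fun n hn => ?_)
  rw [abs_mul]
  have := h T hT n (hc n (Finsupp.mem_support_iff.mp hn)) x hx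
  rw [pow_zero, mul_one] at this
  exact mul_le_mul_of_nonneg_left this (abs_nonneg _)

end Ker

/-- convergence of Mellin transforms of functions with the bound `C/(1+x)` -/
lemma mellinConv_of_bound {f : ℝ → ℝ} (hf : ContinuousOn f (Ioi 0)) {C : ℝ}
    (h : ∀ x : ℝ, 0 < x → |f x| ≤ C / (1 + x)) {s : ℂ} (h0 : 0 < s.re) (h1 : s.re < 1) :
    MellinConvergent (fun x => (f x : ℂ)) s := by
  have hfc : ContinuousOn (fun x => (f x : ℂ)) (Ioi 0) :=
    Complex.continuous_ofReal.comp_continuousOn hf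
  refine (mellin_convergent_iff_norm (f := fun x => (f x : ℂ)) Subset.rfl measurableSet_Ioi
    (hfc.aestronglyMeasurable measurableSet_Ioi)).mpr ?_
  refine Integrable.mono' (integrable_bound_g h0 h1 C) ?_ ?_
  · refine ContinuousOn.aestronglyMeasurable ?_ measurableSet_Ioi
    refine ContinuousOn.mul ?_ hfc.norm
    exact fun x hx => (Real.continuousAt_rpow_const _ _ (Or.inl (ne_of_gt hx))).continuousWithinAt
  · filter_upwards [ae_restrict_mem measurableSet_Ioi] with x hx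
    have hx0 : (0 : ℝ) < x := hx
    rw [Real.norm_eq_abs, abs_mul, abs_of_nonneg (by positivity : (0 : ℝ) ≤ x ^ (s.re - 1)),
      abs_norm, Complex.norm_real, Real.norm_eq_abs]
    gcongr
    exact h x hx0

lemma int1_of_bound {f : ℝ → ℝ} (hf : ContinuousOn f (Ioi 0)) {C : ℝ}
    (h : ∀ x : ℝ, 0 < x → |f x| ≤ C / (1 + x)) :
    IntegrableOn (fun x : ℝ => x ^ (-(1 / 2) : ℝ) * f x) (Ioi 0) := by
  have hb := integrable_bound_g (σ := 1 / 2) (by norm_num) (by norm_num) C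
  refine Integrable.mono' hb ?_ ?_
  · refine ContinuousOn.aestronglyMeasurable ?_ measurableSet_Ioi
    refine ContinuousOn.mul ?_ hf
    exact fun x hx => (Real.continuousAt_rpow_const _ _ (Or.inl (ne_of_gt hx))).continuousWithinAt
  · filter_upwards [ae_restrict_mem measurableSet_Ioi] with x hx
    have hx0 : (0 : ℝ) < x := hx
    rw [Real.norm_eq_abs, abs_mul, abs_of_nonneg (by positivity : (0 : ℝ) ≤ x ^ (-(1 / 2) : ℝ)),
      show (1 / 2 - 1 : ℝ) = -(1 / 2) by norm_num]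
    gcongr
    exact h x hx0

lemma int2_of_bound {f : ℝ → ℝ} (hf : ContinuousOn f (Ioi 0)) {C : ℝ}
    (h : ∀ x : ℝ, 0 < x → |f x| ≤ C / (1 + x)) :
    IntegrableOn (fun x : ℝ => f x ^ 2) (Ioi 0) := by
  have hb : IntegrableOn (fun x : ℝ => C ^ 2 * (1 / (1 + x) ^ 2)) (Ioi 0) := by
    refine Integrable.const_mul ?_ _
    have h1 : IntegrableOn (fun x : ℝ => x ^ (-2 : ℝ)) (Ioi 1) :=
      integrableOn_Ioi_rpow_of_lt (by norm_num) one_pos
    have h2 : Integrable (fun x : ℝ => (Ioi (1 : ℝ)).indicator (fun x => x ^ (-2 : ℝ)) (x + 1)) :=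
      ((integrable_indicator_iff measurableSet_Ioi).mpr h1).comp_add_right 1
    refine IntegrableOn.congr_fun h2.integrableOn (fun x hx => ?_) measurableSet_Ioi
    have hx0 : (0 : ℝ) < x := hx
    rw [indicator_of_mem (by rw [mem_Ioi]; linarith), Real.rpow_neg (by positivity), one_div,
      add_comm]
    norm_num
  refine Integrable.mono' hb ((hf.pow 2).aestronglyMeasurable measurableSet_Ioi) ?_
  filter_upwards [ae_restrict_mem measurableSet_Ioi] with x hx
  have hx0 : (0 : ℝ) < x := hx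
  rw [Real.norm_eq_abs, abs_pow]
  calc |f x| ^ 2 ≤ (C / (1 + x)) ^ 2 := by
        gcongr
        exact h x hx0
    _ = C ^ 2 * (1 / (1 + x) ^ 2) := by
        field_simp

namespace Ker

variable (K : Ker)

lemma Vn_conv {T : ℝ} (hT : 1 ≤ T) {n : ℕ} (hn : 1 ≤ n) {s : ℂ} (h0 : 0 < s.re) (h1 : s.re < 1) :
    MellinConvergent (fun x => (K.Vn T n x : ℂ)) s := by
  obtain ⟨C, hC, h⟩ := K.Vn_bound
  exact mellinConv_of_bound (K.Vn_cont (by linarith) n) (h T hT n hn) h0 h1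

/-- N1.2 -/
theorem Vn_hasMellin {T : ℝ} (hT : 1 ≤ T) {n : ℕ} (hn : 1 ≤ n) {s : ℂ} (h0 : 0 < s.re)
    (h1 : s.re < 1) :
    HasMellin (fun x => (K.Vn T n x : ℂ)) s ((n : ℂ) ^ (s - 1) * K.vv T s) := by
  refine ⟨K.Vn_conv hT hn h0 h1, ?_⟩
  have hn0 : (0 : ℝ) < n := by exact_mod_cast hn
  have hnc : (n : ℂ) ≠ 0 := by exact_mod_cast hn0.ne'
  have e1 : (fun x => (K.Vn T n x : ℂ))
      = fun x : ℝ => ((n : ℂ)⁻¹) • (fun y => (K.Vn T 1 y : ℂ)) ((n : ℝ)⁻¹ * x) := by
    funext x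
    rw [K.Vn_scale T hn, smul_eq_mul]
    push_cast
    ring
  rw [e1, mellin_const_smul, mellin_comp_mul_left (fun y => (K.Vn T 1 y : ℂ)) s (inv_pos.mpr hn0),
    smul_eq_mul, smul_eq_mul]
  unfold vv
  rw [← mul_assoc]
  congr 1
  have harg : Complex.arg (n : ℂ) ≠ Real.pi := by
    rw [Complex.natCast_arg]
    exact Real.pi_pos.ne
  rw [Complex.cpow_sub _ _ hnc, Complex.cpow_one]
  push_cast
  rw [Complex.inv_cpow _ _ harg, Complex.cpow_neg, inv_inv]
  ring

end Ker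

end Pool.Agent.Lib.MP_f9aece_nt_h97
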