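import Mathlib
import Pool.Agent.Lib.MP_f9aece_nt_h24.DualKernel

/-!
Mellin-Plancherel as an equality, its polarised form, and the finite combinations of the dual
kernels.
-/

set_option autoImplicit false

namespace Pool.Agent.Lib.MP_f9aece_nt_h97

open MeasureTheory Set Filter Topology Complex FourierTransform
open scoped ENNReal ComplexConjugate
open Pool.Agent.Lib.MP_f9aece_nt (DP pair BK K2 K2_nonneg K2_eq_inv_lcm ev ev_apply)

/-- the class of functions for which Mellin-Plancherel on the critical line is available -/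
structure MPc (f : ℝ → ℝ) : Prop where
  i1 : IntegrableOn (fun x => x ^ (-(1 / 2) : ℝ) * f x) (Ioi 0)
  i2 : IntegrableOn (fun x => f x ^ 2) (Ioi 0)

/-- the Mellin transform on the critical line -/
noncomputable def mc (f : ℝ → ℝ) (t : ℝ) : ℂ := mellin (fun x => (f x : ℂ)) (1 / 2 + I * t)

/-- Mellin-Plancherel, as an equality -/
theorem MPc.plancherel {f : ℝ → ℝ} (h : MPc f) :
    IntegrableOn (fun t : ℝ => ‖mc f t‖ ^ 2) (Ioi 0) ∧
    ∫ t in Ioi (0 : ℝ), ‖mc f t‖ ^ 2 = Real.pi * ∫ x in Ioi (0 : ℝ), f x ^ 2 := by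
  obtain ⟨h1, h2⟩ := h
  set g : ℝ → ℝ := fun u => Real.exp (-(1 / 2) * u) * f (Real.exp (-u)) with hg
  have e1 : ∀ u : ℝ, Real.exp (-u) • ((Real.exp (-u)) ^ (-(1 / 2) : ℝ) * f (Real.exp (-u))) = g u := by
    intro u
    rw [smul_eq_mul, ← Real.exp_mul, ← mul_assoc, ← Real.exp_add, hg]
    congr 2
    ring
  have e2 : ∀ u : ℝ, Real.exp (-u) • (f (Real.exp (-u)) ^ 2) = g u ^ 2 := by
    intro u
    rw [smul_eq_mul, hg]
    simp only
    rw [mul_pow, ← Real.exp_nat_mul]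
    congr 2
    push_cast
    ring
  have hgi : Integrable g := by
    have := (integrableOn_exp_iff _).mp h1
    simp_rw [e1] at this
    exact this
  have hg2 : Integrable (fun u => g u ^ 2) := by
    have := (integrableOn_exp_iff _).mp h2
    simp_rw [e2] at this
    exact this
  have hgc : Integrable (fun u => (g u : ℂ)) := hgi.ofReal
  have hgm : MemLp (fun u => (g u : ℂ)) 2 := by
    rw [memLp_two_iff_integrable_sq_norm hgc.aestronglyMeasurable]
    simpa using hg2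
  obtain ⟨hm, hp⟩ := plancherel_integral hgc hgm
  set F : ℝ → ℂ := 𝓕 (fun u => (g u : ℂ)) with hF
  have e3 : ∀ t : ℝ, mc f t = F ((2 * Real.pi)⁻¹ * t) := by
    intro t
    unfold mc
    rw [mellin_eq_fourier]
    have r1 : (1 / 2 + I * t : ℂ).re = 1 / 2 := by simp
    have r2 : (1 / 2 + I * t : ℂ).im = t := by simp
    rw [r1, r2, hF]
    have e4 : (fun u : ℝ => Real.exp (-(1 / 2) * u) • ((f (Real.exp (-u)) : ℝ) : ℂ))
        = fun u => (g u : ℂ) := by
      funext u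
      rw [hg]
      simp only [Complex.real_smul]
      push_cast
      ring
    rw [e4, div_eq_inv_mul]
  have hsq : Integrable (fun v => ‖F v‖ ^ 2) := by
    have := (memLp_two_iff_integrable_sq_norm hm.1).mp hm
    exact this
  have h2pi : (0 : ℝ) < 2 * Real.pi := by positivity
  have hipi : (0 : ℝ) < (2 * Real.pi)⁻¹ := inv_pos.mpr h2pi
  simp_rw [e3]
  constructor
  · refine (integrableOn_Ioi_comp_mul_left_iff (fun v : ℝ => ‖F v‖ ^ 2) 0 hipi).mpr ?_
    exact hsq.integrableOn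
  · have s1 := integral_comp_mul_left_Ioi (fun v => ‖F v‖ ^ 2) 0 hipi
    rw [mul_zero, inv_inv, smul_eq_mul] at s1
    have hsym : ∀ v, ‖F (-v)‖ ^ 2 = ‖F v‖ ^ 2 := by
      intro v
      rw [hF, fourier_conj_neg, RCLike.norm_conj]
    have s3 : ∫ v : ℝ, ‖F v‖ ^ 2 = 2 * ∫ v in Ioi (0 : ℝ), ‖F v‖ ^ 2 := by
      have h5 := integral_comp_abs (f := fun v => ‖F v‖ ^ 2)
      rw [← h5]
      refine integral_congr_ae (Eventually.of_forall fun v => ?_)
      simp only
      rcases abs_cases v with ⟨h, _⟩ | ⟨h, _⟩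
      · rw [h]
      · rw [h, hsym]
    have s4 : ∫ x in Ioi (0 : ℝ), f x ^ 2 = ∫ u, ‖(g u : ℂ)‖ ^ 2 := by
      rw [integral_exp_eq]
      simp_rw [e2]
      refine integral_congr_ae (Eventually.of_forall fun v => ?_)
      simp
    rw [s1, s4, ← hp, s3]
    ring

namespace MPc

variable {f g : ℝ → ℝ}

lemma meas (hf : MPc f) : AEStronglyMeasurable f (volume.restrict (Ioi 0)) := by
  have h1 := hf.i1.1
  have h2 : AEStronglyMeasurable (fun x : ℝ => x ^ (1 / 2 : ℝ)) (volume.restrict (Ioi 0)) := by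
    refine ContinuousOn.aestronglyMeasurable (fun x hx => ?_) measurableSet_Ioi
    exact (Real.continuousAt_rpow_const _ _ (Or.inl (ne_of_gt hx))).continuousWithinAt
  refine (h2.mul h1).congr ?_
  filter_upwards [ae_restrict_mem measurableSet_Ioi] with x hx
  have hx0 : (0 : ℝ) < x := hx
  simp only [Pi.mul_apply]
  rw [← mul_assoc, ← Real.rpow_add hx0]
  norm_num

lemma mul_int (hf : MPc f) (hg : MPc g) : IntegrableOn (fun x => f x * g x) (Ioi 0) := by
  refine Integrable.mono' (hf.i2.add hg.i2) (hf.meas.mul hg.meas) ?_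
  refine Eventually.of_forall fun x => ?_
  rw [Real.norm_eq_abs, abs_mul, Pi.add_apply, ← sq_abs (f x), ← sq_abs (g x)]
  nlinarith [sq_nonneg (|f x| - |g x|), abs_nonneg (f x), abs_nonneg (g x)]

lemma add (hf : MPc f) (hg : MPc g) : MPc (fun x => f x + g x) := by
  refine ⟨?_, ?_⟩
  · refine (hf.i1.add hg.i1).congr_fun (fun x _ => ?_) measurableSet_Ioi
    simp only [Pi.add_apply]
    ring
  · refine ((hf.i2.add hg.i2).add ((hf.mul_int hg).const_mul 2)).congr_fun (fun x _ => ?_)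
      measurableSet_Ioi
    simp only [Pi.add_apply]
    ring

lemma const_mul (hf : MPc f) (c : ℝ) : MPc (fun x => c * f x) := by
  refine ⟨?_, ?_⟩
  · refine IntegrableOn.congr_fun (hf.i1.const_mul c) (fun x _ => ?_) measurableSet_Ioi
    ring
  · refine IntegrableOn.congr_fun (hf.i2.const_mul (c ^ 2)) (fun x _ => ?_) measurableSet_Ioi
    ring

lemma conv (hf : MPc f) (t : ℝ) : MellinConvergent (fun x => (f x : ℂ)) (1 / 2 + I * t) := by
  refine (mellin_convergent_iff_norm (f := fun x => (f x : ℂ)) Subset.rfl measurableSet_Ioi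
    (Complex.continuous_ofReal.comp_aestronglyMeasurable hf.meas)).mpr ?_
  refine IntegrableOn.congr_fun hf.i1.norm (fun x hx => ?_) measurableSet_Ioi
  have hx0 : (0 : ℝ) < x := hx
  have r1 : (1 / 2 + I * t : ℂ).re - 1 = -(1 / 2) := by simp; norm_num
  rw [r1, norm_mul, Complex.norm_real, Real.norm_of_nonneg (by positivity)]

lemma mc_add (hf : MPc f) (hg : MPc g) (t : ℝ) : mc (fun x => f x + g x) t = mc f t + mc g t := by
  unfold mc
  have := (hasMellin_add (hf.conv t) (hg.conv t)).2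
  rw [← this]
  congr 1
  funext x
  push_cast
  rfl

/-- N1.5: cross Plancherel formula -/
theorem cross (hf : MPc f) (hg : MPc g) :
    IntegrableOn (fun t : ℝ => (mc f t * conj (mc g t)).re) (Ioi 0) ∧
    ∫ t in Ioi (0 : ℝ), (mc f t * conj (mc g t)).re = Real.pi * ∫ x in Ioi (0 : ℝ), f x * g x := by
  obtain ⟨a1, a2⟩ := hf.plancherel
  obtain ⟨b1, b2⟩ := hg.plancherel
  obtain ⟨c1, c2⟩ := (hf.add hg).plancherel
  have key : ∀ t : ℝ, (mc f t * conj (mc g t)).re
      = (1 / 2) * (‖mc (fun x => f x + g x) t‖ ^ 2 - ‖mc f t‖ ^ 2 - ‖mc g t‖ ^ 2) := by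
    intro t
    rw [hf.mc_add hg, ← Complex.normSq_eq_norm_sq, ← Complex.normSq_eq_norm_sq,
      ← Complex.normSq_eq_norm_sq, Complex.normSq_add]
    ring
  simp_rw [key]
  have d1 : IntegrableOn (fun t : ℝ => ‖mc (fun x => f x + g x) t‖ ^ 2 - ‖mc f t‖ ^ 2) (Ioi 0) :=
    c1.sub a1
  refine ⟨(d1.sub b1).const_mul _, ?_⟩
  rw [integral_const_mul, integral_sub d1 b1, integral_sub c1 a1, a2, b2, c2]
  have e : (∫ x in Ioi (0 : ℝ), (f x + g x) ^ 2) = (∫ x in Ioi (0 : ℝ), f x ^ 2)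
      + (∫ x in Ioi (0 : ℝ), g x ^ 2) + 2 * ∫ x in Ioi (0 : ℝ), f x * g x := by
    have d2 : IntegrableOn (fun x => f x ^ 2 + g x ^ 2) (Ioi 0) := hf.i2.add hg.i2
    rw [← integral_const_mul, ← integral_add hf.i2 hg.i2,
      ← integral_add d2 ((hf.mul_int hg).const_mul 2)]
    refine integral_congr_ae (Eventually.of_forall fun x => ?_)
    simp only
    ring
  rw [e]
  ring

end MPc

lemma MPc.of_bound {f : ℝ → ℝ} (hf : ContinuousOn f (Ioi 0)) {C : ℝ}
    (h : ∀ x : ℝ, 0 < x → |f x| ≤ C / (1 + x)) : MPc f :=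
  ⟨int1_of_bound hf h, int2_of_bound hf h⟩

lemma conj_natCast_cpow {n : ℕ} (t : ℝ) :
    conj ((n : ℂ) ^ (-(1 / 2 + I * t : ℂ))) = (n : ℂ) ^ ((1 / 2 + I * t : ℂ) - 1) := by
  have harg : Complex.arg (n : ℂ) ≠ Real.pi := by
    rw [Complex.natCast_arg]
    exact Real.pi_pos.ne
  have h := Complex.conj_cpow (n : ℂ) (conj (-(1 / 2 + I * t : ℂ))) harg
  rw [Complex.conj_conj, Complex.conj_natCast] at h
  rw [← h]
  congr 1
  have h2 := Ker.one_sub_half t
  rw [map_neg, ← h2]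
  ring

namespace Ker

variable (K : Ker)

lemma QB_bound {T : ℝ} (hT : 2 * K.L ≤ T) : ∃ C : ℝ, 0 ≤ C ∧ ∀ B : DP,
    (∀ n, B.coeff n ≠ 0 → 1 ≤ n) → ∀ x : ℝ, 0 < x → |QB (K.phi T) B x| ≤ nrm B * C / (1 + x) := by
  obtain ⟨C, hC, h⟩ := (K.phi_bmp hT).RR_bound
  refine ⟨C, hC, fun B hB x hx => ?_⟩
  have h1 := h 0 B (by simp) hB x hx
  have e1 : RR (K.phi T) 0 B x = -QB (K.phi T) B x := by
    unfold RR QQ; simp
  have e2 : nrm (0 : DP) = 0 := by unfold nrm; simp
  rw [e1, abs_neg, e2, zero_add, ← mul_div_assoc] at h1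
  exact h1

lemma QB_MPc {T : ℝ} (hT : 2 * K.L ≤ T) {B : DP} (hB : ∀ n, B.coeff n ≠ 0 → 1 ≤ n) :
    MPc (QB (K.phi T) B) := by
  obtain ⟨C, hC, h⟩ := K.QB_bound hT
  exact MPc.of_bound ((K.phi_bmp hT).QB_cont B).continuousOn (h B hB)

lemma QQ_MPc {T : ℝ} (hT : 2 * K.L ≤ T) {D : DP} (hD : ∀ n, D.coeff n ≠ 0 → 1 ≤ n) :
    MPc (QQ (K.phi T) D) :=
  ⟨K.QQ_int1 hT hD, K.QQ_int2 hT hD⟩

lemma mc_QB {T : ℝ} (hT : 2 * K.L ≤ T) {B : DP} (hB : ∀ n, B.coeff n ≠ 0 → 1 ≤ n) (t : ℝ) :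
    mc (QB (K.phi T) B) t = ev t B * mc (K.phi T) t := by
  have h := (K.phi_bmp hT).hasMellin_dil_sum (F := K.phi T) (s := 1 / 2 + I * t)
    ⟨(K.phi_bmp hT).mellinConv _, rfl⟩ hB
  unfold mc
  rw [ev_apply]
  exact h.2

lemma mc_QQ {T : ℝ} (hT : 2 * K.L ≤ T) {D : DP} (hD : ∀ n, D.coeff n ≠ 0 → 1 ≤ n) {t : ℝ}
    (ht : 0 < t) : mc (QQ (K.phi T) D) t
      = ev t D * (riemannZeta (1 / 2 + I * t) * mc (K.phi T) t) :=
  K.mellin_QQ hT hD ht

lemma Wc_MPc {T : ℝ} (hT : 1 ≤ T) {c : DP} (hc : ∀ n, c.coeff n ≠ 0 → 1 ≤ n) :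
    MPc (K.Wc T c) := by
  obtain ⟨C, hC, h⟩ := K.Wc_bound
  refine MPc.of_bound (C := nrm c * C) (K.Wc_cont (by linarith) c) fun x hx => ?_
  have := h T hT c hc x hx
  rwa [← mul_div_assoc] at this

lemma Wc_hasMellin {T : ℝ} (hT : 1 ≤ T) {c : DP} (hc : ∀ n, c.coeff n ≠ 0 → 1 ≤ n) (t : ℝ) :
    HasMellin (fun x => (K.Wc T c x : ℂ)) (1 / 2 + I * t)
      (conj (ev t c) * K.vv T (1 / 2 + I * t)) := by
  refine ⟨(K.Wc_MPc hT hc).conv t, ?_⟩
  have h1 : ∀ n ∈ c.coeff.support, IntegrableOn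
      (fun x : ℝ => (x : ℂ) ^ ((1 / 2 + I * t : ℂ) - 1) • ((c.coeff n : ℂ) * (K.Vn T n x : ℂ)))
      (Ioi 0) := by
    intro n hn
    have := (K.Vn_hasMellin hT (hc n (Finsupp.mem_support_iff.mp hn))
      (s := 1 / 2 + I * t) (by simp) (by simp; norm_num)).1
    exact this.const_smul (c.coeff n : ℂ)
  unfold mellin Wc
  have h2 : ∀ x : ℝ, (x : ℂ) ^ ((1 / 2 + I * t : ℂ) - 1) •
      ((∑ n ∈ c.coeff.support, c.coeff n * K.Vn T n x : ℝ) : ℂ)
      = ∑ n ∈ c.coeff.support,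
        (x : ℂ) ^ ((1 / 2 + I * t : ℂ) - 1) • ((c.coeff n : ℂ) * (K.Vn T n x : ℂ)) := by
    intro x
    push_cast
    rw [Finset.smul_sum]
  simp_rw [h2]
  rw [integral_finsetSum _ h1, ev_apply, map_sum, Finset.sum_mul]
  refine Finset.sum_congr rfl fun n hn => ?_
  have h3 := (K.Vn_hasMellin hT (hc n (Finsupp.mem_support_iff.mp hn))
      (s := 1 / 2 + I * t) (by simp) (by simp; norm_num)).2
  rw [map_mul, conj_natCast_cpow, Complex.conj_ofReal, mul_assoc, ← h3, mellin,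
    ← integral_const_mul]
  refine integral_congr_ae (Eventually.of_forall fun x => ?_)
  simp only [smul_eq_mul]
  ring

/-- the dual combination -/
noncomputable def VB (T : ℝ) (d c : DP) : ℝ → ℝ := QB (K.Wc T c) d

lemma VB_def (T : ℝ) (d c : DP) (x : ℝ) :
    K.VB T d c x = ∑ h ∈ d.coeff.support, d.coeff h * K.Wc T c (h * x) := rfl

lemma VB_cont {T : ℝ} (hT : 0 < T) {d : DP} (hd : ∀ n, d.coeff n ≠ 0 → 1 ≤ n) (c : DP) :
    ContinuousOn (K.VB T d c) (Ioi 0) := by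
  unfold VB QB
  refine continuousOn_finsetSum _ fun h hh => continuousOn_const.mul ?_
  have h1 : (0 : ℝ) < h := by exact_mod_cast hd h (Finsupp.mem_support_iff.mp hh)
  refine (K.Wc_cont hT c).comp (by fun_prop) fun x hx => ?_
  have hx0 : (0 : ℝ) < x := hx
  exact mul_pos h1 hx0

lemma VB_bound : ∃ C : ℝ, 0 ≤ C ∧ ∀ T : ℝ, 1 ≤ T → ∀ d c : DP, (∀ n, d.coeff n ≠ 0 → 1 ≤ n) →
    (∀ n, c.coeff n ≠ 0 → 1 ≤ n) → ∀ x : ℝ, 0 < x →
    |K.VB T d c x| ≤ nrm d * nrm c * C / (1 + x) := by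
  obtain ⟨C, hC, h⟩ := K.Wc_bound
  refine ⟨C, hC, fun T hT d c hd hc x hx => ?_⟩
  have hnc := nrm_nonneg c
  rw [K.VB_def]
  have e : nrm d * nrm c * C / (1 + x) = ∑ h ∈ d.coeff.support,
      |d.coeff h| * (nrm c * (C / (1 + x))) := by
    rw [← Finset.sum_mul]; unfold nrm; ring
  rw [e]
  refine (Finset.abs_sum_le_sum_abs _ _).trans (Finset.sum_le_sum fun n hn => ?_)
  have h1 : 1 ≤ n := hd n (Finsupp.mem_support_iff.mp hn)
  have h0 : (1 : ℝ) ≤ n := by exact_mod_cast h1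
  rw [abs_mul]
  refine mul_le_mul_of_nonneg_left ?_ (abs_nonneg _)
  refine (h T hT c hc (n * x) (by positivity)).trans ?_
  have : x ≤ n * x := by nlinarith
  gcongr

lemma VB_MPc {T : ℝ} (hT : 1 ≤ T) {d c : DP} (hd : ∀ n, d.coeff n ≠ 0 → 1 ≤ n)
    (hc : ∀ n, c.coeff n ≠ 0 → 1 ≤ n) : MPc (K.VB T d c) := by
  obtain ⟨C, hC, h⟩ := K.VB_bound
  exact MPc.of_bound (K.VB_cont (by linarith) hd c) (h T hT d c hd hc)

/-- N1.6: Mellin transform of the dual combination -/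
lemma mc_VB {T : ℝ} (hT : 2 * K.L ≤ T) {d c : DP} (hd : ∀ n, d.coeff n ≠ 0 → 1 ≤ n)
    (hc : ∀ n, c.coeff n ≠ 0 → 1 ≤ n) (t : ℝ) :
    mc (K.VB T d c) t = ev t d * (conj (ev t c) * K.vv T (1 / 2 + I * t)) := by
  have hL := K.hL
  have h := (K.phi_bmp hT).hasMellin_dil_sum (F := K.Wc T c) (s := 1 / 2 + I * t)
    (K.Wc_hasMellin (by linarith) hc t) hd
  unfold mc
  rw [ev_apply]
  exact h.2

lemma supp_mul {d c : DP} (hd : ∀ n, d.coeff n ≠ 0 → 1 ≤ n) (hc : ∀ n, c.coeff n ≠ 0 → 1 ≤ n) :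
    ∀ n, (d * c).coeff n ≠ 0 → 1 ≤ n := by
  intro n hn
  have h1 := MonoidAlgebra.support_coeff_mul_subset d c (Finsupp.mem_support_iff.mpr hn)
  obtain ⟨a, ha, b, hb, rfl⟩ := Finset.mem_mul.mp h1
  have h2 := hd a (Finsupp.mem_support_iff.mp ha)
  have h3 := hc b (Finsupp.mem_support_iff.mp hb)
  exact Nat.mul_pos h2 h3

/-- the dual combination has the norm of the direct one -/
theorem VB_sq {T : ℝ} (hT : 2 * K.L ≤ T) {d c : DP} (hd : ∀ n, d.coeff n ≠ 0 → 1 ≤ n)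
    (hc : ∀ n, c.coeff n ≠ 0 → 1 ≤ n) :
    ∫ x in Ioi (0 : ℝ), K.VB T d c x ^ 2 = ∫ x in Ioi (0 : ℝ), QB (K.phi T) (d * c) x ^ 2 := by
  have hL := K.hL
  have h1 := (K.VB_MPc (by linarith) hd hc).plancherel.2
  have h2 := (K.QB_MPc hT (supp_mul hd hc)).plancherel.2
  have h3 : ∀ t : ℝ, ‖mc (K.VB T d c) t‖ ^ 2 = ‖mc (QB (K.phi T) (d * c)) t‖ ^ 2 := by
    intro t
    rw [K.mc_VB hT hd hc, K.mc_QB hT (supp_mul hd hc), map_mul, norm_mul, norm_mul, norm_mul,
      norm_mul, RCLike.norm_conj, K.norm_vv hT, mc]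
    ring
  simp_rw [h3] at h1
  rw [h1] at h2
  exact mul_left_cancel₀ Real.pi_pos.ne' h2

/-- the correlation of the Muentz sum with the dual combination is that with the direct one -/
theorem QQ_VB {T : ℝ} (hT : 2 * K.L ≤ T) {a d c : DP} (ha : ∀ n, a.coeff n ≠ 0 → 1 ≤ n)
    (hd : ∀ n, d.coeff n ≠ 0 → 1 ≤ n) (hc : ∀ n, c.coeff n ≠ 0 → 1 ≤ n) :
    ∫ x in Ioi (0 : ℝ), QQ (K.phi T) a x * K.VB T d c x
      = ∫ x in Ioi (0 : ℝ), QQ (K.phi T) d x * QB (K.phi T) (a * c) x := by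
  have hL := K.hL
  have h1 := ((K.QQ_MPc hT ha).cross (K.VB_MPc (by linarith) hd hc)).2
  have h2 := ((K.QQ_MPc hT hd).cross (K.QB_MPc hT (supp_mul ha hc))).2
  have h3 : (∫ t in Ioi (0 : ℝ), (mc (QQ (K.phi T) a) t * conj (mc (K.VB T d c) t)).re)
      = ∫ t in Ioi (0 : ℝ), (mc (QQ (K.phi T) d) t * conj (mc (QB (K.phi T) (a * c)) t)).re := by
    refine setIntegral_congr_fun measurableSet_Ioi fun t ht => ?_
    have ht0 : (0 : ℝ) < t := ht
    have h4 := K.vv_mul_conj_zeta hT t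
    have h5 : conj (K.vv T (1 / 2 + I * t)) * riemannZeta (1 / 2 + I * t)
        = conj (riemannZeta (1 / 2 + I * t)) * conj (mc (K.phi T) t) := by
      have := congrArg conj h4
      rw [map_mul, map_mul, Complex.conj_conj] at this
      exact this
    have h6 : mc (QQ (K.phi T) a) t * conj (mc (K.VB T d c) t)
        = conj (mc (QQ (K.phi T) d) t * conj (mc (QB (K.phi T) (a * c)) t)) := by
      rw [K.mc_QQ hT ha ht0, K.mc_QQ hT hd ht0, K.mc_VB hT hd hc, K.mc_QB hT (supp_mul ha hc),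
        map_mul]
      simp only [map_mul, Complex.conj_conj]
      linear_combination (ev t a * mc (K.phi T) t * conj (ev t d) * ev t c) * h5
    rw [h6, Complex.conj_re]
  rw [h3, h2] at h1
  exact (mul_left_cancel₀ Real.pi_pos.ne' h1).symm

/-- the direct and the dual combination are almost orthogonal -/
theorem cross_small : ∃ C : ℝ, 0 ≤ C ∧ ∀ T : ℝ, 2 * K.L ≤ T → ∀ a d c : DP, ∀ H : ℝ,
    (∀ n, a.coeff n ≠ 0 → 1 ≤ n ∧ (n : ℝ) ≤ H) → (∀ n, d.coeff n ≠ 0 → 1 ≤ n) →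
    (∀ n, c.coeff n ≠ 0 → 1 ≤ n) →
    |∫ x in Ioi (0 : ℝ), QB (K.phi T) a x * K.VB T d c x|
      ≤ C * (H / T ^ 2) * (∑ n ∈ a.coeff.support, |a.coeff n| / n)
        * (∑ n ∈ d.coeff.support, |d.coeff n| / n) * nrm c := by
  obtain ⟨C0, hC0, hW⟩ := K.Wc_bound'
  refine ⟨2 * K.ml * C0, by have := K.ml_nonneg; positivity, fun T hT a d c H ha hd hc => ?_⟩
  have hL := K.hL
  have hT0 : 0 < T := by linarith
  have hml := K.ml_nonneg
  have hnc := nrm_nonneg c
  set Sa := ∑ n ∈ a.coeff.support, |a.coeff n| / n with hSa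
  set Sd := ∑ n ∈ d.coeff.support, |d.coeff n| / n with hSd
  have hSa0 : 0 ≤ Sa := Finset.sum_nonneg fun n _ => by positivity
  have hSd0 : 0 ≤ Sd := Finset.sum_nonneg fun n _ => by positivity
  -- pointwise bound for the dual combination
  have hpt : ∀ x : ℝ, 0 < x → QB (K.phi T) a x ≠ 0 →
      |K.VB T d c x| ≤ Sd * (nrm c * (C0 * (2 * H) / T)) := by
    intro x hx hne
    have hex : ∃ n ∈ a.coeff.support, K.phi T (n * x) ≠ 0 := by
      by_contra hcon
      push Not at hcon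
      refine hne (Finset.sum_eq_zero fun n hn => ?_)
      rw [hcon n hn, mul_zero]
    obtain ⟨m, hm, hm2⟩ := hex
    obtain ⟨hm3, hm4⟩ := ha m (Finsupp.mem_support_iff.mp hm)
    have hm1 : (1 : ℝ) ≤ m := by exact_mod_cast hm3
    have hH : 0 < H := by linarith
    have hx2 := ((K.phi_bmp hT).supp _ hm2).1
    have hx3 : 1 / (2 * H) ≤ x := by
      rw [div_le_iff₀ (by positivity)]
      nlinarith
    rw [K.VB_def, hSd, Finset.sum_mul]
    refine (Finset.abs_sum_le_sum_abs _ _).trans (Finset.sum_le_sum fun n hn => ?_)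
    have hn1 : (1 : ℝ) ≤ n := by exact_mod_cast hd n (Finsupp.mem_support_iff.mp hn)
    have hn0 : (0 : ℝ) < n := by linarith
    rw [abs_mul, div_mul_eq_mul_div, mul_div_assoc]
    refine mul_le_mul_of_nonneg_left ?_ (abs_nonneg _)
    refine (hW T hT0 c hc (n * x) (by positivity)).trans ?_
    rw [mul_div_assoc]
    refine mul_le_mul_of_nonneg_left ?_ hnc
    rw [div_div, div_le_div_iff₀ (by positivity) (by positivity)]
    have h5 : 1 ≤ x * (2 * H) := by
      have := (div_le_iff₀ (by positivity : (0 : ℝ) < 2 * H)).mp hx3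
      linarith
    have h6 : 0 ≤ C0 * (T * n) := by positivity
    nlinarith [mul_le_mul_of_nonneg_left h5 h6]
  -- the L¹ norm of the direct combination
  have hphi_int : ∀ n ∈ a.coeff.support, Integrable (fun x : ℝ => K.phi T (n * x)) := by
    intro n hn
    have hn1 : (1 : ℝ) ≤ n := by exact_mod_cast (ha n (Finsupp.mem_support_iff.mp hn)).1
    exact (K.phi_bmp hT).integrable.comp_mul_left' (by positivity)
  have hL1 : ∫ x in Ioi (0 : ℝ), |QB (K.phi T) a x| ≤ Sa * (K.ml / T) := by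
    have e1 : ∀ x : ℝ, |QB (K.phi T) a x| ≤ ∑ n ∈ a.coeff.support, |a.coeff n| * |K.phi T (n * x)| := by
      intro x
      unfold QB
      refine (Finset.abs_sum_le_sum_abs _ _).trans (Finset.sum_le_sum fun n _ => ?_)
      rw [abs_mul]
    have e2 : Integrable (fun x : ℝ => ∑ n ∈ a.coeff.support, |a.coeff n| * |K.phi T (n * x)|) :=
      integrable_finsetSum _ fun n hn => ((hphi_int n hn).abs).const_mul _
    have e3 : Integrable (fun x : ℝ => |QB (K.phi T) a x|) := by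
      refine Integrable.mono' e2 ((K.phi_bmp hT).QB_cont a).abs.aestronglyMeasurable ?_
      exact Eventually.of_forall fun x => by rw [Real.norm_eq_abs, abs_abs]; exact e1 x
    calc ∫ x in Ioi (0 : ℝ), |QB (K.phi T) a x|
        ≤ ∫ x in Ioi (0 : ℝ), ∑ n ∈ a.coeff.support, |a.coeff n| * |K.phi T (n * x)| :=
          setIntegral_mono e3.integrableOn e2.integrableOn e1
      _ ≤ ∫ x, ∑ n ∈ a.coeff.support, |a.coeff n| * |K.phi T (n * x)| := by
          refine setIntegral_le_integral e2 (Eventually.of_forall fun x => ?_)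
          exact Finset.sum_nonneg fun n _ => by positivity
      _ = ∑ n ∈ a.coeff.support, |a.coeff n| * ∫ x, |K.phi T (n * x)| := by
          rw [integral_finsetSum _ fun n hn => ((hphi_int n hn).abs).const_mul _]
          exact Finset.sum_congr rfl fun n _ => integral_const_mul _ _
      _ = Sa * (K.ml / T) := by
          rw [hSa, Finset.sum_mul]
          refine Finset.sum_congr rfl fun n hn => ?_
          have hn1 : (1 : ℝ) ≤ n := by exact_mod_cast (ha n (Finsupp.mem_support_iff.mp hn)).1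
          have hn0 : (0 : ℝ) < n := by linarith
          rw [Measure.integral_comp_mul_left (fun x => |K.phi T x|) (n : ℝ), smul_eq_mul,
            K.integral_abs_phi hT0, abs_of_pos (inv_pos.mpr hn0)]
          field_simp
  have hA := K.QB_MPc hT (B := a) (fun n hn => (ha n hn).1)
  have hB := K.VB_MPc (T := T) (by linarith) hd hc
  have hQi : IntegrableOn (fun x : ℝ => |QB (K.phi T) a x|) (Ioi 0) := by
    have e2 : Integrable (fun x : ℝ => ∑ n ∈ a.coeff.support, a.coeff n * K.phi T (n * x)) :=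
      integrable_finsetSum _ fun n hn => (hphi_int n hn).const_mul _
    exact e2.abs.integrableOn
  calc |∫ x in Ioi (0 : ℝ), QB (K.phi T) a x * K.VB T d c x|
      ≤ ∫ x in Ioi (0 : ℝ), |QB (K.phi T) a x * K.VB T d c x| := abs_integral_le_integral_abs
    _ ≤ ∫ x in Ioi (0 : ℝ), |QB (K.phi T) a x| * (Sd * (nrm c * (C0 * (2 * H) / T))) := by
        refine setIntegral_mono_on (hA.mul_int hB).abs (hQi.mul_const _) measurableSet_Ioi ?_
        intro x hx
        have hx0 : (0 : ℝ) < x := hx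
        rw [abs_mul]
        by_cases hne : QB (K.phi T) a x = 0
        · rw [hne, abs_zero, zero_mul, zero_mul]
        · exact mul_le_mul_of_nonneg_left (hpt x hx0 hne) (abs_nonneg _)
    _ = (∫ x in Ioi (0 : ℝ), |QB (K.phi T) a x|) * (Sd * (nrm c * (C0 * (2 * H) / T))) := by
        rw [integral_mul_const]
    _ ≤ (Sa * (K.ml / T)) * (Sd * (nrm c * (C0 * (2 * H) / T))) := by
        rcases a.coeff.support.eq_empty_or_nonempty with he | ⟨m, hm⟩
        · have h7 : ∀ x : ℝ, QB (K.phi T) a x = 0 := by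
            intro x; unfold QB; rw [he]; simp
          have h8 : Sa = 0 := by rw [hSa, he]; simp
          simp [h7, h8]
        · obtain ⟨hm3, hm4⟩ := ha m (Finsupp.mem_support_iff.mp hm)
          have hm1 : (1 : ℝ) ≤ m := by exact_mod_cast hm3
          have hH : 0 < H := by linarith
          exact mul_le_mul_of_nonneg_right hL1 (by positivity)
    _ = 2 * K.ml * C0 * (H / T ^ 2) * Sa * Sd * nrm c := by
        field_simp

end Ker

end Pool.Agent.Lib.MP_f9aece_nt_h97
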