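import Mathlib
import Pool.Agent.Lib.MP_f9aece_nt_h24.CrossP
import Pool.Agent.Lib.MP_f9aece_nt_h97.OffDefs

/-!
Correlations of the direct sums: the energy of a finite sum of bumps and its correlation with the
Muentz sum.
-/

set_option autoImplicit false

namespace Pool.Agent.Lib.MP_f9aece_nt_h97

open MeasureTheory Set Filter Topology Complex
open Pool.Agent.Lib.MP_f9aece_nt (DP pair BK K1 K2 K2_nonneg K2_eq_inv_lcm ev ev_apply pair_def
  BK_K1_eq)

/-- bumps at different integers are disjoint -/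
lemma bump_mul_zero {φ : ℝ → ℝ} {ε : ℝ} (hε : ∀ y, φ y ≠ 0 → |y - 1| ≤ ε) {x0 x : ℝ}
    (hx0 : 0 < x0) (hx : x0 ≤ x) (hεx : 2 * ε < x0) {i j : ℕ} (hij : i ≠ j) :
    φ (i * x) * φ (j * x) = 0 := by
  by_contra hcon
  have h1 : φ (i * x) ≠ 0 := by
    intro h; apply hcon; rw [h]; ring
  have h2 : φ (j * x) ≠ 0 := by
    intro h; apply hcon; rw [h]; ring
  have h3 := hε _ h1
  have h4 := hε _ h2
  have h5 : |(i : ℝ) * x - j * x| ≤ 2 * ε := by
    have e : (i : ℝ) * x - j * x = (i * x - 1) - (j * x - 1) := by ring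
    rw [e]
    exact (abs_sub _ _).trans (by linarith)
  rw [← sub_mul, abs_mul, abs_of_pos (lt_of_lt_of_le hx0 hx)] at h5
  have h6 : (1 : ℝ) ≤ |(i : ℝ) - j| := by
    have : (1 : ℤ) ≤ |(i : ℤ) - j| := Int.one_le_abs (sub_ne_zero.mpr (by exact_mod_cast hij))
    exact_mod_cast this
  nlinarith [lt_of_lt_of_le hx0 hx]

namespace Ker

variable (K : Ker)

lemma x_ge {T : ℝ} (hT : 2 * K.L ≤ T) {H x : ℝ} {m : ℕ} (hm : 1 ≤ m) (hmH : (m : ℝ) ≤ H)
    (hx : 0 < x) (hne : K.phi T (m * x) ≠ 0) : 1 / (2 * H) ≤ x := by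
  have hm1 : (1 : ℝ) ≤ m := by exact_mod_cast hm
  have hx2 := ((K.phi_bmp hT).supp _ hne).1
  have hH : 0 < H := by linarith
  rw [div_le_iff₀ (by positivity)]
  nlinarith

/-- product of two finite sums of bumps -/
lemma QB_mul {T H : ℝ} (hT : 2 * K.L ≤ T) (hH : 4 * K.L * H < T) {f g : DP}
    (hf : ∀ n, f.coeff n ≠ 0 → 1 ≤ n ∧ (n : ℝ) ≤ H) {x : ℝ} (hx : 0 < x) :
    QB (K.phi T) f x * QB (K.phi T) g x
      = ∑ n ∈ f.coeff.support, f.coeff n * g.coeff n * K.phi T (n * x) ^ 2 := by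
  have hL := K.hL
  have hT0 : 0 < T := by linarith
  unfold QB
  rw [Finset.sum_mul]
  refine Finset.sum_congr rfl fun n hn => ?_
  obtain ⟨hn1, hnH⟩ := hf n (Finsupp.mem_support_iff.mp hn)
  by_cases hz : K.phi T (n * x) = 0
  · rw [hz]; ring
  · have hx0 := K.x_ge hT hn1 hnH hx hz
    have hn0 : (1 : ℝ) ≤ n := by exact_mod_cast hn1
    have hH0 : 0 < H := by linarith
    have hεx : 2 * (K.L / T) < 1 / (2 * H) := by
      rw [lt_div_iff₀ (by positivity)]
      have : 2 * (K.L / T) * (2 * H) = 4 * K.L * H / T := by ring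
      rw [this, div_lt_one hT0]
      exact hH
    rw [Finset.mul_sum]
    have key : ∀ m ∈ g.coeff.support, m ≠ n →
        f.coeff n * K.phi T (n * x) * (g.coeff m * K.phi T (m * x)) = 0 := by
      intro m _ hmn
      have := bump_mul_zero (φ := K.phi T) (fun y hy => K.phi_supp hT0 hy) (by positivity) hx0
        hεx hmn.symm
      calc f.coeff n * K.phi T (n * x) * (g.coeff m * K.phi T (m * x))
          = f.coeff n * g.coeff m * (K.phi T (n * x) * K.phi T (m * x)) := by ring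
        _ = 0 := by rw [this, mul_zero]
    by_cases hng : n ∈ g.coeff.support
    · rw [Finset.sum_eq_single n key (fun h => absurd hng h)]
      ring
    · rw [Finset.sum_eq_zero (fun m hm => key m hm (fun h => hng (h ▸ hm))),
        Finsupp.notMem_support_iff.mp hng]
      ring

lemma phi_sq_comp {T : ℝ} (hT : 2 * K.L ≤ T) {n : ℕ} (hn : 1 ≤ n) :
    IntegrableOn (fun x : ℝ => K.phi T (n * x) ^ 2) (Ioi 0) ∧
    ∫ x in Ioi (0 : ℝ), K.phi T (n * x) ^ 2 = (n : ℝ)⁻¹ * (K.m2 / T) := by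
  have hL := K.hL
  have hT0 : 0 < T := by linarith
  have hn0 : (0 : ℝ) < n := by exact_mod_cast hn
  constructor
  · exact ((K.phi_bmp hT).sq_integrable.comp_mul_left' hn0.ne').integrableOn
  · have h1 := integral_comp_mul_left_Ioi (fun x => K.phi T x ^ 2) 0 hn0
    rw [mul_zero, smul_eq_mul] at h1
    rw [h1]
    congr 1
    rw [setIntegral_eq_integral_of_forall_compl_eq_zero, K.integral_phi_sq hT0]
    · ring
    · intro y hy
      rw [K.phi_pos_supp hT hy]; norm_num

/-- (a) the energy of finite sums of bumps -/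
theorem QB_energy {T H : ℝ} (hT : 2 * K.L ≤ T) (hH : 4 * K.L * H < T) {f g : DP}
    (hf : ∀ n, f.coeff n ≠ 0 → 1 ≤ n ∧ (n : ℝ) ≤ H) :
    ∫ x in Ioi (0 : ℝ), QB (K.phi T) f x * QB (K.phi T) g x = K.m2 / T * BK K1 f g := by
  rw [setIntegral_congr_fun measurableSet_Ioi fun x hx => K.QB_mul hT hH hf hx,
    integral_finsetSum _ fun n hn =>
      ((K.phi_sq_comp hT (hf n (Finsupp.mem_support_iff.mp hn)).1).1).const_mul _,
    BK_K1_eq, pair_def, Finset.mul_sum]
  refine Finset.sum_congr rfl fun n hn => ?_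
  rw [integral_const_mul, (K.phi_sq_comp hT (hf n (Finsupp.mem_support_iff.mp hn)).1).2]
  ring

theorem QB_energy_sq {T H : ℝ} (hT : 2 * K.L ≤ T) (hH : 4 * K.L * H < T) {f : DP}
    (hf : ∀ n, f.coeff n ≠ 0 → 1 ≤ n ∧ (n : ℝ) ≤ H) :
    ∫ x in Ioi (0 : ℝ), QB (K.phi T) f x ^ 2 = K.m2 / T * BK K1 f f := by
  rw [← K.QB_energy hT hH hf]
  refine integral_congr_ae (Eventually.of_forall fun x => ?_)
  simp only
  ring

/-- the form with the divisor kernel -/
lemma BK_Kcs_eq (a f : DP) : BK (Kcs 1) a f = ∑ n ∈ f.coeff.support, bb a n * f.coeff n * (n : ℝ)⁻¹ := by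
  rw [BK, pair_def]
  simp only [pair_def, Finset.mul_sum]
  rw [Finset.sum_comm]
  refine Finset.sum_congr rfl fun n _ => ?_
  unfold bb
  rw [Finset.sum_mul, Finset.sum_mul]
  refine Finset.sum_congr rfl fun h _ => ?_
  unfold Kcs
  rw [Real.rpow_neg_one]
  split_ifs <;> ring

/-- product of the direct sum with a finite sum of bumps -/
lemma q1_mul {T H : ℝ} (hT : 2 * K.L ≤ T) (hH : 4 * K.L * H < T) {a f : DP}
    (ha : ∀ n, a.coeff n ≠ 0 → 1 ≤ n)
    (hf : ∀ n, f.coeff n ≠ 0 → 1 ≤ n ∧ (n : ℝ) ≤ H) {x : ℝ} (hx : 0 < x) :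
    q1 (K.phi T) a x * QB (K.phi T) f x
      = ∑ n ∈ f.coeff.support, bb a n * f.coeff n * K.phi T (n * x) ^ 2 := by
  have hL := K.hL
  have hT0 : 0 < T := by linarith
  rw [mul_comm]
  unfold QB
  rw [Finset.sum_mul]
  refine Finset.sum_congr rfl fun n hn => ?_
  obtain ⟨hn1, hnH⟩ := hf n (Finsupp.mem_support_iff.mp hn)
  by_cases hz : K.phi T (n * x) = 0
  · rw [hz]; ring
  · have hx0 := K.x_ge hT hn1 hnH hx hz
    have hn0 : (1 : ℝ) ≤ n := by exact_mod_cast hn1
    have hH0 : 0 < H := by linarith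
    have hεx : 2 * (K.L / T) < 1 / (2 * H) := by
      rw [lt_div_iff₀ (by positivity)]
      have : 2 * (K.L / T) * (2 * H) = 4 * K.L * H / T := by ring
      rw [this, div_lt_one hT0]
      exact hH
    obtain ⟨N, hN⟩ := exists_nat_gt (4 * H)
    have hN2 : 2 < (N : ℝ) * (1 / (2 * H)) := by
      rw [mul_one_div, lt_div_iff₀ (by positivity)]
      linarith
    rw [(K.phi_bmp hT).q1_eq ha (by positivity) hx0 hN2, Finset.mul_sum]
    have key : ∀ m ∈ Finset.Icc 1 N, m ≠ n →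
        f.coeff n * K.phi T (n * x) * (bb a m * K.phi T (m * x)) = 0 := by
      intro m _ hmn
      have := bump_mul_zero (φ := K.phi T) (fun y hy => K.phi_supp hT0 hy) (by positivity) hx0
        hεx hmn.symm
      calc f.coeff n * K.phi T (n * x) * (bb a m * K.phi T (m * x))
          = f.coeff n * bb a m * (K.phi T (n * x) * K.phi T (m * x)) := by ring
        _ = 0 := by rw [this, mul_zero]
    have hnN : n ∈ Finset.Icc 1 N := by
      rw [Finset.mem_Icc]
      refine ⟨hn1, ?_⟩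
      have : (n : ℝ) ≤ N := by linarith
      exact_mod_cast this
    rw [Finset.sum_eq_single n key (fun h => absurd hnN h)]
    ring

lemma inv_QB {T : ℝ} (hT : 2 * K.L ≤ T) {f : DP} (hf : ∀ n, f.coeff n ≠ 0 → 1 ≤ n) :
    IntegrableOn (fun x : ℝ => x⁻¹ * QB (K.phi T) f x) (Ioi 0) ∧
    |∫ x in Ioi (0 : ℝ), x⁻¹ * QB (K.phi T) f x| ≤ nrm f * (2 * (K.ml / T)) := by
  have hL := K.hL
  have hT0 : 0 < T := by linarith
  have hml := K.ml_nonneg
  have hbase : ∀ n : ℕ, 1 ≤ n → IntegrableOn (fun x : ℝ => x⁻¹ * K.phi T (n * x)) (Ioi 0) ∧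
      |∫ x in Ioi (0 : ℝ), x⁻¹ * K.phi T (n * x)| ≤ 2 * (K.ml / T) := by
    intro n hn
    have hn0 : (0 : ℝ) < n := by exact_mod_cast hn
    have hb : ∀ y : ℝ, ‖y⁻¹ * K.phi T y‖ ≤ 2 * |K.phi T y| := by
      intro y
      rw [norm_mul, Real.norm_eq_abs, Real.norm_eq_abs]
      by_cases h : K.phi T y = 0
      · rw [h]; simp
      · have h2 := ((K.phi_bmp hT).supp y h).1
        refine mul_le_mul_of_nonneg_right ?_ (abs_nonneg _)
        rw [abs_inv, abs_of_pos (by linarith), inv_le_comm₀ (by linarith) (by norm_num)]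
        linarith
    have hmeas : Measurable (fun y : ℝ => y⁻¹ * K.phi T y) :=
      measurable_inv.mul (K.phi_bmp hT).cont.measurable
    have hi0 : Integrable (fun y : ℝ => y⁻¹ * K.phi T y) :=
      Integrable.mono' (((K.phi_bmp hT).integrable.abs).const_mul 2) hmeas.aestronglyMeasurable
        (Eventually.of_forall hb)
    have hcongr : EqOn (fun x : ℝ => x⁻¹ * K.phi T (n * x))
        (fun x : ℝ => n * ((n * x)⁻¹ * K.phi T (n * x))) (Ioi 0) := by
      intro x hx
      have hx0 : (0 : ℝ) < x := hx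
      simp only
      field_simp
    constructor
    · refine IntegrableOn.congr_fun ?_ hcongr.symm measurableSet_Ioi
      exact ((hi0.comp_mul_left' hn0.ne').const_mul _).integrableOn
    · rw [setIntegral_congr_fun measurableSet_Ioi hcongr, integral_const_mul,
        integral_comp_mul_left_Ioi (fun y : ℝ => y⁻¹ * K.phi T y) 0 hn0, mul_zero, smul_eq_mul,
        ← mul_assoc, mul_inv_cancel₀ hn0.ne', one_mul]
      have h1 := norm_integral_le_of_norm_le (μ := volume.restrict (Ioi (0 : ℝ)))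
        (((K.phi_bmp hT).integrable.abs.const_mul 2).integrableOn (s := Ioi 0))
        (Eventually.of_forall hb)
      rw [Real.norm_eq_abs] at h1
      refine h1.trans ?_
      rw [integral_const_mul]
      refine mul_le_mul_of_nonneg_left ?_ (by norm_num)
      have h2 := setIntegral_le_integral (μ := volume) (s := Ioi (0 : ℝ))
        (K.phi_bmp hT).integrable.abs (Eventually.of_forall fun y => abs_nonneg _)
      refine h2.trans (le_of_eq ?_)
      rw [K.integral_abs_phi hT0]; ring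
  have hcongr : (fun x : ℝ => x⁻¹ * QB (K.phi T) f x)
      = fun x : ℝ => ∑ n ∈ f.coeff.support, f.coeff n * (x⁻¹ * K.phi T (n * x)) := by
    funext x
    unfold QB
    rw [Finset.mul_sum]
    exact Finset.sum_congr rfl fun n _ => by ring
  rw [hcongr]
  constructor
  · exact integrable_finsetSum _ fun n hn =>
      ((hbase n (hf n (Finsupp.mem_support_iff.mp hn))).1).const_mul _
  · rw [integral_finsetSum _ fun n hn =>
      ((hbase n (hf n (Finsupp.mem_support_iff.mp hn))).1).const_mul _]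
    unfold nrm
    rw [Finset.sum_mul]
    refine (Finset.abs_sum_le_sum_abs _ _).trans (Finset.sum_le_sum fun n hn => ?_)
    rw [integral_const_mul, abs_mul]
    exact mul_le_mul_of_nonneg_left (hbase n (hf n (Finsupp.mem_support_iff.mp hn))).2
      (abs_nonneg _)

/-- (b) correlation of the Muentz sum with a finite sum of bumps -/
theorem QQ_QB {T H : ℝ} (hT : 2 * K.L ≤ T) (hH : 4 * K.L * H < T) {a f : DP}
    (ha : ∀ n, a.coeff n ≠ 0 → 1 ≤ n)
    (hf : ∀ n, f.coeff n ≠ 0 → 1 ≤ n ∧ (n : ℝ) ≤ H) :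
    |(∫ x in Ioi (0 : ℝ), QQ (K.phi T) a x * QB (K.phi T) f x) - K.m2 / T * BK (Kcs 1) a f|
      ≤ 2 * K.ml ^ 2 / T ^ 2 * |c0 a| * nrm f := by
  have hL := K.hL
  have hT0 : 0 < T := by linarith
  have hf1 : ∀ n, f.coeff n ≠ 0 → 1 ≤ n := fun n hn => (hf n hn).1
  obtain ⟨hi, hb⟩ := K.inv_QB hT hf1
  have hq : IntegrableOn (fun x : ℝ => ∑ n ∈ f.coeff.support,
      bb a n * f.coeff n * K.phi T (n * x) ^ 2) (Ioi 0) :=
    integrable_finsetSum _ fun n hn =>
      ((K.phi_sq_comp hT (hf n (Finsupp.mem_support_iff.mp hn)).1).1).const_mul _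
  have hcongr : EqOn (fun x => QQ (K.phi T) a x * QB (K.phi T) f x)
      (fun x => (∑ n ∈ f.coeff.support, bb a n * f.coeff n * K.phi T (n * x) ^ 2)
        - (c0 a * ∫ u, K.phi T u) * (x⁻¹ * QB (K.phi T) f x)) (Ioi 0) := by
    intro x hx
    simp only
    rw [QQ_eq ha hx, sub_mul, K.q1_mul hT hH ha hf hx]
    ring
  have h1 : (∫ x in Ioi (0 : ℝ), ∑ n ∈ f.coeff.support, bb a n * f.coeff n * K.phi T (n * x) ^ 2)
      = K.m2 / T * BK (Kcs 1) a f := by
    rw [integral_finsetSum _ fun n hn =>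
      ((K.phi_sq_comp hT (hf n (Finsupp.mem_support_iff.mp hn)).1).1).const_mul _, BK_Kcs_eq,
      Finset.mul_sum]
    refine Finset.sum_congr rfl fun n hn => ?_
    rw [integral_const_mul, (K.phi_sq_comp hT (hf n (Finsupp.mem_support_iff.mp hn)).1).2]
    ring
  rw [setIntegral_congr_fun measurableSet_Ioi hcongr, integral_sub hq (hi.const_mul _), h1,
    integral_const_mul, sub_sub_cancel_left, abs_neg, abs_mul, abs_mul, K.integral_phi hT0]
  have hm1 := K.abs_m1_le
  have hml := K.ml_nonneg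
  have hn := nrm_nonneg f
  rw [abs_mul, abs_of_pos (inv_pos.mpr hT0)]
  calc |c0 a| * (T⁻¹ * |K.m1|) * |∫ x in Ioi (0 : ℝ), x⁻¹ * QB (K.phi T) f x|
      ≤ |c0 a| * (T⁻¹ * K.ml) * (nrm f * (2 * (K.ml / T))) := by gcongr
    _ = 2 * K.ml ^ 2 / T ^ 2 * |c0 a| * nrm f := by
        field_simp

end Ker

end Pool.Agent.Lib.MP_f9aece_nt_h97
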