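import Mathlib
import Pool.Agent.Lib.MP_f9aece_nt_h24.DirectCorr
import Pool.Agent.Lib.MP_f9aece_nt_h85.Tail
import Pool.Agent.Lib.MP_f9aece_nt_h22.LongEnergy

/-!
Lower bound for the mollified second moment on a set of good points: duality with the test
function `N D + χ conj(N) D`.
-/

set_option autoImplicit false

namespace Pool.Agent.Lib.MP_f9aece_nt_h97

open MeasureTheory Set Filter Topology Complex
open scoped ComplexConjugate
open Pool.Agent.Lib.MP_f9aece_nt (DP pair BK K1 K2 K2_nonneg K2_eq_inv_lcm ev ev_apply pair_def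
  BK_K1_eq)

lemma tf_num1 {ml T F lg H u v : ℝ} (hT : 0 < T) (hF : 1 ≤ F) (hlg : 1 ≤ lg) (hH : 1 ≤ H)
    (hu : u ≤ F * lg) (hv0 : 0 ≤ v) (hv : v ≤ F * H) :
    2 * (2 * ml ^ 2 / T ^ 2 * u * v) ≤ 4 * ml ^ 2 * (F ^ 3 * H ^ 2 * lg ^ 2 / T ^ 2) := by
  have h1 : u * v ≤ (F * lg) * (F * H) := mul_le_mul hu hv hv0 (by positivity)
  have h2 : (F * lg) * (F * H) ≤ F ^ 3 * H ^ 2 * lg ^ 2 := by
    have e1 : (1 : ℝ) ≤ F * H * lg :=
      one_le_mul_of_one_le_of_one_le (one_le_mul_of_one_le_of_one_le hF hH) hlg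
    have e2 : 0 ≤ (F * lg) * (F * H) := by positivity
    calc (F * lg) * (F * H) ≤ (F * lg) * (F * H) * (F * H * lg) := le_mul_of_one_le_right e2 e1
      _ = F ^ 3 * H ^ 2 * lg ^ 2 := by ring
  have h3 : 0 ≤ 4 * ml ^ 2 / T ^ 2 := by positivity
  calc 2 * (2 * ml ^ 2 / T ^ 2 * u * v) = 4 * ml ^ 2 / T ^ 2 * (u * v) := by ring
    _ ≤ 4 * ml ^ 2 / T ^ 2 * (F ^ 3 * H ^ 2 * lg ^ 2) :=
        mul_le_mul_of_nonneg_left (h1.trans h2) h3
    _ = 4 * ml ^ 2 * (F ^ 3 * H ^ 2 * lg ^ 2 / T ^ 2) := by ring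

lemma tf_num2 {C0 T F lg H x y z : ℝ} (hC0 : 0 ≤ C0) (hF : 0 ≤ F) (hlg : 0 ≤ lg) (hH : 0 ≤ H)
    (hx : x ≤ F * lg) (hy0 : 0 ≤ y) (hy : y ≤ F * lg) (hz0 : 0 ≤ z) (hz : z ≤ F * H) :
    C0 * (H / T ^ 2) * x * y * z ≤ C0 * (F ^ 3 * H ^ 2 * lg ^ 2 / T ^ 2) := by
  have h1 : x * y * z ≤ (F * lg) * (F * lg) * (F * H) :=
    mul_le_mul (mul_le_mul hx hy hy0 (by positivity)) hz hz0 (by positivity)
  have h3 : 0 ≤ C0 * (H / T ^ 2) := by positivity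
  calc C0 * (H / T ^ 2) * x * y * z = C0 * (H / T ^ 2) * (x * y * z) := by ring
    _ ≤ C0 * (H / T ^ 2) * ((F * lg) * (F * lg) * (F * H)) := mul_le_mul_of_nonneg_left h1 h3
    _ = C0 * (F ^ 3 * H ^ 2 * lg ^ 2 / T ^ 2) := by ring

/-- Cauchy-Schwarz for nonnegative functions with integrable squares -/
lemma cs_real {S : Set ℝ} {u v : ℝ → ℝ} (hu0 : ∀ t, 0 ≤ u t) (hv0 : ∀ t, 0 ≤ v t)
    (hu : IntegrableOn (fun t => u t ^ 2) S) (hv : IntegrableOn (fun t => v t ^ 2) S) :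
    IntegrableOn (fun t => u t * v t) S ∧
    ∫ t in S, u t * v t ≤ Real.sqrt (∫ t in S, u t ^ 2) * Real.sqrt (∫ t in S, v t ^ 2) := by
  have hum : AEStronglyMeasurable u (volume.restrict S) := by
    have := (Real.continuous_sqrt.comp_aestronglyMeasurable hu.1)
    refine this.congr (Eventually.of_forall fun t => ?_)
    simp only
    rw [Real.sqrt_sq (hu0 t)]
  have hvm : AEStronglyMeasurable v (volume.restrict S) := by
    have := (Real.continuous_sqrt.comp_aestronglyMeasurable hv.1)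
    refine this.congr (Eventually.of_forall fun t => ?_)
    simp only
    rw [Real.sqrt_sq (hv0 t)]
  have hu2 : MemLp u (ENNReal.ofReal 2) (volume.restrict S) := by
    have : ENNReal.ofReal 2 = 2 := by norm_num
    rw [this]
    exact (memLp_two_iff_integrable_sq hum).mpr hu
  have hv2 : MemLp v (ENNReal.ofReal 2) (volume.restrict S) := by
    have : ENNReal.ofReal 2 = 2 := by norm_num
    rw [this]
    exact (memLp_two_iff_integrable_sq hvm).mpr hv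
  constructor
  · refine Integrable.mono' (hu.add hv) (hum.mul hvm) (Eventually.of_forall fun t => ?_)
    rw [Real.norm_eq_abs, abs_of_nonneg (mul_nonneg (hu0 t) (hv0 t)), Pi.add_apply]
    nlinarith [sq_nonneg (u t - v t), hu0 t, hv0 t]
  · have h := integral_mul_le_Lp_mul_Lq_of_nonneg (μ := volume.restrict S)
      (Real.HolderConjugate.two_two) (Eventually.of_forall hu0) (Eventually.of_forall hv0) hu2 hv2
    refine h.trans (le_of_eq ?_)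
    rw [Real.sqrt_eq_rpow, Real.sqrt_eq_rpow]
    simp only [Real.rpow_two]

namespace Ker

variable (K : Ker)

open Pool.Agent.Lib.MP_f9aece_nt_h85 (wgt tail)
open Pool.Agent.Lib.MP_f9aece_nt_h22 (w1)


/-- the size of the Mellin transform of the test function -/
lemma norm_test {T : ℝ} (hT : 2 * K.L ≤ T) {a c : DP} (ha : ∀ n, a.coeff n ≠ 0 → 1 ≤ n)
    (hc : ∀ n, c.coeff n ≠ 0 → 1 ≤ n) (t : ℝ) :
    ‖mc (fun x => QB (K.phi T) (a * c) x + K.VB T a c x) t‖ ≤ 2 * (‖ev t (a * c)‖ * wgt K T t) := by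
  have hL := K.hL
  rw [(K.QB_MPc hT (supp_mul ha hc)).mc_add (K.VB_MPc (by linarith) ha hc)]
  refine (norm_add_le _ _).trans (le_of_eq ?_)
  rw [K.mc_QB hT (supp_mul ha hc), K.mc_VB hT ha hc, norm_mul, norm_mul, norm_mul,
    RCLike.norm_conj, K.norm_vv hT, map_mul, norm_mul]
  unfold wgt mc
  ring

/-- the correlation of `zeta a` with the test function -/
lemma corr_test {T H : ℝ} (hT : 2 * K.L ≤ T) (hH : 4 * K.L * H < T) {a c : DP}
    (ha : ∀ n, a.coeff n ≠ 0 → 1 ≤ n) (hc : ∀ n, c.coeff n ≠ 0 → 1 ≤ n)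
    (hac : ∀ n, (a * c).coeff n ≠ 0 → 1 ≤ n ∧ (n : ℝ) ≤ H) :
    2 * (K.m2 / T * BK (Kcs 1) a (a * c)) - 2 * (2 * K.ml ^ 2 / T ^ 2 * |c0 a| * nrm (a * c))
      ≤ ∫ x in Ioi (0 : ℝ), QQ (K.phi T) a x * (QB (K.phi T) (a * c) x + K.VB T a c x) := by
  have hL := K.hL
  have h1 := K.QQ_QB hT hH ha hac
  have h2 := K.QQ_VB hT ha ha hc
  have hac1 : ∀ n, (a * c).coeff n ≠ 0 → 1 ≤ n := fun n hn => (hac n hn).1
  have i1 := (K.QQ_MPc hT ha).mul_int (K.QB_MPc hT hac1)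
  have i2 := (K.QQ_MPc hT ha).mul_int (K.VB_MPc (T := T) (by linarith) ha hc)
  have e : ∫ x in Ioi (0 : ℝ), QQ (K.phi T) a x * (QB (K.phi T) (a * c) x + K.VB T a c x)
      = (∫ x in Ioi (0 : ℝ), QQ (K.phi T) a x * QB (K.phi T) (a * c) x)
        + ∫ x in Ioi (0 : ℝ), QQ (K.phi T) a x * K.VB T a c x := by
    rw [← integral_add i1 i2]
    refine integral_congr_ae (Eventually.of_forall fun x => ?_)
    simp only
    ring
  rw [e, h2]
  have := (abs_le.mp h1).1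
  linarith

/-- the energy of the test function -/
lemma energy_test : ∃ C : ℝ, 0 ≤ C ∧ ∀ T H : ℝ, 2 * K.L ≤ T → 4 * K.L * H < T → ∀ a c : DP,
    (∀ n, a.coeff n ≠ 0 → 1 ≤ n) → (∀ n, c.coeff n ≠ 0 → 1 ≤ n) →
    (∀ n, (a * c).coeff n ≠ 0 → 1 ≤ n ∧ (n : ℝ) ≤ H) →
    ∫ x in Ioi (0 : ℝ), (QB (K.phi T) (a * c) x + K.VB T a c x) ^ 2
      ≤ 2 * (K.m2 / T * BK K1 (a * c) (a * c)) + C * (H / T ^ 2) * w1 (a * c) * w1 a * nrm c := by
  obtain ⟨C, hC, h⟩ := K.cross_small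
  refine ⟨2 * C, by positivity, fun T H hT hH a c ha hc hac => ?_⟩
  have hL := K.hL
  have hac1 : ∀ n, (a * c).coeff n ≠ 0 → 1 ≤ n := fun n hn => (hac n hn).1
  have m1 := K.QB_MPc hT hac1
  have m2 := K.VB_MPc (T := T) (by linarith) ha hc
  have e : ∫ x in Ioi (0 : ℝ), (QB (K.phi T) (a * c) x + K.VB T a c x) ^ 2
      = (∫ x in Ioi (0 : ℝ), QB (K.phi T) (a * c) x ^ 2)
        + 2 * (∫ x in Ioi (0 : ℝ), QB (K.phi T) (a * c) x * K.VB T a c x)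
        + ∫ x in Ioi (0 : ℝ), K.VB T a c x ^ 2 := by
    have h1 : IntegrableOn (fun x : ℝ => QB (K.phi T) (a * c) x ^ 2
        + 2 * (QB (K.phi T) (a * c) x * K.VB T a c x)) (Ioi 0) :=
      m1.i2.add ((m1.mul_int m2).const_mul 2)
    rw [← integral_const_mul, ← integral_add m1.i2 ((m1.mul_int m2).const_mul 2),
      ← integral_add h1 m2.i2]
    refine integral_congr_ae (Eventually.of_forall fun x => ?_)
    simp only
    ring
  rw [e, K.VB_sq hT ha hc, K.QB_energy_sq hT hH hac]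
  have h1 := (abs_le.mp (h T hT (a * c) a c H hac ha hc)).2
  have e1 : ∀ D : DP, (∑ n ∈ D.coeff.support, |D.coeff n| / n) = w1 D := by
    intro D
    unfold w1
    refine Finset.sum_congr rfl fun n _ => ?_
    rw [div_eq_mul_inv]
  rw [e1, e1] at h1
  linarith

/-- N6: duality with the test function -/
theorem test_fn : ∃ C : ℝ, 0 ≤ C ∧ ∀ ε : ℝ, 0 < ε → ε ≤ 1 / 2 → Real.pi * K.m2 ≤ 1 + ε →
    (∀ u : ℝ, |u| ≤ 1 → 1 - ε ≤ ∫ v, K.g v * Real.cos (u * v)) →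
    ∀ T H F : ℝ, 4 * K.L ^ 2 ≤ T → 4 * K.L ^ 2 * K.ml / ε ≤ T → 1 ≤ H → 4 * K.L * H < T → 1 ≤ F →
    ∀ a c : DP, (∀ n, a.coeff n ≠ 0 → 1 ≤ n ∧ (n : ℝ) ≤ H) →
    (∀ n, c.coeff n ≠ 0 → 1 ≤ n ∧ (n : ℝ) ≤ H) →
    (∀ n, (a * c).coeff n ≠ 0 → 1 ≤ n ∧ (n : ℝ) ≤ H) →
    (∀ n, |a.coeff n| ≤ F) → (∀ n, |c.coeff n| ≤ F) → (∀ n, |(a * c).coeff n| ≤ F) →
    ∀ G : Set ℝ, MeasurableSet G → G ⊆ Ioc 0 T →
    2 * Real.pi * (K.m2 / T * BK (Kcs 1) a (a * c))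
      ≤ Real.sqrt (∫ t in G, (‖riemannZeta (1 / 2 + I * t) * ev t a‖ * wgt K T t) ^ 2)
          * Real.sqrt (2 * Real.pi * (K.m2 / T * BK K1 (a * c) (a * c))
            + C * F ^ 3 * H ^ 2 * (1 + Real.log H) ^ 2 / T ^ 2)
        + 2 * Real.sqrt (Real.pi * ∫ x in Ioi (0 : ℝ), QQ (K.phi T) a x ^ 2)
          * Real.sqrt ((∫ t in Ioc 0 T \ G, (‖ev t (a * c)‖ * wgt K T t) ^ 2)
            + 1 / T * (5 * ε * BK K1 (a * c) (a * c) + 8 * (F * H) ^ 2 / T))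
        + C * F ^ 3 * H ^ 2 * (1 + Real.log H) ^ 2 / T ^ 2 := by
  obtain ⟨C0, hC0, hE⟩ := K.energy_test
  have hml := K.ml_nonneg
  have hpi := Real.pi_pos
  refine ⟨Real.pi * C0 + 4 * Real.pi * K.ml ^ 2, by positivity, ?_⟩
  intro ε hε hε1 hK1 hK2 T H F hT4 hTml hH1 hH hF a c ha hc hac hFa hFc hFac G hGm hGT
  set C := Real.pi * C0 + 4 * Real.pi * K.ml ^ 2 with hC
  have hL := K.hL
  have hm2 := K.m2_nonneg
  have hT : 2 * K.L ≤ T := by nlinarith only [hL, hT4]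
  have hT0 : 0 < T := by linarith only [hL, hT]
  have ha1 : ∀ n, a.coeff n ≠ 0 → 1 ≤ n := fun n hn => (ha n hn).1
  have hc1 : ∀ n, c.coeff n ≠ 0 → 1 ≤ n := fun n hn => (hc n hn).1
  have hac1 : ∀ n, (a * c).coeff n ≠ 0 → 1 ≤ n := fun n hn => (hac n hn).1
  have hF0 : 0 ≤ F := by linarith
  have hlog : 0 ≤ Real.log H := Real.log_nonneg hH1
  -- sizes
  have w1ac : w1 (a * c) ≤ F * (1 + Real.log H) :=
    Pool.Agent.Lib.MP_f9aece_nt_h22.w1_le' hF0 hFac hac hH1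
  have w1a : w1 a ≤ F * (1 + Real.log H) :=
    Pool.Agent.Lib.MP_f9aece_nt_h22.w1_le' hF0 hFa ha hH1
  have nc : nrm c ≤ F * H := Pool.Agent.Lib.MP_f9aece_nt_h22.nrm_le' hF0 hFc hc hH1
  have nac : nrm (a * c) ≤ F * H := Pool.Agent.Lib.MP_f9aece_nt_h22.nrm_le' hF0 hFac hac hH1
  have w1n : ∀ D : DP, 0 ≤ w1 D := fun D => by
    unfold w1; exact Finset.sum_nonneg fun _ _ => by positivity
  have hc0 : |c0 a| ≤ F * (1 + Real.log H) :=
    (Pool.Agent.Lib.MP_f9aece_nt_h22.abs_c0_le' a).trans w1a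
  set lg := 1 + Real.log H with hlg
  have hlg1 : 1 ≤ lg := by linarith
  set X := F ^ 3 * H ^ 2 * lg ^ 2 / T ^ 2 with hX
  have hX0 : 0 ≤ X := by positivity
  -- the functions
  set Φ : ℝ → ℝ := fun t => ‖mc (QQ (K.phi T) a) t‖ with hΦ
  set gt : ℝ → ℝ := fun x => QB (K.phi T) (a * c) x + K.VB T a c x with hgt
  set Ψ : ℝ → ℝ := fun t => ‖mc gt t‖ with hΨ
  have mQ := K.QQ_MPc hT ha1
  have mG : MPc gt := (K.QB_MPc hT hac1).add (K.VB_MPc (by linarith) ha1 hc1)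
  obtain ⟨pQ1, pQ2⟩ := mQ.plancherel
  obtain ⟨pG1, pG2⟩ := mG.plancherel
  obtain ⟨x1, x2⟩ := mQ.cross mG
  have hΦ0 : ∀ t, 0 ≤ Φ t := fun t => norm_nonneg _
  have hΨ0 : ∀ t, 0 ≤ Ψ t := fun t => norm_nonneg _
  have hGI : G ⊆ Ioi (0 : ℝ) := fun t ht => (hGT ht).1
  obtain ⟨pi1, -⟩ := cs_real hΦ0 hΨ0 pQ1 pG1
  -- the complement
  set Gc : Set ℝ := Ioi (0 : ℝ) \ G with hGc
  have hGcI : Gc ⊆ Ioi (0 : ℝ) := sdiff_subset
  have hGcm : MeasurableSet Gc := measurableSet_Ioi.diff hGm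
  have hsplit : ∀ f : ℝ → ℝ, IntegrableOn f (Ioi 0) →
      ∫ t in Ioi (0 : ℝ), f t = (∫ t in G, f t) + ∫ t in Gc, f t := by
    intro f hf
    rw [← setIntegral_union disjoint_sdiff_self_right hGcm (hf.mono_set hGI) (hf.mono_set hGcI),
      Set.union_sdiff_cancel hGI]
  -- Step 1
  have s1 : Real.pi * (∫ x in Ioi (0 : ℝ), QQ (K.phi T) a x * gt x)
      ≤ (∫ t in G, Φ t * Ψ t) + ∫ t in Gc, Φ t * Ψ t := by
    rw [← x2, ← hsplit _ pi1]
    refine setIntegral_mono x1 pi1 fun t => ?_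
    refine (Complex.re_le_norm _).trans (le_of_eq ?_)
    rw [norm_mul, RCLike.norm_conj]
  obtain ⟨-, c1⟩ := cs_real hΦ0 hΨ0 (pQ1.mono_set hGI) (pG1.mono_set hGI)
  obtain ⟨-, c2⟩ := cs_real hΦ0 hΨ0 (pQ1.mono_set hGcI) (pG1.mono_set hGcI)
  -- the pieces
  have d1 : ∫ t in G, Φ t ^ 2
      = ∫ t in G, (‖riemannZeta (1 / 2 + I * t) * ev t a‖ * wgt K T t) ^ 2 := by
    refine setIntegral_congr_fun hGm fun t ht => ?_
    simp only [hΦ]
    rw [K.mc_QQ hT ha1 (hGI ht)]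
    simp only [norm_mul]
    unfold wgt mc
    ring
  have d2 : ∫ t in G, Ψ t ^ 2 ≤ Real.pi * ∫ x in Ioi (0 : ℝ), gt x ^ 2 := by
    rw [← pG2]
    exact setIntegral_mono_set pG1 (Eventually.of_forall fun t => by positivity)
      (LE.le.eventuallyLE hGI)
  have d3 : ∫ t in Gc, Φ t ^ 2 ≤ Real.pi * ∫ x in Ioi (0 : ℝ), QQ (K.phi T) a x ^ 2 := by
    rw [← pQ2]
    exact setIntegral_mono_set pQ1 (Eventually.of_forall fun t => by positivity)
      (LE.le.eventuallyLE hGcI)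
  obtain ⟨f1, -⟩ := Pool.Agent.Lib.MP_f9aece_nt_h85.energy_full hT hH1 hH hac
  have d4 : ∫ t in Gc, Ψ t ^ 2 ≤ 4 * ((∫ t in Ioc 0 T \ G, (‖ev t (a * c)‖ * wgt K T t) ^ 2)
      + 1 / T * (5 * ε * BK K1 (a * c) (a * c) + 8 * (F * H) ^ 2 / T)) := by
    have g1 : ∫ t in Gc, Ψ t ^ 2 ≤ ∫ t in Gc, 4 * (‖ev t (a * c)‖ * wgt K T t) ^ 2 := by
      refine setIntegral_mono (pG1.mono_set hGcI) ((f1.mono_set hGcI).const_mul 4) fun t => ?_
      have := K.norm_test hT ha1 hc1 t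
      have h0 : 0 ≤ ‖mc gt t‖ := norm_nonneg _
      calc ‖mc gt t‖ ^ 2 ≤ (2 * (‖ev t (a * c)‖ * wgt K T t)) ^ 2 := pow_le_pow_left₀ h0 this 2
        _ = 4 * (‖ev t (a * c)‖ * wgt K T t) ^ 2 := by ring
    refine g1.trans ?_
    rw [integral_const_mul]
    refine mul_le_mul_of_nonneg_left ?_ (by norm_num)
    have g2 : Gc = (Ioc 0 T \ G) ∪ Ioi T := by
      ext t
      simp only [hGc, Set.mem_sdiff, mem_Ioi, mem_union, mem_Ioc]
      constructor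
      · rintro ⟨h1, h2⟩
        rcases le_or_gt t T with h | h
        · exact Or.inl ⟨⟨h1, h⟩, h2⟩
        · exact Or.inr h
      · rintro (⟨⟨h1, -⟩, h2⟩ | h)
        · exact ⟨h1, h2⟩
        · exact ⟨by linarith, fun h2 => absurd (hGT h2).2 (not_le.mpr h)⟩
    have g3 : Disjoint (Ioc 0 T \ G) (Ioi T) := by
      rw [Set.disjoint_left]
      rintro t ⟨⟨-, h⟩, -⟩ h2
      exact absurd h (not_le.mpr h2)
    rw [g2, setIntegral_union g3 measurableSet_Ioi]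
    · exact add_le_add le_rfl (tail hε hε1 hK1 hK2 hT4 hTml hH1 hH hac hFac)
    · exact f1.mono_set (sdiff_subset.trans fun t ht => ht.1)
    · exact f1.mono_set (Ioi_subset_Ioi hT0.le)
  -- correlations
  have e1 := K.corr_test hT hH ha1 hc1 hac
  have e2 := hE T H hT hH a c ha1 hc1 hac
  have e1' : 2 * (2 * K.ml ^ 2 / T ^ 2 * |c0 a| * nrm (a * c)) ≤ 4 * K.ml ^ 2 * X :=
    tf_num1 hT0 hF hlg1 hH1 hc0 (nrm_nonneg _) nac
  have e2' : C0 * (H / T ^ 2) * w1 (a * c) * w1 a * nrm c ≤ C0 * X :=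
    tf_num2 hC0 hF0 (by linarith only [hlg1]) (by linarith only [hH1]) w1ac (w1n a) w1a
      (nrm_nonneg c) nc
  -- assembly
  have hCX : C * F ^ 3 * H ^ 2 * lg ^ 2 / T ^ 2 = C * X := by rw [hX]; ring
  rw [hCX]
  have hCXa : 4 * Real.pi * K.ml ^ 2 * X ≤ C * X := by
    rw [hC, add_mul]
    have : 0 ≤ Real.pi * C0 * X := by positivity
    linarith only [this]
  have hCXb : Real.pi * C0 * X ≤ C * X := by
    rw [hC, add_mul]
    have : 0 ≤ 4 * Real.pi * K.ml ^ 2 * X := by positivity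
    linarith only [this]
  have k1 : 2 * Real.pi * (K.m2 / T * BK (Kcs 1) a (a * c)) - C * X
      ≤ (∫ t in G, Φ t * Ψ t) + ∫ t in Gc, Φ t * Ψ t := by
    refine le_trans ?_ s1
    have h1 := mul_le_mul_of_nonneg_left e1 hpi.le
    have h2 := mul_le_mul_of_nonneg_left e1' hpi.le
    linarith
  have k2 : ∫ t in G, Φ t * Ψ t
      ≤ Real.sqrt (∫ t in G, (‖riemannZeta (1 / 2 + I * t) * ev t a‖ * wgt K T t) ^ 2)
          * Real.sqrt (2 * Real.pi * (K.m2 / T * BK K1 (a * c) (a * c)) + C * X) := by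
    refine c1.trans ?_
    rw [d1]
    refine mul_le_mul_of_nonneg_left (Real.sqrt_le_sqrt ?_) (Real.sqrt_nonneg _)
    refine d2.trans ?_
    have h1 := mul_le_mul_of_nonneg_left e2 hpi.le
    have h2 := mul_le_mul_of_nonneg_left e2' hpi.le
    linarith
  have k3 : ∫ t in Gc, Φ t * Ψ t
      ≤ 2 * Real.sqrt (Real.pi * ∫ x in Ioi (0 : ℝ), QQ (K.phi T) a x ^ 2)
          * Real.sqrt ((∫ t in Ioc 0 T \ G, (‖ev t (a * c)‖ * wgt K T t) ^ 2)
            + 1 / T * (5 * ε * BK K1 (a * c) (a * c) + 8 * (F * H) ^ 2 / T)) := by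
    refine c2.trans ?_
    have h1 := Real.sqrt_le_sqrt d3
    have h2 := Real.sqrt_le_sqrt d4
    have h4 : Real.sqrt 4 = 2 := by
      rw [show (4 : ℝ) = 2 ^ 2 by norm_num]
      exact Real.sqrt_sq (by norm_num)
    rw [Real.sqrt_mul (by norm_num : (0 : ℝ) ≤ 4), h4] at h2
    calc Real.sqrt (∫ t in Gc, Φ t ^ 2) * Real.sqrt (∫ t in Gc, Ψ t ^ 2)
        ≤ Real.sqrt (Real.pi * ∫ x in Ioi (0 : ℝ), QQ (K.phi T) a x ^ 2)
          * (2 * Real.sqrt ((∫ t in Ioc 0 T \ G, (‖ev t (a * c)‖ * wgt K T t) ^ 2)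
            + 1 / T * (5 * ε * BK K1 (a * c) (a * c) + 8 * (F * H) ^ 2 / T))) :=
          mul_le_mul h1 h2 (Real.sqrt_nonneg _) (Real.sqrt_nonneg _)
      _ = _ := by ring
  linarith

end Ker

end Pool.Agent.Lib.MP_f9aece_nt_h97
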