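import Mathlib
import Pool.Agent.Lib.MP_f9aece_nt_h22.OnGood

/-!
Exponents larger than `2`: the pointwise inequality on the good set of a level, and the levels.
-/

set_option autoImplicit false

namespace Pool.Agent.Lib.MP_f9aece_nt_h97

open MeasureTheory Set Filter Topology Complex
open Pool.Agent.Lib.MP_f9aece_nt
open Pool.Agent.Lib.MP_f9aece_nt_h22 (norm_DD_ge Psc Rsc Rsc_pos integrableOn_zeta_rpow)
open Pool.Agent.Lib.MP_f9aece_nt_h85 (GG GG_subset measurableSet_GG)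

/-- replacing `|zeta|^(2(1+b))` by a mollified second moment -/
theorem pointwise_right {b W : ℝ} (hb0 : 0 ≤ b) (hb1 : b ≤ 1) {m p0 J : ℕ} (hm : 1 ≤ m)
    {Y t : ℝ} {x : ℂ} (h1 : ‖x * ev t (DD m p0 (-1) Y J)‖ ≤ W)
    (h2 : ∀ j < J, ‖ev t (PP (sc Y p0 j))‖ ≤ (Mm m j : ℝ) / 10) :
    ‖x‖ ^ (2 * (1 + b))
      ≤ Real.exp (8 * b * (1 / 3) ^ m) * W ^ (2 * b) * ‖x * ev t (DD m p0 b Y J)‖ ^ 2 := by
  obtain ⟨X, hX⟩ : ∃ X, X = ∑ j ∈ Finset.range J, (ev t (PP (sc Y p0 j))).re := ⟨_, rfl⟩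
  have hW : 0 ≤ W := (norm_nonneg _).trans h1
  have hlow := norm_DD_ge (c := -1) hm (by norm_num) h2
  have hup := norm_DD_ge (c := b) hm (by rw [abs_of_nonneg hb0]; exact hb1) h2
  rw [← hX] at hlow hup
  rw [abs_neg, abs_one, one_mul] at hlow
  rw [abs_of_nonneg hb0] at hup
  obtain ⟨δ, hδ⟩ : ∃ δ, δ = (1 / 3 : ℝ) ^ m := ⟨_, rfl⟩
  rw [← hδ] at hlow hup ⊢
  obtain ⟨d, hd⟩ : ∃ d, d = ‖ev t (DD m p0 (-1) Y J)‖ := ⟨_, rfl⟩
  obtain ⟨n, hn⟩ : ∃ n, n = ‖ev t (DD m p0 b Y J)‖ := ⟨_, rfl⟩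
  rw [norm_mul] at h1 ⊢
  rw [← hd] at h1 hlow
  rw [← hn] at hup ⊢
  have hn0 : 0 ≤ n := (Real.exp_pos _).le.trans hup
  rcases eq_or_ne x 0 with hx | hx
  · rw [hx, norm_zero, Real.zero_rpow (by linarith)]
    have := Real.rpow_nonneg hW (2 * b)
    positivity
  have hx0 : 0 < ‖x‖ := norm_pos_iff.mpr hx
  have h3 : ‖x‖ * Real.exp (-(2 * δ) + -1 * X) ≤ W := le_trans (by gcongr) h1
  have h4 : ‖x‖ ^ (2 * b) ≤ W ^ (2 * b) * Real.exp (2 * b * (2 * δ + X)) := by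
    have h5 : ‖x‖ ≤ W * Real.exp (2 * δ + X) := by
      have : ‖x‖ = ‖x‖ * Real.exp (-(2 * δ) + -1 * X) * Real.exp (2 * δ + X) := by
        rw [mul_assoc, ← Real.exp_add]
        have : -(2 * δ) + -1 * X + (2 * δ + X) = 0 := by ring
        rw [this, Real.exp_zero, mul_one]
      rw [this]
      gcongr
    calc ‖x‖ ^ (2 * b) ≤ (W * Real.exp (2 * δ + X)) ^ (2 * b) := by gcongr
      _ = W ^ (2 * b) * Real.exp (2 * b * (2 * δ + X)) := by
          rw [Real.mul_rpow hW (Real.exp_pos _).le, ← Real.exp_mul]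
          congr 2
          ring
  have h5 : Real.exp (2 * b * (2 * δ + X)) ≤ Real.exp (8 * b * δ) * n ^ 2 := by
    calc Real.exp (2 * b * (2 * δ + X))
        = Real.exp (8 * b * δ) * Real.exp (-(2 * (b * δ)) + b * X) ^ 2 := by
          rw [← Real.exp_nat_mul, ← Real.exp_add]
          congr 1
          push_cast
          ring
      _ ≤ _ := by gcongr
  have h6 : ‖x‖ ^ (2 * (1 + b)) = ‖x‖ ^ 2 * ‖x‖ ^ (2 * b) := by
    have : 2 * (1 + b) = ((2 : ℕ) : ℝ) + 2 * b := by push_cast; ring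
    rw [this, Real.rpow_add hx0, Real.rpow_natCast]
  have hWb : 0 ≤ W ^ (2 * b) := Real.rpow_nonneg hW _
  rw [h6]
  calc ‖x‖ ^ 2 * ‖x‖ ^ (2 * b) ≤ ‖x‖ ^ 2 * (W ^ (2 * b) * (Real.exp (8 * b * δ) * n ^ 2)) := by
        refine mul_le_mul_of_nonneg_left (h4.trans ?_) (by positivity)
        gcongr
    _ = _ := by ring

/-- the good set of a level -/
noncomputable def GdS (T V : ℝ) (m p0 : ℕ) (Y : ℝ) (J : ℕ) : Set ℝ :=
  GG T V (DD m p0 (-1) Y J) J (Psc p0 Y) (Rsc m)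

lemma gds_meas (T V : ℝ) (m p0 : ℕ) (Y : ℝ) (J : ℕ) : MeasurableSet (GdS T V m p0 Y J) :=
  measurableSet_GG _ _ _ _ _ _

lemma gds_sub (T V : ℝ) (m p0 : ℕ) (Y : ℝ) (J : ℕ) : GdS T V m p0 Y J ⊆ Icc 0 T := GG_subset _ _ _ _ _ _

lemma cont_ze (f : DP) : Continuous fun t : ℝ => ‖riemannZeta (1 / 2 + I * t) * ev t f‖ ^ 2 :=
  (continuous_zeta.mul (continuous_ev f)).norm.pow 2

/-- the moment on a subset of the good set of a level -/
theorem on_gds {b T V : ℝ} (hb0 : 0 ≤ b) (hb1 : b ≤ 1) {m p0 J : ℕ} (hm : 1 ≤ m) {Y : ℝ} {B : Set ℝ}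
    (hB : MeasurableSet B) (hBG : B ⊆ GdS T V m p0 Y J) :
    ∫ t in B, ‖riemannZeta (1 / 2 + I * t)‖ ^ (2 * (1 + b))
      ≤ Real.exp (8 * b * (1 / 3) ^ m) * V ^ (2 * b)
        * ∫ t in B, ‖riemannZeta (1 / 2 + I * t) * ev t (DD m p0 b Y J)‖ ^ 2 := by
  have hBT : B ⊆ Icc 0 T := hBG.trans (gds_sub _ _ _ _ _ _)
  have i1 : IntegrableOn (fun t : ℝ => ‖riemannZeta (1 / 2 + I * t)‖ ^ (2 * (1 + b))) B :=
    (integrableOn_zeta_rpow (by linarith) T).mono_set hBT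
  have i2 : IntegrableOn (fun t : ℝ => ‖riemannZeta (1 / 2 + I * t) * ev t (DD m p0 b Y J)‖ ^ 2) B :=
    ((cont_ze _).integrableOn_Icc).mono_set hBT
  rw [← integral_const_mul]
  refine setIntegral_mono_on i1 (i2.const_mul _) hB fun t ht => ?_
  obtain ⟨-, h1, h2⟩ := hBG ht
  exact pointwise_right hb0 hb1 hm h1 h2

/-- a point of level `l + 1` which is not of level `l` -/
theorem on_diff {b T V V' : ℝ} (hb0 : 0 ≤ b) (hb1 : b ≤ 1) (hV' : 0 ≤ V') {m p0 J : ℕ} (hm : 1 ≤ m)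
    {Y : ℝ} (hsc : ∀ j < J, sc Y p0 (j + 1) = sc (Y / 4) p0 j) (M : ℕ) :
    ∫ t in GdS T V' (2 * m) p0 (Y / 4) J \ GdS T V m p0 Y (J + 1), ‖riemannZeta (1 / 2 + I * t)‖ ^ (2 * (1 + b))
      ≤ Real.exp (8 * b * (1 / 3) ^ (2 * m)) * V' ^ (2 * b)
        * ((∫ t in {t | t ∈ Icc 0 T ∧ V ≤ ‖riemannZeta (1 / 2 + I * t) * ev t (DD m p0 (-1) Y (J + 1))‖},
              ‖riemannZeta (1 / 2 + I * t) * ev t (DD (2 * m) p0 b (Y / 4) J)‖ ^ 2)
          + (Rsc m 0 ^ (2 * M))⁻¹ * ∫ t in Icc 0 T,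
              ‖riemannZeta (1 / 2 + I * t) * ev t (DD (2 * m) p0 b (Y / 4) J * Psc p0 Y 0 ^ M)‖ ^ 2) := by
  obtain ⟨n, hn⟩ : ∃ n : DP, n = DD (2 * m) p0 b (Y / 4) J := ⟨_, rfl⟩
  obtain ⟨f, hf⟩ : ∃ f : ℝ → ℝ, f = fun t : ℝ => ‖riemannZeta (1 / 2 + I * t) * ev t n‖ ^ 2 := ⟨_, rfl⟩
  have hfc : Continuous f := by rw [hf]; exact cont_ze n
  have hf0 : ∀ t, 0 ≤ f t := fun t => by rw [hf]; positivity
  obtain ⟨B1, hB1⟩ : ∃ B1 : Set ℝ, B1 = {t | t ∈ Icc 0 T ∧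
      V ≤ ‖riemannZeta (1 / 2 + I * t) * ev t (DD m p0 (-1) Y (J + 1))‖} := ⟨_, rfl⟩
  obtain ⟨B2, hB2⟩ : ∃ B2 : Set ℝ, B2 = {t | t ∈ Icc 0 T ∧ Rsc m 0 ≤ ‖ev t (Psc p0 Y 0)‖} := ⟨_, rfl⟩
  have mB1 : MeasurableSet B1 := by
    rw [hB1]
    exact (isClosed_Icc.inter (isClosed_le continuous_const
      (continuous_zeta.mul (continuous_ev _)).norm)).measurableSet
  have mB2 : MeasurableSet B2 := by
    rw [hB2]
    exact (isClosed_Icc.inter (isClosed_le continuous_const (continuous_ev _).norm)).measurableSet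
  have sB1 : B1 ⊆ Icc 0 T := by rw [hB1]; exact fun t ht => ht.1
  have sB2 : B2 ⊆ Icc 0 T := by rw [hB2]; exact fun t ht => ht.1
  have hsub : GdS T V' (2 * m) p0 (Y / 4) J \ GdS T V m p0 Y (J + 1) ⊆ B1 ∪ B2 := by
    intro t ht
    obtain ⟨⟨h1, -, h3⟩, h4⟩ := ht
    by_contra hcon
    rw [mem_union, not_or] at hcon
    apply h4
    refine ⟨h1, ?_, ?_⟩
    · by_contra h5
      apply hcon.1
      rw [hB1]
      exact ⟨h1, (not_le.mp h5).le⟩
    · intro j hj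
      rcases Nat.eq_zero_or_pos j with h0 | h0
      · rw [h0]
        by_contra h5
        apply hcon.2
        rw [hB2]
        exact ⟨h1, (not_le.mp h5).le⟩
      · obtain ⟨i, rfl⟩ : ∃ i, j = i + 1 := ⟨j - 1, by omega⟩
        have h6 := h3 i (by omega)
        have e1 : Psc p0 Y (i + 1) = Psc p0 (Y / 4) i := by
          unfold Psc
          rw [hsc i (by omega)]
        have e2 : Rsc m (i + 1) = Rsc (2 * m) i := by
          unfold Rsc Mm
          rw [pow_succ]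
          push_cast
          ring
        rw [e1, e2]
        exact h6
  have mD : MeasurableSet (GdS T V' (2 * m) p0 (Y / 4) J \ GdS T V m p0 Y (J + 1)) :=
    (gds_meas _ _ _ _ _ _).diff (gds_meas _ _ _ _ _ _)
  refine (on_gds hb0 hb1 (by omega) mD sdiff_subset).trans ?_
  refine mul_le_mul_of_nonneg_left ?_ (by
    have := Real.rpow_nonneg hV' (2 * b)
    positivity)
  have h1 : ∫ t in GdS T V' (2 * m) p0 (Y / 4) J \ GdS T V m p0 Y (J + 1), f t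
      ≤ (∫ t in B1, f t) + ∫ t in B2, f t := by
    have h2 : ∫ t in GdS T V' (2 * m) p0 (Y / 4) J \ GdS T V m p0 Y (J + 1), f t
        ≤ ∫ t in B1 ∪ B2, f t :=
      setIntegral_mono_set ((hfc.integrableOn_Icc).mono_set (union_subset sB1 sB2))
        (Eventually.of_forall hf0) (LE.le.eventuallyLE hsub)
    refine h2.trans ?_
    have h3 : ∫ t in B1 ∪ B2, f t = (∫ t in B1, f t) + ∫ t in B2 \ B1, f t := by
      rw [← union_sdiff_self, setIntegral_union disjoint_sdiff_self_right (mB2.diff mB1)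
        ((hfc.integrableOn_Icc).mono_set sB1)
        ((hfc.integrableOn_Icc).mono_set (sdiff_subset.trans sB2))]
    rw [h3]
    have h4 : ∫ t in B2 \ B1, f t ≤ ∫ t in B2, f t :=
      setIntegral_mono_set ((hfc.integrableOn_Icc).mono_set sB2) (Eventually.of_forall hf0)
        (LE.le.eventuallyLE sdiff_subset)
    linarith
  have h2 : ∫ t in B2, f t ≤ (Rsc m 0 ^ (2 * M))⁻¹ * ∫ t in Icc 0 T,
      ‖riemannZeta (1 / 2 + I * t) * ev t (n * Psc p0 Y 0 ^ M)‖ ^ 2 := by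
    have hR := Rsc_pos hm 0
    have i2 := (cont_ze (n * Psc p0 Y 0 ^ M)).integrableOn_Icc (μ := volume) (a := 0) (b := T)
    calc ∫ t in B2, f t ≤ ∫ t in B2, (Rsc m 0 ^ (2 * M))⁻¹
          * ‖riemannZeta (1 / 2 + I * t) * ev t (n * Psc p0 Y 0 ^ M)‖ ^ 2 := by
          refine setIntegral_mono_on ((hfc.integrableOn_Icc).mono_set sB2)
            ((i2.mono_set sB2).const_mul _) mB2 fun t ht => ?_
          rw [hB2] at ht
          rw [hf]
          simp only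
          rw [le_inv_mul_iff₀ (by positivity), map_mul, map_pow, ← mul_assoc, norm_mul _ (ev t _ ^ M),
            mul_pow _ _ 2, mul_comm]
          have h5 : Rsc m 0 ^ (2 * M) ≤ ‖ev t (Psc p0 Y 0) ^ M‖ ^ 2 := by
            rw [norm_pow, ← pow_mul, mul_comm M 2]
            have := ht.2
            gcongr
          gcongr
      _ = (Rsc m 0 ^ (2 * M))⁻¹ * ∫ t in B2,
          ‖riemannZeta (1 / 2 + I * t) * ev t (n * Psc p0 Y 0 ^ M)‖ ^ 2 := integral_const_mul _ _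
      _ ≤ _ := by
          refine mul_le_mul_of_nonneg_left ?_ (by positivity)
          exact setIntegral_mono_set i2 (Eventually.of_forall fun t => by positivity)
            (LE.le.eventuallyLE sB2)
  rw [← hn, ← hB1]
  have e1 : ∀ B : Set ℝ, ∫ t in B, ‖riemannZeta (1 / 2 + I * t) * ev t n‖ ^ 2 = ∫ t in B, f t := by
    intro B
    rw [hf]
  rw [e1, e1]
  exact h1.trans (add_le_add le_rfl h2)

end Pool.Agent.Lib.MP_f9aece_nt_h97
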