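import Mathlib
import Pool.Agent.Lib.MP_f9aece_nt_h24.RightPoint
import Pool.Agent.Lib.MP_f9aece_nt_h22.SmallJ

/-!
The three remaining inputs of the upper bound for exponents larger than `2`.
-/

set_option autoImplicit false

namespace Pool.Agent.Lib.MP_f9aece_nt_h97

open MeasureTheory Set Filter Topology Complex
open Pool.Agent.Lib.MP_f9aece_nt
open Pool.Agent.Lib.MP_f9aece_nt_h22 (Psc Rsc J1)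

/-- level `0`: the mollified second moment -/
def H4b : Prop := ∀ δ : ℝ, 0 < δ → ∃ m1 p1 : ℕ, ∀ m : ℕ, m1 ≤ m → ∀ p0 : ℕ, p1 ≤ p0 →
  ∃ A1 : ℝ, ∀ A : ℝ, A1 ≤ A → ∃ Y1 : ℝ, ∀ Y : ℝ, Y1 ≤ Y → ∀ b : ℝ, 0 ≤ b → b ≤ 1 / 4 →
    ∀ T : ℝ, T = Real.exp (A * Y) →
    ∫ t in Icc 0 T, ‖riemannZeta (1 / 2 + I * t) * ev t (DD m p0 b Y (J1 Y))‖ ^ 2
      ≤ (1 + δ) * (T * Real.log T ^ ((1 + b) ^ 2))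

/-- the part of a level where the first prime polynomial of the previous level is large -/
def H4c : Prop := ∃ C5 : ℝ, 0 ≤ C5 ∧ ∃ m1 p1 : ℕ, ∃ T5 : ℝ, ∀ T : ℝ, T5 ≤ T → ∀ m : ℕ, m1 ≤ m →
  ∀ p0 : ℕ, p1 ≤ p0 → ∀ (J : ℕ) (b Y : ℝ), 0 ≤ b → b ≤ 1 / 4 → 4 ≤ Y → 43 * Y ≤ Real.log T →
    2000 * m * Y ≤ Real.log T → 64 * (J + 1) ≤ Real.log T → Y / 4 ^ (J + 1) < Real.log 2 →
    (Rsc m 0 ^ (2 * m))⁻¹ * ∫ t in Icc 0 T,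
        ‖riemannZeta (1 / 2 + I * t) * ev t (DD (2 * m) p0 b (Y / 4) J * Psc p0 Y 0 ^ m)‖ ^ 2
      ≤ C5 * ((2 : ℝ) ^ m)⁻¹ * (T * Real.log T ^ ((1 + b) ^ 2))

/-- the part where the last level fails -/
def H4d : Prop := ∃ C6 : ℕ, ∃ m1 p1 : ℕ, ∀ δ : ℝ, 0 < δ → ∃ T6 : ℝ, ∀ T : ℝ, T6 ≤ T → ∀ m : ℕ,
  m1 ≤ m → ∀ p0 : ℕ, p1 ≤ p0 → ∀ (J : ℕ) (b Y V : ℝ), 0 ≤ b → b ≤ 1 / 4 → 4 ≤ Y →
    43 * Y ≤ Real.log T → 2000 * m * Y ≤ Real.log T → 64 * (J + 1) ≤ Real.log T →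
    Y / 4 ^ J < Real.log 2 → Real.log T ^ C6 ≤ V → Real.log T ^ (1 / 10 : ℝ) ≤ m →
    ∫ t in Icc 0 T \ GdS T V m p0 Y J, ‖riemannZeta (1 / 2 + I * t)‖ ^ (2 * (1 + b)) ≤ δ * T

end Pool.Agent.Lib.MP_f9aece_nt_h97
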