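import Mathlib
import Pool.Agent.Lib.MP_f9aece_nt_h85.RoughSums

/-!
Forms of a product of a rough sum, one block and a polynomial of a level; the blocks of a level.
-/

set_option autoImplicit false

namespace Pool.Agent.Lib.MP_f9aece_nt_h97

open MeasureTheory Set Filter Topology Complex
open Pool.Agent.Lib.MP_f9aece_nt
open Pool.Agent.Lib.MP_f9aece_nt_h85 (Pst Rst rz SR SR_nonneg sup_rz decouple_K2 decouple_KL
  BK_K2_rz BK_K2_rz_nonneg BK_KL_rz BK_KL_rz_nonneg)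

/-- the forms of `rz * (gb * gl)` -/
theorem forms_rz3 {p0 : ℕ} {Y z : ℝ} {gb gl : DP} {A B : Set ℕ} (hAB : Disjoint A B)
    (hgb : Sup (Smo A) gb) (hgl : Sup (Smo B) gl) (hA : A ⊆ (Pst p0 Y : Set ℕ))
    (hB : B ⊆ (Pst p0 Y : Set ℕ)) (hz : 1 ≤ z) {Sb Lb Sl Ll : ℝ}
    (h1 : |BK K2 gb gb| ≤ Sb) (h2 : |BK KL gb gb| ≤ Lb) (h3 : |BK K2 gl gl| ≤ Sl)
    (h4 : |BK KL gl gl| ≤ Ll) :
    |BK K2 (rz p0 Y z * (gb * gl)) (rz p0 Y z * (gb * gl))| ≤ SR p0 Y z ^ 3 * (Sb * Sl) ∧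
    |BK KL (rz p0 Y z * (gb * gl)) (rz p0 Y z * (gb * gl))|
      ≤ SR p0 Y z ^ 3 * (2 * Real.log z * (Sb * Sl) + (Lb * Sl + Sb * Ll)) := by
  have hSR : 0 ≤ SR p0 Y z := SR_nonneg
  have hlz : 0 ≤ Real.log z := Real.log_nonneg hz
  have hSb : 0 ≤ Sb := (abs_nonneg _).trans h1
  have hLb : 0 ≤ Lb := (abs_nonneg _).trans h2
  have hSl : 0 ≤ Sl := (abs_nonneg _).trans h3
  have hLl : 0 ≤ Ll := (abs_nonneg _).trans h4
  have hg : Sup (Smo (Pst p0 Y : Set ℕ)) (gb * gl) :=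
    (hgb.mono (Smo_mono hA)).mul (hgl.mono (Smo_mono hB)) fun _ hx _ hy => mul_mem_Smo hx hy
  have e2 : BK K2 (gb * gl) (gb * gl) = BK K2 gb gb * BK K2 gl gl :=
    BK_mul_sup K2 hgb hgb hgl hgl fun _ ha _ ha' _ hb _ hb' => K2_mul hAB ha ha' hb hb'
  have eL : BK KL (gb * gl) (gb * gl) = BK KL gb gb * BK K2 gl gl + BK K2 gb gb * BK KL gl gl :=
    BK_mul_der K2 KL hgb hgb hgl hgl fun _ ha _ ha' _ hb _ hb' => KL_mul hAB ha ha' hb hb'
  have b2 : |BK K2 (gb * gl) (gb * gl)| ≤ Sb * Sl := by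
    rw [e2, abs_mul]
    gcongr
  have bL : |BK KL (gb * gl) (gb * gl)| ≤ Lb * Sl + Sb * Ll := by
    rw [eL]
    refine (abs_add_le _ _).trans ?_
    rw [abs_mul, abs_mul]
    gcongr
  have r1 := BK_K2_rz (p0 := p0) (Y := Y) (z := z)
  have r2 := BK_K2_rz_nonneg (p0 := p0) (Y := Y) (z := z)
  have r3 := BK_KL_rz (p0 := p0) (Y := Y) (z := z)
  have r4 := BK_KL_rz_nonneg (p0 := p0) (Y := Y) (z := z)
  rw [decouple_K2 sup_rz sup_rz hg hg, decouple_KL sup_rz sup_rz hg hg]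
  constructor
  · rw [abs_mul, abs_of_nonneg r2]
    gcongr
  · refine (abs_add_le _ _).trans ?_
    rw [abs_mul, abs_mul, abs_of_nonneg r2, abs_of_nonneg r4]
    calc BK KL (rz p0 Y z) (rz p0 Y z) * |BK K2 (gb * gl) (gb * gl)|
          + BK K2 (rz p0 Y z) (rz p0 Y z) * |BK KL (gb * gl) (gb * gl)|
        ≤ (2 * Real.log z * SR p0 Y z ^ 3) * (Sb * Sl)
          + SR p0 Y z ^ 3 * (Lb * Sl + Sb * Ll) := by
          gcongr
      _ = _ := by ring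

/-! ### the blocks of a level -/

/-- the blocks of the level `l` are the blocks `j ≥ l` -/
lemma sc_level (Y : ℝ) (hY : 0 ≤ Y) (p0 l j : ℕ) : sc (Y / 4 ^ l) p0 j = sc Y p0 (l + j) := by
  ext p
  rw [mem_sc, mem_sc, Finset.mem_Icc, Finset.mem_Icc]
  have e1 : Y / 4 ^ l / 4 ^ j = Y / 4 ^ (l + j) := by rw [div_div, ← pow_add]
  have e2 : Y / 4 ^ l / 4 ^ (j + 1) = Y / 4 ^ (l + j + 1) := by rw [div_div, ← pow_add]; rfl
  rw [e1, e2]
  constructor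
  · rintro ⟨⟨h1, h2⟩, h3⟩
    refine ⟨⟨h1, h2.trans ?_⟩, h3⟩
    apply Nat.floor_le_floor
    apply Real.exp_le_exp.mpr
    exact div_le_self hY (one_le_pow₀ (by norm_num))
  · rintro ⟨⟨h1, h2⟩, h3, h4, h5, h6⟩
    refine ⟨⟨h1, ?_⟩, h3, h4, h5, h6⟩
    apply Nat.le_floor
    have hp : (0 : ℝ) < p := by exact_mod_cast h3.pos
    rw [← Real.log_le_iff_le_exp hp]
    refine h6.trans ?_
    rw [pow_add, ← div_div]
    exact div_le_self (by positivity) (one_le_pow₀ (by norm_num))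

lemma Mm_level (m l j : ℕ) : Mm (m * 2 ^ l) j = Mm m (l + j) := by
  unfold Mm
  rw [pow_add, mul_assoc]

/-- the polynomial of the level `l`, as a product over the blocks `j ≥ l` -/
lemma DD_level (m p0 : ℕ) (c Y : ℝ) (hY : 0 ≤ Y) (l J : ℕ) :
    DD (m * 2 ^ l) p0 c (Y / 4 ^ l) J = ∏ j ∈ Finset.range J, expo c (Mm m (l + j)) (sc Y p0 (l + j)) := by
  unfold DD
  refine Finset.prod_congr rfl fun j _ => ?_
  rw [sc_level Y hY, Mm_level]

/-- splitting off the first block -/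
lemma DD_succ (m p0 : ℕ) (c Y : ℝ) (hY : 0 ≤ Y) (J : ℕ) :
    DD m p0 c Y (J + 1) = expo c m (sc Y p0 0) * DD (m * 2) p0 c (Y / 4) J := by
  have h := DD_level m p0 c Y hY 1 J
  rw [pow_one, pow_one] at h
  rw [h]
  unfold DD
  rw [Finset.prod_range_succ', mul_comm]
  congr 1
  · unfold Mm; simp
  · refine Finset.prod_congr rfl fun j _ => ?_
    rw [add_comm 1 j]

end Pool.Agent.Lib.MP_f9aece_nt_h97
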