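import Mathlib
import Pool.Agent.Lib.MP_f9aece_nt_h40.RightSplit
import Pool.Agent.Lib.MP_f9aece_nt_h85.BadForms

/-!
The energy of zeta times the test function times the mollifier of one level.
-/

set_option autoImplicit false

namespace Pool.Agent.Lib.MP_f9aece_nt_h97

open MeasureTheory Set Filter Topology Complex
open Pool.Agent.Lib.MP_f9aece_nt
open Pool.Agent.Lib.MP_f9aece_nt_h40 (FS EI dlb_EI)
open Pool.Agent.Lib.MP_f9aece_nt_h85 (Pst Rst rz SR SR_nonneg sup_rz decouple_K2 decouple_KL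
  BK_K2_rz BK_K2_rz_nonneg BK_KL_rz BK_KL_rz_nonneg sc_subset_Pst DLB Bd bd_rz_mul)

/-- the polynomial `E n D` of a level -/
noncomputable def qq (m p0 : ℕ) (b Y : ℝ) (J : ℕ) : DP :=
  EI m p0 Y (J + 1) * DD (2 * m) p0 b (Y / 4) J * DD m p0 (-1) Y (J + 1)

lemma qq_eq (m p0 : ℕ) (b Y z : ℝ) (J : ℕ) :
    DD (2 * m) p0 b (Y / 4) J * (rz p0 Y z * EI m p0 Y (J + 1)) * DD m p0 (-1) Y (J + 1)
      = rz p0 Y z * qq m p0 b Y J := by
  unfold qq
  ring

lemma dlb_qq {m p0 J : ℕ} {b Y : ℝ} (hY : 0 < Y) (hb : |b| ≤ 1) :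
    DLB (qq m p0 b Y J) (6 * m * Y) (2 * J + 1 + 6 * m * Y) := by
  have h1 : DLB (EI m p0 Y (J + 1)) (2 * m * Y) (2 * m * Y) := dlb_EI hY
  have h2 := DLB.DD (by positivity : 0 < Y / 4) (2 * m) p0 hb J
  have h3 := DLB.DD hY m p0 (c := -1) (by rw [abs_neg, abs_one]) (J + 1)
  have h4 := (h1.mul h2).mul h3
  have hmY : 0 ≤ m * Y := by positivity
  refine h4.mono ?_ ?_
  · push_cast
    linarith
  · push_cast
    linarith

/-- the energy of `zeta n c D` for one level -/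
theorem c2_of {K : Ker} {C1 R Cf ε T z b Y : ℝ} {m p0 J : ℕ} (hC1 : 0 ≤ C1)
    (hCf : 0 ≤ Cf) (hFS : FS Cf ε m p0 b Y J) (hT : 1 ≤ T) (hz : 1 ≤ z) (hzT : z ≤ T)
    (hY : Y ≤ Real.log T) (hU : ∫ x in Ioi (0 : ℝ), QQ (K.phi T) (rz p0 Y z * qq m p0 b Y J) x ^ 2
      ≤ 1 / T * (K.m2 * (Real.log T * BK K2 (rz p0 Y z * qq m p0 b Y J) (rz p0 Y z * qq m p0 b Y J)
          - BK KL (rz p0 Y z * qq m p0 b Y J) (rz p0 Y z * qq m p0 b Y J))
        + C1 * |BK K2 (rz p0 Y z * qq m p0 b Y J) (rz p0 Y z * qq m p0 b Y J)| + R)) :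
    Real.pi * ∫ x in Ioi (0 : ℝ), QQ (K.phi T) (DD (2 * m) p0 b (Y / 4) J
        * (rz p0 Y z * EI m p0 Y (J + 1)) * DD m p0 (-1) Y (J + 1)) x ^ 2
      ≤ 1 / T * (Real.pi * (K.m2 + C1) * (3 * Real.exp ε + Cf) * SR p0 Y z ^ 3
          * ((1 + Real.log T)
            * Real.exp ((2 * b + b ^ 2) * ∑ j ∈ Finset.range J, VV (sc (Y / 4) p0 j)))
        + Real.pi * R) := by
  have hm2 := K.m2_nonneg
  have hpi := Real.pi_pos
  have hlog : 0 ≤ Real.log T := Real.log_nonneg hT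
  have hT0 : 0 < T := by linarith
  rw [qq_eq]
  have hq2 : |BK K2 (qq m p0 b Y J) (qq m p0 b Y J)| ≤ _ := hFS.k2q
  have hqL : |BK KL (qq m p0 b Y J) (qq m p0 b Y J)| ≤ _ := hFS.klq
  obtain ⟨X, hX⟩ : ∃ X : ℝ, X = Real.exp ((2 * b + b ^ 2)
    * ∑ j ∈ Finset.range J, VV (sc (Y / 4) p0 j)) := ⟨_, rfl⟩
  rw [← hX] at hqL ⊢
  rw [Real.exp_add, ← hX] at hq2
  have hX0 : 0 < X := by rw [hX]; exact Real.exp_pos _
  have hsup : Sup (Smo (Pst p0 Y : Set ℕ)) (qq m p0 b Y J) := by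
    have hsub := Smo_mono (sc_subset_Pst (p0 := p0) (Y := Y) (J + 1))
    exact ((hFS.supE.mono hsub).mul (hFS.supn.mono hsub) fun _ hx _ hy => mul_mem_Smo hx hy).mul
      (hFS.supD.mono hsub) fun _ hx _ hy => mul_mem_Smo hx hy
  obtain ⟨q, hq⟩ : ∃ q : DP, q = qq m p0 b Y J := ⟨_, rfl⟩
  rw [← hq] at hsup hq2 hqL hU ⊢
  obtain ⟨S3, hS3⟩ : ∃ S3 : ℝ, S3 = SR p0 Y z ^ 3 := ⟨_, rfl⟩
  have hS30 : 0 ≤ S3 := by rw [hS3]; exact pow_nonneg SR_nonneg 3
  have r1 := BK_K2_rz (p0 := p0) (Y := Y) (z := z)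
  have r2 := BK_K2_rz_nonneg (p0 := p0) (Y := Y) (z := z)
  have r3 := BK_KL_rz (p0 := p0) (Y := Y) (z := z)
  have r4 := BK_KL_rz_nonneg (p0 := p0) (Y := Y) (z := z)
  have hlz : Real.log z ≤ Real.log T := Real.log_le_log (by linarith) hzT
  have hlz0 : 0 ≤ Real.log z := Real.log_nonneg hz
  rw [← hS3] at r1 r3 ⊢
  have d2 := decouple_K2 (p0 := p0) (Y := Y) (sup_rz (z := z)) (sup_rz (z := z)) hsup hsup
  have dL := decouple_KL (p0 := p0) (Y := Y) (sup_rz (z := z)) (sup_rz (z := z)) hsup hsup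
  obtain ⟨f, hf⟩ : ∃ f : DP, f = rz p0 Y z * q := ⟨_, rfl⟩
  rw [← hf] at d2 dL hU ⊢
  have hE : 0 < Real.exp ε := Real.exp_pos _
  have b2 : |BK K2 f f| ≤ S3 * (X * Real.exp ε) := by
    rw [d2, abs_mul, abs_of_nonneg r2]
    gcongr
  have b2' : 0 ≤ (1 + Real.log T) * X * S3 := by positivity
  have bL : |BK KL f f| ≤ (2 * Real.exp ε + Cf) * S3 * ((1 + Real.log T) * X) := by
    rw [dL]
    refine (abs_add_le _ _).trans ?_
    rw [abs_mul, abs_mul, abs_of_nonneg r2, abs_of_nonneg r4]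
    calc BK KL (rz p0 Y z) (rz p0 Y z) * |BK K2 q q| + BK K2 (rz p0 Y z) (rz p0 Y z) * |BK KL q q|
        ≤ (2 * Real.log z * S3) * (X * Real.exp ε) + S3 * (Cf * (1 + Y) * X) := by gcongr
      _ ≤ (2 * (1 + Real.log T) * S3) * (X * Real.exp ε) + S3 * (Cf * (1 + Real.log T) * X) := by
          gcongr
          linarith
      _ = _ := by ring
  have key : K.m2 * (Real.log T * BK K2 f f - BK KL f f) + C1 * |BK K2 f f|
      ≤ (K.m2 + C1) * (3 * Real.exp ε + Cf) * S3 * ((1 + Real.log T) * X) := by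
    have a1 : Real.log T * BK K2 f f ≤ Real.log T * |BK K2 f f| :=
      mul_le_mul_of_nonneg_left (le_abs_self _) hlog
    have a2 := neg_abs_le (BK KL f f)
    have a3 : Real.log T * BK K2 f f - BK KL f f ≤ (3 * Real.exp ε + Cf) * S3 * ((1 + Real.log T) * X) := by
      have : Real.log T * |BK K2 f f| ≤ (1 + Real.log T) * (S3 * (X * Real.exp ε)) := by
        gcongr
        linarith
      calc Real.log T * BK K2 f f - BK KL f f ≤ Real.log T * |BK K2 f f| + |BK KL f f| := by linarith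
        _ ≤ (1 + Real.log T) * (S3 * (X * Real.exp ε))
            + (2 * Real.exp ε + Cf) * S3 * ((1 + Real.log T) * X) := by linarith
        _ = _ := by ring
    have a4 : |BK K2 f f| ≤ (3 * Real.exp ε + Cf) * S3 * ((1 + Real.log T) * X) := by
      refine b2.trans ?_
      have e1 : 0 ≤ (2 * Real.exp ε + Cf) * ((1 + Real.log T) * X * S3) := by positivity
      have e2 : 0 ≤ Real.exp ε * (Real.log T * X * S3) := by positivity
      linarith
    calc K.m2 * (Real.log T * BK K2 f f - BK KL f f) + C1 * |BK K2 f f|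
        ≤ K.m2 * ((3 * Real.exp ε + Cf) * S3 * ((1 + Real.log T) * X))
          + C1 * ((3 * Real.exp ε + Cf) * S3 * ((1 + Real.log T) * X)) := by gcongr
      _ = _ := by ring
  calc Real.pi * ∫ x in Ioi (0 : ℝ), QQ (K.phi T) f x ^ 2
      ≤ Real.pi * (1 / T * (K.m2 * (Real.log T * BK K2 f f - BK KL f f)
        + C1 * |BK K2 f f| + R)) := mul_le_mul_of_nonneg_left hU hpi.le
    _ ≤ Real.pi * (1 / T * ((K.m2 + C1) * (3 * Real.exp ε + Cf) * S3 * ((1 + Real.log T) * X)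
        + R)) := by gcongr
    _ = _ := by ring

end Pool.Agent.Lib.MP_f9aece_nt_h97
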