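import Mathlib
import Pool.Agent.Lib.MP_f9aece_nt_h24.LevelEnergy
import Pool.Agent.Lib.MP_f9aece_nt_h85.EnergyDiff
import Pool.Agent.Lib.MP_f9aece_nt_h85.BadSet

/-!
The energy of zeta times the polynomial of a level, on the set where the mollified value at the
previous level is large.
-/

set_option autoImplicit false

namespace Pool.Agent.Lib.MP_f9aece_nt_h97

open MeasureTheory Set Filter Topology Complex
open Pool.Agent.Lib.MP_f9aece_nt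
open Pool.Agent.Lib.MP_f9aece_nt_h40 (FS FR EI dlb_EI Wsc)
open Pool.Agent.Lib.MP_f9aece_nt_h85 (Pst Rst rz SR SR_nonneg sc_subset_Pst DLB Bd bd_rz_mul wgt
  zeta_energy energy_full level_bound log_le_SR rset mem_rset)

/-- the long energy bound, with constants `C1`, `T1` -/
def LE (K : Ker) (C1 T1 : ℝ) : Prop :=
  ∀ T : ℝ, T1 ≤ T → ∀ τ H F : ℝ, Real.log T ^ 10 ≤ τ → 1 ≤ H → H * τ ^ 24 ≤ T ^ (1 / 2 : ℝ) → 0 ≤ F →
    ∀ f : DP, (∀ n, f.coeff n ≠ 0 → 1 ≤ n ∧ (n : ℝ) ≤ H) → (∀ n, |f.coeff n| ≤ F) →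
    ∫ x in Ioi (0 : ℝ), QQ (K.phi T) f x ^ 2
      ≤ 1 / T * (K.m2 * (Real.log T * BK K2 f f - BK KL f f) + C1 * |BK K2 f f|
        + C1 * (F ^ 2 / τ ^ 2))

/-- Chebyshev's inequality -/
theorem cheb {K : Ker} {T : ℝ} (hT : 2 * K.L ≤ T) {f d : DP} (hf : ∀ k, f.coeff k ≠ 0 → 1 ≤ k)
    (hd : ∀ k, d.coeff k ≠ 0 → 1 ≤ k) {V : ℝ} (hV : 0 < V) {B : Set ℝ} (hB : MeasurableSet B)
    (hBT : B ⊆ Icc 0 T) (hBV : ∀ t ∈ B, V ≤ ‖riemannZeta (1 / 2 + I * t) * ev t d‖)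
    (hi : IntegrableOn (fun t : ℝ => (‖ev t f‖ * wgt K T t) ^ 2) B) :
    ∫ t in B, (‖ev t f‖ * wgt K T t) ^ 2
      ≤ (V ^ 2)⁻¹ * (Real.pi * ∫ x in Ioi (0 : ℝ), QQ (K.phi T) (f * d) x ^ 2) := by
  obtain ⟨z1, z2⟩ := zeta_energy (K := K) hT (Ker.supp_mul hf hd)
  have h1 : ∫ t in B, (‖ev t f‖ * wgt K T t) ^ 2
      ≤ ∫ t in B, (V ^ 2)⁻¹ * (‖riemannZeta (1 / 2 + I * t) * ev t (f * d)‖ * wgt K T t) ^ 2 := by
    refine setIntegral_mono_on hi ((z1.mono_set hBT).const_mul _) hB fun t ht => ?_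
    have e4 := hBV t ht
    obtain ⟨w, hw⟩ : ∃ w, w = wgt K T t := ⟨_, rfl⟩
    have hw0 : 0 ≤ w := by rw [hw]; exact norm_nonneg _
    rw [← hw, le_inv_mul_iff₀ (by positivity), ← mul_pow]
    have e5 : ‖riemannZeta (1 / 2 + I * t) * ev t (f * d)‖
        = ‖riemannZeta (1 / 2 + I * t) * ev t d‖ * ‖ev t f‖ := by
      rw [map_mul (ev t) f d, norm_mul, norm_mul, norm_mul]
      ring
    rw [e5]
    have e6 : V * (‖ev t f‖ * w) ≤ ‖riemannZeta (1 / 2 + I * t) * ev t d‖ * ‖ev t f‖ * w := by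
      rw [← mul_assoc]
      have := norm_nonneg (ev t f)
      gcongr
    have e7 : 0 ≤ V * (‖ev t f‖ * w) := by positivity
    gcongr
  refine h1.trans ?_
  rw [integral_const_mul]
  refine mul_le_mul_of_nonneg_left (le_trans ?_ z2) (by positivity)
  exact setIntegral_mono_set z1 (Eventually.of_forall fun t => by positivity)
    (LE.le.eventuallyLE hBT)


lemma SR_one_le {p0 : ℕ} {Y z : ℝ} (hz : 1 ≤ z) : 1 ≤ SR p0 Y z := by
  have h1 : 1 ∈ rset p0 Y z := by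
    rw [mem_rset]
    exact ⟨⟨le_rfl, Nat.le_floor (by simpa using hz)⟩, one_mem_Smo _⟩
  have h2 := Finset.single_le_sum (f := fun n : ℕ => ((n : ℝ))⁻¹) (s := rset p0 Y z)
    (fun _ _ => by positivity) h1
  unfold SR
  simpa using h2

/-- the error term of the test function -/
lemma tiny_level {T τ H F : ℝ} (hT : 1 ≤ T) (hτ : 1 + Real.log T ≤ τ) (hH : 1 ≤ H)
    (hHT : H * τ ^ 24 ≤ T ^ (1 / 2 : ℝ)) (hF0 : 0 ≤ F) (hF : F ≤ τ) :
    F ^ 3 * H ^ 2 * (1 + Real.log H) ^ 2 / T ^ 2 ≤ 1 / T := by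
  have hT0 : 0 < T := by linarith
  have hlT : 0 ≤ Real.log T := Real.log_nonneg hT
  have hlH : 0 ≤ Real.log H := Real.log_nonneg hH
  have hτ1 : 1 ≤ τ := by linarith
  have hsq : (T ^ (1 / 2 : ℝ)) ^ 2 = T := by
    rw [← Real.rpow_natCast, ← Real.rpow_mul hT0.le]
    norm_num
  have hHτ : H ≤ H * τ ^ 24 := le_mul_of_one_le_right (by linarith) (one_le_pow₀ hτ1)
  have h12 : T ^ (1 / 2 : ℝ) ≤ T := by
    calc T ^ (1 / 2 : ℝ) ≤ T ^ (1 : ℝ) := Real.rpow_le_rpow_of_exponent_le hT (by norm_num)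
      _ = T := Real.rpow_one T
  have hlog : Real.log H ≤ Real.log T := Real.log_le_log (by linarith) (by linarith)
  have h1 : (1 + Real.log H) ^ 2 ≤ τ ^ 2 := by
    have : 1 + Real.log H ≤ τ := by linarith
    gcongr
  have h2 : F ^ 3 ≤ τ ^ 3 := by gcongr
  have h3 : (H * τ ^ 24) ^ 2 ≤ T := by
    calc (H * τ ^ 24) ^ 2 ≤ (T ^ (1 / 2 : ℝ)) ^ 2 := by gcongr
      _ = T := hsq
  rw [div_le_div_iff₀ (by positivity) hT0, one_mul]
  have h4 : F ^ 3 * H ^ 2 * (1 + Real.log H) ^ 2 ≤ T := by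
    calc F ^ 3 * H ^ 2 * (1 + Real.log H) ^ 2 ≤ τ ^ 3 * H ^ 2 * τ ^ 2 := by gcongr
      _ = H ^ 2 * τ ^ 5 := by ring
      _ ≤ H ^ 2 * τ ^ 48 := by
          have : τ ^ 5 ≤ τ ^ 48 := pow_le_pow_right₀ hτ1 (by norm_num)
          gcongr
      _ = (H * τ ^ 24) ^ 2 := by ring
      _ ≤ T := h3
  calc F ^ 3 * H ^ 2 * (1 + Real.log H) ^ 2 * T ≤ T * T := by gcongr
    _ = T ^ 2 := by ring

/-- bounds of the polynomials of a level -/
lemma level_bds {m p0 J : ℕ} {b Y z : ℝ} (hb : |b| ≤ 1) (hY : 0 < Y) (hz : 1 ≤ z) :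
    Bd (DD (2 * m) p0 b (Y / 4) J) (z * Real.exp (6 * m * Y)) (Real.exp (2 * J + 1 + 6 * m * Y)) ∧
    Bd (rz p0 Y z * EI m p0 Y (J + 1)) (z * Real.exp (6 * m * Y)) (Real.exp (2 * J + 1 + 6 * m * Y)) ∧
    Bd (DD (2 * m) p0 b (Y / 4) J * (rz p0 Y z * EI m p0 Y (J + 1))) (z * Real.exp (6 * m * Y))
      (Real.exp (2 * J + 1 + 6 * m * Y)) ∧
    Bd (rz p0 Y z * qq m p0 b Y J) (z * Real.exp (6 * m * Y)) (Real.exp (2 * J + 1 + 6 * m * Y)) := by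
  have hY4 : 0 < Y / 4 := by positivity
  have hmY : (0 : ℝ) ≤ m * Y := by positivity
  have hJ0 : (0 : ℝ) ≤ J := Nat.cast_nonneg J
  have hz0 : 0 ≤ z := by linarith
  have dn : DLB (DD (2 * m) p0 b (Y / 4) J) (2 * (2 * m : ℕ) * (Y / 4)) (J + 2 * (2 * m : ℕ) * (Y / 4)) :=
    DLB.DD hY4 (2 * m) p0 hb J
  have dE : DLB (EI m p0 Y (J + 1)) (2 * m * Y) (2 * m * Y) := dlb_EI hY
  refine ⟨?_, ?_, ?_, bd_rz_mul hz0 (dlb_qq hY hb)⟩
  · refine dn.bd.mono ?_ ?_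
    · refine le_trans (Real.exp_le_exp.mpr ?_) (le_mul_of_one_le_left (Real.exp_pos _).le hz)
      push_cast; linarith only [hmY]
    · apply Real.exp_le_exp.mpr
      push_cast; linarith only [hmY, hJ0]
  · refine (bd_rz_mul hz0 dE).mono ?_ ?_
    · have : Real.exp (2 * m * Y) ≤ Real.exp (6 * m * Y) :=
        Real.exp_le_exp.mpr (by linarith only [hmY])
      gcongr
    · apply Real.exp_le_exp.mpr
      linarith only [hmY, hJ0]
  · have e : DD (2 * m) p0 b (Y / 4) J * (rz p0 Y z * EI m p0 Y (J + 1))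
        = rz p0 Y z * (EI m p0 Y (J + 1) * DD (2 * m) p0 b (Y / 4) J) := by ring
    rw [e]
    refine (bd_rz_mul hz0 (dE.mul dn)).mono ?_ ?_
    · have : Real.exp (2 * m * Y + 2 * (2 * m : ℕ) * (Y / 4)) ≤ Real.exp (6 * m * Y) := by
        apply Real.exp_le_exp.mpr
        push_cast; linarith only [hmY]
      gcongr
    · apply Real.exp_le_exp.mpr
      push_cast; linarith only [hmY, hJ0]

lemma len_small {L T τ H : ℝ} (hL : 0 < L) (hT : 64 * L ^ 2 ≤ T) (hτ : 1 ≤ τ) (hH : 1 ≤ H)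
    (hHT : H * τ ^ 24 ≤ T ^ (1 / 2 : ℝ)) : 4 * L * H < T := by
  have hT0 : 0 < T := lt_of_lt_of_le (by positivity) hT
  have hsqT : (T ^ (1 / 2 : ℝ)) ^ 2 = T := by
    rw [← Real.rpow_natCast, ← Real.rpow_mul hT0.le]
    norm_num
  have hT12 : 8 * L ≤ T ^ (1 / 2 : ℝ) := by
    have h1 : (8 * L) ^ 2 ≤ (T ^ (1 / 2 : ℝ)) ^ 2 := by rw [hsqT]; linarith
    exact (pow_le_pow_iff_left₀ (by positivity) (by positivity) (by norm_num)).mp h1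
  have hH2 : H ≤ T ^ (1 / 2 : ℝ) := le_trans (le_mul_of_one_le_right (by linarith) (one_le_pow₀ hτ)) hHT
  obtain ⟨x, hx⟩ : ∃ x, x = T ^ (1 / 2 : ℝ) := ⟨_, rfl⟩
  rw [← hx] at hT12 hH2 hsqT
  have hx0 : 0 < x := by linarith
  have h1 : 4 * L * H ≤ 4 * L * x := by gcongr
  have h2 : 0 < L * x := by positivity
  have h3 : 8 * L * x ≤ x * x := by gcongr
  have h4 : x * x = T := by rw [← sq]; exact hsqT
  linarith only [h1, h2, h3, h4]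

/-- the final computation -/
lemma level_arith {π' m2 C1 C Cf A1 c1 c2 c3 c4 T lT Lg X S ε' M R3 V Er G I1 I2 : ℝ}
    (hπ : 0 ≤ π') (hm2 : 0 ≤ m2) (hC1 : 0 ≤ C1) (hC : 0 ≤ C) (hCf : 0 ≤ Cf) (hA1 : 0 ≤ A1)
    (hc1 : c1 = 4 * π' * m2 * Real.exp 1) (hc2 : c2 = 2 * π' * m2 * Real.exp 1 * Cf)
    (hc3 : c3 = 2 * (π' * C1 * Real.exp 1 + π' * C1 + C)) (hc4 : c4 = 8 * (A1 + π' * C1))
    (hT : 0 < T) (hlT : 0 ≤ lT) (hLg : Lg = 1 + lT) (hX1 : 1 ≤ X) (hε' : 0 ≤ ε')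
    (hM : 0 < M) (hR3 : 0 ≤ R3) (hV : 0 < V) (hSX : S ≤ Real.exp 1 * X)
    (hEr : Er = π' * C1 * S + π' * C1) (hG : G ≤ 1 / T)
    (hlev : I1 ≤ 2 * (π' * m2 / T * (S * lT * (2 * ε' + Cf / M)) + Er / T + C * G) + 8 * I2)
    (hI2 : I2 ≤ (V ^ 2)⁻¹ * (1 / T * ((A1 + π' * C1) * (R3 * (Lg * X))))) :
    I1 ≤ (c1 + c2 + c3 + c4) / T * (Lg * X) * (ε' + M⁻¹ + Lg⁻¹ + R3 / V ^ 2) := by
  have he1 : (0 : ℝ) ≤ Real.exp 1 := (Real.exp_pos 1).le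
  have hc10 : 0 ≤ c1 := by rw [hc1]; positivity
  have hc20 : 0 ≤ c2 := by rw [hc2]; positivity
  have hc30 : 0 ≤ c3 := by rw [hc3]; positivity
  have hc40 : 0 ≤ c4 := by rw [hc4]; positivity
  have hLg1 : 1 ≤ Lg := by rw [hLg]; linarith only [hlT]
  have hLg0 : 0 < Lg := by linarith only [hLg1]
  have hX0 : 0 < X := by linarith only [hX1]
  have hTi : 0 < 1 / T := by positivity
  have t1 : S * lT ≤ Real.exp 1 * (Lg * X) := by
    have h1 : lT ≤ Lg := by rw [hLg]; linarith only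
    calc S * lT ≤ (Real.exp 1 * X) * Lg := by gcongr
      _ = _ := by ring
  have t2 : Er ≤ (π' * C1 * Real.exp 1 + π' * C1) * X := by
    rw [hEr]
    have h1 : π' * C1 * S ≤ π' * C1 * (Real.exp 1 * X) := by gcongr
    have h2 : π' * C1 ≤ π' * C1 * X := le_mul_of_one_le_right (by positivity) hX1
    linarith only [h1, h2]
  have p1 : 2 * (π' * m2 / T * (S * lT * (2 * ε' + Cf / M)))
      ≤ 1 / T * (Lg * X) * (c1 * ε' + c2 * M⁻¹) := by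
    have h1 : S * lT * (2 * ε' + Cf / M)
        ≤ Real.exp 1 * (Lg * X) * (2 * ε' + Cf / M) := by gcongr
    calc 2 * (π' * m2 / T * (S * lT * (2 * ε' + Cf / M)))
        ≤ 2 * (π' * m2 / T * (Real.exp 1 * (Lg * X) * (2 * ε' + Cf / M))) := by gcongr
      _ = _ := by rw [hc1, hc2]; ring
  have p2 : 2 * (Er / T + C * G) ≤ 1 / T * (Lg * X) * (c3 * Lg⁻¹) := by
    have h1 : C * G ≤ C * (1 / T) := by gcongr
    have h2 : C * (1 / T) ≤ C * (1 / T) * X := le_mul_of_one_le_right (by positivity) hX1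
    have h3 : Er / T ≤ (π' * C1 * Real.exp 1 + π' * C1) * X / T := by gcongr
    have e : 1 / T * (Lg * X) * (c3 * Lg⁻¹)
        = 2 * ((π' * C1 * Real.exp 1 + π' * C1) * X / T + C * (1 / T) * X) := by
      rw [hc3]
      field_simp
    rw [e]
    linarith only [h1, h2, h3]
  have p3 : 8 * I2 ≤ 1 / T * (Lg * X) * (c4 * (R3 / V ^ 2)) := by
    have h2 := mul_le_mul_of_nonneg_left hI2 (by norm_num : (0 : ℝ) ≤ 8)
    refine h2.trans (le_of_eq ?_)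
    rw [hc4]
    field_simp
  have hsum : I1 ≤ 1 / T * (Lg * X) * (c1 * ε' + c2 * M⁻¹ + c3 * Lg⁻¹ + c4 * (R3 / V ^ 2)) := by
    linarith only [p1, p2, p3, hlev]
  refine hsum.trans ?_
  have hfin : c1 * ε' + c2 * M⁻¹ + c3 * Lg⁻¹ + c4 * (R3 / V ^ 2)
      ≤ (c1 + c2 + c3 + c4) * (ε' + M⁻¹ + Lg⁻¹ + R3 / V ^ 2) := by
    have a1 : 0 ≤ M⁻¹ := by positivity
    have a2 : 0 ≤ Lg⁻¹ := by positivity
    have a3 : 0 ≤ R3 / V ^ 2 := by positivity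
    have g1 : c1 * ε' ≤ (c1 + c2 + c3 + c4) * ε' :=
      mul_le_mul_of_nonneg_right (by linarith only [hc20, hc30, hc40]) hε'
    have g2 : c2 * M⁻¹ ≤ (c1 + c2 + c3 + c4) * M⁻¹ :=
      mul_le_mul_of_nonneg_right (by linarith only [hc10, hc30, hc40]) a1
    have g3 : c3 * Lg⁻¹ ≤ (c1 + c2 + c3 + c4) * Lg⁻¹ :=
      mul_le_mul_of_nonneg_right (by linarith only [hc10, hc20, hc40]) a2
    have g4 : c4 * (R3 / V ^ 2) ≤ (c1 + c2 + c3 + c4) * (R3 / V ^ 2) :=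
      mul_le_mul_of_nonneg_right (by linarith only [hc10, hc20, hc30]) a3
    linarith only [g1, g2, g3, g4]
  have hpos : 0 ≤ 1 / T * (Lg * X) := by positivity
  calc 1 / T * (Lg * X) * (c1 * ε' + c2 * M⁻¹ + c3 * Lg⁻¹ + c4 * (R3 / V ^ 2))
      ≤ 1 / T * (Lg * X) * ((c1 + c2 + c3 + c4) * (ε' + M⁻¹ + Lg⁻¹ + R3 / V ^ 2)) :=
        mul_le_mul_of_nonneg_left hfin hpos
    _ = _ := by ring

/-- **one level**: the energy of zeta times the polynomial of a level, on the set where the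
mollified value at the previous level is large -/
theorem level_tail (K : Ker) {C1 T1 Cf : ℝ} (hC1 : 0 ≤ C1) (hCf : 0 ≤ Cf) (hLE : LE K C1 T1) :
    ∃ C3 T3 : ℝ, 0 ≤ C3 ∧ ∀ T : ℝ, T3 ≤ T → ∀ (m p0 J : ℕ) (b Y ε z τ V ε' Cg : ℝ),
      ε ≤ 1 → 0 ≤ b → b ≤ 1 → FS Cf ε m p0 b Y J → FR Cg ε (2 * m) p0 b (Y / 4) J →
      0 < Y → Y / 4 ^ (J + 1) < Real.log 2 → Y ≤ Real.log T → Cf / 2 ^ m ≤ 1 → 0 ≤ ε' → 1 ≤ z →
      z ≤ T → (1 / 2 - ε') * Real.log T ≤ Real.log z → Real.log T ^ 10 ≤ τ →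
      z * Real.exp (6 * m * Y) * τ ^ 24 ≤ T ^ (1 / 2 : ℝ) → Real.exp (2 * J + 1 + 6 * m * Y) ≤ τ →
      0 < V → ∀ B : Set ℝ, MeasurableSet B → B ⊆ Icc 0 T →
      (∀ t ∈ B, V ≤ ‖riemannZeta (1 / 2 + I * t) * ev t (DD m p0 (-1) Y (J + 1))‖) →
      ∫ t in B, (‖riemannZeta (1 / 2 + I * t) * ev t (DD (2 * m) p0 b (Y / 4) J)‖ * wgt K T t) ^ 2
        ≤ C3 / T * ((1 + Real.log T)
            * Real.exp ((2 * b + b ^ 2) * ∑ j ∈ Finset.range J, VV (sc (Y / 4) p0 j)))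
          * (ε' + (2 ^ m)⁻¹ + (1 + Real.log T)⁻¹ + SR p0 Y z ^ 3 / V ^ 2) := by
  obtain ⟨C, hC, hLB⟩ := level_bound K
  have hL := K.hL
  have hm2 := K.m2_nonneg
  have hpi := Real.pi_pos
  have he1 : (0 : ℝ) ≤ Real.exp 1 := (Real.exp_pos 1).le
  obtain ⟨A1, hA1⟩ : ∃ A1, A1 = Real.pi * (K.m2 + C1) * (3 * Real.exp 1 + Cf) := ⟨_, rfl⟩
  have hA10 : 0 ≤ A1 := by rw [hA1]; positivity
  obtain ⟨c1, hc1⟩ : ∃ c1, c1 = 4 * Real.pi * K.m2 * Real.exp 1 := ⟨_, rfl⟩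
  obtain ⟨c2, hc2⟩ : ∃ c2, c2 = 2 * Real.pi * K.m2 * Real.exp 1 * Cf := ⟨_, rfl⟩
  obtain ⟨c3, hc3⟩ : ∃ c3, c3 = 2 * (Real.pi * C1 * Real.exp 1 + Real.pi * C1 + C) := ⟨_, rfl⟩
  obtain ⟨c4, hc4⟩ : ∃ c4, c4 = 8 * (A1 + Real.pi * C1) := ⟨_, rfl⟩
  have hc10 : 0 ≤ c1 := by rw [hc1]; positivity
  have hc20 : 0 ≤ c2 := by rw [hc2]; positivity
  have hc30 : 0 ≤ c3 := by rw [hc3]; positivity
  have hc40 : 0 ≤ c4 := by rw [hc4]; positivity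
  refine ⟨c1 + c2 + c3 + c4, max (max T1 (Real.exp 2)) (max (2 * K.L) (64 * K.L ^ 2)), by positivity, ?_⟩
  intro T hT m p0 J b Y ε z τ V ε' Cg hε hb0 hb1 hFS hFR hY hJ hYT hη hε' hz hzT hzε hτ hHτ hFτ hV B hB hBT
    hBV
  have hT1 : T1 ≤ T := ((le_max_left _ _).trans (le_max_left _ _)).trans hT
  have hTe : Real.exp 2 ≤ T := ((le_max_right _ _).trans (le_max_left _ _)).trans hT
  have hTL : 2 * K.L ≤ T := ((le_max_left _ _).trans (le_max_right _ _)).trans hT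
  have hTL2 : 64 * K.L ^ 2 ≤ T := ((le_max_right _ _).trans (le_max_right _ _)).trans hT
  have hT0 : 0 < T := (Real.exp_pos 2).trans_le hTe
  have hlog2 : 2 ≤ Real.log T := by rwa [Real.le_log_iff_exp_le hT0]
  have hTone : 1 ≤ T := (Real.one_le_exp (by norm_num)).trans hTe
  have hlog0 : 0 ≤ Real.log T := by linarith only [hlog2]
  have hτlog : 1 + Real.log T ≤ τ := by
    refine le_trans ?_ hτ
    have h1 : Real.log T ^ 2 ≤ Real.log T ^ 10 := pow_le_pow_right₀ (by linarith) (by norm_num)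
    nlinarith only [h1, hlog2]
  have hτ1 : 1 ≤ τ := by linarith only [hτlog, hlog0]
  have hb : |b| ≤ 1 := by rw [abs_of_nonneg hb0]; exact hb1
  obtain ⟨bn, bc, bnc, bq⟩ := level_bds (m := m) (p0 := p0) (J := J) hb hY hz
  obtain ⟨n, hn⟩ : ∃ n : DP, n = DD (2 * m) p0 b (Y / 4) J := ⟨_, rfl⟩
  obtain ⟨E, hE⟩ : ∃ E : DP, E = EI m p0 Y (J + 1) := ⟨_, rfl⟩
  obtain ⟨D, hD⟩ : ∃ D : DP, D = DD m p0 (-1) Y (J + 1) := ⟨_, rfl⟩
  obtain ⟨V', hV'⟩ : ∃ V', V' = ∑ j ∈ Finset.range J, VV (sc (Y / 4) p0 j) := ⟨_, rfl⟩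
  obtain ⟨S, hS⟩ : ∃ S, S = BK K2 n n := ⟨_, rfl⟩
  have hV'0 : 0 ≤ V' := by rw [hV']; exact Finset.sum_nonneg fun _ _ => VV_nonneg _
  have hS1 : 1 ≤ S := by rw [hS, hn]; exact hFR.s_one
  have hS0 : 0 ≤ S := by linarith only [hS1]
  obtain ⟨X, hX⟩ : ∃ X, X = Real.exp ((2 * b + b ^ 2) * V') := ⟨_, rfl⟩
  have hX1 : 1 ≤ X := by rw [hX]; exact Real.one_le_exp (by positivity)
  have hSX : S ≤ Real.exp 1 * X := by
    rw [hS, hn, hX, ← Real.exp_add, hV']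
    refine hFR.s_le.trans (Real.exp_le_exp.mpr ?_)
    linarith only [hε]
  have hmY : (0 : ℝ) ≤ m * Y := by positivity
  have hJ0 : (0 : ℝ) ≤ J := Nat.cast_nonneg J
  obtain ⟨H, hH⟩ : ∃ H, H = z * Real.exp (6 * m * Y) := ⟨_, rfl⟩
  obtain ⟨F, hF⟩ : ∃ F, F = Real.exp (2 * J + 1 + 6 * m * Y) := ⟨_, rfl⟩
  have hexp6 : 1 ≤ Real.exp (6 * m * Y) := Real.one_le_exp (by linarith only [hmY])
  have hH1 : 1 ≤ H := by rw [hH]; nlinarith only [hexp6, hz]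
  have hF1 : 1 ≤ F := by rw [hF]; exact Real.one_le_exp (by linarith only [hmY, hJ0])
  rw [← hn, ← hH, ← hF] at bn
  rw [← hE, ← hH, ← hF] at bc
  rw [← hn, ← hE, ← hH, ← hF] at bnc
  rw [← hH, ← hF] at bq
  rw [← hH] at hHτ
  rw [← hF] at hFτ
  have hF0 : 0 ≤ F := by linarith only [hF1]
  have hF2 : F ^ 2 / τ ^ 2 ≤ 1 := by
    rw [div_le_one (by positivity)]
    gcongr
  have hCF : C1 * (F ^ 2 / τ ^ 2) ≤ C1 := mul_le_of_le_one_right hC1 hF2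
  -- the energy of `zeta n`
  have hQ : Real.pi * (∫ x in Ioi (0 : ℝ), QQ (K.phi T) n x ^ 2)
      ≤ 1 / T * (Real.pi * K.m2 * (Real.log T * S) + (Real.pi * C1 * S + Real.pi * C1)) := by
    have h1 := hLE T hT1 τ H F hτ hH1 hHτ hF0 n bn.1 bn.2
    have h2 : 0 ≤ BK KL n n := by rw [hn]; exact hFR.kln_nonneg
    have h3 : ∫ x in Ioi (0 : ℝ), QQ (K.phi T) n x ^ 2
        ≤ 1 / T * (K.m2 * (Real.log T * S) + C1 * S + C1) := by
      refine h1.trans (mul_le_mul_of_nonneg_left ?_ (by positivity))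
      rw [← hS, abs_of_nonneg hS0]
      have h4 : K.m2 * (Real.log T * S - BK KL n n) ≤ K.m2 * (Real.log T * S) :=
        mul_le_mul_of_nonneg_left (by linarith only [h2]) hm2
      linarith only [h4, hCF]
    have h4 := mul_le_mul_of_nonneg_left h3 hpi.le
    refine h4.trans (le_of_eq (by ring))
  -- the Euler product
  have hbU : (Finset.range (J + 1)).biUnion (sc Y p0) = Pst p0 Y :=
    Pool.Agent.Lib.MP_f9aece_nt_h40.biUnion_sc_eq hY hJ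
  have hW : (1 / 2 - ε') * Real.log T ≤ SR p0 Y z * Wsc p0 Y (J + 1) := by
    refine hzε.trans ?_
    unfold Wsc
    rw [hbU]
    exact log_le_SR hz
  have hE1 : Wsc p0 Y (J + 1) * S * (1 - Cf / 2 ^ m)
      ≤ 2 * BK (Kcs 1) n (E * n) - BK K1 (E * n) (E * n) := by
    have h1 := hFS.e1
    rw [← hn, ← hE, ← hS] at h1
    refine le_trans (le_of_eq (by ring)) h1
  have hsup : (⋃ j ∈ Finset.range (J + 1), (sc Y p0 j : Set ℕ)) ⊆ (Pst p0 Y : Set ℕ) :=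
    sc_subset_Pst (J + 1)
  have sn : Sup (Smo (Pst p0 Y : Set ℕ)) n := by rw [hn]; exact hFS.supn.mono (Smo_mono hsup)
  have sE : Sup (Smo (Pst p0 Y : Set ℕ)) E := by rw [hE]; exact hFS.supE.mono (Smo_mono hsup)
  have h4H : 4 * K.L * H < T := len_small (by linarith only [hL]) hTL2 hτ1 hH1 hHτ
  have hη0 : 0 ≤ Cf / 2 ^ m := by positivity
  have hlev := hLB T H F hTL hTone hH1 h4H hF1 p0 Y z n E sn sE bn.1 bc.1 bnc.1 bn.2 bc.2 bnc.2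
    S (Wsc p0 Y (J + 1)) (Cf / 2 ^ m) ε' (Real.pi * C1 * S + Real.pi * C1) hS0 hη0 hη hε' hQ hE1
    hW (B ∩ Ioc 0 T) (hB.inter measurableSet_Ioc) inter_subset_right
  have hBB' : ∫ t in B, (‖riemannZeta (1 / 2 + I * t) * ev t n‖ * wgt K T t) ^ 2
      = ∫ t in B ∩ Ioc 0 T, (‖riemannZeta (1 / 2 + I * t) * ev t n‖ * wgt K T t) ^ 2 := by
    refine setIntegral_congr_set ?_
    have h0 : ∀ᵐ t : ℝ ∂volume, t ≠ 0 := by
      rw [ae_iff]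
      simp
    filter_upwards [h0] with t ht
    refine propext ⟨fun h => ⟨h, lt_of_le_of_ne (hBT h).1 (Ne.symm ht), (hBT h).2⟩, fun h => h.1⟩
  obtain ⟨f1, -⟩ := energy_full (K := K) hTL hH1 h4H bnc.1
  have hd1 : ∀ k, D.coeff k ≠ 0 → 1 ≤ k := by
    rw [hD]
    exact fun k hk => ((DLB.DD hY m p0 (c := -1) (by rw [abs_neg, abs_one]) (J + 1)).bd.1 k hk).1
  have hch := cheb (K := K) hTL (f := n * (rz p0 Y z * E)) (d := D) (fun k hk => (bnc.1 k hk).1) hd1 hV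
    (B := B ∩ Ioc 0 T) (hB.inter measurableSet_Ioc) (fun t ht => hBT ht.1)
    (fun t ht => by rw [hD]; exact hBV t ht.1) (f1.mono_set fun t ht => ht.2.1)
  -- the last energy
  have hc2' := c2_of (K := K) (C1 := C1) (R := C1) (Cf := Cf) (ε := ε) hC1 hCf hFS hTone hz hzT hYT (by
    have h1 := hLE T hT1 τ H F hτ hH1 hHτ hF0 (rz p0 Y z * qq m p0 b Y J) bq.1 bq.2
    refine h1.trans (mul_le_mul_of_nonneg_left ?_ (by positivity))
    linarith only [hCF])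
  rw [← hn, ← hE, ← hD, ← hV', ← hX] at hc2'
  have hSR1 : 1 ≤ SR p0 Y z := SR_one_le hz
  obtain ⟨R3, hR3⟩ : ∃ R3, R3 = SR p0 Y z ^ 3 := ⟨_, rfl⟩
  have hR31 : 1 ≤ R3 := by rw [hR3]; exact one_le_pow₀ hSR1
  rw [← hR3] at hc2'
  obtain ⟨Lg, hLg⟩ : ∃ Lg, Lg = 1 + Real.log T := ⟨_, rfl⟩
  have hLg1 : 1 ≤ Lg := by rw [hLg]; linarith only [hlog0]
  have hUX : 1 ≤ Lg * X := by nlinarith only [hLg1, hX1]
  have hq : Real.pi * ∫ x in Ioi (0 : ℝ), QQ (K.phi T) (n * (rz p0 Y z * E) * D) x ^ 2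
      ≤ 1 / T * ((A1 + Real.pi * C1) * (R3 * (Lg * X))) := by
    refine hc2'.trans (mul_le_mul_of_nonneg_left ?_ (by positivity))
    rw [← hLg]
    have h0 : 0 ≤ R3 * (Lg * X) := by positivity
    have hA : Real.pi * (K.m2 + C1) * (3 * Real.exp ε + Cf) ≤ A1 := by
      rw [hA1]
      have : Real.exp ε ≤ Real.exp 1 := Real.exp_le_exp.mpr hε
      gcongr
    have h1 : Real.pi * (K.m2 + C1) * (3 * Real.exp ε + Cf) * R3 * (Lg * X) ≤ A1 * (R3 * (Lg * X)) := by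
      rw [mul_assoc]
      exact mul_le_mul_of_nonneg_right hA h0
    have h2 : 1 ≤ R3 * (Lg * X) := by nlinarith only [hR31, hUX]
    have h3 : Real.pi * C1 ≤ Real.pi * C1 * (R3 * (Lg * X)) :=
      le_mul_of_one_le_right (by positivity) h2
    linarith only [h1, h3]
  have htiny := tiny_level hTone hτlog hH1 hHτ hF0 hFτ
  rw [← hn, hBB', ← hV', ← hX, ← hR3, ← hLg]
  exact level_arith hpi.le hm2 hC1 hC hCf hA10 hc1 hc2 hc3 hc4 hT0 hlog0 hLg hX1 hε'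
    (by positivity) (by linarith only [hR31]) hV hSX rfl htiny hlev
    (hch.trans (mul_le_mul_of_nonneg_left hq (by positivity)))

end Pool.Agent.Lib.MP_f9aece_nt_h97
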