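import Mathlib
import Pool.Agent.Lib.MP_f9aece_nt_h24.LevelTail
import Pool.Agent.Lib.MP_f9aece_nt_h24.RightPoint

/-!
The contribution of one level, in terms of the parameters.
-/

set_option autoImplicit false

namespace Pool.Agent.Lib.MP_f9aece_nt_h97

open MeasureTheory Set Filter Topology Complex
open Pool.Agent.Lib.MP_f9aece_nt
open Pool.Agent.Lib.MP_f9aece_nt_h40 (FS FR forms_right forms_split)
open Pool.Agent.Lib.MP_f9aece_nt_h85 (SR SR_nonneg SR_le Krz Krz_le wgt zeta_energy)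
open Pool.Agent.Lib.MP_f9aece_nt_h22 (VS sum_VV_eq_VS VS_le_loglog long_energy_unif)

theorem LE_exists (K : Ker) : ∃ C1 T1 : ℝ, 0 ≤ C1 ∧ LE K C1 T1 := by
  obtain ⟨C, hC, h⟩ := long_energy_unif K
  refine ⟨C, Real.exp (2 * K.L + 2), hC, ?_⟩
  intro T hT τ H F hτ hH hHτ hF f hf hfF
  have hL := K.hL
  have hT0 : 0 < T := (Real.exp_pos _).trans_le hT
  have hlog : 2 * K.L + 2 ≤ Real.log T := by rwa [Real.le_log_iff_exp_le hT0]
  have hT1 : 1 ≤ T := (Real.one_le_exp (by linarith)).trans hT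
  have hlog1 : 1 ≤ Real.log T := by linarith
  have h1 : Real.log T ≤ Real.log T ^ 10 := le_self_pow₀ hlog1 (by norm_num)
  have hτ1 : Real.log T ≤ τ := h1.trans hτ
  have hτ2 : 1 ≤ τ := by linarith
  have h2 : τ ≤ τ ^ 12 := le_self_pow₀ hτ2 (by norm_num)
  have h3 := (h T τ H hT1 hτ2 hH (by linarith) (by linarith) hHτ f F hF hfF hf).2
  refine h3.trans (mul_le_mul_of_nonneg_left ?_ (by positivity))
  have h4 : F ^ 2 / τ ^ 3 ≤ F ^ 2 / τ ^ 2 := by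
    have : τ ^ 2 ≤ τ ^ 3 := pow_le_pow_right₀ hτ2 (by norm_num)
    gcongr
  have h5 := mul_le_mul_of_nonneg_left h4 hC
  linarith

/-- the main factor of a level -/
lemma main_factor {lT b Y : ℝ} {p0 J : ℕ} (hl : 1 ≤ lT) (hb0 : 0 ≤ b) (hY : 4 ≤ Y)
    (hYl : 43 * Y ≤ lT) (hJ : Y / 4 ^ (J + 1) < Real.log 2) :
    (1 + lT) * Real.exp ((2 * b + b ^ 2) * ∑ j ∈ Finset.range J, VV (sc (Y / 4) p0 j))
      ≤ 2 * lT ^ ((1 + b) ^ 2) := by
  have hl0 : 0 < lT := by linarith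
  have hJ' : Y / 4 / 4 ^ J < Real.log 2 := by
    rwa [div_div, ← pow_succ']
  rw [sum_VV_eq_VS (by linarith) p0 hJ']
  have h1 : VS p0 (Y / 4) ≤ Real.log lT := by
    refine (VS_le_loglog (A := 43) le_rfl (by linarith) p0).trans ?_
    exact Real.log_le_log (by linarith) (by linarith)
  have h2 : Real.exp ((2 * b + b ^ 2) * VS p0 (Y / 4)) ≤ lT ^ (2 * b + b ^ 2) := by
    rw [Real.rpow_def_of_pos hl0, mul_comm]
    apply Real.exp_le_exp.mpr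
    gcongr
  have h3 : lT ^ ((1 + b) ^ 2) = lT * lT ^ (2 * b + b ^ 2) := by
    have : (1 + b) ^ 2 = 1 + (2 * b + b ^ 2) := by ring
    rw [this, Real.rpow_add hl0, Real.rpow_one]
  rw [h3]
  have h4 : 0 ≤ lT ^ (2 * b + b ^ 2) := by positivity
  calc (1 + lT) * Real.exp ((2 * b + b ^ 2) * VS p0 (Y / 4))
      ≤ (2 * lT) * lT ^ (2 * b + b ^ 2) := by
        gcongr
        linarith
    _ = _ := by ring

/-- **the contribution of one level** -/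
theorem level_part : ∃ C4 : ℝ, 0 ≤ C4 ∧ ∃ m1 p1 : ℕ, 4000 ≤ m1 ∧ 144 ≤ p1 ∧ ∃ T4 : ℝ,
    ∀ T : ℝ, T4 ≤ T → ∀ m : ℕ, m1 ≤ m → ∀ p0 : ℕ, p1 ≤ p0 → ∀ b : ℝ, 0 ≤ b → b ≤ 1 / 4 →
    ∀ (J μ : ℕ) (Y ε' V : ℝ), 4 ≤ Y → 43 * Y ≤ Real.log T → Y / 4 ^ (J + 1) < Real.log 2 →
    0 < ε' → ε' ≤ 1 / 4 → 480 * Real.log (Real.log T) ≤ ε' * Real.log T →
    48 * (2 * J + 1 + 6 * m * Y) ≤ ε' * Real.log T → 1 ≤ μ → Real.log T ≤ 160 * μ * Y → 0 < V →
    ∫ t in {t | t ∈ Icc 0 T ∧ V ≤ ‖riemannZeta (1 / 2 + I * t) * ev t (DD m p0 (-1) Y (J + 1))‖},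
        ‖riemannZeta (1 / 2 + I * t) * ev t (DD (2 * m) p0 b (Y / 4) J)‖ ^ 2
      ≤ C4 * (T * Real.log T ^ ((1 + b) ^ 2)) * (ε' + ((2 : ℝ) ^ m)⁻¹ + (Real.log T)⁻¹
          + (2 ^ p0 * (640 * (μ : ℝ)) ^ 24) ^ 3 / V ^ 2) := by
  obtain ⟨K, hK1, hK2⟩ := Ker.exists_good (ε := 1 / 4) (by norm_num) (by norm_num)
  obtain ⟨C1, T1, hC1, hLE⟩ := LE_exists K
  obtain ⟨Cf, hCf, hsplit⟩ := forms_split
  obtain ⟨Cg, hCg, hright⟩ := forms_right
  obtain ⟨C3, T3, hC3, htail⟩ := level_tail K hC1 hCf hLE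
  obtain ⟨ma, pa, hma, hpa, hFS⟩ := hsplit 1 one_pos
  obtain ⟨mb, pb, hmb, hpb, hFR⟩ := hright 1 one_pos
  obtain ⟨mc, hmc⟩ := exists_nat_ge Cf
  have hL := K.hL
  have hml := K.ml_nonneg
  refine ⟨8 * C3, by positivity, max ma (max mb mc), max pa pb, le_max_of_le_left hma,
    le_max_of_le_left hpa, max T3 (max (Real.exp 1) (16 * K.L ^ 2 * K.ml + 4 * K.L ^ 2)), ?_⟩
  intro T hT m hm p0 hp0 b hb0 hb1 J μ Y ε' V hY hYT hJ hε0 hε1 hll hlen hμ hμT hV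
  have hT3 : T3 ≤ T := (le_max_left _ _).trans hT
  have hTe : Real.exp 1 ≤ T := ((le_max_left _ _).trans (le_max_right _ _)).trans hT
  have hTK : 16 * K.L ^ 2 * K.ml + 4 * K.L ^ 2 ≤ T :=
    ((le_max_right _ _).trans (le_max_right _ _)).trans hT
  have hT0 : 0 < T := (Real.exp_pos 1).trans_le hTe
  obtain ⟨lT, hlT⟩ : ∃ lT, lT = Real.log T := ⟨_, rfl⟩
  have hl1 : 1 ≤ lT := by rw [hlT, Real.le_log_iff_exp_le hT0]; exact hTe
  have hl0 : 0 < lT := by linarith only [hl1]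
  have hTexp : T = Real.exp lT := by rw [hlT, Real.exp_log hT0]
  have hT1 : 1 ≤ T := (Real.one_le_exp (by norm_num)).trans hTe
  rw [← hlT] at hYT hll hlen hμT ⊢
  have hma' : ma ≤ m := (le_max_left _ _).trans hm
  have hmb' : mb ≤ m := ((le_max_left _ _).trans (le_max_right _ _)).trans hm
  have hmc' : mc ≤ m := ((le_max_right _ _).trans (le_max_right _ _)).trans hm
  have hpa' : pa ≤ p0 := (le_max_left _ _).trans hp0
  have hpb' : pb ≤ p0 := (le_max_right _ _).trans hp0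
  have hCfm : Cf / 2 ^ m ≤ 1 := by
    rw [div_le_one (by positivity)]
    have h1 : (mc : ℝ) ≤ m := by exact_mod_cast hmc'
    have h2 : (m : ℝ) ≤ 2 ^ m := by exact_mod_cast (Nat.lt_two_pow_self (n := m)).le
    linarith only [h1, h2, hmc]
  have hrp : ∀ x : ℝ, T ^ x = Real.exp (lT * x) := fun x => by
    rw [Real.rpow_def_of_pos hT0, ← hlT]
  have hmY : (0 : ℝ) ≤ m * Y := by positivity
  have hJ0 : (0 : ℝ) ≤ J := Nat.cast_nonneg J
  obtain ⟨z, hz⟩ : ∃ z, z = Real.exp (lT * (1 / 2 - ε')) := ⟨_, rfl⟩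
  obtain ⟨τ, hτ⟩ : ∃ τ, τ = Real.exp (lT * (ε' / 48)) := ⟨_, rfl⟩
  have hz1 : 1 ≤ z := by
    rw [hz]
    apply Real.one_le_exp
    have : 0 ≤ 1 / 2 - ε' := by linarith only [hε1]
    positivity
  have hzT : z ≤ T := by
    rw [hz, hTexp]
    apply Real.exp_le_exp.mpr
    nlinarith only [hl0, hε0]
  have hzl : (1 / 2 - ε') * Real.log T ≤ Real.log z := by
    rw [hz, Real.log_exp, ← hlT, mul_comm]
  have hτ10 : Real.log T ^ 10 ≤ τ := by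
    have e : Real.log T ^ 10 = Real.exp (10 * Real.log lT) := by
      rw [← hlT, show (10 : ℝ) * Real.log lT = ((10 : ℕ) : ℝ) * Real.log lT by norm_num,
        Real.exp_nat_mul, Real.exp_log hl0]
    rw [e, hτ]
    apply Real.exp_le_exp.mpr
    linarith only [hll]
  have hHτ : z * Real.exp (6 * m * Y) * τ ^ 24 ≤ T ^ (1 / 2 : ℝ) := by
    rw [hz, hτ, hrp, ← Real.exp_nat_mul, ← Real.exp_add, ← Real.exp_add]
    apply Real.exp_le_exp.mpr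
    push_cast
    have h1 : 0 ≤ ε' * lT := by positivity
    linarith only [hlen, hJ0, h1]
  have hFτ : Real.exp (2 * J + 1 + 6 * m * Y) ≤ τ := by
    rw [hτ]
    apply Real.exp_le_exp.mpr
    linarith only [hlen]
  obtain ⟨n, hn⟩ : ∃ n : DP, n = DD (2 * m) p0 b (Y / 4) J := ⟨_, rfl⟩
  obtain ⟨B, hB⟩ : ∃ B : Set ℝ, B = {t | t ∈ Icc 0 T ∧
      V ≤ ‖riemannZeta (1 / 2 + I * t) * ev t (DD m p0 (-1) Y (J + 1))‖} := ⟨_, rfl⟩
  have mB : MeasurableSet B := by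
    rw [hB]
    exact (isClosed_Icc.inter (isClosed_le continuous_const
      (continuous_zeta.mul (continuous_ev _)).norm)).measurableSet
  have sB : B ⊆ Icc 0 T := by rw [hB]; exact fun t ht => ht.1
  have key := htail T hT3 m p0 J b Y 1 z τ V ε' Cg le_rfl hb0 (by linarith only [hb1])
    (hFS m hma' p0 hpa' b hb0 hb1 Y (by linarith only [hY]) J)
    (hFR (2 * m) (by omega) p0 hpb' b hb0 hb1 (Y / 4) (by linarith only [hY]) J)
    (by linarith only [hY]) hJ (by rw [← hlT]; linarith only [hYT, hY]) hCfm hε0.le hz1 hzT hzl hτ10 hHτ hFτ hV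
    B mB sB (fun t ht => by rw [hB] at ht; exact ht.2)
  -- remove the weight
  have hwt : ∀ t ∈ Icc (0 : ℝ) T, 1 / (2 * T) ≤ wgt K T t := by
    intro t ht
    have h1 := K.mellin_lower hK2 (T := T) (t := t) (by
      have : 0 ≤ 16 * K.L ^ 2 * K.ml := by positivity
      linarith only [this, hTK]) ht.1 ht.2
    refine le_trans ?_ h1
    have h2 : 4 * K.L ^ 2 * K.ml / T ≤ 1 / 4 := by
      rw [div_le_iff₀ hT0]
      have : 0 ≤ 4 * K.L ^ 2 := by positivity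
      linarith only [this, hTK]
    rw [div_le_div_iff₀ (by positivity) hT0]
    nlinarith only [h2, hT0]
  have hpt : ∫ t in B, ‖riemannZeta (1 / 2 + I * t) * ev t n‖ ^ 2
      ≤ 4 * T ^ 2 * ∫ t in B, (‖riemannZeta (1 / 2 + I * t) * ev t n‖ * wgt K T t) ^ 2 := by
    rw [← integral_const_mul]
    have hn1 : ∀ k, n.coeff k ≠ 0 → 1 ≤ k := by
      rw [hn]
      intro k hk
      exact ((hFR (2 * m) (by omega) p0 hpb' b hb0 hb1 (Y / 4) (by linarith only [hY]) J).lenn k hk).1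
    have hTL : 2 * K.L ≤ T := by
      have : 0 ≤ 16 * K.L ^ 2 * K.ml := by positivity
      nlinarith only [this, hTK, hL]
    obtain ⟨z1, -⟩ := zeta_energy (K := K) hTL hn1
    refine setIntegral_mono_on ((cont_ze n).integrableOn_Icc.mono_set sB)
      ((z1.mono_set sB).const_mul _) mB fun t ht => ?_
    have h1 := hwt t (sB ht)
    have h2 : 1 ≤ 2 * T * wgt K T t := by
      have := mul_le_mul_of_nonneg_left h1 (by positivity : 0 ≤ 2 * T)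
      refine le_trans (le_of_eq ?_) this
      field_simp
    obtain ⟨w, hw⟩ : ∃ w, w = wgt K T t := ⟨_, rfl⟩
    rw [← hw] at h2 ⊢
    have h3 : 1 ≤ (2 * T * w) ^ 2 := one_le_pow₀ h2
    calc ‖riemannZeta (1 / 2 + I * t) * ev t n‖ ^ 2
        ≤ ‖riemannZeta (1 / 2 + I * t) * ev t n‖ ^ 2 * (2 * T * w) ^ 2 :=
          le_mul_of_one_le_right (by positivity) h3
      _ = _ := by ring
  rw [← hn, ← hB]
  rw [← hn, ← hlT] at key
  refine hpt.trans ?_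
  have hmain := main_factor (p0 := p0) (J := J) hl1 hb0 hY hYT hJ
  obtain ⟨X, hX⟩ : ∃ X, X = (1 + lT)
      * Real.exp ((2 * b + b ^ 2) * ∑ j ∈ Finset.range J, VV (sc (Y / 4) p0 j)) := ⟨_, rfl⟩
  rw [← hX] at key hmain
  have hX0 : 0 ≤ X := by rw [hX]; positivity
  have hSR : SR p0 Y z ≤ 2 ^ p0 * (640 * (μ : ℝ)) ^ 24 := by
    refine (SR_le (m := μ) (by linarith only [hY]) ?_).trans (Krz_le p0 hμ)
    refine hzT.trans ?_
    rw [hTexp]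
    exact Real.exp_le_exp.mpr hμT
  have hSR0 : 0 ≤ SR p0 Y z := SR_nonneg
  have hbr : ε' + ((2 : ℝ) ^ m)⁻¹ + (1 + lT)⁻¹ + SR p0 Y z ^ 3 / V ^ 2
      ≤ ε' + ((2 : ℝ) ^ m)⁻¹ + lT⁻¹ + (2 ^ p0 * (640 * (μ : ℝ)) ^ 24) ^ 3 / V ^ 2 := by
    have h1 : (1 + lT)⁻¹ ≤ lT⁻¹ := inv_anti₀ hl0 (by linarith only)
    have h2 : SR p0 Y z ^ 3 / V ^ 2 ≤ (2 ^ p0 * (640 * (μ : ℝ)) ^ 24) ^ 3 / V ^ 2 := by gcongr
    linarith only [h1, h2]
  have hbr0 : 0 ≤ ε' + ((2 : ℝ) ^ m)⁻¹ + (1 + lT)⁻¹ + SR p0 Y z ^ 3 / V ^ 2 := by positivity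
  calc 4 * T ^ 2 * ∫ t in B, (‖riemannZeta (1 / 2 + I * t) * ev t n‖ * wgt K T t) ^ 2
      ≤ 4 * T ^ 2 * (C3 / T * X * (ε' + ((2 : ℝ) ^ m)⁻¹ + (1 + lT)⁻¹ + SR p0 Y z ^ 3 / V ^ 2)) :=
        mul_le_mul_of_nonneg_left key (by positivity)
    _ = 4 * C3 * T * X * (ε' + ((2 : ℝ) ^ m)⁻¹ + (1 + lT)⁻¹ + SR p0 Y z ^ 3 / V ^ 2) := by
        field_simp
    _ ≤ 4 * C3 * T * (2 * lT ^ ((1 + b) ^ 2))
        * (ε' + ((2 : ℝ) ^ m)⁻¹ + lT⁻¹ + (2 ^ p0 * (640 * (μ : ℝ)) ^ 24) ^ 3 / V ^ 2) := by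
        gcongr
    _ = _ := by ring

end Pool.Agent.Lib.MP_f9aece_nt_h97
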