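import Mathlib

/-!
Summation over the levels.
-/

set_option autoImplicit false

namespace Pool.Agent.Lib.MP_f9aece_nt_h97

open MeasureTheory Set Filter Topology

/-- decomposition of an integral according to the first good level -/
theorem first_good {f : ℝ → ℝ} {I : Set ℝ} {G : ℕ → Set ℝ} (hf : IntegrableOn f I)
    (hf0 : ∀ t, 0 ≤ f t) (hI : MeasurableSet I) (hG : ∀ l, MeasurableSet (G l))
    (hGI : ∀ l, G l ⊆ I) (L : ℕ) :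
    ∫ t in I, f t ≤ (∫ t in G 0, f t) + (∑ l ∈ Finset.range L, ∫ t in G (l + 1) \ G l, f t)
      + ∫ t in I \ G L, f t := by
  have key : ∀ n : ℕ, ∫ t in G n, f t
      ≤ (∫ t in G 0, f t) + ∑ l ∈ Finset.range n, ∫ t in G (l + 1) \ G l, f t := by
    intro n
    induction n with
    | zero => simp
    | succ n ih =>
      rw [Finset.sum_range_succ]
      have h1 : ∫ t in G (n + 1), f t
          = (∫ t in G (n + 1) ∩ G n, f t) + ∫ t in G (n + 1) \ G n, f t := by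
        rw [← setIntegral_union (disjoint_sdiff_inter.symm) ((hG (n + 1)).diff (hG n))
          (hf.mono_set (inter_subset_left.trans (hGI _)))
          (hf.mono_set (sdiff_subset.trans (hGI _))), inter_union_sdiff]
      have h2 : ∫ t in G (n + 1) ∩ G n, f t ≤ ∫ t in G n, f t :=
        setIntegral_mono_set (hf.mono_set (hGI n)) (Eventually.of_forall hf0)
          (LE.le.eventuallyLE inter_subset_right)
      linarith
  have h1 : ∫ t in I, f t = (∫ t in G L, f t) + ∫ t in I \ G L, f t := by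
    rw [← setIntegral_union disjoint_sdiff_self_right (hI.diff (hG L)) (hf.mono_set (hGI L))
      (hf.mono_set sdiff_subset), Set.union_sdiff_cancel (hGI L)]
  rw [h1]
  linarith [key L]

/-- geometric sums with ratio at most `3/4` -/
lemma geom_le {q : ℝ} (hq0 : 0 ≤ q) (hq : q ≤ 3 / 4) (L : ℕ) : ∑ l ∈ Finset.range L, q ^ l ≤ 4 := by
  have h1 : (∑ l ∈ Finset.range L, q ^ l) * (1 - q) ≤ 1 := by
    rw [geom_sum_mul_neg]
    have : 0 ≤ q ^ L := by positivity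
    linarith
  have h2 : 0 ≤ ∑ l ∈ Finset.range L, q ^ l := Finset.sum_nonneg fun _ _ => by positivity
  nlinarith

lemma pow_two_level {m : ℕ} (hm : 1 ≤ m) (l : ℕ) :
    ((2 : ℝ) ^ (m * 2 ^ l))⁻¹ ≤ ((2 : ℝ) ^ m)⁻¹ * (1 / 2) ^ l := by
  have h1 : m + l ≤ m * 2 ^ l := by
    have h2 : l + 1 ≤ 2 ^ l := Nat.lt_two_pow_self
    calc m + l ≤ m + m * l := by nlinarith
      _ = m * (l + 1) := by ring
      _ ≤ m * 2 ^ l := Nat.mul_le_mul_left m h2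
  have h2 : (2 : ℝ) ^ (m + l) ≤ 2 ^ (m * 2 ^ l) := pow_le_pow_right₀ (by norm_num) h1
  calc ((2 : ℝ) ^ (m * 2 ^ l))⁻¹ ≤ ((2 : ℝ) ^ (m + l))⁻¹ := inv_anti₀ (by positivity) h2
    _ = ((2 : ℝ) ^ m)⁻¹ * (1 / 2) ^ l := by
        rw [pow_add, mul_inv]
        congr 1
        rw [one_div, inv_pow]

/-- the sum of the bounds over the levels -/
theorem level_sum {L m : ℕ} (hm : 1 ≤ m) {w x : ℕ → ℝ} {α β γ κ V0 Γ : ℝ} (hα : 0 ≤ α) (hβ : 0 ≤ β)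
    (hγ : 0 ≤ γ) (hκ : 0 ≤ κ) (hV0 : 0 < V0) (hΓ : 2 ^ 100 ≤ Γ) (hw0 : ∀ l < L, 0 ≤ w l)
    (hw : ∀ l < L, w l ≤ 2 * (3 / 2) ^ (l + 1))
    (hx : ∀ l < L, x l ≤ α * (1 / 2) ^ l + β * ((2 : ℝ) ^ (m * 2 ^ l))⁻¹ + γ
      + κ * (4 ^ 72) ^ l / (V0 * Γ ^ l) ^ 2) :
    ∑ l ∈ Finset.range L, w l * x l
      ≤ 12 * α + 12 * β / 2 ^ m + 6 * γ * 2 ^ L + 12 * κ / V0 ^ 2 := by
  have hΓ0 : 0 < Γ := lt_of_lt_of_le (by positivity) hΓ
  have hq : 3 / 2 * (4 ^ 72 / Γ ^ 2) ≤ 3 / 4 := by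
    have h1 : (2 ^ 100 : ℝ) ^ 2 ≤ Γ ^ 2 := by gcongr
    have h2 : (4 ^ 72 : ℝ) / Γ ^ 2 ≤ 4 ^ 72 / (2 ^ 100) ^ 2 := by gcongr
    have h3 : (4 ^ 72 : ℝ) / (2 ^ 100) ^ 2 ≤ 1 / 2 := by norm_num
    linarith
  have key : ∀ l ∈ Finset.range L, w l * x l
      ≤ 3 * α * (3 / 4) ^ l + 3 * β / 2 ^ m * (3 / 4) ^ l + 3 * γ * 2 ^ l
        + 3 * κ / V0 ^ 2 * (3 / 2 * (4 ^ 72 / Γ ^ 2)) ^ l := by
    intro l hl
    have hl' := Finset.mem_range.mp hl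
    have h1 := hx l hl'
    have h2 := pow_two_level hm l
    have h3 : x l ≤ α * (1 / 2) ^ l + β * (((2 : ℝ) ^ m)⁻¹ * (1 / 2) ^ l) + γ
      + κ * (4 ^ 72) ^ l / (V0 * Γ ^ l) ^ 2 := by
      have := mul_le_mul_of_nonneg_left h2 hβ
      linarith
    have h0 : 0 ≤ α * (1 / 2) ^ l + β * (((2 : ℝ) ^ m)⁻¹ * (1 / 2) ^ l) + γ
      + κ * (4 ^ 72) ^ l / (V0 * Γ ^ l) ^ 2 := by positivity
    have e34 : (3 / 4 : ℝ) ^ l = (3 / 2) ^ l * (1 / 2) ^ l := by rw [← mul_pow]; norm_num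
    have e1 : κ * (4 ^ 72) ^ l / (V0 * Γ ^ l) ^ 2 = κ / V0 ^ 2 * (4 ^ 72 / Γ ^ 2) ^ l := by
      rw [div_pow, mul_pow, ← pow_mul, ← pow_mul, mul_comm l 2, pow_mul Γ 2 l, pow_mul 4 72 l]
      field_simp
    have h32 : (3 / 2 : ℝ) ^ l ≤ 2 ^ l := by gcongr; norm_num
    calc w l * x l ≤ w l * (α * (1 / 2) ^ l + β * (((2 : ℝ) ^ m)⁻¹ * (1 / 2) ^ l) + γ
          + κ * (4 ^ 72) ^ l / (V0 * Γ ^ l) ^ 2) := mul_le_mul_of_nonneg_left h3 (hw0 l hl')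
      _ ≤ (2 * (3 / 2) ^ (l + 1)) * (α * (1 / 2) ^ l + β * (((2 : ℝ) ^ m)⁻¹ * (1 / 2) ^ l) + γ
          + κ * (4 ^ 72) ^ l / (V0 * Γ ^ l) ^ 2) := mul_le_mul_of_nonneg_right (hw l hl') h0
      _ = 3 * α * (3 / 4) ^ l + 3 * β / 2 ^ m * (3 / 4) ^ l + 3 * γ * (3 / 2) ^ l
          + 3 * κ / V0 ^ 2 * (3 / 2 * (4 ^ 72 / Γ ^ 2)) ^ l := by
          rw [e1, mul_pow (3 / 2 : ℝ) (4 ^ 72 / Γ ^ 2) l, e34, pow_succ]
          ring
      _ ≤ _ := by gcongr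
  refine (Finset.sum_le_sum key).trans ?_
  rw [Finset.sum_add_distrib, Finset.sum_add_distrib, Finset.sum_add_distrib, ← Finset.mul_sum,
    ← Finset.mul_sum, ← Finset.mul_sum, ← Finset.mul_sum]
  have g1 := geom_le (q := 3 / 4) (by norm_num) le_rfl L
  have g2 := geom_le (q := 3 / 2 * (4 ^ 72 / Γ ^ 2)) (by positivity) hq L
  have g3 : ∑ l ∈ Finset.range L, (2 : ℝ) ^ l ≤ 2 ^ L := by
    have h1 : (∑ l ∈ Finset.range L, (2 : ℝ) ^ l) * (2 - 1) = 2 ^ L - 1 := geom_sum_mul 2 L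
    linarith
  have a1 := mul_le_mul_of_nonneg_left g1 (by positivity : 0 ≤ 3 * α)
  have a2 := mul_le_mul_of_nonneg_left g1 (by positivity : 0 ≤ 3 * β / 2 ^ m)
  have a3 := mul_le_mul_of_nonneg_left g3 (by positivity : 0 ≤ 3 * γ)
  have a4 := mul_le_mul_of_nonneg_left g2 (by positivity : 0 ≤ 3 * κ / V0 ^ 2)
  have a5 : 0 ≤ γ * 2 ^ L := by positivity
  have e5 : 3 * β / 2 ^ m * 4 = 12 * β / 2 ^ m := by ring
  have e6 : 3 * κ / V0 ^ 2 * 4 = 12 * κ / V0 ^ 2 := by ring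
  linarith

end Pool.Agent.Lib.MP_f9aece_nt_h97
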