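import Mathlib
import Pool.Agent.Lib.MP_f9aece_nt_h24.RightHyps
import Pool.Agent.Lib.MP_f9aece_nt_h24.LevelPart
import Pool.Agent.Lib.MP_f9aece_nt_h24.SumLevels
import Pool.Agent.Lib.MP_f9aece_nt_h40.FormsTwo

/-!
The part of the moment where the last level fails.
-/

set_option autoImplicit false

namespace Pool.Agent.Lib.MP_f9aece_nt_h97

open MeasureTheory Set Filter Topology Complex
open Pool.Agent.Lib.MP_f9aece_nt
open Pool.Agent.Lib.MP_f9aece_nt_h40 (FT forms_two)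
open Pool.Agent.Lib.MP_f9aece_nt_h85 (wgt bad_set energy_full DLB Bd)
open Pool.Agent.Lib.MP_f9aece_nt_h22 (Psc Rsc Rsc_pos Mm_pos integrableOn_zeta_rpow)

/-- moments of a prime polynomial, relative to the threshold -/
lemma prime_part {Y : ℝ} (hY : 0 < Y) (p0 j : ℕ) {m : ℕ} (hm : 2400 ≤ m) :
    (Rsc m j ^ (2 * Mm m j))⁻¹ * BK K1 (Psc p0 Y j ^ Mm m j) (Psc p0 Y j ^ Mm m j)
      ≤ ((2 : ℝ) ^ m)⁻¹ * (1 / 2) ^ j := by
  have hpr : ∀ p ∈ sc Y p0 j, p.Prime := fun p hp => (mem_sc.mp hp).2.1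
  have h1 := BK_PP_pow_self hpr (Mm m j)
  have h2 := VV_sc_le hY p0 j
  have h3 := VV_nonneg (sc Y p0 j)
  obtain ⟨M, hM⟩ : ∃ M, M = Mm m j := ⟨_, rfl⟩
  have hMm : m ≤ M := by
    rw [hM]
    unfold Mm
    exact Nat.le_mul_of_pos_right _ (by positivity)
  have hMr : (2400 : ℝ) ≤ M := by exact_mod_cast hm.trans hMm
  have hM0 : (0 : ℝ) < M := by linarith
  unfold Rsc Psc
  rw [← hM] at h1 ⊢
  have h4 : ((M.factorial : ℕ) : ℝ) ≤ (M : ℝ) ^ M := by exact_mod_cast Nat.factorial_le_pow M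
  have h5 : BK K1 (PP (sc Y p0 j) ^ M) (PP (sc Y p0 j) ^ M) ≤ (12 * M : ℝ) ^ M := by
    refine h1.trans ?_
    rw [mul_pow, mul_comm ((12 : ℝ) ^ M)]
    gcongr
  have h6 : ((M : ℝ) / 10) ^ (2 * M) = ((M : ℝ) ^ 2 / 100) ^ M := by
    rw [pow_mul]
    congr 1
    ring
  have h7 : (((M : ℝ) / 10) ^ (2 * M))⁻¹ * BK K1 (PP (sc Y p0 j) ^ M) (PP (sc Y p0 j) ^ M)
      ≤ (1 / 2 : ℝ) ^ M := by
    rw [h6]
    calc (((M : ℝ) ^ 2 / 100) ^ M)⁻¹ * BK K1 (PP (sc Y p0 j) ^ M) (PP (sc Y p0 j) ^ M)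
        ≤ (((M : ℝ) ^ 2 / 100) ^ M)⁻¹ * (12 * M : ℝ) ^ M := by gcongr
      _ = (1200 / M) ^ M := by
          rw [← inv_pow, ← mul_pow]
          congr 1
          field_simp
          norm_num
      _ ≤ (1 / 2 : ℝ) ^ M := by
          have : 1200 / (M : ℝ) ≤ 1 / 2 := by
            rw [div_le_div_iff₀ hM0 (by norm_num)]
            linarith
          gcongr
  refine h7.trans ?_
  have h8 := pow_two_level (m := m) (by omega) j
  have e : (1 / 2 : ℝ) ^ M = (2 ^ M)⁻¹ := by rw [one_div, inv_pow]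
  rw [e, hM]
  unfold Mm
  exact h8

lemma half_sum (J : ℕ) : ∑ j ∈ Finset.range J, (1 / 2 : ℝ) ^ j ≤ 2 := by
  have h1 : (∑ j ∈ Finset.range J, (1 / 2 : ℝ) ^ j) * (1 - 1 / 2) = 1 - (1 / 2) ^ J :=
    geom_sum_mul_neg _ _
  have h2 : (0 : ℝ) ≤ (1 / 2) ^ J := by positivity
  linarith

/-- measure of the set where a level fails -/
theorem bad_measure : ∃ C8 : ℝ, 0 ≤ C8 ∧ ∃ m1 p1 : ℕ, ∃ T8 : ℝ, ∀ T : ℝ, T8 ≤ T → ∀ m : ℕ, m1 ≤ m →
    ∀ p0 : ℕ, p1 ≤ p0 → ∀ (J : ℕ) (Y V : ℝ), 4 ≤ Y → 43 * Y ≤ Real.log T → 2000 * m * Y ≤ Real.log T →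
    64 * (J + 1) ≤ Real.log T → 0 < V →
    ∫ _t in Icc 0 T \ GdS T V m p0 Y J, (1 : ℝ) ≤ C8 * (T * (Real.log T / V ^ 2 + ((2 : ℝ) ^ m)⁻¹)) := by
  obtain ⟨K, hK1, hK2⟩ := Ker.exists_good (ε := 1 / 4) (by norm_num) (by norm_num)
  obtain ⟨C1, T1, hC1, hLE⟩ := LE_exists K
  obtain ⟨Cf, hCf, hforms⟩ := forms_two
  obtain ⟨ma, pa, hma, hpa, hFT⟩ := hforms 1 one_pos
  have hL := K.hL
  have hml := K.ml_nonneg
  have hm2 := K.m2_nonneg
  have hpi := Real.pi_pos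
  obtain ⟨c1, hc1⟩ : ∃ c1, c1 = Real.pi * (K.m2 * (3 + 2 * Cf) + 4 * C1) := ⟨_, rfl⟩
  have hc10 : 0 ≤ c1 := by rw [hc1]; positivity
  refine ⟨4 * c1 + 8 * (Real.pi * K.m2), by positivity, max ma 2400, pa,
    max (max T1 (Real.exp (10 ^ 6))) (16 * K.L ^ 2 * K.ml + 64 * K.L ^ 2), ?_⟩
  intro T hT m hm p0 hp0 J Y V hY hYT hmY hJT hV
  have hT1 : T1 ≤ T := ((le_max_left _ _).trans (le_max_left _ _)).trans hT
  have hTe : Real.exp (10 ^ 6) ≤ T := ((le_max_right _ _).trans (le_max_left _ _)).trans hT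
  have hTK : 16 * K.L ^ 2 * K.ml + 64 * K.L ^ 2 ≤ T := (le_max_right _ _).trans hT
  have hT0 : 0 < T := (Real.exp_pos _).trans_le hTe
  obtain ⟨x, hx⟩ : ∃ x, x = Real.log T := ⟨_, rfl⟩
  have hx6 : 10 ^ 6 ≤ x := by rw [hx, Real.le_log_iff_exp_le hT0]; exact hTe
  have hx0 : 0 < x := by linarith
  have hTexp : T = Real.exp x := by rw [hx, Real.exp_log hT0]
  have hT1' : 1 ≤ T := by rw [hTexp]; exact Real.one_le_exp hx0.le
  rw [← hx] at hYT hmY hJT ⊢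
  have hma' : ma ≤ m := (le_max_left _ _).trans hm
  have hm24 : 2400 ≤ m := (le_max_right _ _).trans hm
  have hmY0 : (0 : ℝ) ≤ m * Y := by positivity
  have hJ0 : (0 : ℝ) ≤ J := Nat.cast_nonneg J
  have hloglog : Real.log x ≤ x / 500 := by
    have h1 := Real.log_le_rpow_div hx0.le (show (0 : ℝ) < 1 / 2 by norm_num)
    obtain ⟨s, hs⟩ : ∃ s, s = x ^ (1 / 2 : ℝ) := ⟨_, rfl⟩
    have hss : s ^ 2 = x := by
      rw [hs, ← Real.rpow_natCast, ← Real.rpow_mul hx0.le]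
      norm_num
    have hs0 : 0 ≤ s := by rw [hs]; positivity
    have hs3 : 1000 ≤ s := by
      by_contra hcon
      push Not at hcon
      nlinarith only [hcon, hs0, hss, hx6]
    rw [← hs] at h1
    have h2 : s / (1 / 2) = 2 * s := by ring
    rw [h2] at h1
    nlinarith only [h1, hs3, hss]
  -- the energy of `zeta D`
  obtain ⟨D, hD⟩ : ∃ D : DP, D = DD m p0 (-1) Y J := ⟨_, rfl⟩
  have hF := hFT m hma' p0 hp0 1 zero_le_one le_rfl Y (by linarith) J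
  have hk2 : |BK K2 D D| ≤ 3 := by
    have h1 := hF.k2a
    rw [← hD] at h1
    refine h1.trans ?_
    have h2 : 0 ≤ ∑ j ∈ Finset.range J, VV (sc Y p0 j) := Finset.sum_nonneg fun _ _ => VV_nonneg _
    have h3 : ((1 - 1) ^ 2 - 1) * ∑ j ∈ Finset.range J, VV (sc Y p0 j) + 1 ≤ 1 := by
      have e : ((1 - 1) ^ 2 - 1) * ∑ j ∈ Finset.range J, VV (sc Y p0 j) + 1
          = 1 - ∑ j ∈ Finset.range J, VV (sc Y p0 j) := by ring
      rw [e]
      linarith
    have h4 : Real.exp 1 ≤ 3 := Real.exp_one_lt_three.le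
    exact (Real.exp_le_exp.mpr h3).trans h4
  have hkl : |BK KL D D| ≤ Cf * (2 * x) := by
    have h1 := hF.kla
    rw [← hD] at h1
    refine h1.trans ?_
    have h2 : 0 ≤ ∑ j ∈ Finset.range J, VV (sc Y p0 j) := Finset.sum_nonneg fun _ _ => VV_nonneg _
    have h3 : Real.exp (((1 - 1) ^ 2 - 1) * ∑ j ∈ Finset.range J, VV (sc Y p0 j)) ≤ 1 := by
      rw [Real.exp_le_one_iff]
      have e : ((1 - 1) ^ 2 - 1) * ∑ j ∈ Finset.range J, VV (sc Y p0 j)
          = - ∑ j ∈ Finset.range J, VV (sc Y p0 j) := by ring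
      rw [e]
      linarith
    calc Cf * (1 + Y) * Real.exp (((1 - 1) ^ 2 - 1) * ∑ j ∈ Finset.range J, VV (sc Y p0 j))
        ≤ Cf * (1 + Y) * 1 := by gcongr
      _ = Cf * (1 + Y) := mul_one _
      _ ≤ Cf * (2 * x) := by
          gcongr
          linarith
  have hBd : Bd D (Real.exp (2 * m * Y)) (Real.exp (J + 2 * m * Y)) := by
    rw [hD]
    exact (DLB.DD (by linarith) m p0 (c := -1) (by rw [abs_neg, abs_one]) J).bd
  have hH1 : 1 ≤ Real.exp (2 * m * Y) := Real.one_le_exp (by linarith)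
  have hQ : Real.pi * ∫ y in Ioi (0 : ℝ), QQ (K.phi T) D y ^ 2 ≤ c1 * x / T := by
    have h1 := hLE T hT1 (Real.exp (x / 50)) (Real.exp (2 * m * Y)) (Real.exp (J + 2 * m * Y)) (by
        have e : Real.log T ^ 10 = Real.exp (10 * Real.log x) := by
          rw [← hx, show (10 : ℝ) * Real.log x = ((10 : ℕ) : ℝ) * Real.log x by norm_num,
            Real.exp_nat_mul, Real.exp_log hx0]
        rw [e]
        apply Real.exp_le_exp.mpr
        linarith only [hloglog]) hH1 (by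
        rw [Real.rpow_def_of_pos hT0, ← hx, ← Real.exp_nat_mul, ← Real.exp_add]
        apply Real.exp_le_exp.mpr
        push_cast
        linarith only [hmY, hmY0, hx0]) (Real.exp_pos _).le D hBd.1 hBd.2
    have h2 : Real.exp (J + 2 * m * Y) ^ 2 / Real.exp (x / 50) ^ 2 ≤ 1 := by
      rw [div_le_one (by positivity)]
      have : Real.exp (J + 2 * m * Y) ≤ Real.exp (x / 50) := by
        apply Real.exp_le_exp.mpr
        linarith only [hmY, hJT, hmY0, hx0]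
      gcongr
    rw [← hx] at h1
    have h3 : K.m2 * (x * BK K2 D D - BK KL D D) ≤ K.m2 * ((3 + 2 * Cf) * x) := by
      refine mul_le_mul_of_nonneg_left ?_ hm2
      have h4 := (abs_le.mp hk2).2
      have h5 := (abs_le.mp hkl).1
      nlinarith only [h4, h5, hx0]
    have h4 : C1 * |BK K2 D D| ≤ C1 * 3 := by gcongr
    have h5 : C1 * (Real.exp (J + 2 * m * Y) ^ 2 / Real.exp (x / 50) ^ 2) ≤ C1 * 1 := by gcongr
    have h6 : K.m2 * (x * BK K2 D D - BK KL D D) + C1 * |BK K2 D D|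
        + C1 * (Real.exp (J + 2 * m * Y) ^ 2 / Real.exp (x / 50) ^ 2)
        ≤ (K.m2 * (3 + 2 * Cf) + 4 * C1) * x := by
      have h7 : C1 * 4 ≤ C1 * 4 * x := le_mul_of_one_le_right (by positivity) (by linarith only [hx6])
      linarith only [h3, h4, h5, h7]
    calc Real.pi * ∫ y in Ioi (0 : ℝ), QQ (K.phi T) D y ^ 2
        ≤ Real.pi * (1 / T * ((K.m2 * (3 + 2 * Cf) + 4 * C1) * x)) := by
          refine mul_le_mul_of_nonneg_left (h1.trans ?_) hpi.le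
          exact mul_le_mul_of_nonneg_left h6 (by positivity)
      _ = c1 * x / T := by rw [hc1]; ring
  -- the bad set
  have hTL : 2 * K.L ≤ T := by
    have : 0 ≤ 16 * K.L ^ 2 * K.ml := by positivity
    nlinarith only [this, hTK, hL]
  have h4H : 4 * K.L * Real.exp (2 * m * Y) < T := by
    refine len_small (τ := 1) (by linarith only [hL]) ?_ le_rfl hH1 ?_
    · have : 0 ≤ 16 * K.L ^ 2 * K.ml := by positivity
      linarith only [this, hTK]
    · rw [one_pow, mul_one, Real.rpow_def_of_pos hT0, ← hx]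
      apply Real.exp_le_exp.mpr
      linarith only [hmY, hmY0, hx0]
  have hone : ∀ n, (1 : DP).coeff n ≠ 0 → n = 1 := by
    intro n hn
    by_contra hcon
    apply hn
    rw [MonoidAlgebra.one_def, MonoidAlgebra.coeff_single, Finsupp.single_apply, if_neg (Ne.symm hcon)]
  have hbad := (bad_set (K := K) (f := 1) (d := D) (J := J) (P := Psc p0 Y) (R := Rsc m) (M := Mm m)
    hTL hH1 h4H hV (fun j _ => Rsc_pos (by omega) j)
    (fun n hn => by rw [hone n hn]; exact ⟨le_rfl, by simpa using hH1⟩)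
    (fun n hn => by rw [one_mul] at hn; exact (hBd.1 n hn).1)
    (fun j _ n hn => by
      rw [one_mul] at hn
      have h1 := (DLB.PPow (by linarith : (0 : ℝ) < Y) m p0 j).bd.1 n hn
      refine ⟨h1.1, h1.2.trans (Real.exp_le_exp.mpr (by linarith))⟩))
  obtain ⟨hi, hb⟩ := hbad
  rw [one_mul] at hb
  have hsum : ∑ j ∈ Finset.range J, (Rsc m j ^ (2 * Mm m j))⁻¹
      * (Real.pi * K.m2 / T * BK K1 (1 * Psc p0 Y j ^ Mm m j) (1 * Psc p0 Y j ^ Mm m j))
      ≤ 2 * (Real.pi * K.m2) * ((2 : ℝ) ^ m)⁻¹ / T := by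
    calc ∑ j ∈ Finset.range J, (Rsc m j ^ (2 * Mm m j))⁻¹
          * (Real.pi * K.m2 / T * BK K1 (1 * Psc p0 Y j ^ Mm m j) (1 * Psc p0 Y j ^ Mm m j))
        ≤ ∑ j ∈ Finset.range J, Real.pi * K.m2 / T * (((2 : ℝ) ^ m)⁻¹ * (1 / 2) ^ j) := by
          refine Finset.sum_le_sum fun j _ => ?_
          rw [one_mul]
          have h1 := prime_part (by linarith : (0 : ℝ) < Y) p0 j hm24
          have h2 := mul_le_mul_of_nonneg_left h1 (by positivity : 0 ≤ Real.pi * K.m2 / T)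
          refine le_trans (le_of_eq (by ring)) h2
      _ = Real.pi * K.m2 / T * ((2 : ℝ) ^ m)⁻¹ * ∑ j ∈ Finset.range J, (1 / 2 : ℝ) ^ j := by
          rw [Finset.mul_sum]
          exact Finset.sum_congr rfl fun j _ => by ring
      _ ≤ Real.pi * K.m2 / T * ((2 : ℝ) ^ m)⁻¹ * 2 := by
          have := half_sum J
          gcongr
      _ = _ := by ring
  have hwt : ∀ t ∈ Icc (0 : ℝ) T, 1 / (2 * T) ≤ wgt K T t := by
    intro t ht
    have h1 := K.mellin_lower hK2 (T := T) (t := t) (by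
      have : 0 ≤ 16 * K.L ^ 2 * K.ml := by positivity
      have : 0 ≤ K.L ^ 2 := by positivity
      linarith) ht.1 ht.2
    refine le_trans ?_ h1
    have h2 : 4 * K.L ^ 2 * K.ml / T ≤ 1 / 4 := by
      rw [div_le_iff₀ hT0]
      have : 0 ≤ 64 * K.L ^ 2 := by positivity
      linarith only [this, hTK]
    rw [div_le_div_iff₀ (by positivity) hT0]
    nlinarith only [h2, hT0]
  have hEm : MeasurableSet (Icc 0 T \ GdS T V m p0 Y J) := measurableSet_Icc.diff (gds_meas _ _ _ _ _ _)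
  have hE1 : ∫ _t in Icc 0 T \ GdS T V m p0 Y J, (1 : ℝ)
      ≤ 4 * T ^ 2 * ∫ t in Icc 0 T \ GdS T V m p0 Y J, (‖ev t (1 : DP)‖ * wgt K T t) ^ 2 := by
    rw [← integral_const_mul]
    refine setIntegral_mono_on ?_ ((hi.mono_set sdiff_subset).const_mul _) hEm fun t ht => ?_
    · exact (continuous_const.integrableOn_Icc).mono_set sdiff_subset
    · have h1 := hwt t ht.1
      have h2 : 1 ≤ 2 * T * wgt K T t := by
        have := mul_le_mul_of_nonneg_left h1 (by positivity : 0 ≤ 2 * T)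
        refine le_trans (le_of_eq ?_) this
        field_simp
      rw [map_one, norm_one, one_mul]
      have h3 : 1 ≤ (2 * T * wgt K T t) ^ 2 := one_le_pow₀ h2
      refine h3.trans (le_of_eq (by ring))
  refine hE1.trans ?_
  have hG : GdS T V m p0 Y J = Pool.Agent.Lib.MP_f9aece_nt_h85.GG T V D J (Psc p0 Y) (Rsc m) := by
    rw [hD]; rfl
  rw [hG]
  calc 4 * T ^ 2 * _ ≤ 4 * T ^ 2 * ((V ^ 2)⁻¹ * (c1 * x / T) + 2 * (Real.pi * K.m2) * ((2 : ℝ) ^ m)⁻¹ / T) := by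
        refine mul_le_mul_of_nonneg_left (hb.trans (add_le_add ?_ hsum)) (by positivity)
        exact mul_le_mul_of_nonneg_left hQ (by positivity)
    _ = 4 * c1 * (T * (x / V ^ 2)) + 8 * (Real.pi * K.m2) * (T * ((2 : ℝ) ^ m)⁻¹) := by
        field_simp
        ring
    _ ≤ (4 * c1 + 8 * (Real.pi * K.m2)) * (T * (x / V ^ 2))
        + (4 * c1 + 8 * (Real.pi * K.m2)) * (T * ((2 : ℝ) ^ m)⁻¹) := by
        gcongr
        · have : 0 ≤ 8 * (Real.pi * K.m2) := by positivity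
          linarith
        · linarith
    _ = _ := by ring

/-- a bound of the fourth moment -/
def H4z : Prop := ∃ (C : ℝ) (C4 : ℕ) (T2 : ℝ), 0 ≤ C ∧ ∀ T : ℝ, T2 ≤ T →
  ∫ t in Icc 0 T, ‖riemannZeta (1 / 2 + I * t)‖ ^ 4 ≤ C * (T * Real.log T ^ C4)

/-- interpolation -/
lemma young {u lam b : ℝ} (hu : 0 ≤ u) (hlam : 0 < lam) (hb0 : 0 ≤ b) (hb1 : b ≤ 1 / 4) :
    u ^ (2 * (1 + b)) ≤ 1 + (lam ^ 3)⁻¹ + lam * u ^ 4 := by
  have h1 : u ^ (2 * (1 + b)) ≤ 1 + u ^ 3 := by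
    rcases le_total u 1 with h | h
    · have := Real.rpow_le_one hu h (by positivity : 0 ≤ 2 * (1 + b))
      have : 0 ≤ u ^ 3 := by positivity
      linarith
    · have h2 : u ^ (2 * (1 + b)) ≤ u ^ (3 : ℝ) :=
        Real.rpow_le_rpow_of_exponent_le h (by linarith)
      have h3 : u ^ (3 : ℝ) = u ^ (3 : ℕ) := by
        rw [show (3 : ℝ) = ((3 : ℕ) : ℝ) by norm_num, Real.rpow_natCast]
      rw [h3] at h2
      exact h2.trans (by linarith)
  have h2 : u ^ 3 ≤ (lam ^ 3)⁻¹ + lam * u ^ 4 := by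
    rcases le_total (lam * u) 1 with h | h
    · have h3 : u ≤ lam⁻¹ := by
        rw [← one_div, le_div_iff₀ hlam, mul_comm]
        exact h
      have h4 : u ^ 3 ≤ (lam ^ 3)⁻¹ := by
        rw [← inv_pow]
        gcongr
      have : 0 ≤ lam * u ^ 4 := by positivity
      linarith
    · have h3 : u ^ 3 ≤ lam * u ^ 4 := by
        calc u ^ 3 = 1 * u ^ 3 := (one_mul _).symm
          _ ≤ (lam * u) * u ^ 3 := by gcongr
          _ = lam * u ^ 4 := by ring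
      have : 0 ≤ (lam ^ 3)⁻¹ := by positivity
      linarith
  linarith

/-- exponential decay beats powers -/
lemma exists_decay (n : ℕ) {η : ℝ} (hη : 0 < η) : ∃ y0 : ℝ, ∀ y : ℝ, y0 ≤ y → ∀ m : ℕ, y ≤ m →
    y ^ n * ((2 : ℝ) ^ m)⁻¹ ≤ η := by
  have h1 := (Real.tendsto_pow_mul_exp_neg_atTop_nhds_zero n)
  have h2 : Tendsto (fun y : ℝ => (Real.log 2)⁻¹ ^ n * ((y * Real.log 2) ^ n * Real.exp (-(y * Real.log 2))))
      atTop (𝓝 ((Real.log 2)⁻¹ ^ n * 0)) := by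
    refine Tendsto.const_mul _ (h1.comp ?_)
    exact tendsto_id.atTop_mul_const (Real.log_pos (by norm_num))
  rw [mul_zero] at h2
  have h3 := h2.eventually (gt_mem_nhds hη)
  obtain ⟨y0, hy0⟩ := eventually_atTop.mp h3
  refine ⟨max y0 0, fun y hy m hm => ?_⟩
  have hy1 : y0 ≤ y := (le_max_left _ _).trans hy
  have hy2 : 0 ≤ y := (le_max_right _ _).trans hy
  have h4 := hy0 y hy1
  have hl2 : 0 < Real.log 2 := Real.log_pos (by norm_num)
  have h5 : (Real.log 2)⁻¹ ^ n * ((y * Real.log 2) ^ n * Real.exp (-(y * Real.log 2)))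
      = y ^ n * Real.exp (-(y * Real.log 2)) := by
    rw [mul_pow, inv_pow]
    field_simp
  rw [h5] at h4
  have h6 : ((2 : ℝ) ^ m)⁻¹ ≤ Real.exp (-(y * Real.log 2)) := by
    have e : ((2 : ℝ) ^ m)⁻¹ = Real.exp (-(m * Real.log 2)) := by
      rw [Real.exp_neg, Real.exp_nat_mul, Real.exp_log (by norm_num)]
    rw [e]
    apply Real.exp_le_exp.mpr
    nlinarith only [hm, hl2]
  calc y ^ n * ((2 : ℝ) ^ m)⁻¹ ≤ y ^ n * Real.exp (-(y * Real.log 2)) := by gcongr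
    _ ≤ η := h4.le

theorem h4d (hz : H4z) : H4d := by
  obtain ⟨C, C4, T2, hC, hz⟩ := hz
  obtain ⟨C8, hC8, m1, p1, T8, hbad⟩ := bad_measure
  refine ⟨2 * C4 + 4, m1, p1, ?_⟩
  intro δ hδ
  obtain ⟨η, hη⟩ : ∃ η, η = δ / (8 * C8 + 1) := ⟨_, rfl⟩
  have hη0 : 0 < η := by rw [hη]; positivity
  obtain ⟨y0, hy0⟩ := exists_decay (30 * (C4 + 1)) hη0
  obtain ⟨X0, hX0⟩ : ∃ X0 : ℝ, X0 = max 1 (max (max y0 1 ^ 10) (max (2 * C / δ) (1 / η))) := ⟨_, rfl⟩
  refine ⟨max (max T2 T8) (Real.exp X0), ?_⟩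
  intro T hT m hm p0 hp0 J b Y V hb0 hb1 hY hYT hmY hJT hJ hV hmT
  have hT2 : T2 ≤ T := ((le_max_left _ _).trans (le_max_left _ _)).trans hT
  have hT8 : T8 ≤ T := ((le_max_right _ _).trans (le_max_left _ _)).trans hT
  have hTe : Real.exp X0 ≤ T := (le_max_right _ _).trans hT
  have hT0 : 0 < T := (Real.exp_pos _).trans_le hTe
  obtain ⟨x, hx⟩ : ∃ x, x = Real.log T := ⟨_, rfl⟩
  have hxX : X0 ≤ x := by rw [hx, Real.le_log_iff_exp_le hT0]; exact hTe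
  rw [hX0] at hxX
  have hx1 : 1 ≤ x := (le_max_left _ _).trans hxX
  have hx2 : max y0 1 ^ 10 ≤ x := ((le_max_left _ _).trans (le_max_right _ _)).trans hxX
  have hx3 : 2 * C / δ ≤ x :=
    ((le_max_left _ _).trans ((le_max_right _ _).trans (le_max_right _ _))).trans hxX
  have hx4 : 1 / η ≤ x :=
    ((le_max_right _ _).trans ((le_max_right _ _).trans (le_max_right _ _))).trans hxX
  have hx0 : 0 < x := by linarith
  rw [div_le_iff₀ hδ] at hx3
  rw [div_le_iff₀ hη0] at hx4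
  rw [← hx] at hV hmT hYT hmY hJT
  have hV0 : 0 < V := lt_of_lt_of_le (by positivity) hV
  have hm2 := hbad T hT8 m hm p0 hp0 J Y V hY (by rw [← hx]; exact hYT) (by rw [← hx]; exact hmY)
    (by rw [← hx]; exact hJT) hV0
  rw [← hx] at hm2
  obtain ⟨E, hE⟩ : ∃ E, E = Icc 0 T \ GdS T V m p0 Y J := ⟨_, rfl⟩
  rw [← hE] at hm2 ⊢
  have hEm : MeasurableSet E := by rw [hE]; exact measurableSet_Icc.diff (gds_meas _ _ _ _ _ _)
  have hEs : E ⊆ Icc 0 T := by rw [hE]; exact sdiff_subset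
  have h4 := hz T hT2
  rw [← hx] at h4
  -- interpolation
  obtain ⟨lam, hlam⟩ : ∃ lam, lam = (x ^ (C4 + 1))⁻¹ := ⟨_, rfl⟩
  have hlam0 : 0 < lam := by rw [hlam]; positivity
  have hc4 : Continuous fun t : ℝ => ‖riemannZeta (1 / 2 + I * t)‖ ^ 4 := continuous_zeta.norm.pow 4
  have hint : ∫ t in E, ‖riemannZeta (1 / 2 + I * t)‖ ^ (2 * (1 + b))
      ≤ (1 + (lam ^ 3)⁻¹) * (∫ _t in E, (1 : ℝ)) + lam * ∫ t in Icc 0 T, ‖riemannZeta (1 / 2 + I * t)‖ ^ 4 := by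
    have i1 : IntegrableOn (fun t : ℝ => ‖riemannZeta (1 / 2 + I * t)‖ ^ (2 * (1 + b))) E :=
      (integrableOn_zeta_rpow (by linarith) T).mono_set hEs
    have i2 : IntegrableOn (fun _ : ℝ => (1 + (lam ^ 3)⁻¹) * (1 : ℝ)) E :=
      (continuous_const.integrableOn_Icc).mono_set hEs
    have i3 : IntegrableOn (fun t : ℝ => lam * ‖riemannZeta (1 / 2 + I * t)‖ ^ 4) E :=
      ((hc4.integrableOn_Icc).mono_set hEs).const_mul _
    calc ∫ t in E, ‖riemannZeta (1 / 2 + I * t)‖ ^ (2 * (1 + b))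
        ≤ ∫ t in E, ((1 + (lam ^ 3)⁻¹) * (1 : ℝ) + lam * ‖riemannZeta (1 / 2 + I * t)‖ ^ 4) := by
          refine setIntegral_mono_on i1 (i2.add i3) hEm fun t _ => ?_
          rw [mul_one]
          exact young (norm_nonneg _) hlam0 hb0 hb1
      _ = (1 + (lam ^ 3)⁻¹) * (∫ _t in E, (1 : ℝ)) + lam * ∫ t in E, ‖riemannZeta (1 / 2 + I * t)‖ ^ 4 := by
          rw [integral_add i2 i3, integral_const_mul, integral_const_mul]
      _ ≤ _ := by
          gcongr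
          · exact Eventually.of_forall fun t => by positivity
          · exact hc4.integrableOn_Icc
  refine hint.trans ?_
  have hl3 : 1 + (lam ^ 3)⁻¹ ≤ 2 * x ^ (3 * (C4 + 1)) := by
    rw [hlam, inv_pow, inv_inv, ← pow_mul, mul_comm (C4 + 1) 3]
    have : 1 ≤ x ^ (3 * (C4 + 1)) := one_le_pow₀ hx1
    linarith
  have hm2' : 0 ≤ T * (x / V ^ 2 + ((2 : ℝ) ^ m)⁻¹) := by positivity
  have p1 : (1 + (lam ^ 3)⁻¹) * (∫ _t in E, (1 : ℝ)) ≤ δ / 2 * T := by
    have hi0 : 0 ≤ ∫ _t in E, (1 : ℝ) := integral_nonneg fun _ => zero_le_one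
    have a1 : x ^ (3 * (C4 + 1)) * (x / V ^ 2) ≤ η := by
      have hV2 : x ^ (2 * (2 * C4 + 4)) ≤ V ^ 2 := by
        calc x ^ (2 * (2 * C4 + 4)) = (x ^ (2 * C4 + 4)) ^ 2 := by rw [← pow_mul]; ring_nf
          _ ≤ V ^ 2 := by gcongr
      have h5 : x ^ (3 * (C4 + 1)) * (x / V ^ 2) ≤ x ^ (3 * (C4 + 1)) * (x / x ^ (2 * (2 * C4 + 4))) := by
        gcongr
      refine h5.trans ?_
      have h6 : x ^ (3 * (C4 + 1)) * (x / x ^ (2 * (2 * C4 + 4))) = 1 / x ^ (C4 + 4) := by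
        have : x ^ (2 * (2 * C4 + 4)) = x ^ (3 * (C4 + 1)) * x * x ^ (C4 + 4) := by ring
        rw [this]
        field_simp
      rw [h6, div_le_iff₀ (by positivity)]
      have h7 : x ≤ x ^ (C4 + 4) := le_self_pow₀ hx1 (by omega)
      calc 1 ≤ x * η := hx4
        _ ≤ x ^ (C4 + 4) * η := by gcongr
        _ = η * x ^ (C4 + 4) := mul_comm _ _
    have a2 : x ^ (3 * (C4 + 1)) * ((2 : ℝ) ^ m)⁻¹ ≤ η := by
      obtain ⟨y, hy⟩ : ∃ y, y = x ^ (1 / 10 : ℝ) := ⟨_, rfl⟩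
      have hxy : x = y ^ 10 := by
        rw [hy, ← Real.rpow_natCast, ← Real.rpow_mul hx0.le]
        norm_num
      have hy00 : 0 < y := by rw [hy]; positivity
      have hyy : max y0 1 ≤ y := by
        rw [hxy] at hx2
        exact (pow_le_pow_iff_left₀ (by positivity) hy00.le (by norm_num)).mp hx2
      rw [← hy] at hmT
      have := hy0 y ((le_max_left _ _).trans hyy) m hmT
      have e : x ^ (3 * (C4 + 1)) = y ^ (30 * (C4 + 1)) := by
        rw [hxy, ← pow_mul]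
        congr 1
        ring
      rw [e]
      exact this
    calc (1 + (lam ^ 3)⁻¹) * (∫ _t in E, (1 : ℝ))
        ≤ (2 * x ^ (3 * (C4 + 1))) * (C8 * (T * (x / V ^ 2 + ((2 : ℝ) ^ m)⁻¹))) := by gcongr
      _ = 2 * C8 * T * (x ^ (3 * (C4 + 1)) * (x / V ^ 2) + x ^ (3 * (C4 + 1)) * ((2 : ℝ) ^ m)⁻¹) := by ring
      _ ≤ 2 * C8 * T * (η + η) := by gcongr
      _ = δ / 2 * T * (8 * C8 / (8 * C8 + 1)) := by rw [hη]; ring
      _ ≤ δ / 2 * T * 1 := by
          gcongr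
          rw [div_le_one (by positivity)]
          linarith
      _ = δ / 2 * T := mul_one _
  have p2 : lam * ∫ t in Icc 0 T, ‖riemannZeta (1 / 2 + I * t)‖ ^ 4 ≤ δ / 2 * T := by
    calc lam * ∫ t in Icc 0 T, ‖riemannZeta (1 / 2 + I * t)‖ ^ 4 ≤ lam * (C * (T * x ^ C4)) := by gcongr
      _ = C / x * T := by
          rw [hlam, pow_succ]
          field_simp
      _ ≤ δ / 2 * T := by
          refine mul_le_mul_of_nonneg_right ?_ hT0.le
          rw [div_le_iff₀ hx0]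
          linarith only [hx3]
  linarith

end Pool.Agent.Lib.MP_f9aece_nt_h97
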