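import Mathlib
import Pool.Agent.Lib.MP_f9aece_nt_h24.LevelPart
import Pool.Agent.Lib.MP_f9aece_nt_h24.SumLevels
import Pool.Agent.Lib.MP_f9aece_nt_h24.RightHyps

/-!
The upper bound for exponents slightly larger than `2`: the levels, their parameters and the
summation.
-/

set_option autoImplicit false

namespace Pool.Agent.Lib.MP_f9aece_nt_h97

open MeasureTheory Set Filter Topology Complex
open Pool.Agent.Lib.MP_f9aece_nt
open Pool.Agent.Lib.MP_f9aece_nt_h22 (Psc Rsc J1 J1_le J1_lt J1_pos integrableOn_zeta_rpow)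

/-- one level -/
theorem level_step (hc : H4c) : ∃ C7 : ℝ, 0 ≤ C7 ∧ ∃ m1 p1 : ℕ, 1 ≤ m1 ∧ 1 ≤ p1 ∧ ∃ T7 : ℝ,
    ∀ T : ℝ, T7 ≤ T → ∀ m : ℕ, m1 ≤ m → ∀ p0 : ℕ, p1 ≤ p0 → ∀ b : ℝ, 0 ≤ b → b ≤ 1 / 4 →
    ∀ (J μ : ℕ) (Y ε' V V' : ℝ), 4 ≤ Y → 43 * Y ≤ Real.log T → Y / 4 ^ (J + 1) < Real.log 2 →
    0 < ε' → ε' ≤ 1 / 4 → 480 * Real.log (Real.log T) ≤ ε' * Real.log T →
    48 * (2 * J + 1 + 6 * m * Y) ≤ ε' * Real.log T → 1 ≤ μ → Real.log T ≤ 160 * μ * Y →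
    2000 * m * Y ≤ Real.log T → 64 * (J + 1) ≤ Real.log T → 0 < V → 0 ≤ V' →
    ∫ t in GdS T V' (2 * m) p0 (Y / 4) J \ GdS T V m p0 Y (J + 1),
        ‖riemannZeta (1 / 2 + I * t)‖ ^ (2 * (1 + b))
      ≤ Real.exp (8 * b) * V' ^ (2 * b) * (C7 * (ε' + ((2 : ℝ) ^ m)⁻¹ + (Real.log T)⁻¹
          + (2 ^ p0 * (640 * (μ : ℝ)) ^ 24) ^ 3 / V ^ 2)) * (T * Real.log T ^ ((1 + b) ^ 2)) := by
  obtain ⟨C4, hC4, ma, pa, hma, hpa, T4, h4⟩ := level_part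
  obtain ⟨C5, hC5, mb, pb, T5, h5⟩ := hc
  refine ⟨C4 + C5, by positivity, max ma mb, max pa pb, by omega, by omega, max (Real.exp 1) (max T4 T5), ?_⟩
  intro T hT m hm p0 hp0 b hb0 hb1 J μ Y ε' V V' hY hYT hJ hε0 hε1 hll hlen hμ hμT hmY hJT hV hV'
  have hTe : Real.exp 1 ≤ T := (le_max_left _ _).trans hT
  have hT4 : T4 ≤ T := ((le_max_left _ _).trans (le_max_right _ _)).trans hT
  have hT5 : T5 ≤ T := ((le_max_right _ _).trans (le_max_right _ _)).trans hT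
  have hT0 : 0 < T := (Real.exp_pos 1).trans_le hTe
  have hl1 : 1 ≤ Real.log T := by rw [Real.le_log_iff_exp_le hT0]; exact hTe
  have hma' : ma ≤ m := (le_max_left _ _).trans hm
  have hmb' : mb ≤ m := (le_max_right _ _).trans hm
  have hpa' : pa ≤ p0 := (le_max_left _ _).trans hp0
  have hpb' : pb ≤ p0 := (le_max_right _ _).trans hp0
  have k1 := h4 T hT4 m hma' p0 hpa' b hb0 hb1 J μ Y ε' V hY hYT hJ hε0 hε1 hll hlen hμ hμT hV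
  have k2 := h5 T hT5 m hmb' p0 hpb' J b Y hb0 hb1 hY hYT hmY hJT hJ
  have hsc : ∀ j < J, sc Y p0 (j + 1) = sc (Y / 4) p0 j := fun j _ =>
    Pool.Agent.Lib.MP_f9aece_nt_h40.sc_succ (by linarith) p0 j
  have k3 := on_diff (T := T) (V := V) hb0 (by linarith) hV' (by omega : 1 ≤ m) hsc m
  refine k3.trans ?_
  obtain ⟨U, hU⟩ : ∃ U, U = T * Real.log T ^ ((1 + b) ^ 2) := ⟨_, rfl⟩
  rw [← hU] at k1 k2 ⊢
  have hU0 : 0 ≤ U := by
    rw [hU]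
    have : 0 ≤ Real.log T ^ ((1 + b) ^ 2) := Real.rpow_nonneg (by linarith) _
    positivity
  obtain ⟨κ, hκ⟩ : ∃ κ, κ = (2 ^ p0 * (640 * (μ : ℝ)) ^ 24) ^ 3 / V ^ 2 := ⟨_, rfl⟩
  have hκ0 : 0 ≤ κ := by rw [hκ]; positivity
  rw [← hκ] at k1 ⊢
  obtain ⟨q, hq⟩ : ∃ q, q = ((2 : ℝ) ^ m)⁻¹ := ⟨_, rfl⟩
  have hq0 : 0 ≤ q := by rw [hq]; positivity
  rw [← hq] at k1 k2 ⊢
  have hli : 0 ≤ (Real.log T)⁻¹ := by positivity
  have he : Real.exp (8 * b * (1 / 3) ^ (2 * m)) ≤ Real.exp (8 * b) := by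
    apply Real.exp_le_exp.mpr
    have h1 : (1 / 3 : ℝ) ^ (2 * m) ≤ 1 := pow_le_one₀ (by norm_num) (by norm_num)
    have h2 : 0 ≤ 8 * b := by positivity
    exact mul_le_of_le_one_right h2 h1
  have hV'b : 0 ≤ V' ^ (2 * b) := Real.rpow_nonneg hV' _
  have k4 := add_le_add k1 k2
  have k5 : C4 * U * (ε' + q + (Real.log T)⁻¹ + κ) + C5 * q * U
      ≤ ((C4 + C5) * (ε' + q + (Real.log T)⁻¹ + κ)) * U := by
    have h1 : C5 * q * U ≤ C5 * (ε' + q + (Real.log T)⁻¹ + κ) * U := by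
      gcongr
      linarith
    nlinarith only [h1]
  have k6 := k4.trans k5
  have hbr0 : 0 ≤ ((C4 + C5) * (ε' + q + (Real.log T)⁻¹ + κ)) * U := by positivity
  calc Real.exp (8 * b * (1 / 3) ^ (2 * m)) * V' ^ (2 * b) * _
      ≤ Real.exp (8 * b * (1 / 3) ^ (2 * m)) * V' ^ (2 * b)
          * (((C4 + C5) * (ε' + q + (Real.log T)⁻¹ + κ)) * U) :=
        mul_le_mul_of_nonneg_left k6 (by positivity)
    _ ≤ Real.exp (8 * b) * V' ^ (2 * b) * (((C4 + C5) * (ε' + q + (Real.log T)⁻¹ + κ)) * U) := by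
        gcongr
    _ = _ := by ring

/-! ### parameters -/

lemma exists_level {y : ℝ} (hy : 1 ≤ y) : ∃ L : ℕ, (2 : ℝ) ^ L ≤ y ∧ y < 2 ^ (L + 1) := by
  refine ⟨Nat.log 2 ⌊y⌋₊, ?_, ?_⟩
  · have h1 : ⌊y⌋₊ ≠ 0 := by
      have : 1 ≤ ⌊y⌋₊ := Nat.le_floor (by simpa using hy)
      omega
    have h2 := Nat.pow_log_le_self 2 h1
    have h3 : ((2 ^ Nat.log 2 ⌊y⌋₊ : ℕ) : ℝ) ≤ (⌊y⌋₊ : ℝ) := by exact_mod_cast h2
    push_cast at h3
    exact h3.trans (Nat.floor_le (by linarith))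
  · have h2 := Nat.lt_pow_succ_log_self (b := 2) (by norm_num) ⌊y⌋₊
    have h3 : ((⌊y⌋₊ + 1 : ℕ) : ℝ) ≤ ((2 ^ (Nat.log 2 ⌊y⌋₊ + 1) : ℕ) : ℝ) := by exact_mod_cast h2
    push_cast at h3
    exact (Nat.lt_floor_add_one y).trans_le h3

/-- the conditions on the size of the parameters -/
structure Par (A ε0 x y : ℝ) (m0 L J : ℕ) : Prop where
  hA : 43 ≤ A
  hA2 : 2000 * (m0 : ℝ) ≤ A
  hA3 : 576 * (m0 : ℝ) ≤ ε0 * A
  hε0 : 0 < ε0
  hε1 : ε0 ≤ 1 / 4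
  hy : 4 ≤ y
  hyA : 4 * A ≤ y
  hyε : 4800 ≤ ε0 * y
  hxy : x = y ^ 10
  hlog : Real.log x ≤ 10 * y
  hL : (2 : ℝ) ^ L ≤ y
  hJ : (J : ℝ) ≤ 11 * y
  hJ2 : x / A / 4 ^ J < Real.log 2

namespace Par

variable {A ε0 x y : ℝ} {m0 L J : ℕ}

lemma hs (h : Par A ε0 x y m0 L J) {l : ℕ} (hl : l ≤ L) : (1 : ℝ) ≤ 2 ^ l ∧ (2 : ℝ) ^ l ≤ y :=
  ⟨one_le_pow₀ (by norm_num), (pow_le_pow_right₀ (by norm_num) hl).trans h.hL⟩

lemma four (l : ℕ) : (4 : ℝ) ^ l = (2 ^ l) ^ 2 := by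
  rw [← pow_mul, mul_comm, pow_mul]
  norm_num

lemma y3 (h : Par A ε0 x y m0 L J) : y ^ 3 ≤ x := by
  rw [h.hxy]
  exact pow_le_pow_right₀ (by linarith [h.hy]) (by norm_num)

lemma x_pos (h : Par A ε0 x y m0 L J) : 0 < x := by
  have := h.y3
  have := h.hy
  have : 0 < y ^ 3 := by positivity
  linarith

lemma Y4 (h : Par A ε0 x y m0 L J) {l : ℕ} (hl : l ≤ L) : 4 ≤ x / A / 4 ^ l := by
  obtain ⟨h1, h2⟩ := h.hs hl
  have hA := h.hA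
  have hy := h.hy
  rw [div_div, le_div_iff₀ (by positivity), four]
  calc 4 * (A * (2 ^ l) ^ 2) ≤ 4 * (A * y ^ 2) := by gcongr
    _ = (4 * A) * y ^ 2 := by ring
    _ ≤ y * y ^ 2 := by gcongr; exact h.hyA
    _ = y ^ 3 := by ring
    _ ≤ x := h.y3

lemma J_gt (h : Par A ε0 x y m0 L J) : L < J := by
  by_contra hcon
  push Not at hcon
  have h1 := h.Y4 (le_refl L)
  have h2 := h.hJ2
  have hA := h.hA
  have hx := h.x_pos
  have h3 : x / A / 4 ^ L ≤ x / A / 4 ^ J := by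
    have : (4 : ℝ) ^ J ≤ 4 ^ L := pow_le_pow_right₀ (by norm_num) hcon
    gcongr
  have h4 := Real.log_two_lt_d9
  linarith

lemma Y43 (h : Par A ε0 x y m0 L J) (l : ℕ) : 43 * (x / A / 4 ^ l) ≤ x := by
  have hA := h.hA
  have hx := h.x_pos
  have h1 : x / A / 4 ^ l ≤ x / A := div_le_self (by positivity) (one_le_pow₀ (by norm_num))
  have h2 : 43 * (x / A) ≤ x := by
    rw [mul_div_assoc', div_le_iff₀ (by linarith)]
    nlinarith only [hA, hx]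
  linarith

lemma JJ (h : Par A ε0 x y m0 L J) {l : ℕ} (hl : l ≤ L) : x / A / 4 ^ l / 4 ^ (J - l) < Real.log 2 := by
  have h1 := h.J_gt
  rw [div_div (x / A) (4 ^ l), ← pow_add, show l + (J - l) = J by omega]
  exact h.hJ2

lemma loglog (h : Par A ε0 x y m0 L J) {l : ℕ} (hl : l ≤ L) : 480 * Real.log x ≤ ε0 / 2 ^ l * x := by
  obtain ⟨h1, h2⟩ := h.hs hl
  have hy := h.hy
  have h0 := h.hε0
  have hx := h.x_pos
  have h3 := h.hlog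
  rw [div_mul_eq_mul_div, le_div_iff₀ (by positivity)]
  calc 480 * Real.log x * 2 ^ l ≤ 480 * (10 * y) * 2 ^ l := by gcongr
    _ ≤ 480 * (10 * y) * y := by gcongr
    _ = 4800 * y ^ 2 := by ring
    _ ≤ (ε0 * y) * y ^ 2 := by gcongr; exact h.hyε
    _ = ε0 * y ^ 3 := by ring
    _ ≤ ε0 * x := by gcongr; exact h.y3

lemma mY (h : Par A ε0 x y m0 L J) (l : ℕ) :
    2000 * ((m0 * 2 ^ l : ℕ) : ℝ) * (x / A / 4 ^ l) ≤ x := by
  have hA := h.hA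
  have hx := h.x_pos
  have hA2 := h.hA2
  have h2 : (1 : ℝ) ≤ 2 ^ l := one_le_pow₀ (by norm_num)
  have e : 2000 * ((m0 * 2 ^ l : ℕ) : ℝ) * (x / A / 4 ^ l) = 2000 * m0 * (x / A) / 2 ^ l := by
    rw [four]
    push_cast
    field_simp
  rw [e]
  have h3 : 2000 * m0 * (x / A) ≤ x := by
    rw [mul_div_assoc', div_le_iff₀ (by linarith), mul_comm x A]
    gcongr
  exact (div_le_self (by positivity) h2).trans h3

lemma J64 (h : Par A ε0 x y m0 L J) : 64 * (J : ℝ) ≤ x := by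
  have h1 := h.hJ
  have hy := h.hy
  have h2 : 64 * (11 * y) ≤ y ^ 10 := by
    have h3 : (4 : ℝ) ^ 9 ≤ y ^ 9 := by gcongr
    have h4 : y ^ 10 = y ^ 9 * y := by ring
    rw [h4]
    nlinarith only [h3, hy]
  rw [h.hxy]
  linarith

lemma len (h : Par A ε0 x y m0 L J) {l : ℕ} (hl : l < L) :
    48 * (2 * ((J - l - 1 : ℕ) : ℝ) + 1 + 6 * ((m0 * 2 ^ l : ℕ) : ℝ) * (x / A / 4 ^ l))
      ≤ ε0 / 2 ^ l * x := by
  obtain ⟨h1, h2⟩ := h.hs hl.le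
  have hA := h.hA
  have hx := h.x_pos
  have hy := h.hy
  have hε := h.hε0
  have hJL := h.J_gt
  have e1 : ((J - l - 1 : ℕ) : ℝ) ≤ J - 1 := by
    have h5 : J - l - 1 ≤ J - 1 := by omega
    have h6 : ((J - 1 : ℕ) : ℝ) = J - 1 := by
      rw [Nat.cast_sub (by omega)]
      simp
    rw [← h6]
    exact_mod_cast h5
  have e2 : 6 * ((m0 * 2 ^ l : ℕ) : ℝ) * (x / A / 4 ^ l) = 6 * m0 * (x / A) / 2 ^ l := by
    rw [four]
    push_cast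
    field_simp
  rw [e2]
  have h3 : 576 * m0 * (x / A) ≤ ε0 * x := by
    rw [mul_div_assoc', div_le_iff₀ (by linarith)]
    calc 576 * (m0 : ℝ) * x ≤ (ε0 * A) * x := mul_le_mul_of_nonneg_right h.hA3 hx.le
      _ = ε0 * x * A := by ring
  have h4 : 48 * (6 * m0 * (x / A) / 2 ^ l) ≤ ε0 / 2 ^ l * x / 2 := by
    have : 48 * (6 * m0 * (x / A) / 2 ^ l) = (576 * m0 * (x / A)) / 2 ^ l / 2 := by ring
    rw [this]
    have h5 : 576 * m0 * (x / A) / 2 ^ l ≤ ε0 * x / 2 ^ l := by gcongr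
    have h6 : ε0 / 2 ^ l * x / 2 = ε0 * x / 2 ^ l / 2 := by ring
    rw [h6]
    linarith
  have h5 : 96 * (J : ℝ) ≤ ε0 / 2 ^ l * x / 2 := by
    have h6 : 192 * (J : ℝ) * 2 ^ l ≤ ε0 * x := by
      calc 192 * (J : ℝ) * 2 ^ l ≤ 192 * (11 * y) * y := by
            have := h.hJ
            gcongr
        _ = 2112 * y ^ 2 := by ring
        _ ≤ (ε0 * y) * y ^ 2 := by
            have := h.hyε
            gcongr
            linarith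
        _ = ε0 * y ^ 3 := by ring
        _ ≤ ε0 * x := by gcongr; exact h.y3
    have h7 : ε0 / 2 ^ l * x / 2 = ε0 * x / 2 ^ l / 2 := by ring
    have h8 : 192 * (J : ℝ) ≤ ε0 * x / 2 ^ l := by rw [le_div_iff₀ (by positivity)]; exact h6
    rw [h7]
    linarith
  linarith

lemma mu (h : Par A ε0 x y m0 L J) (l : ℕ) :
    x ≤ 160 * ((⌈A⌉₊ * 4 ^ l : ℕ) : ℝ) * (x / A / 4 ^ l) := by
  have hA := h.hA
  have hx := h.x_pos
  have h1 := Nat.le_ceil A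
  have e : 160 * ((⌈A⌉₊ * 4 ^ l : ℕ) : ℝ) * (x / A / 4 ^ l) = 160 * (x * (⌈A⌉₊ / A)) := by
    push_cast
    field_simp
  have h2 : 1 ≤ (⌈A⌉₊ : ℝ) / A := by rw [one_le_div (by linarith)]; exact h1
  rw [e]
  nlinarith only [h2, hx]

end Par

/-- the exponents `b` -/
lemma exists_b0 {δ V0 Γ : ℝ} (hδ0 : 0 < δ) (hV0 : 1 ≤ V0) (hΓ : 1 ≤ Γ) : ∃ b0 : ℝ, 0 < b0 ∧
    b0 ≤ 1 / 4 ∧ ∀ b : ℝ, 0 ≤ b → b ≤ b0 →
      Real.exp (8 * b) ≤ 1 + δ ∧ V0 ^ (2 * b) ≤ 1 + δ ∧ Γ ^ (2 * b) ≤ 1 + δ := by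
  have h1 : 0 ≤ Real.log V0 := Real.log_nonneg hV0
  have h2 : 0 ≤ Real.log Γ := Real.log_nonneg hΓ
  obtain ⟨Λ, hΛ⟩ : ∃ Λ, Λ = 8 + 2 * Real.log V0 + 2 * Real.log Γ := ⟨_, rfl⟩
  have hΛ0 : 0 < Λ := by rw [hΛ]; positivity
  have hl : 0 < Real.log (1 + δ) := Real.log_pos (by linarith)
  refine ⟨min (1 / 4) (Real.log (1 + δ) / Λ), by positivity, min_le_left _ _, ?_⟩
  intro b hb0 hb
  have hb1 : b ≤ Real.log (1 + δ) / Λ := hb.trans (min_le_right _ _)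
  rw [le_div_iff₀ hΛ0, hΛ] at hb1
  have h3 : 0 ≤ b * Real.log V0 := by positivity
  have h4 : 0 ≤ b * Real.log Γ := by positivity
  have e1 : Real.exp (Real.log (1 + δ)) = 1 + δ := Real.exp_log (by linarith)
  refine ⟨?_, ?_, ?_⟩
  · rw [← e1]
    apply Real.exp_le_exp.mpr
    nlinarith only [hb1, h3, h4]
  · rw [← e1, Real.rpow_def_of_pos (by linarith)]
    apply Real.exp_le_exp.mpr
    nlinarith only [hb1, h3, h4, hb0]
  · rw [← e1, Real.rpow_def_of_pos (by linarith)]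
    apply Real.exp_le_exp.mpr
    nlinarith only [hb1, h3, h4, hb0]

/-- growth of the thresholds -/
lemma thr_last {x y V0 : ℝ} {L C6 : ℕ} (hy : 4 ≤ y) (hxy : x = y ^ 10) (hL : y < 2 ^ (L + 1))
    (hV0 : 1 ≤ V0) : x ^ C6 ≤ V0 * ((2 : ℝ) ^ (20 * (C6 + 5))) ^ L := by
  have hy0 : 0 < y := by linarith
  have h1 : y / 2 ≤ 2 ^ L := by
    rw [pow_succ] at hL
    linarith
  have h2 : x ≤ (y / 2) ^ 20 := by
    have h3 : (4 : ℝ) ^ 10 ≤ y ^ 10 := by gcongr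
    have h4 : (y / 2) ^ 20 = y ^ 10 * (y ^ 10 / 2 ^ 20) := by ring
    rw [h4, hxy]
    refine le_mul_of_one_le_right (by positivity) ?_
    rw [one_le_div (by positivity)]
    linarith
  have hx1 : 1 ≤ x := by rw [hxy]; exact one_le_pow₀ (by linarith)
  have h5 : ((2 : ℝ) ^ (20 * (C6 + 5))) ^ L = ((2 ^ L) ^ 20) ^ (C6 + 5) := by
    rw [← pow_mul, ← pow_mul, ← pow_mul]
    congr 1
    ring
  have h6 : x ^ C6 ≤ x ^ (C6 + 5) := pow_le_pow_right₀ hx1 (by omega)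
  have h7 : x ^ (C6 + 5) ≤ ((2 ^ L) ^ 20) ^ (C6 + 5) := by
    have : x ≤ ((2 : ℝ) ^ L) ^ 20 := h2.trans (by gcongr)
    gcongr
  rw [h5]
  have h8 : (0 : ℝ) ≤ ((2 ^ L) ^ 20) ^ (C6 + 5) := by positivity
  nlinarith only [h6, h7, h8, hV0]

/-- the sum over the levels -/
lemma sum_right {L m0 p0 a : ℕ} (hm0 : 1 ≤ m0) {b δ C7 ε0 x y V0 Γ U : ℝ} (hδ0 : 0 < δ)
    (hδ1 : δ ≤ 1 / 4) (hC7 : 0 ≤ C7) (hε0 : 0 < ε0) (hy : 4 ≤ y) (hxy : x = y ^ 10)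
    (hL : (2 : ℝ) ^ L ≤ y) (hV0 : 1 ≤ V0) (hΓ : 2 ^ 100 ≤ Γ) (hU : 0 ≤ U) {I : ℕ → ℝ}
    (h1 : 12 * (C7 * ε0) ≤ δ) (h2 : 12 * C7 / 2 ^ m0 ≤ δ) (h3 : 6 * C7 ≤ δ * y)
    (h4 : 12 * (C7 * (2 ^ p0 * (640 * (a : ℝ)) ^ 24) ^ 3) / V0 ^ 2 ≤ δ)
    (hb1 : Real.exp (8 * b) ≤ 1 + δ) (hb2 : V0 ^ (2 * b) ≤ 1 + δ) (hb3 : Γ ^ (2 * b) ≤ 1 + δ)
    (hI : ∀ l < L, I l ≤ Real.exp (8 * b) * (V0 * Γ ^ (l + 1)) ^ (2 * b)
      * (C7 * (ε0 / 2 ^ l + ((2 : ℝ) ^ (m0 * 2 ^ l))⁻¹ + x⁻¹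
          + (2 ^ p0 * (640 * ((a * 4 ^ l : ℕ) : ℝ)) ^ 24) ^ 3 / (V0 * Γ ^ l) ^ 2)) * U) :
    ∑ l ∈ Finset.range L, I l ≤ 4 * δ * U := by
  have hΓ0 : 0 < Γ := lt_of_lt_of_le (by positivity) hΓ
  have hy0 : 0 < y := by linarith
  have hx0 : 0 < x := by rw [hxy]; positivity
  have key := level_sum (L := L) (m := m0) hm0
    (w := fun l => Real.exp (8 * b) * (V0 * Γ ^ (l + 1)) ^ (2 * b))
    (x := fun l => C7 * (ε0 / 2 ^ l + ((2 : ℝ) ^ (m0 * 2 ^ l))⁻¹ + x⁻¹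
          + (2 ^ p0 * (640 * ((a * 4 ^ l : ℕ) : ℝ)) ^ 24) ^ 3 / (V0 * Γ ^ l) ^ 2))
    (α := C7 * ε0) (β := C7) (γ := C7 / x) (κ := C7 * (2 ^ p0 * (640 * (a : ℝ)) ^ 24) ^ 3) (V0 := V0)
    (Γ := Γ) (by positivity) hC7 (by positivity) (by positivity) (by linarith) hΓ
    (fun l _ => by positivity) (fun l _ => ?_) (fun l _ => ?_)
  · have h5 : ∑ l ∈ Finset.range L, I l ≤ (∑ l ∈ Finset.range L,
        (Real.exp (8 * b) * (V0 * Γ ^ (l + 1)) ^ (2 * b))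
          * (C7 * (ε0 / 2 ^ l + ((2 : ℝ) ^ (m0 * 2 ^ l))⁻¹ + x⁻¹
          + (2 ^ p0 * (640 * ((a * 4 ^ l : ℕ) : ℝ)) ^ 24) ^ 3 / (V0 * Γ ^ l) ^ 2))) * U := by
      rw [Finset.sum_mul]
      exact Finset.sum_le_sum fun l hl => hI l (Finset.mem_range.mp hl)
    refine h5.trans ?_
    refine mul_le_mul_of_nonneg_right (key.trans ?_) hU
    have h6 : 6 * (C7 / x) * 2 ^ L ≤ δ := by
      have h7 : 6 * (C7 / x) * 2 ^ L ≤ 6 * (C7 / x) * y := by gcongr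
      refine h7.trans ?_
      have h8 : 6 * (C7 / x) * y = 6 * C7 * y / x := by ring
      rw [h8, div_le_iff₀ hx0]
      calc 6 * C7 * y ≤ δ * y * y := by gcongr
        _ = δ * y ^ 2 := by ring
        _ ≤ δ * x := by
            rw [hxy]
            have : y ^ 2 ≤ y ^ 10 := pow_le_pow_right₀ (by linarith) (by norm_num)
            gcongr
    linarith only [h1, h2, h4, h6]
  · have e1 : (V0 * Γ ^ (l + 1)) ^ (2 * b) = V0 ^ (2 * b) * (Γ ^ (2 * b)) ^ (l + 1) := by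
      rw [Real.mul_rpow (by linarith) (by positivity), ← Real.rpow_natCast, ← Real.rpow_natCast,
        ← Real.rpow_mul hΓ0.le, ← Real.rpow_mul hΓ0.le]
      congr 2
      ring
    rw [e1]
    have h5 : (Γ ^ (2 * b)) ^ (l + 1) ≤ (3 / 2) ^ (l + 1) := by
      have h6 : Γ ^ (2 * b) ≤ 3 / 2 := by linarith
      have h7 : 0 ≤ Γ ^ (2 * b) := by positivity
      gcongr
    have h6 : 0 ≤ V0 ^ (2 * b) := Real.rpow_nonneg (by linarith) _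
    have h7 : Real.exp (8 * b) * V0 ^ (2 * b) ≤ 2 := by
      calc Real.exp (8 * b) * V0 ^ (2 * b) ≤ (1 + δ) * (1 + δ) := by gcongr
        _ ≤ 2 := by nlinarith
    calc Real.exp (8 * b) * (V0 ^ (2 * b) * (Γ ^ (2 * b)) ^ (l + 1))
        = Real.exp (8 * b) * V0 ^ (2 * b) * (Γ ^ (2 * b)) ^ (l + 1) := by ring
      _ ≤ 2 * (3 / 2) ^ (l + 1) := by gcongr
  · refine le_of_eq ?_
    have e1 : ((2 : ℝ) ^ p0 * (640 * ((a * 4 ^ l : ℕ) : ℝ)) ^ 24) ^ 3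
        = (2 ^ p0 * (640 * (a : ℝ)) ^ 24) ^ 3 * (4 ^ 72) ^ l := by
      push_cast
      have e2 : ((4 : ℝ) ^ 72) ^ l = (4 ^ l) ^ 72 := by rw [← pow_mul, ← pow_mul, mul_comm]
      rw [e2]
      ring
    rw [e1, one_div, inv_pow]
    field_simp

/-- **the upper bound for exponents slightly larger than `2`** -/
theorem right_upper (hb : H4b) (hc : H4c) (hd : H4d) {ε : ℝ} (hε : 0 < ε) :
    ∃ b0 : ℝ, 0 < b0 ∧ b0 ≤ 1 / 4 ∧ ∃ T0 : ℝ, ∀ b : ℝ, 0 ≤ b → b ≤ b0 → ∀ T : ℝ, T0 ≤ T →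
      ∫ t in Icc 0 T, ‖riemannZeta (1 / 2 + I * t)‖ ^ (2 * (1 + b))
        ≤ (1 + ε) * (T * Real.log T ^ ((1 + b) ^ 2)) := by
  obtain ⟨δ, hδ0, hδ1, hδε⟩ : ∃ δ : ℝ, 0 < δ ∧ δ ≤ 1 / 4 ∧ 12 * δ ≤ ε :=
    ⟨min (1 / 4) (ε / 12), by positivity, min_le_left _ _, by
      have := min_le_right (1 / 4) (ε / 12)
      linarith⟩
  obtain ⟨C7, hC7, ma, pa, hma, hpa, T7, hstep⟩ := level_step hc
  obtain ⟨C6, mb, pb, hlast⟩ := hd
  obtain ⟨T6, hlast⟩ := hlast δ hδ0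
  obtain ⟨mc, pc, h0⟩ := hb δ hδ0
  -- the constants
  obtain ⟨ε0, hε0, hε1, hε2⟩ : ∃ ε0 : ℝ, 0 < ε0 ∧ ε0 ≤ 1 / 4 ∧ 12 * (C7 * ε0) ≤ δ := by
    refine ⟨min (1 / 4) (δ / (12 * C7 + 1)), by positivity, min_le_left _ _, ?_⟩
    have h1 : min (1 / 4) (δ / (12 * C7 + 1)) ≤ δ / (12 * C7 + 1) := min_le_right _ _
    calc 12 * (C7 * min (1 / 4) (δ / (12 * C7 + 1))) = 12 * C7 * min (1 / 4) (δ / (12 * C7 + 1)) := by ring
      _ ≤ 12 * C7 * (δ / (12 * C7 + 1)) := by gcongr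
      _ = δ * (12 * C7 / (12 * C7 + 1)) := by ring
      _ ≤ δ * 1 := by
          gcongr
          rw [div_le_one (by positivity)]
          linarith
      _ = δ := mul_one δ
  obtain ⟨m0, hm1, hm2, hm3, hm4, hm5⟩ : ∃ m0 : ℕ, ma ≤ m0 ∧ mb ≤ m0 ∧ mc ≤ m0 ∧ 2 ≤ m0 ∧
      12 * C7 / 2 ^ m0 ≤ δ := by
    obtain ⟨n, hn⟩ := exists_nat_ge (12 * C7 / δ)
    refine ⟨max (max ma mb) (max mc (max 2 n)), by omega, by omega, by omega, by omega, ?_⟩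
    obtain ⟨m, hm⟩ : ∃ m, m = max (max ma mb) (max mc (max 2 n)) := ⟨_, rfl⟩
    rw [← hm]
    have h1 : (n : ℝ) ≤ m := by
      have : n ≤ m := by omega
      exact_mod_cast this
    have h2 : (m : ℝ) ≤ 2 ^ m := by exact_mod_cast (Nat.lt_two_pow_self (n := m)).le
    rw [div_le_iff₀ (by positivity)]
    rw [div_le_iff₀ hδ0] at hn
    nlinarith only [hn, h1, h2, hδ0]
  obtain ⟨p0, hp1, hp2, hp3⟩ : ∃ p0 : ℕ, pa ≤ p0 ∧ pb ≤ p0 ∧ pc ≤ p0 :=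
    ⟨max pa (max pb pc), by omega, by omega, by omega⟩
  obtain ⟨A1, h0⟩ := h0 m0 hm3 p0 hp3
  obtain ⟨A, hA0, hA1, hA2, hA3⟩ : ∃ A : ℝ, 43 ≤ A ∧ A1 ≤ A ∧ 2000 * (m0 : ℝ) ≤ A ∧
      576 * (m0 : ℝ) ≤ ε0 * A := by
    refine ⟨max (max 43 A1) (max (2000 * m0) (576 * m0 / ε0)),
      (le_max_left _ _).trans (le_max_left _ _), (le_max_right _ _).trans (le_max_left _ _),
      (le_max_left _ _).trans (le_max_right _ _), ?_⟩
    have h1 : 576 * (m0 : ℝ) / ε0 ≤ max (max 43 A1) (max (2000 * m0) (576 * m0 / ε0)) :=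
      (le_max_right _ _).trans (le_max_right _ _)
    rw [div_le_iff₀ hε0] at h1
    linarith
  obtain ⟨Y1, h0⟩ := h0 A hA1
  obtain ⟨κ, hκ⟩ : ∃ κ, κ = C7 * (2 ^ p0 * (640 * ((⌈A⌉₊ : ℕ) : ℝ)) ^ 24) ^ 3 := ⟨_, rfl⟩
  have hκ0 : 0 ≤ κ := by rw [hκ]; positivity
  obtain ⟨V0, hV0, hV1⟩ : ∃ V0 : ℝ, 1 ≤ V0 ∧ 12 * κ / V0 ^ 2 ≤ δ := by
    refine ⟨max 1 (12 * κ / δ), le_max_left _ _, ?_⟩
    obtain ⟨v, hv⟩ : ∃ v, v = max 1 (12 * κ / δ) := ⟨_, rfl⟩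
    rw [← hv]
    have h1 : 1 ≤ v := by rw [hv]; exact le_max_left _ _
    have h2 : 12 * κ / δ ≤ v := by rw [hv]; exact le_max_right _ _
    rw [div_le_iff₀ hδ0] at h2
    rw [div_le_iff₀ (by positivity)]
    have h3 : v * δ ≤ v ^ 2 * δ := mul_le_mul_of_nonneg_right (by nlinarith only [h1]) hδ0.le
    linarith only [h2, h3]
  obtain ⟨Γ, hΓ⟩ : ∃ Γ : ℝ, Γ = 2 ^ (20 * (C6 + 5)) := ⟨_, rfl⟩
  have hΓ100 : (2 : ℝ) ^ 100 ≤ Γ := by
    rw [hΓ]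
    exact pow_le_pow_right₀ (by norm_num) (by omega)
  have hΓ1 : 1 ≤ Γ := le_trans (by norm_num) hΓ100
  obtain ⟨b0, hb00, hb01, hbb0⟩ := exists_b0 hδ0 hV0 hΓ1
  -- the threshold
  obtain ⟨y0, hy01, hy02, hy03, hy04⟩ : ∃ y0 : ℝ, 4 ≤ y0 ∧ 4 * A ≤ y0 ∧ 4800 ≤ ε0 * y0 ∧ 6 * C7 ≤ δ * y0 := by
    refine ⟨max (max 4 (4 * A)) (max (4800 / ε0) (6 * C7 / δ)),
      (le_max_left _ _).trans (le_max_left _ _), (le_max_right _ _).trans (le_max_left _ _), ?_, ?_⟩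
    · have h1 : 4800 / ε0 ≤ max (max 4 (4 * A)) (max (4800 / ε0) (6 * C7 / δ)) :=
        (le_max_left _ _).trans (le_max_right _ _)
      rw [div_le_iff₀ hε0] at h1
      linarith
    · have h1 : 6 * C7 / δ ≤ max (max 4 (4 * A)) (max (4800 / ε0) (6 * C7 / δ)) :=
        (le_max_right _ _).trans (le_max_right _ _)
      rw [div_le_iff₀ hδ0] at h1
      linarith
  refine ⟨b0, hb00, hb01, max (max T6 T7) (max (Real.exp (y0 ^ 10)) (Real.exp (A * Y1))), ?_⟩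
  intro b hb0 hbb T hT
  obtain ⟨hb1, hb2, hb3⟩ := hbb0 b hb0 hbb
  have hb4 : b ≤ 1 / 4 := hbb.trans hb01
  have hT6 : T6 ≤ T := ((le_max_left _ _).trans (le_max_left _ _)).trans hT
  have hT7 : T7 ≤ T := ((le_max_right _ _).trans (le_max_left _ _)).trans hT
  have hTy : Real.exp (y0 ^ 10) ≤ T := ((le_max_left _ _).trans (le_max_right _ _)).trans hT
  have hTY : Real.exp (A * Y1) ≤ T := ((le_max_right _ _).trans (le_max_right _ _)).trans hT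
  have hT0 : 0 < T := (Real.exp_pos _).trans_le hTy
  obtain ⟨x, hx⟩ : ∃ x, x = Real.log T := ⟨_, rfl⟩
  have hx1 : y0 ^ 10 ≤ x := by rw [hx, Real.le_log_iff_exp_le hT0]; exact hTy
  have hx2 : A * Y1 ≤ x := by rw [hx, Real.le_log_iff_exp_le hT0]; exact hTY
  have hy0pos : 0 < y0 := by linarith
  have hx0 : 0 < x := lt_of_lt_of_le (by positivity) hx1
  obtain ⟨y, hy⟩ : ∃ y, y = x ^ (1 / 10 : ℝ) := ⟨_, rfl⟩
  have hxy : x = y ^ 10 := by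
    rw [hy, ← Real.rpow_natCast, ← Real.rpow_mul hx0.le]
    norm_num
  have hypos : 0 < y := by rw [hy]; positivity
  have hyy0 : y0 ≤ y := by
    rw [hxy] at hx1
    exact (pow_le_pow_iff_left₀ hy0pos.le hypos.le (by norm_num)).mp hx1
  have hy4 : 4 ≤ y := hy01.trans hyy0
  have hx1' : 1 ≤ x := by rw [hxy]; exact one_le_pow₀ (by linarith)
  have hlogx : Real.log x ≤ 10 * y := by
    have := Real.log_le_rpow_div hx0.le (show (0 : ℝ) < 1 / 10 by norm_num)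
    rw [← hy] at this
    linarith
  obtain ⟨L, hL1, hL2⟩ := exists_level (y := y) (by linarith)
  have hA00 : 0 < A := by linarith
  have hY0 : 1 ≤ x / A := by
    rw [one_le_div hA00]
    have h1 : y ≤ y ^ 10 := le_self_pow₀ (by linarith) (by norm_num)
    rw [hxy]
    linarith
  have hJ1 : (J1 (x / A) : ℝ) ≤ 11 * y := by
    have h1 := J1_le hY0
    have h2 : Real.log (x / A) ≤ Real.log x :=
      Real.log_le_log (by positivity) (div_le_self hx0.le (by linarith))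
    linarith
  have par : Par A ε0 x y m0 L (J1 (x / A)) :=
    ⟨hA0, hA2, hA3, hε0, hε1, hy4, hy02.trans hyy0, hy03.trans (by gcongr), hxy, hlogx, hL1, hJ1,
      J1_lt (by linarith)⟩
  obtain ⟨J, hJdef⟩ : ∃ J, J = J1 (x / A) := ⟨_, rfl⟩
  rw [← hJdef] at par
  have hJL := par.J_gt
  obtain ⟨U, hU⟩ : ∃ U, U = T * x ^ ((1 + b) ^ 2) := ⟨_, rfl⟩
  have hUT : T ≤ U := by
    rw [hU]
    exact le_mul_of_one_le_right hT0.le (Real.one_le_rpow hx1' (by positivity))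
  have hU0 : 0 ≤ U := hT0.le.trans hUT
  -- the good sets
  obtain ⟨G, hG⟩ : ∃ G : ℕ → Set ℝ, G = fun l => GdS T (V0 * Γ ^ l) (m0 * 2 ^ l) p0 (x / A / 4 ^ l) (J - l) :=
    ⟨_, rfl⟩
  have hGm : ∀ l, MeasurableSet (G l) := fun l => by rw [hG]; exact gds_meas _ _ _ _ _ _
  have hGs : ∀ l, G l ⊆ Icc 0 T := fun l => by rw [hG]; exact gds_sub _ _ _ _ _ _
  have hdec := first_good (f := fun t : ℝ => ‖riemannZeta (1 / 2 + I * t)‖ ^ (2 * (1 + b)))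
    (integrableOn_zeta_rpow (by linarith) T) (fun t => Real.rpow_nonneg (norm_nonneg _) _)
    measurableSet_Icc hGm hGs L
  -- level 0
  have hlev0 : ∫ t in G 0, ‖riemannZeta (1 / 2 + I * t)‖ ^ (2 * (1 + b)) ≤ (1 + δ) * (1 + δ) * ((1 + δ) * U) := by
    have hG0 : G 0 ⊆ GdS T V0 m0 p0 (x / A) J := by
      rw [hG]
      simp
    have h1 := on_gds (T := T) (V := V0) hb0 (by linarith) (by omega : 1 ≤ m0) (hGm 0) hG0
    refine h1.trans ?_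
    have h2 : ∫ t in G 0, ‖riemannZeta (1 / 2 + I * t) * ev t (DD m0 p0 b (x / A) J)‖ ^ 2 ≤ (1 + δ) * U := by
      refine (setIntegral_mono_set (cont_ze _).integrableOn_Icc
        (Eventually.of_forall fun t => by positivity) (LE.le.eventuallyLE (hGs 0))).trans ?_
      have h3 := h0 (x / A) (by rw [le_div_iff₀ hA00]; linarith) b hb0 hb4 T (by
        rw [mul_div_cancel₀ _ hA00.ne', hx, Real.exp_log hT0])
      rw [← hx, ← hJdef, ← hU] at h3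
      exact h3
    have h3 : Real.exp (8 * b * (1 / 3) ^ m0) ≤ 1 + δ := by
      refine le_trans (Real.exp_le_exp.mpr ?_) hb1
      have h4 : (1 / 3 : ℝ) ^ m0 ≤ 1 := pow_le_one₀ (by norm_num) (by norm_num)
      exact mul_le_of_le_one_right (by positivity) h4
    have h4 : 0 ≤ V0 ^ (2 * b) := Real.rpow_nonneg (by linarith) _
    have h5 : 0 ≤ (1 + δ) * U := by positivity
    calc Real.exp (8 * b * (1 / 3) ^ m0) * V0 ^ (2 * b)
          * ∫ t in G 0, ‖riemannZeta (1 / 2 + I * t) * ev t (DD m0 p0 b (x / A) J)‖ ^ 2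
        ≤ Real.exp (8 * b * (1 / 3) ^ m0) * V0 ^ (2 * b) * ((1 + δ) * U) := by gcongr
      _ ≤ (1 + δ) * (1 + δ) * ((1 + δ) * U) := by gcongr
  -- the other levels
  have hsum : ∑ l ∈ Finset.range L, ∫ t in G (l + 1) \ G l, ‖riemannZeta (1 / 2 + I * t)‖ ^ (2 * (1 + b))
      ≤ 4 * δ * U := by
    refine sum_right (a := ⌈A⌉₊) (p0 := p0) (m0 := m0) (by omega) hδ0 hδ1 hC7 hε0 hy4 hxy hL1 hV0 hΓ100 hU0
      (b := b) hε2 hm5 (hy04.trans (by gcongr)) (by rw [← hκ]; exact hV1) hb1 hb2 hb3 ?_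
    intro l hl
    have hJl : J - (l + 1) + 1 = J - l := by omega
    have e1 : G (l + 1) = GdS T (V0 * Γ ^ (l + 1)) (2 * (m0 * 2 ^ l)) p0 (x / A / 4 ^ l / 4) (J - (l + 1)) := by
      rw [hG]
      simp only
      rw [div_div (x / A) (4 ^ l) 4, ← pow_succ]
      congr 1
      ring
    have e2 : G l = GdS T (V0 * Γ ^ l) (m0 * 2 ^ l) p0 (x / A / 4 ^ l) (J - (l + 1) + 1) := by
      rw [hG, hJl]
    have hml : ma ≤ m0 * 2 ^ l := hm1.trans (Nat.le_mul_of_pos_right _ (by positivity))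
    have h2l : (1 : ℝ) ≤ 2 ^ l := one_le_pow₀ (by norm_num)
    have hΓ0 : 0 < Γ := by linarith only [hΓ1]
    have hV00 : 0 < V0 := by linarith only [hV0]
    have k := hstep T hT7 (m0 * 2 ^ l) hml p0 hp1 b hb0 hb4 (J - (l + 1)) (⌈A⌉₊ * 4 ^ l) (x / A / 4 ^ l)
      (ε0 / 2 ^ l) (V0 * Γ ^ l) (V0 * Γ ^ (l + 1)) (par.Y4 hl.le)
    rw [← hx, ← hU] at k
    rw [e1, e2]
    refine k (par.Y43 l) (by rw [hJl]; exact par.JJ hl.le) (by positivity)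
      ((div_le_self hε0.le h2l).trans hε1) (par.loglog hl.le) (by rw [← Nat.sub_sub]; exact par.len hl)
      ?_ (par.mu l) (par.mY l) ?_ (by positivity) (by positivity)
    · have h1 : 1 ≤ ⌈A⌉₊ := Nat.one_le_ceil_iff.mpr hA00
      have h2 : 1 ≤ 4 ^ l := Nat.one_le_pow _ _ (by norm_num)
      nlinarith only [h1, h2]
    · have h1 : ((J - (l + 1) : ℕ) : ℝ) + 1 ≤ J := by
        have : J - (l + 1) + 1 ≤ J := by omega
        exact_mod_cast this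
      have := par.J64
      linarith only [this, h1]
  -- the last level
  have hlst : ∫ t in Icc 0 T \ G L, ‖riemannZeta (1 / 2 + I * t)‖ ^ (2 * (1 + b)) ≤ δ * T := by
    have hmL : mb ≤ m0 * 2 ^ L := hm2.trans (Nat.le_mul_of_pos_right _ (by positivity))
    have e1 : G L = GdS T (V0 * Γ ^ L) (m0 * 2 ^ L) p0 (x / A / 4 ^ L) (J - L) := by rw [hG]
    rw [e1]
    refine hlast T hT6 (m0 * 2 ^ L) hmL p0 hp2 (J - L) b (x / A / 4 ^ L) (V0 * Γ ^ L) hb0 hb4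
      (par.Y4 le_rfl) ?_ ?_ ?_ (par.JJ le_rfl) ?_ ?_
    · rw [← hx]; exact par.Y43 L
    · rw [← hx]; exact par.mY L
    · rw [← hx]
      have h1 : ((J - L : ℕ) : ℝ) + 1 ≤ J + 1 := by
        have : J - L + 1 ≤ J + 1 := by omega
        exact_mod_cast this
      have h2 : 64 * ((J : ℝ) + 1) ≤ x := by
        have h3 : 64 * (12 * y) ≤ y ^ 10 := by
          have h3 : (4 : ℝ) ^ 9 ≤ y ^ 9 := by gcongr
          have h4 : y ^ 10 = y ^ 9 * y := by ring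
          rw [h4]
          nlinarith only [h3, hypos]
        have h4 := par.hJ
        rw [hxy]
        linarith only [h3, h4, hy4]
      linarith only [h1, h2]
    · rw [← hx, hΓ]
      exact thr_last hy4 hxy hL2 hV0
    · rw [← hx, ← hy]
      push_cast
      have h1 : (2 : ℝ) ≤ m0 := by exact_mod_cast hm4
      have h2 : (0 : ℝ) < 2 ^ L := by positivity
      rw [pow_succ] at hL2
      nlinarith only [h1, h2, hL2]
  rw [← hx, ← hU]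
  have hfin : (1 + δ) * (1 + δ) * ((1 + δ) * U) + 4 * δ * U + δ * T ≤ (1 + ε) * U := by
    have h1 : δ * T ≤ δ * U := by gcongr
    have h2 : (1 + δ) * (1 + δ) * (1 + δ) ≤ 1 + 4 * δ := by
      have g1 : δ * δ ≤ 1 / 4 * δ := mul_le_mul_of_nonneg_right hδ1 hδ0.le
      have g2 : δ * (δ * δ) ≤ δ * (1 / 4 * δ) := mul_le_mul_of_nonneg_left g1 hδ0.le
      linarith only [g1, g2, hδ0]
    have h3 : (1 + δ) * (1 + δ) * (1 + δ) * U ≤ (1 + 4 * δ) * U := by gcongr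
    have h4 : 12 * δ * U ≤ ε * U := by gcongr
    have h5 : 0 ≤ δ * U := by positivity
    nlinarith only [h1, h3, h4, h5]
  linarith only [hdec, hlev0, hsum, hlst, hfin]

end Pool.Agent.Lib.MP_f9aece_nt_h97
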