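import Mathlib
import Pool.Agent.Lib.MP_f9aece_nt.LogSub
import Pool.Agent.Lib.MP_f9aece_nt_h24.RightAssembly
import Pool.Agent.Lib.MP_f9aece_nt_h24.H4d
import Pool.Agent.Lib.MP_f9aece_nt_h97.FM8

/-!
Uniform sharp upper bound for exponents slightly larger than `2`, for the shifted moments.
-/

set_option autoImplicit false

namespace Pool.Agent.Lib.MP_f9aece_nt_h97

open MeasureTheory Set Filter Topology Complex
open Pool.Agent.Lib.MP_f9aece_nt

theorem h4z : H4z := by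
  obtain ⟨C, T0, hC, hT0, h⟩ := fourth_moment
  refine ⟨C, 9, T0, hC.le, fun T hT => ?_⟩
  have h1 := h T hT
  rw [intervalIntegral.integral_of_le (by linarith), ← integral_Icc_eq_integral_Ioc] at h1
  linarith

theorem upper_two_plus_of (hb : H4b) (hc : H4c) (x ε : ℝ) (hε : 0 < ε) :
    ∃ η0 : ℝ, 0 < η0 ∧ ∃ T0 : ℝ, ∀ β : ℝ, 2 ≤ β → β ≤ 2 + η0 →
      ∀ T : ℝ, T0 ≤ T → mom β x T ≤ (1 + ε) * Real.log T ^ (β ^ 2 / 4) := by
  obtain ⟨b0, hb0, hb01, T1, hR⟩ := right_upper hb hc (h4d h4z) (half_pos hε)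
  obtain ⟨A, hA⟩ : ∃ A, A = ∫ t in (-|x|)..0, (1 + ‖riemannZeta (1 / 2 + I * t)‖ ^ 3) := ⟨_, rfl⟩
  have hlim : Tendsto (fun T : ℝ => A * T⁻¹ + (1 + |x| * T⁻¹) ^ 3 * (1 + ε / 2)) atTop
      (𝓝 (A * 0 + (1 + |x| * 0) ^ 3 * (1 + ε / 2))) := by
    have h0 := tendsto_inv_atTop_zero (𝕜 := ℝ)
    exact (h0.const_mul A).add ((((h0.const_mul |x|).const_add 1).pow 3).mul_const (1 + ε / 2))
  simp only [mul_zero, zero_add, add_zero, one_pow, one_mul] at hlim
  have hev := (hlim.eventually (gt_mem_nhds (by linarith : 1 + ε / 2 < 1 + ε))).and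
    ((eventually_ge_atTop T1).and (eventually_ge_atTop (Real.exp 1)))
  obtain ⟨T0, hT0⟩ := Filter.eventually_atTop.mp hev
  refine ⟨2 * b0, by positivity, T0, ?_⟩
  intro β hβ2 hββ T hT
  obtain ⟨hT1, hT2, hTe⟩ := hT0 T hT
  have hβ0 : 0 < β := by linarith
  obtain ⟨b, hb⟩ : ∃ b, b = β / 2 - 1 := ⟨_, rfl⟩
  have hbb0 : 0 ≤ b := by rw [hb]; linarith
  have hbb1 : b ≤ b0 := by rw [hb]; linarith
  have hβb : β = 2 * (1 + b) := by rw [hb]; ring
  obtain ⟨F, hF⟩ : ∃ F : ℝ → ℝ, F = fun t : ℝ => ‖riemannZeta (1 / 2 + I * t)‖ ^ β := ⟨_, rfl⟩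
  have hFc : Continuous F := by
    rw [hF]
    exact continuous_zeta.norm.rpow_const fun _ => Or.inr hβ0.le
  have hF0 : ∀ t, 0 ≤ F t := fun t => by rw [hF]; positivity
  obtain ⟨A0, hA0⟩ : ∃ A0, A0 = ∫ t in (-|x|)..0, F t := ⟨_, rfl⟩
  have hA00 : 0 ≤ A0 := by
    rw [hA0]
    exact intervalIntegral.integral_nonneg (by simp) fun t _ => hF0 t
  have hA0A : A0 ≤ A := by
    rw [hA0, hA]
    refine intervalIntegral.integral_mono_on (by simp) (hFc.intervalIntegrable _ _)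
      ((continuous_const.add (continuous_zeta.norm.pow 3)).intervalIntegrable _ _) fun t _ => ?_
    rw [hF]
    dsimp only
    rcases le_total (‖riemannZeta (1 / 2 + I * t)‖) 1 with h1 | h1
    · have h2 : ‖riemannZeta (1 / 2 + I * t)‖ ^ β ≤ 1 := Real.rpow_le_one (norm_nonneg _) h1 hβ0.le
      have h3 : 0 ≤ ‖riemannZeta (1 / 2 + I * t)‖ ^ 3 := by positivity
      linarith
    · have h2 : ‖riemannZeta (1 / 2 + I * t)‖ ^ β ≤ ‖riemannZeta (1 / 2 + I * t)‖ ^ ((3 : ℕ) : ℝ) :=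
        Real.rpow_le_rpow_of_exponent_le h1 (by push_cast; linarith)
      rw [Real.rpow_natCast] at h2
      linarith
  have hTpos : 0 < T := (Real.exp_pos _).trans_le hTe
  have hlogT : 1 ≤ Real.log T := by rwa [Real.le_log_iff_exp_le hTpos]
  have hxa : 0 ≤ |x| := abs_nonneg x
  have h1 : mom β x T = (∫ t in x..(x + T), F t) / T := by
    have h2 := intervalIntegral.integral_comp_mul_add (a := 0) (b := 1) F hTpos.ne' x
    simp only [mul_zero, zero_add, mul_one, smul_eq_mul] at h2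
    unfold mom
    rw [add_comm T x] at h2
    rw [div_eq_inv_mul (∫ t in x..(x + T), F t) T, ← h2]
    refine intervalIntegral.integral_congr fun u _ => ?_
    simp only [hF]
    congr 3
    push_cast
    ring
  have h2 : ∫ t in x..(x + T), F t ≤ A0 + ∫ t in (0 : ℝ)..(T + |x|), F t := by
    have h3 : ∫ t in x..(x + T), F t ≤ ∫ t in (-|x|)..(T + |x|), F t := by
      refine intervalIntegral.integral_mono_interval (neg_abs_le x) (by linarith) ?_ ?_ ?_
      · have := le_abs_self x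
        linarith
      · exact Eventually.of_forall fun t => hF0 t
      · exact hFc.intervalIntegrable _ _
    refine h3.trans (le_of_eq ?_)
    rw [hA0, intervalIntegral.integral_add_adjacent_intervals (hFc.intervalIntegrable _ _)
      (hFc.intervalIntegrable _ _)]
  have hTx : 0 < T + |x| := by linarith
  obtain ⟨κ, hκ⟩ : ∃ κ, κ = (1 + b) ^ 2 := ⟨_, rfl⟩
  have hκ0 : 0 ≤ κ := by rw [hκ]; positivity
  have hκ2 : κ ≤ 2 := by
    rw [hκ]
    nlinarith only [hbb0, hbb1, hb01]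
  have h3 : ∫ t in (0 : ℝ)..(T + |x|), F t ≤ (T + |x|) * (Real.log (T + |x|) ^ κ * (1 + ε / 2)) := by
    have g2 := hR b hbb0 hbb1 (T + |x|) (by linarith)
    rw [← hβb, ← hκ] at g2
    rw [intervalIntegral.integral_of_le hTx.le, ← integral_Icc_eq_integral_Ioc, hF]
    refine g2.trans (le_of_eq (by ring))
  have hr : (1 : ℝ) ≤ 1 + |x| * T⁻¹ := by
    have : 0 ≤ |x| * T⁻¹ := by positivity
    linarith
  have hlog2 : Real.log (T + |x|) ≤ Real.log T * (1 + |x| * T⁻¹) := by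
    have e1 : T + |x| = T * (1 + |x| * T⁻¹) := by field_simp
    have h4 : 0 < 1 + |x| * T⁻¹ := by positivity
    rw [e1, Real.log_mul hTpos.ne' h4.ne']
    have h5 := Real.log_le_sub_one_of_pos h4
    have h6 : |x| * T⁻¹ ≤ Real.log T * (|x| * T⁻¹) := le_mul_of_one_le_left (by positivity) hlogT
    linarith
  have hk2 : β ^ 2 / 4 = κ := by rw [hκ, hβb]; ring
  rw [hk2]
  have h4 : Real.log (T + |x|) ^ κ ≤ Real.log T ^ κ * (1 + |x| * T⁻¹) ^ 2 := by
    have h5 : 0 ≤ Real.log (T + |x|) := Real.log_nonneg (by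
      have := Real.one_le_exp (zero_le_one (α := ℝ))
      linarith)
    calc Real.log (T + |x|) ^ κ ≤ (Real.log T * (1 + |x| * T⁻¹)) ^ κ := by
          gcongr
      _ = Real.log T ^ κ * (1 + |x| * T⁻¹) ^ κ := by
          rw [Real.mul_rpow (by linarith) (by positivity)]
      _ ≤ Real.log T ^ κ * (1 + |x| * T⁻¹) ^ 2 := by
          gcongr
          calc (1 + |x| * T⁻¹) ^ κ ≤ (1 + |x| * T⁻¹) ^ ((2 : ℕ) : ℝ) :=
                Real.rpow_le_rpow_of_exponent_le hr (by push_cast; exact hκ2)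
            _ = _ := Real.rpow_natCast _ _
  have hlk : 1 ≤ Real.log T ^ κ := Real.one_le_rpow hlogT hκ0
  rw [h1, div_le_iff₀ hTpos]
  refine h2.trans ?_
  obtain ⟨lk, hlkdef⟩ : ∃ lk, lk = Real.log T ^ κ := ⟨_, rfl⟩
  rw [← hlkdef] at h4 hlk ⊢
  have h5 : A0 + ∫ t in (0 : ℝ)..(T + |x|), F t
      ≤ T * (lk * (A * T⁻¹ + (1 + |x| * T⁻¹) ^ 3 * (1 + ε / 2))) := by
    have e1 : T * (lk * (A * T⁻¹ + (1 + |x| * T⁻¹) ^ 3 * (1 + ε / 2)))
        = lk * A + (T + |x|) * ((lk * (1 + |x| * T⁻¹) ^ 2) * (1 + ε / 2)) := by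
      field_simp
    rw [e1]
    have h6 : A0 ≤ lk * A := hA0A.trans (le_mul_of_one_le_left (hA00.trans hA0A) hlk)
    have h7 : ∫ t in (0 : ℝ)..(T + |x|), F t ≤ (T + |x|) * ((lk * (1 + |x| * T⁻¹) ^ 2) * (1 + ε / 2)) := by
      refine h3.trans ?_
      gcongr
    linarith
  refine h5.trans ?_
  have h6 : lk * (A * T⁻¹ + (1 + |x| * T⁻¹) ^ 3 * (1 + ε / 2)) ≤ lk * (1 + ε) := by
    gcongr
  calc T * (lk * (A * T⁻¹ + (1 + |x| * T⁻¹) ^ 3 * (1 + ε / 2))) ≤ T * (lk * (1 + ε)) := by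
        gcongr
    _ = _ := by ring

end Pool.Agent.Lib.MP_f9aece_nt_h97
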