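import Mathlib
import Pool.Agent.Lib.MP_f9aece_nt_h24.UpperPlus
import Pool.Agent.Lib.MP_f9aece_nt_h22.H4b
import Pool.Agent.Lib.MP_f9aece_nt_h22.H4c

/-!
Uniform sharp upper bound for exponents slightly larger than `2`.
-/

set_option autoImplicit false

namespace Pool.Agent.Lib.MP_f9aece_nt_h97

open Pool.Agent.Lib.MP_f9aece_nt

/-- **the sharp upper bound, uniform in `β ∈ [2, 2 + η0]`** -/
theorem upper_two_plus (x ε : ℝ) (hε : 0 < ε) :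
    ∃ η0 : ℝ, 0 < η0 ∧ ∃ T0 : ℝ, ∀ β : ℝ, 2 ≤ β → β ≤ 2 + η0 →
      ∀ T : ℝ, T0 ≤ T → mom β x T ≤ (1 + ε) * Real.log T ^ (β ^ 2 / 4) :=
  upper_two_plus_of Pool.Agent.Lib.MP_f9aece_nt_h22.h4b Pool.Agent.Lib.MP_f9aece_nt_h22.h4c x ε hε

end Pool.Agent.Lib.MP_f9aece_nt_h97
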