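import Mathlib
import Pool.Agent.Lib.MP_f9aece_nt_h24.TestFn
import Pool.Agent.Lib.MP_f9aece_nt_h85.BadSet

/-!
Lower bound for the mollified second moment on the good set, from the values of the forms.
-/

set_option autoImplicit false

namespace Pool.Agent.Lib.MP_f9aece_nt_h97

open MeasureTheory Set Filter Topology Complex
open scoped ComplexConjugate
open Pool.Agent.Lib.MP_f9aece_nt (DP pair BK K1 K2 ev)
open Pool.Agent.Lib.MP_f9aece_nt_h85 (wgt zeta_energy)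

/-- the energy of the kernel -/
lemma Ker.pi_m2_ge (K : Ker) {ε : ℝ} (hε : 0 < ε) (hε1 : ε ≤ 1 / 2)
    (hK2 : ∀ u : ℝ, |u| ≤ 1 → 1 - ε ≤ ∫ v, K.g v * Real.cos (u * v)) :
    (1 - 2 * ε) ^ 2 ≤ Real.pi * K.m2 := by
  have hL := K.hL
  have hml := K.ml_nonneg
  set T : ℝ := 4 * K.L ^ 2 + 4 * K.L ^ 2 * K.ml / ε with hT
  have h0 : 0 ≤ 4 * K.L ^ 2 * K.ml / ε := by positivity
  have hT4 : 4 * K.L ^ 2 ≤ T := by linarith
  have hT0 : 0 < T := by nlinarith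
  have hT2 : 2 * K.L ≤ T := by nlinarith
  have h1 : ∀ n, (1 : DP).coeff n ≠ 0 → 1 ≤ n := by
    intro n hn
    rcases Nat.eq_zero_or_pos n with h | h
    · subst h
      exfalso
      apply hn
      rw [MonoidAlgebra.one_def, MonoidAlgebra.coeff_single, Finsupp.single_apply]
      simp
    · exact h
  have hmp := (K.phi_bmp hT2)
  have hMP : MPc (K.phi T) := by
    have h3 := K.QB_MPc hT2 h1
    have e : QB (K.phi T) (1 : DP) = K.phi T := by
      funext x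
      unfold QB
      rw [MonoidAlgebra.one_def, MonoidAlgebra.coeff_single]
      rw [Finsupp.support_single_ne_zero _ one_ne_zero, Finset.sum_singleton]
      simp
    rwa [e] at h3
  obtain ⟨p1, p2⟩ := hMP.plancherel
  have e1 : ∫ x in Ioi (0 : ℝ), K.phi T x ^ 2 = K.m2 / T := by
    rw [setIntegral_eq_integral_of_forall_compl_eq_zero, K.integral_phi_sq hT0]
    · ring
    · intro y hy
      rw [K.phi_pos_supp hT2 hy]; norm_num
  rw [e1] at p2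
  have hlow : ∀ t ∈ Ioc (0 : ℝ) T, (1 - 2 * ε) / T ≤ ‖mc (K.phi T) t‖ := by
    intro t ht
    have := K.mellin_lower hK2 hT4 ht.1.le ht.2
    refine le_trans (div_le_div_of_nonneg_right ?_ hT0.le) this
    have h4 : 4 * K.L ^ 2 * K.ml / T ≤ ε := by
      have h5 : 4 * K.L ^ 2 * K.ml / ε ≤ T := by nlinarith
      rw [div_le_iff₀ hT0]
      rw [div_le_iff₀ hε] at h5
      linarith
    linarith
  have h3 : (1 - 2 * ε) ^ 2 / T ≤ Real.pi * (K.m2 / T) := by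
    rw [← p2]
    calc (1 - 2 * ε) ^ 2 / T = ∫ _ in Ioc (0 : ℝ) T, ((1 - 2 * ε) / T) ^ 2 := by
          rw [setIntegral_const]
          simp only [Real.volume_real_Ioc, sub_zero, smul_eq_mul]
          rw [max_eq_left hT0.le]
          field_simp
      _ ≤ ∫ t in Ioc (0 : ℝ) T, ‖mc (K.phi T) t‖ ^ 2 := by
          refine setIntegral_mono_on (integrableOn_const (by simp)) (p1.mono_set Ioc_subset_Ioi_self)
            measurableSet_Ioc fun t ht => ?_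
          have := hlow t ht
          have h5 : 0 ≤ (1 - 2 * ε) / T := div_nonneg (by linarith) hT0.le
          gcongr
      _ ≤ _ := setIntegral_mono_set p1 (Eventually.of_forall fun t => by positivity)
          (LE.le.eventuallyLE Ioc_subset_Ioi_self)
  rw [← mul_div_assoc, div_le_div_iff_of_pos_right hT0] at h3
  exact h3

/-- the algebra of the lower bound -/
lemma good_algebra {s P U A Q E B e L : ℝ} (hs : 0 < s) (hs1 : s ≤ 1 / 100) (hU : 0 < U)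
    (hA : 0 ≤ A) (hP : (1 - 2 * s ^ 2) ^ 2 ≤ P) 
    (hL : 2 * P * ((1 - s ^ 2) * U) ≤ L) (hQ : Q ≤ (2 + 8 * s ^ 2) * U) (hE : E ≤ 10 * U)
    (hB : B ≤ 10 * s ^ 2 * U) (he : e ≤ s ^ 2 * U)
    (h : L ≤ Real.sqrt A * Real.sqrt Q + 2 * Real.sqrt E * Real.sqrt B + e) :
    2 * U * (1 - 22 * s) ≤ A := by
  have hsq : s ^ 2 ≤ s / 100 := by nlinarith
  have h1 : Real.sqrt E * Real.sqrt B ≤ 10 * s * U := by
    have a1 := Real.sqrt_le_sqrt hE
    have a2 := Real.sqrt_le_sqrt hB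
    calc Real.sqrt E * Real.sqrt B ≤ Real.sqrt (10 * U) * Real.sqrt (10 * s ^ 2 * U) := by gcongr
      _ = Real.sqrt ((10 * s * U) ^ 2) := by
          rw [← Real.sqrt_mul (by positivity)]
          congr 1
          ring
      _ = 10 * s * U := Real.sqrt_sq (by positivity)
  have h2 : (2 - 21 * s) * U ≤ Real.sqrt A * Real.sqrt ((2 + 8 * s ^ 2) * U) := by
    have a1 := Real.sqrt_le_sqrt hQ
    have a2 : Real.sqrt A * Real.sqrt Q ≤ Real.sqrt A * Real.sqrt ((2 + 8 * s ^ 2) * U) := by gcongr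
    have a3 : (2 - 10 * s ^ 2) * U ≤ 2 * P * ((1 - s ^ 2) * U) := by
      have b1 : 1 - 4 * s ^ 2 ≤ P := by nlinarith
      have b2 : (1 - 4 * s ^ 2) * (1 - s ^ 2) ≤ P * (1 - s ^ 2) := by
        apply mul_le_mul_of_nonneg_right b1
        nlinarith
      have b3 : 2 - 10 * s ^ 2 ≤ 2 * (P * (1 - s ^ 2)) := by nlinarith [sq_nonneg (s ^ 2)]
      calc (2 - 10 * s ^ 2) * U ≤ 2 * (P * (1 - s ^ 2)) * U := by gcongr
        _ = _ := by ring
    have a4 : (2 - 21 * s) * U ≤ (2 - 10 * s ^ 2) * U - 20 * s * U - s ^ 2 * U := by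
      have : 0 ≤ (s - 11 * s ^ 2) * U := mul_nonneg (by nlinarith) hU.le
      nlinarith
    linarith
  have h3 : ((2 - 21 * s) * U) ^ 2 ≤ A * ((2 + 8 * s ^ 2) * U) := by
    calc ((2 - 21 * s) * U) ^ 2 ≤ (Real.sqrt A * Real.sqrt ((2 + 8 * s ^ 2) * U)) ^ 2 := by
          have : 0 ≤ (2 - 21 * s) * U := mul_nonneg (by linarith) hU.le
          gcongr
      _ = _ := by
          rw [mul_pow, Real.sq_sqrt hA, Real.sq_sqrt (by positivity)]
  have h4 : (2 - 21 * s) ^ 2 * U ≤ A * (2 + 8 * s ^ 2) := by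
    have : (2 - 21 * s) ^ 2 * U * U ≤ A * (2 + 8 * s ^ 2) * U := by nlinarith
    exact le_of_mul_le_mul_right this hU
  have h5 : 2 * U * (1 - 22 * s) * (2 + 8 * s ^ 2) ≤ A * (2 + 8 * s ^ 2) := by
    refine le_trans ?_ h4
    have : 2 * (1 - 22 * s) * (2 + 8 * s ^ 2) ≤ (2 - 21 * s) ^ 2 := by nlinarith [pow_pos hs 3]
    calc 2 * U * (1 - 22 * s) * (2 + 8 * s ^ 2) = (2 * (1 - 22 * s) * (2 + 8 * s ^ 2)) * U := by ring
      _ ≤ _ := by gcongr
  exact le_of_mul_le_mul_right h5 (by positivity)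

/-- the mollified second moment on the good set -/
theorem Ker.good_lower (K : Ker) : ∃ C : ℝ, 0 ≤ C ∧ ∀ s : ℝ, 0 < s → s ≤ 1 / 100 →
    Real.pi * K.m2 ≤ 1 + s ^ 2 →
    (∀ u : ℝ, |u| ≤ 1 → 1 - s ^ 2 ≤ ∫ v, K.g v * Real.cos (u * v)) →
    ∀ T H F U : ℝ, 4 * K.L ^ 2 ≤ T → 4 * K.L ^ 2 * K.ml / s ^ 2 ≤ T → 1 ≤ H → 4 * K.L * H < T →
    1 ≤ F → 0 < U →
    ∀ a c : DP,
    (∀ n, a.coeff n ≠ 0 → 1 ≤ n ∧ (n : ℝ) ≤ H) →
    (∀ n, c.coeff n ≠ 0 → 1 ≤ n ∧ (n : ℝ) ≤ H) →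
    (∀ n, (a * c).coeff n ≠ 0 → 1 ≤ n ∧ (n : ℝ) ≤ H) →
    (∀ n, |a.coeff n| ≤ F) → (∀ n, |c.coeff n| ≤ F) → (∀ n, |(a * c).coeff n| ≤ F) →
    ∀ GG : Set ℝ, MeasurableSet GG → GG ⊆ Icc 0 T →
    IntegrableOn (fun t : ℝ => (‖ev t (a * c)‖ * wgt K T t) ^ 2) (Icc 0 T) →
    (∫ t in Icc 0 T \ GG, (‖ev t (a * c)‖ * wgt K T t) ^ 2) ≤ 3 * s ^ 2 * U →
    (1 - s ^ 2) * (T * U) ≤ BK (Kcs 1) a (a * c) →
    BK K1 (a * c) (a * c) ≤ (1 + 2 * s ^ 2) * (T * U) →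
    Real.pi * (∫ x in Ioi (0 : ℝ), QQ (K.phi T) a x ^ 2) ≤ 10 * U →
    C * F ^ 3 * H ^ 2 * (1 + Real.log H) ^ 2 / T ^ 2 ≤ s ^ 2 * U →
    8 * (F * H) ^ 2 / T ^ 2 ≤ s ^ 2 * U →
    2 * U * (1 - 22 * s)
      ≤ ∫ t in GG, (‖riemannZeta (1 / 2 + I * t) * ev t a‖ * wgt K T t) ^ 2 := by
  obtain ⟨C, hC, hmain⟩ := K.test_fn
  refine ⟨C, hC, ?_⟩
  intro s hs hs1 hK1 hK2 T H F U hT4 hTml hH1 hH hF hU a c ha hc hac
    hFa hFc hFac GG hGGm hGGT b1 hbad hB1 hB2 hE0 herr htail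
  have hL := K.hL
  have hm2 := K.m2_nonneg
  have hpi := Real.pi_pos
  have hT : 2 * K.L ≤ T := by nlinarith
  have hT0 : 0 < T := by linarith
  have hs2 : s ^ 2 ≤ 1 / 2 := by nlinarith
  have hs20 : 0 < s ^ 2 := by positivity
  have ha1 : ∀ n, a.coeff n ≠ 0 → 1 ≤ n := fun n hn => (ha n hn).1
  set G : Set ℝ := GG ∩ Ioc 0 T with hG
  have hGm : MeasurableSet G := hGGm.inter measurableSet_Ioc
  have h1 := hmain (s ^ 2) hs20 hs2 hK1 hK2 T H F hT4 hTml hH1 hH hF a c ha hc hac hFa hFc hFac G hGm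
    inter_subset_right
  obtain ⟨z1, -⟩ := zeta_energy (K := K) hT ha1
  -- from G to GG
  have hGG : ∫ t in G, (‖riemannZeta (1 / 2 + I * t) * ev t a‖ * wgt K T t) ^ 2
      ≤ ∫ t in GG, (‖riemannZeta (1 / 2 + I * t) * ev t a‖ * wgt K T t) ^ 2 :=
    setIntegral_mono_set (z1.mono_set hGGT)
      (Eventually.of_forall fun t => by positivity) (LE.le.eventuallyLE inter_subset_left)
  refine le_trans ?_ hGG
  have hBad : ∫ t in Ioc 0 T \ G, (‖ev t (a * c)‖ * wgt K T t) ^ 2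
      ≤ ∫ t in Icc 0 T \ GG, (‖ev t (a * c)‖ * wgt K T t) ^ 2 := by
    refine setIntegral_mono_set (b1.mono_set sdiff_subset)
      (Eventually.of_forall fun t => by positivity) (LE.le.eventuallyLE ?_)
    rintro t ⟨ht1, ht2⟩
    exact ⟨Ioc_subset_Icc_self ht1, fun h => ht2 ⟨h, ht1⟩⟩
  have hs3 : s ^ 2 ≤ 1 / 10000 := by nlinarith
  refine good_algebra (P := Real.pi * K.m2) hs hs1 hU ?_ ?_ ?_ ?_ hE0 ?_ herr h1
  · exact setIntegral_nonneg hGm fun t _ => by positivity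
  · exact K.pi_m2_ge hs20 hs2 hK2
  · calc 2 * (Real.pi * K.m2) * ((1 - s ^ 2) * U)
        = 2 * Real.pi * (K.m2 / T * ((1 - s ^ 2) * (T * U))) := by field_simp
      _ ≤ _ := by gcongr
  · have g1 : 2 * Real.pi * (K.m2 / T * BK K1 (a * c) (a * c))
        ≤ 2 * (1 + s ^ 2) * ((1 + 2 * s ^ 2) * U) := by
      calc 2 * Real.pi * (K.m2 / T * BK K1 (a * c) (a * c))
          ≤ 2 * Real.pi * (K.m2 / T * ((1 + 2 * s ^ 2) * (T * U))) := by gcongr
        _ = 2 * (Real.pi * K.m2) * ((1 + 2 * s ^ 2) * U) := by field_simp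
        _ ≤ _ := by gcongr
    have g2 : 2 * (1 + s ^ 2) * ((1 + 2 * s ^ 2) * U) + s ^ 2 * U ≤ (2 + 8 * s ^ 2) * U := by
      have : 0 ≤ s ^ 2 * (1 - 4 * s ^ 2) * U := by
        apply mul_nonneg (mul_nonneg hs20.le (by linarith)) hU.le
      nlinarith
    linarith
  · have g1 : 1 / T * (5 * s ^ 2 * BK K1 (a * c) (a * c) + 8 * (F * H) ^ 2 / T)
        ≤ 6 * s ^ 2 * U + s ^ 2 * U := by
      have e1 : 1 / T * (5 * s ^ 2 * BK K1 (a * c) (a * c) + 8 * (F * H) ^ 2 / T)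
          = 5 * s ^ 2 / T * BK K1 (a * c) (a * c) + 8 * (F * H) ^ 2 / T ^ 2 := by
        field_simp
      rw [e1]
      have e2 : 5 * s ^ 2 / T * BK K1 (a * c) (a * c) ≤ 6 * s ^ 2 * U := by
        calc 5 * s ^ 2 / T * BK K1 (a * c) (a * c)
            ≤ 5 * s ^ 2 / T * ((1 + 2 * s ^ 2) * (T * U)) := by gcongr
          _ = (5 * (1 + 2 * s ^ 2)) * (s ^ 2 * U) := by field_simp
          _ ≤ 6 * (s ^ 2 * U) := by gcongr; linarith
          _ = _ := by ring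
      linarith
    linarith

end Pool.Agent.Lib.MP_f9aece_nt_h97
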