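import Mathlib
import Pool.Agent.Lib.MP_f9aece_nt_h24.GoodLower
import Pool.Agent.Lib.MP_f9aece_nt_h22.OnGood
import Pool.Agent.Lib.MP_f9aece_nt_h85.MainForms
import Pool.Agent.Lib.MP_f9aece_nt_h85.BadTotal

/-!
The mollified second moment on the good set near the second moment: choice of the parameters.
-/

set_option autoImplicit false

namespace Pool.Agent.Lib.MP_f9aece_nt_h97

open MeasureTheory Set Filter Topology Complex
open Pool.Agent.Lib.MP_f9aece_nt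
open Pool.Agent.Lib.MP_f9aece_nt_h40 (FT)
open Pool.Agent.Lib.MP_f9aece_nt_h85 (Pst rz SR GG wgt Krz Krz_pos SR_le SR_nonneg one_le_SR
  bd_a bd_c bd_ac bad_total energy_a_sep errors_small cross_DD diag_DD K1s_one measurableSet_GG
  GG_subset)
open Pool.Agent.Lib.MP_f9aece_nt_h22 (Psc Rsc VS sum_VV_eq_VS J0_lt log_le_SR_exp one_add_Y_le
  VS_nonneg)

/-- comparison of the sizes -/
lemma size_compare {m N : ℕ} {Y V S E : ℝ} (hN : 4000 ≤ N) (hm : 1 ≤ m) (hY : 1 ≤ Y)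
    (hS : ((4 * N - 160) * m * Y : ℝ) ≤ S * Real.exp (V + 1 / 10)) (hE : 0 < E) :
    N * (1 + Y) * (E * Real.exp (-V)) ≤ S * E ∧
    8 * m * N * Y * (E * Real.exp (-V)) ≤ 7 / 3 * (S * E) := by
  have hN' : (4000 : ℝ) ≤ N := by exact_mod_cast hN
  have hm' : (1 : ℝ) ≤ m := by exact_mod_cast hm
  have hmY : 1 ≤ m * Y := by nlinarith
  have h0 : 0 < Real.exp (-V) := Real.exp_pos _
  have e10 : Real.exp (1 / 10) ≤ 1111 / 1000 := by
    have := Real.exp_bound' (x := 1 / 10) (by norm_num) (by norm_num) (n := 3) (by norm_num)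
    norm_num [Finset.sum_range_succ, Nat.factorial] at this ⊢
    linarith
  have hS1 : (4 * N - 160) * m * Y * Real.exp (-V) ≤ 1111 / 1000 * S := by
    have h1 : (4 * N - 160) * m * Y * Real.exp (-V) ≤ S * Real.exp (V + 1 / 10) * Real.exp (-V) := by
      gcongr
    have h2 : S * Real.exp (V + 1 / 10) * Real.exp (-V) = S * Real.exp (1 / 10) := by
      rw [mul_assoc, ← Real.exp_add]
      congr 2
      ring
    have hS0 : 0 ≤ S := by
      by_contra hc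
      push Not at hc
      have : S * Real.exp (V + 1 / 10) < 0 := mul_neg_of_neg_of_pos hc (Real.exp_pos _)
      have : 0 < (4 * N - 160) * m * Y := by
        have : 0 < (4 * N - 160 : ℝ) := by linarith
        positivity
      linarith
    rw [h2] at h1
    refine h1.trans ?_
    rw [mul_comm]
    gcongr
  constructor
  · have h1 : N * (1 + Y) * 1.2 ≤ (4 * N - 160) * m * Y := by
      have a1 : N * (1 + Y) ≤ N * (2 * (m * Y)) := by
        gcongr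
        nlinarith
      have a2 : (2.4 * N) * (m * Y) ≤ (4 * N - 160) * (m * Y) := by
        gcongr
        linarith
      nlinarith
    have h2 : N * (1 + Y) * Real.exp (-V) ≤ S := by
      have : N * (1 + Y) * 1.2 * Real.exp (-V) ≤ (4 * N - 160) * m * Y * Real.exp (-V) := by gcongr
      have h3 : 0 ≤ N * (1 + Y) * Real.exp (-V) := by positivity
      nlinarith
    calc N * (1 + Y) * (E * Real.exp (-V)) = N * (1 + Y) * Real.exp (-V) * E := by ring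
      _ ≤ S * E := by gcongr
  · have h1 : 8 * m * N * Y ≤ 2.1 * ((4 * N - 160) * m * Y) := by
      have : 8 * N * (m * Y) ≤ (2.1 * (4 * N - 160)) * (m * Y) :=
        mul_le_mul_of_nonneg_right (by linarith) (by linarith)
      linarith
    have h2 : 8 * m * N * Y * Real.exp (-V) ≤ 7 / 3 * S := by
      have : 8 * m * N * Y * Real.exp (-V) ≤ 2.1 * ((4 * N - 160) * m * Y) * Real.exp (-V) :=
        mul_le_mul_of_nonneg_right h1 h0.le
      have h3 : 0 ≤ (4 * N - 160) * m * Y * Real.exp (-V) := by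
        have : 0 < (4 * N - 160 : ℝ) := by linarith
        positivity
      nlinarith
    calc 8 * m * N * Y * (E * Real.exp (-V)) = 8 * m * N * Y * Real.exp (-V) * E := by ring
      _ ≤ 7 / 3 * S * E := by gcongr
      _ = _ := by ring

lemma exp_neg_le_inv {Y : ℝ} (hY : 0 < Y) : Real.exp (-Y) ≤ 1 / Y := by
  rw [Real.exp_neg, ← one_div]
  apply one_div_le_one_div_of_le hY
  linarith [Real.add_one_le_exp Y]

/-- smallness for large `Y` -/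
lemma small_of_large {Y c δ : ℝ} (hδ : 0 < δ) (hY : 0 < Y) (hc : c / δ ≤ Y) :
    c * Real.exp (-Y) ≤ δ := by
  rcases le_or_gt c 0 with h | h
  · exact (mul_nonpos_of_nonpos_of_nonneg h (Real.exp_pos _).le).trans hδ.le
  · have h1 := exp_neg_le_inv hY
    rw [div_le_iff₀ hδ] at hc
    calc c * Real.exp (-Y) ≤ c * (1 / Y) := by gcongr
      _ = c / Y := by ring
      _ ≤ δ := by rw [div_le_iff₀ hY]; linarith


/-- the energy of `zeta a` in terms of the unit -/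
lemma energy_algebra {P AY X Q s CF Y Ca N e T I : ℝ} (hs2 : 0 < s ^ 2) (hs3 : s ^ 2 ≤ 1 / 10000)
    (hP0 : 0 ≤ P) (hP : P ≤ 1 + s ^ 2) (hQ : 1 ≤ Q) (hX : 0 < X) (hY : 1 ≤ Y) (hN : 1 ≤ N)
    (hCaY : 2 * Ca ≤ Y) (hCF : CF ≤ N)
    (sc1 : N * (1 + Y) * X ≤ Q) (sc2 : AY * X ≤ 7 / 3 * Q) (he : Ca * e ≤ 1)
    (hT : 0 < T) (hI : I ≤ 1 / T * (P * (AY * (X * (1 + 2 * s ^ 2)) + CF * (1 + Y) * X)
      + Ca * (X * (1 + 2 * s ^ 2)) + Ca * e)) : I ≤ 10 * (Q / T) := by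
  refine hI.trans ?_
  have b1 : AY * (X * (1 + 2 * s ^ 2)) ≤ 3 * Q := by
    calc AY * (X * (1 + 2 * s ^ 2)) = (AY * X) * (1 + 2 * s ^ 2) := by ring
      _ ≤ (7 / 3 * Q) * (1 + 2 * s ^ 2) := mul_le_mul_of_nonneg_right sc2 (by linarith)
      _ ≤ 3 * Q := by nlinarith
  have b2 : CF * (1 + Y) * X ≤ Q := by
    refine le_trans ?_ sc1
    have : 0 ≤ (1 + Y) * X := by positivity
    nlinarith
  have b3 : Ca * (X * (1 + 2 * s ^ 2)) ≤ Q := by
    have h1 : (1 + Y) * X ≤ Q := by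
      refine le_trans ?_ sc1
      have : 0 ≤ (1 + Y) * X := by positivity
      nlinarith
    have h2 : Ca * (1 + 2 * s ^ 2) ≤ 1 + Y := by nlinarith
    calc Ca * (X * (1 + 2 * s ^ 2)) = (Ca * (1 + 2 * s ^ 2)) * X := by ring
      _ ≤ (1 + Y) * X := mul_le_mul_of_nonneg_right h2 hX.le
      _ ≤ Q := h1
  have b5 : P * (AY * (X * (1 + 2 * s ^ 2)) + CF * (1 + Y) * X) ≤ 5 * Q := by
    calc P * (AY * (X * (1 + 2 * s ^ 2)) + CF * (1 + Y) * X)
        ≤ P * (4 * Q) := mul_le_mul_of_nonneg_left (by linarith) hP0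
      _ ≤ (1 + s ^ 2) * (4 * Q) := mul_le_mul_of_nonneg_right hP (by linarith)
      _ ≤ 5 * Q := by nlinarith
  calc 1 / T * (P * (AY * (X * (1 + 2 * s ^ 2)) + CF * (1 + Y) * X)
        + Ca * (X * (1 + 2 * s ^ 2)) + Ca * e)
      ≤ 1 / T * (10 * Q) := mul_le_mul_of_nonneg_left (by linarith) (by positivity)
    _ = 10 * (Q / T) := by ring

lemma bad_algebra {W C4 P s U : ℝ} (hs2 : 0 < s ^ 2) (hs3 : s ^ 2 ≤ 1 / 10000) (hC4 : 0 ≤ C4)
    (hW : W = 1 + C4 / s ^ 2) (hP : P ≤ 1 + s ^ 2) (hU : 0 ≤ U) :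
    ((W ^ 2)⁻¹ * C4 + P * s ^ 2) * U ≤ 3 * s ^ 2 * U := by
  have hq : 0 ≤ C4 / s ^ 2 := by positivity
  have hW1 : 1 ≤ W := by linarith
  have h1 : (W ^ 2)⁻¹ * C4 ≤ s ^ 2 := by
    rw [inv_mul_le_iff₀ (by positivity)]
    have h3 : C4 / s ^ 2 ≤ W ^ 2 := by nlinarith
    rwa [div_le_iff₀ hs2] at h3
  have h2 : P * s ^ 2 ≤ 2 * s ^ 2 := mul_le_mul_of_nonneg_right (by linarith) hs2.le
  exact mul_le_mul_of_nonneg_right (by linarith) hU

lemma err_algebra {Cg R T s U c : ℝ} (hs2 : 0 < s ^ 2) (hCg : 0 ≤ Cg) (hc : 0 ≤ c)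
    (hc8 : c ≤ Cg + 8) (hT : 0 < T) (hR : R ≤ s ^ 2 / (Cg + 8) * (1 / T)) (hU : 1 / T ≤ U) :
    c * R ≤ s ^ 2 * U := by
  have h0 : 0 < Cg + 8 := by linarith
  calc c * R ≤ c * (s ^ 2 / (Cg + 8) * (1 / T)) := mul_le_mul_of_nonneg_left hR hc
    _ = (c / (Cg + 8)) * (s ^ 2 * (1 / T)) := by ring
    _ ≤ 1 * (s ^ 2 * (1 / T)) := by
        refine mul_le_mul_of_nonneg_right ?_ (by positivity)
        rw [div_le_one h0]; exact hc8
    _ ≤ s ^ 2 * U := by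
        rw [one_mul]
        exact mul_le_mul_of_nonneg_left hU hs2.le

/-- the mollified second moment on the good set, with all parameters chosen -/
theorem good_two (K : Ker) {s : ℝ} (hs : 0 < s) (hs1 : s ≤ 1 / 100)
    (hK1 : Real.pi * K.m2 ≤ 1 + s ^ 2)
    (hK2 : ∀ u : ℝ, |u| ≤ 1 → 1 - s ^ 2 ≤ ∫ v, K.g v * Real.cos (u * v))
    {CF : ℝ} (hCF : 0 ≤ CF) {m p0 : ℕ} (hm : 4000 ≤ m) (hp0 : 10 ≤ p0)
    (hFT : ∀ a : ℝ, 0 ≤ a → a ≤ 1 → ∀ Y : ℝ, 1 ≤ Y → ∀ J : ℕ, FT CF (s ^ 2) m p0 a Y J)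
    {N : ℕ} (hN : 4000 ≤ N) (hNC : CF ≤ N) :
    ∃ W Y0 : ℝ, 1 ≤ W ∧ 1 ≤ Y0 ∧ ∀ Y : ℝ, Y0 ≤ Y → ∀ a : ℝ, 0 ≤ a → a ≤ 1 →
    2 * (SR p0 Y (Real.exp ((4 * N - 160) * m * Y)) * Real.exp ((1 - a) ^ 2 * VS p0 Y)
        / Real.exp (8 * m * N * Y)) * (1 - 22 * s)
      ≤ ∫ t in GG (Real.exp (8 * m * N * Y)) W (DD m p0 (-1) Y (⌈Y⌉₊ + 1)) (⌈Y⌉₊ + 1) (Psc p0 Y)
          (Rsc m), (‖riemannZeta (1 / 2 + I * t) * ev t (DD m p0 (-a) Y (⌈Y⌉₊ + 1))‖
            * wgt K (Real.exp (8 * m * N * Y)) t) ^ 2 := by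
  have hL := K.hL
  have hml := K.ml_nonneg
  have hpi := Real.pi_pos
  have hm2 := K.m2_nonneg
  have hm' : (4000 : ℝ) ≤ m := by exact_mod_cast hm
  have hN' : (4000 : ℝ) ≤ N := by exact_mod_cast hN
  have hp0' : (10 : ℝ) ≤ p0 := by exact_mod_cast hp0
  have hs2 : 0 < s ^ 2 := by positivity
  have hs3 : s ^ 2 ≤ 1 / 10000 := by nlinarith only [hs, hs1]
  obtain ⟨A, hA⟩ : ∃ A : ℝ, A = 8 * m * N := ⟨_, rfl⟩
  rw [← hA]
  have hA1 : 1 ≤ A := by rw [hA]; nlinarith only [hm', hN']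
  obtain ⟨ε0, hε0⟩ : ∃ ε0 : ℝ, ε0 = 19 / N := ⟨_, rfl⟩
  have hε00 : 0 < ε0 := by rw [hε0]; positivity
  have hε02 : ε0 < 1 / 2 := by
    rw [hε0, div_lt_iff₀ (by linarith only [hN'])]; linarith only [hN']
  have hεA : ε0 * A = 152 * m := by
    rw [hε0, hA]; field_simp; norm_num
  obtain ⟨Cg, hCg, hgood⟩ := K.good_lower
  obtain ⟨Cb, Tb, hCb, hTb, hbad⟩ := bad_total K hε00 hε02
  obtain ⟨Ca, Ta, hCa, hTa, hea⟩ := energy_a_sep K hε00 hε02
  have hδ : 0 < s ^ 2 / (Cg + 8) := by positivity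
  obtain ⟨Ye, hYe, herr⟩ := errors_small (A := A) (η := ε0) (m := m) (by rw [hεA]; linarith only [hm'])
    (by linarith only [hA1]) hε00 hε02.le hδ
  obtain ⟨Kz, hKz⟩ : ∃ Kz : ℝ, Kz = Krz p0 (N * m) := ⟨_, rfl⟩
  have hKz0 : 0 < Kz := by rw [hKz]; exact Krz_pos _ _
  obtain ⟨c, hc⟩ : ∃ c : ℝ, c = 2 * Real.exp 2 * p0 := ⟨_, rfl⟩
  have hc0 : 0 < c := by rw [hc]; positivity
  obtain ⟨C4, hC4⟩ : ∃ C4 : ℝ, C4 = Cb * (Kz ^ 2 * (3 * (1 + A) * c + CF * c) + 1) := ⟨_, rfl⟩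
  have hC40 : 0 ≤ C4 := by rw [hC4]; positivity
  obtain ⟨W, hWd⟩ : ∃ W : ℝ, W = 1 + C4 / s ^ 2 := ⟨_, rfl⟩
  have hW : 0 ≤ C4 / s ^ 2 := by positivity
  have hL2 : 0 ≤ 4 * K.L ^ 2 := by positivity
  have hLm : 0 ≤ 4 * K.L ^ 2 * K.ml / s ^ 2 := by positivity
  refine ⟨W, 1 + Ye + Tb + Ta + 4 * K.L ^ 2 + 4 * K.L ^ 2 * K.ml / s ^ 2 + 2 * Ca,
    by linarith only [hWd, hW], by linarith only [hYe, hTb, hTa, hL2, hLm, hCa], ?_⟩
  intro Y hY a ha0 ha1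
  have hY1 : 1 ≤ Y := by linarith only [hYe, hTb, hTa, hL2, hLm, hCa, hY]
  have hY0 : 0 < Y := by linarith only [hY1]
  have hYYe : Ye ≤ Y := by linarith only [hYe, hTb, hTa, hL2, hLm, hCa, hY]
  have hYTb : Tb ≤ Y := by linarith only [hYe, hTb, hTa, hL2, hLm, hCa, hY]
  have hYTa : Ta ≤ Y := by linarith only [hYe, hTb, hTa, hL2, hLm, hCa, hY]
  have hYL : 4 * K.L ^ 2 ≤ Y := by linarith only [hYe, hTb, hTa, hL2, hLm, hCa, hY]
  have hYLm : 4 * K.L ^ 2 * K.ml / s ^ 2 ≤ Y := by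
    linarith only [hYe, hTb, hTa, hL2, hLm, hCa, hY]
  have hCaY : 2 * Ca ≤ Y := by linarith only [hYe, hTb, hTa, hL2, hLm, hCa, hY]
  clear hY
  have hmY : 4000 * Y ≤ m * Y := mul_le_mul_of_nonneg_right hm' hY0.le
  obtain ⟨T, hT⟩ : ∃ T : ℝ, T = Real.exp (A * Y) := ⟨_, rfl⟩
  have hTY : Y ≤ T := by
    have h1 := Real.add_one_le_exp (A * Y)
    have h2 : 1 * Y ≤ A * Y := mul_le_mul_of_nonneg_right hA1 hY0.le
    rw [hT]
    linarith only [h1, h2]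
  have hT0 : 0 < T := by linarith only [hTY, hY0]
  obtain ⟨J, hJ⟩ : ∃ J : ℕ, J = ⌈Y⌉₊ + 1 := ⟨_, rfl⟩
  have hJY : (J : ℝ) ≤ Y + 2 := by
    rw [hJ]; push_cast
    have := (Nat.ceil_lt_add_one hY0.le).le
    linarith only [this]
  obtain ⟨z, hz⟩ : ∃ z : ℝ, z = Real.exp ((4 * N - 160) * m * Y) := ⟨_, rfl⟩
  have h4N : (0 : ℝ) ≤ 4 * N - 160 := by linarith only [hN']
  have hz1 : 1 ≤ z := by rw [hz]; exact Real.one_le_exp (by positivity)
  have hHeq : z * Real.exp (8 * m * Y) = T ^ (1 / 2 - ε0) := by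
    rw [hz, hT, ← Real.exp_add, ← Real.exp_mul]
    congr 1
    have : A * Y * (1 / 2 - ε0) = (A / 2 - ε0 * A) * Y := by ring
    rw [this, hεA, hA]
    ring
  obtain ⟨H, hH⟩ : ∃ H : ℝ, H = z * Real.exp (8 * m * Y) := ⟨_, rfl⟩
  obtain ⟨F, hF⟩ : ∃ F : ℝ, F = Real.exp (3 * J + 8 * m * Y) := ⟨_, rfl⟩
  have hJ0 : (0 : ℝ) ≤ J := Nat.cast_nonneg J
  have hF1 : 1 ≤ F := by rw [hF]; exact Real.one_le_exp (by positivity)
  have hH1 : 1 ≤ H := by
    have : 1 ≤ Real.exp (8 * m * Y) := Real.one_le_exp (by positivity)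
    rw [hH]
    nlinarith only [this, hz1]
  have hV : ∑ j ∈ Finset.range J, VV (sc Y p0 j) = VS p0 Y := by
    rw [hJ]; exact sum_VV_eq_VS hY0 p0 (J0_lt Y)
  obtain ⟨V, hVd⟩ : ∃ V : ℝ, V = VS p0 Y := ⟨_, rfl⟩
  have hV0 : 0 ≤ V := by rw [hVd]; exact VS_nonneg _ _
  rw [← hVd] at hV
  obtain ⟨E, hE⟩ : ∃ E : ℝ, E = Real.exp ((1 - a) ^ 2 * V) := ⟨_, rfl⟩
  have hE1 : 1 ≤ E := by rw [hE]; exact Real.one_le_exp (by positivity)
  have hE0 : 0 < E := by linarith only [hE1]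
  obtain ⟨S, hS⟩ : ∃ S : ℝ, S = SR p0 Y z := ⟨_, rfl⟩
  have hS1 : 1 ≤ S := by rw [hS]; exact one_le_SR hz1
  have hSz : (4 * N - 160) * m * Y ≤ S * Real.exp (V + 1 / 10) := by
    have h1 := log_le_SR_exp (p0 := p0) (by omega) (Y := Y) hz1
    rw [← hS, ← hVd] at h1
    have h2 : Real.log z = (4 * N - 160) * m * Y := by rw [hz, Real.log_exp]
    rw [h2] at h1
    refine h1.trans ?_
    have h3 : 1 / (p0 : ℝ) ≤ 1 / 10 := one_div_le_one_div_of_le (by norm_num) hp0'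
    refine mul_le_mul_of_nonneg_left (Real.exp_le_exp.mpr (by linarith only [h3])) (by linarith only [hS1])
  obtain ⟨sc1, sc2⟩ := size_compare hN (by omega) hY1 hSz hE0
  have hFTa := hFT a ha0 ha1 Y hY1 J
  have ft1 := hFTa.cross_ge
  have ft2 := hFTa.diag_le
  have ft3 := hFTa.k2a
  have ft4 := hFTa.kla
  rw [hV] at ft1 ft2 ft3 ft4
  obtain ⟨X, hX⟩ : ∃ X : ℝ, X = E * Real.exp (-V) := ⟨_, rfl⟩
  rw [← hX] at sc1 sc2
  have hX0 : 0 < X := by rw [hX]; positivity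
  have hX1 : Real.exp (((1 - a) ^ 2 - 1) * V) = X := by
    rw [hX, hE, ← Real.exp_add]
    congr 1
    ring
  rw [hX1] at ft4
  have hes : Real.exp (s ^ 2) ≤ 1 + 2 * s ^ 2 := by
    have h1 := Real.abs_exp_sub_one_sub_id_le (x := s ^ 2) (by rw [abs_of_pos hs2]; linarith only [hs3])
    have h2 := (abs_le.mp h1).2
    nlinarith only [h2, hs2, hs3]
  have hes0 : 1 - s ^ 2 ≤ Real.exp (-s ^ 2) := by
    have := Real.add_one_le_exp (-s ^ 2)
    linarith only [this]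
  have ft3' : |BK K2 (DD m p0 (-a) Y J) (DD m p0 (-a) Y J)| ≤ X * (1 + 2 * s ^ 2) := by
    refine ft3.trans ?_
    rw [Real.exp_add, hX1]
    exact mul_le_mul_of_nonneg_left hes hX0.le
  obtain ⟨Q, hQ⟩ : ∃ Q : ℝ, Q = S * E := ⟨_, rfl⟩
  rw [← hQ] at sc1 sc2
  have hQ1 : 1 ≤ Q := by rw [hQ]; nlinarith only [hS1, hE1]
  obtain ⟨U, hU⟩ : ∃ U : ℝ, U = Q / T := ⟨_, rfl⟩
  have hU0 : 0 < U := by rw [hU]; positivity
  have hTU : T * U = Q := by rw [hU]; field_simp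
  have hα : |a| ≤ 1 := by rw [abs_of_nonneg ha0]; exact ha1
  -- the energy of zeta times `a`
  have hexp : Real.exp (6 * J + 16 * m * Y - ε0 / 8 * (A * Y)) ≤ Real.exp (-Y) := by
    apply Real.exp_le_exp.mpr
    have : ε0 / 8 * (A * Y) = (ε0 * A) * Y / 8 := by ring
    rw [this, hεA]
    linarith only [hmY, hJY, hY1]
  have hEa := hea A Y (by linarith only [hA1]) hY0 (by rw [← hT]; linarith only [hYTa, hTY]) m p0 J a (X * (1 + 2 * s ^ 2))
    (CF * (1 + Y) * X) hα (by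
      rw [← hT, ← hHeq]
      exact le_mul_of_one_le_left (Real.exp_pos _).le hz1) ft3' ft4
  rw [← hT] at hEa
  have hE0le : Real.pi * (∫ x in Ioi (0 : ℝ), QQ (K.phi T) (DD m p0 (-a) Y J) x ^ 2) ≤ 10 * U := by
    rw [hU]
    refine energy_algebra hs2 hs3 (by positivity) hK1 hQ1 hX0 hY1 (by linarith only [hN']) hCaY
      hNC sc1 (AY := A * Y) ?_ ?_ hT0 hEa
    · rw [hA]; exact sc2
    · calc Ca * Real.exp (6 * J + 16 * m * Y - ε0 / 8 * (A * Y)) ≤ Ca * Real.exp (-Y) :=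
            mul_le_mul_of_nonneg_left hexp hCa
        _ ≤ 1 := small_of_large one_pos hY0 (by rw [div_one]; linarith only [hCaY, hCa])
  -- the bad set
  have hcY : 1 + Y ≤ c * Real.exp (∑ j ∈ Finset.range J, VV (sc Y p0 j)) := by
    rw [hV, hVd, hc]
    exact one_add_Y_le hY1 (by omega)
  have hSKz : SR p0 Y z ≤ Kz := by
    rw [hKz]
    refine SR_le hY0 ?_
    rw [hz]
    apply Real.exp_le_exp.mpr
    push_cast
    have h1 : 0 ≤ (N : ℝ) * (m * Y) := by positivity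
    have h2 : 0 ≤ (m : ℝ) * Y := by positivity
    linarith only [h1, h2]
  obtain ⟨i1, i2⟩ := hbad A Y (by linarith only [hA1]) hY0 (by rw [← hT]; linarith only [hYTb, hTY]) m p0 J a z CF
    (s ^ 2) c Kz W hFTa ha0 ha1 (by linarith only [hs3]) (by omega) hCF hz1
    (by rw [← hT]; exact hHeq.le) (by linarith only [hWd, hW]) hcY
    hSKz (by
      have : ε0 / 8 * (A * Y) = (ε0 * A) * Y / 8 := by ring
      rw [this, hεA]
      linarith only [hmY, hJY, hY1])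
  rw [hV, ← hS, ← hE, ← hT, ← hQ, ← hU, ← hC4] at i2
  rw [← hT] at i1
  have hbadle := bad_algebra (U := U) hs2 hs3 hC40 hWd hK1 hU0.le
  -- errors
  obtain ⟨e1, e2⟩ := herr Y hYYe J hJY H hH1 (by rw [← hT, hH]; exact hHeq.le)
  rw [← hT, ← hF] at e1 e2
  have hU1 : 1 / T ≤ U := by
    rw [hU]
    exact div_le_div_of_nonneg_right hQ1 hT0.le
  have herr1 : Cg * F ^ 3 * H ^ 2 * (1 + Real.log H) ^ 2 / T ^ 2 ≤ s ^ 2 * U := by
    have h1 := err_algebra hs2 hCg hCg (by linarith only) hT0 e1 hU1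
    refine le_trans (le_of_eq ?_) h1
    ring
  have herr2 : 8 * (F * H) ^ 2 / T ^ 2 ≤ s ^ 2 * U := by
    have e2' : (F * H) ^ 2 / T ^ 2 ≤ s ^ 2 / (Cg + 8) * (1 / T) := by
      calc (F * H) ^ 2 / T ^ 2 = (F * H) ^ 2 / T * (1 / T) := by field_simp
        _ ≤ s ^ 2 / (Cg + 8) * (1 / T) := mul_le_mul_of_nonneg_right e2 (by positivity)
    have h1 := err_algebra hs2 hCg (by norm_num : (0 : ℝ) ≤ 8) (by linarith only [hCg]) hT0 e2' hU1
    refine le_trans (le_of_eq ?_) h1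
    ring
  have ba := bd_a hY0 m p0 J hα hz1
  have bc := bd_c hY0 m p0 J hz1
  have bac := bd_ac hY0 m p0 J hα hz1
  rw [← hH, ← hF] at ba bc bac
  have hLT : 4 * K.L * H < T := by
    have h1 : T = H * Real.exp ((4 * N + 152) * m * Y) := by
      rw [hH, hz, hT, ← Real.exp_add, ← Real.exp_add, hA]
      congr 1
      ring
    have h2 : 4 * K.L < Real.exp ((4 * N + 152) * m * Y) := by
      have h3 := Real.add_one_le_exp ((4 * N + 152) * m * Y)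
      have h4 : 4 * K.L ≤ 4 * K.L ^ 2 := by nlinarith only [hL]
      have h5 : Y ≤ (4 * N + 152) * m * Y := by
        have : 1 ≤ (4 * N + 152) * (m : ℝ) := by nlinarith only [hm', hN']
        exact le_mul_of_one_le_left hY0.le this
      linarith only [h3, h4, h5, hYL]
    rw [h1, mul_comm]
    exact mul_lt_mul_of_pos_left h2 (by linarith only [hH1])
  have key := hgood s hs hs1 hK1 hK2 T H F U (by linarith only [hYL, hTY])
    (by linarith only [hYLm, hTY]) hH1 hLT hF1 hU0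
    (DD m p0 (-a) Y J) (rz p0 Y z * DD m p0 1 Y J) ba.1 bc.1 bac.1 ba.2 bc.2 bac.2
    (GG T W (DD m p0 (-1) Y J) J (Psc p0 Y) (Rsc m)) (measurableSet_GG _ _ _ _ _ _)
    (GG_subset _ _ _ _ _ _) i1 (i2.trans hbadle) ?_ ?_ hE0le herr1 herr2
  · rw [← hJ, ← hT, ← hz, ← hS, ← hVd, ← hE, ← hQ, ← hU]
    exact key
  · rw [cross_DD, hTU, hQ, ← hS]
    calc (1 - s ^ 2) * (S * E) = S * (E * (1 - s ^ 2)) := by ring
      _ ≤ S * (E * Real.exp (-s ^ 2)) := by gcongr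
      _ = S * Real.exp ((1 - a) ^ 2 * V - s ^ 2) := by
          rw [hE, ← Real.exp_add]
          congr 2
      _ ≤ _ := by gcongr
  · rw [diag_DD, ← K1s_one, hTU, hQ, ← hS]
    calc S * BK (K1s 1) (DD m p0 1 Y J * DD m p0 (-a) Y J) (DD m p0 1 Y J * DD m p0 (-a) Y J)
        ≤ S * Real.exp ((1 - a) ^ 2 * V + s ^ 2) := by gcongr
      _ = S * (E * Real.exp (s ^ 2)) := by rw [hE, ← Real.exp_add]
      _ ≤ S * (E * (1 + 2 * s ^ 2)) := by gcongr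
      _ = _ := by ring

end Pool.Agent.Lib.MP_f9aece_nt_h97
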