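import Mathlib
import Pool.Agent.Lib.MP_f9aece_nt.LogSub
import Pool.Agent.Lib.MP_f9aece_nt.Lower

/-!
From moments over `[0, T]` to the shifted moments, near the second moment.
-/

set_option autoImplicit false

namespace Pool.Agent.Lib.MP_f9aece_nt_h97

open MeasureTheory Set Filter Topology Complex
open Pool.Agent.Lib.MP_f9aece_nt (mom continuous_zeta)

/-- **Shift**: lower bounds for the moments over `[0, T]` with exponent just below `2` give lower
bounds for the shifted moments. -/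
theorem shift_two (x ε : ℝ) (hε : 0 < ε) (h : ∃ a0 : ℝ, 0 < a0 ∧ ∃ T0 : ℝ, 1 ≤ T0 ∧ ∀ a : ℝ, 0 ≤ a →
    a ≤ a0 → ∀ T : ℝ, T0 ≤ T → (1 - ε / 2) * (T * Real.log T ^ ((1 - a) ^ 2))
      ≤ ∫ t in (0 : ℝ)..T, ‖riemannZeta (1 / 2 + I * t)‖ ^ (2 * (1 - a))) :
    ∃ η0 : ℝ, 0 < η0 ∧ ∃ T0 : ℝ, ∀ β : ℝ, 2 - η0 ≤ β → β ≤ 2 →
    ∀ T : ℝ, T0 ≤ T → (1 - ε) * Real.log T ^ (β ^ 2 / 4) ≤ mom β x T := by
  obtain ⟨a0, ha0, T1, hT1, h⟩ := h
  set A0 := ∫ t in (0 : ℝ)..|x|, (1 + ‖riemannZeta (1 / 2 + I * t)‖ ^ 2) with hA0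
  have hA00 : 0 ≤ A0 := intervalIntegral.integral_nonneg (abs_nonneg x) fun t _ => by positivity
  have hxa : 0 ≤ |x| := abs_nonneg x
  have hlim : Tendsto (fun T : ℝ => (1 - ε / 2) * ((1 - |x| * T⁻¹) * (1 - 2 * |x| * T⁻¹)) - A0 * T⁻¹) atTop
      (𝓝 ((1 - ε / 2) * ((1 - |x| * 0) * (1 - 2 * |x| * 0)) - A0 * 0)) := by
    have h0 := tendsto_inv_atTop_zero (𝕜 := ℝ)
    exact ((((h0.const_mul |x|).const_sub 1).mul ((h0.const_mul (2 * |x|)).const_sub 1)).const_mul _).sub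
      (h0.const_mul A0)
  simp only [mul_zero, sub_zero, mul_one] at hlim
  have hev := hlim.eventually (lt_mem_nhds (show 1 - ε < 1 - ε / 2 by linarith))
  obtain ⟨T2, hT2⟩ := (hev.and (eventually_ge_atTop (T1 + 2 * |x| + Real.exp 1))).exists_forall_of_atTop
  refine ⟨min (2 * a0) 1, lt_min (by positivity) one_pos, T2, ?_⟩
  intro β hβ hβ0 T hT
  obtain ⟨hTa, hTb⟩ := hT2 T hT
  have he1 : 1 ≤ Real.exp 1 := Real.one_le_exp zero_le_one
  have hTpos : 0 < T := by linarith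
  have hm1 := min_le_right (2 * a0) 1
  have hm2 := min_le_left (2 * a0) 1
  have hβ1 : 1 ≤ β := by linarith
  set a := 1 - β / 2 with ha
  have ha00 : 0 ≤ a := by linarith
  have haa : a ≤ a0 := by linarith
  set k := β / 2 with hk
  have hka : 1 - a = k := by rw [ha]; ring
  have hkp : 0 < k := by positivity
  have hβk : β = 2 * k := by rw [hk]; ring
  have hk1 : k ≤ 1 := by linarith
  have hk2 : β ^ 2 / 4 = k ^ 2 := by rw [hk]; ring
  set F : ℝ → ℝ := fun t => ‖riemannZeta (1 / 2 + I * t)‖ ^ β with hF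
  have hFc : Continuous F := continuous_zeta.norm.rpow_const fun _ => Or.inr (by linarith)
  have hF0 : ∀ t, 0 ≤ F t := fun t => by rw [hF]; positivity
  have h1 : mom β x T = (∫ t in x..(x + T), F t) / T := by
    have h2 := intervalIntegral.integral_comp_mul_add (a := 0) (b := 1) F hTpos.ne' x
    simp only [mul_zero, zero_add, mul_one, smul_eq_mul] at h2
    unfold mom
    rw [add_comm T x] at h2
    rw [div_eq_inv_mul (∫ t in x..(x + T), F t) T, ← h2]
    refine intervalIntegral.integral_congr fun u _ => ?_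
    simp only [hF]
    congr 3
    push_cast
    ring
  have h2 : (∫ t in (0 : ℝ)..(T - |x|), F t) - A0 ≤ ∫ t in x..(x + T), F t := by
    have h3 : ∫ t in |x|..(T - |x|), F t ≤ ∫ t in x..(x + T), F t := by
      refine intervalIntegral.integral_mono_interval (le_abs_self x) (by linarith) ?_ ?_ ?_
      · have := neg_abs_le x
        linarith
      · exact Eventually.of_forall fun t => hF0 t
      · exact hFc.intervalIntegrable _ _
    have h4 : ∫ t in (0 : ℝ)..|x|, F t ≤ A0 := by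
      rw [hA0]
      refine intervalIntegral.integral_mono_on hxa (hFc.intervalIntegrable _ _)
        ((continuous_const.add (continuous_zeta.norm.pow 2)).intervalIntegrable _ _) fun t _ => ?_
      rw [hF]
      simp only
      rcases le_total ‖riemannZeta (1 / 2 + I * t)‖ 1 with h5 | h5
      · have := Real.rpow_le_one (norm_nonneg _) h5 (by linarith : (0 : ℝ) ≤ β)
        have : 0 ≤ ‖riemannZeta (1 / 2 + I * t)‖ ^ 2 := by positivity
        linarith
      · have h6 : ‖riemannZeta (1 / 2 + I * t)‖ ^ β ≤ ‖riemannZeta (1 / 2 + I * t)‖ ^ (2 : ℝ) :=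
          Real.rpow_le_rpow_of_exponent_le h5 hβ0
        rw [Real.rpow_two] at h6
        linarith
    have h5 := intervalIntegral.integral_add_adjacent_intervals
      (hFc.intervalIntegrable (μ := volume) 0 |x|) (hFc.intervalIntegrable |x| (T - |x|))
    linarith
  have h3 := h a ha00 haa (T - |x|) (by linarith)
  rw [hka, ← hβk] at h3
  have hlogT : 1 ≤ Real.log T := by
    rw [Real.le_log_iff_exp_le hTpos]
    linarith
  rw [hk2, h1, le_div_iff₀ hTpos]
  set lk := Real.log T ^ (k ^ 2) with hlk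
  have hlk1 : 1 ≤ lk := Real.one_le_rpow hlogT (by positivity)
  rcases le_or_gt 1 (ε / 2) with hε2 | hε2
  · have : 0 ≤ ∫ t in x..(x + T), F t :=
      intervalIntegral.integral_nonneg (by linarith) fun t _ => hF0 t
    have h4 : 0 ≤ lk * T := by positivity
    nlinarith
  -- logarithms
  have hxT : |x| * T⁻¹ ≤ 1 / 2 := by
    rw [← div_eq_mul_inv, div_le_iff₀ hTpos]
    linarith
  have hlog2 : Real.log T * (1 - 2 * |x| * T⁻¹) ≤ Real.log (T - |x|) := by
    have e1 : T - |x| = T * (1 - |x| * T⁻¹) := by field_simp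
    have h4 : 0 < 1 - |x| * T⁻¹ := by linarith
    rw [e1, Real.log_mul hTpos.ne' h4.ne']
    have h5 := Real.one_sub_inv_le_log_of_pos h4
    have h6 : -(2 * (|x| * T⁻¹)) ≤ 1 - (1 - |x| * T⁻¹)⁻¹ := by
      have hu : ∀ u : ℝ, 0 < 1 - u → 1 - (1 - u)⁻¹ = -u / (1 - u) := by
        intro u hu
        field_simp
        ring
      have e2 := hu (|x| * T⁻¹) h4
      rw [e2, le_div_iff₀ h4]
      have : 0 ≤ |x| * T⁻¹ := by positivity
      nlinarith
    have h7 : |x| * T⁻¹ ≤ Real.log T * (|x| * T⁻¹) := le_mul_of_one_le_left (by positivity) hlogT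
    linarith
  have hy0 : 0 ≤ 1 - 2 * |x| * T⁻¹ := by linarith
  have hy1 : 1 - 2 * |x| * T⁻¹ ≤ 1 := by
    have : 0 ≤ |x| * T⁻¹ := by positivity
    linarith
  have h4 : lk * (1 - 2 * |x| * T⁻¹) ≤ Real.log (T - |x|) ^ (k ^ 2) := by
    have hk21 : k ^ 2 ≤ 1 := by nlinarith
    calc lk * (1 - 2 * |x| * T⁻¹) ≤ lk * (1 - 2 * |x| * T⁻¹) ^ (k ^ 2) := by
          gcongr
          rcases hy0.eq_or_lt with h5 | h5
          · rw [← h5]
            positivity
          · calc 1 - 2 * |x| * T⁻¹ = (1 - 2 * |x| * T⁻¹) ^ (1 : ℝ) := (Real.rpow_one _).symm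
              _ ≤ _ := Real.rpow_le_rpow_of_exponent_ge h5 hy1 hk21
      _ = (Real.log T * (1 - 2 * |x| * T⁻¹)) ^ (k ^ 2) := by
          rw [Real.mul_rpow (by linarith) hy0]
      _ ≤ _ := by gcongr
  have h5 : (1 - ε / 2) * ((T - |x|) * (lk * (1 - 2 * |x| * T⁻¹))) ≤ ∫ t in (0 : ℝ)..(T - |x|), F t := by
    refine le_trans ?_ h3
    have : 0 ≤ T - |x| := by linarith
    have : 0 ≤ 1 - ε / 2 := by linarith
    gcongr
  have e3 : (1 - ε / 2) * ((T - |x|) * (lk * (1 - 2 * |x| * T⁻¹))) - A0 * lk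
      = (T * lk) * ((1 - ε / 2) * ((1 - |x| * T⁻¹) * (1 - 2 * |x| * T⁻¹)) - A0 * T⁻¹) := by
    field_simp
  have h6 : A0 ≤ A0 * lk := le_mul_of_one_le_right hA00 hlk1
  have h7 : (T * lk) * (1 - ε) ≤ (T * lk) * ((1 - ε / 2) * ((1 - |x| * T⁻¹) * (1 - 2 * |x| * T⁻¹)) - A0 * T⁻¹) := by
    gcongr
  calc (1 - ε) * lk * T = (T * lk) * (1 - ε) := by ring
    _ ≤ _ := h7
    _ ≤ ∫ t in x..(x + T), F t := by
        rw [← e3]
        linarith

end Pool.Agent.Lib.MP_f9aece_nt_h97
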