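import Mathlib
import Pool.Agent.Lib.MP_f9aece_nt_h24.GoodTwo
import Pool.Agent.Lib.MP_f9aece_nt_h24.ShiftTwo
import Pool.Agent.Lib.MP_f9aece_nt_h85.Kernel2

/-!
The lower bound for the moments just below the second moment, with a constant close to one.
-/

set_option autoImplicit false

namespace Pool.Agent.Lib.MP_f9aece_nt_h97

open MeasureTheory Set Filter Topology Complex
open Pool.Agent.Lib.MP_f9aece_nt
open Pool.Agent.Lib.MP_f9aece_nt_h40 (FT forms_two)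
open Pool.Agent.Lib.MP_f9aece_nt_h85 (SR GG wgt exists_good2 mellin_upper zeta_energy one_le_SR
  bd_a)
open Pool.Agent.Lib.MP_f9aece_nt_h22 (Psc Rsc VS on_good main_term_ge)

/-- the final algebra -/
lemma final_algebra {s R B I L T SE : ℝ} (hs : 0 < s) (hs1 : s ≤ 1 / 100) (hT : 0 < T)
    (hI : 0 ≤ I) (hL : 0 ≤ L) (hR : R ≤ (1 + s) ^ 2) (hB0 : 0 ≤ B)
    (hB : B ≤ 1 + 2 * s ^ 2)
    (h1 : 2 * (SE / T) * (1 - 22 * s) ≤ R * (B / T) ^ 2 * I)
    (h2 : (1 - s) ^ 2 * L ≤ 2 * SE) : (1 - 30 * s) * (T * L) ≤ I := by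
  have h22 : 0 ≤ 1 - 22 * s := by linarith
  have h3 : (1 - s) ^ 2 * L * (1 - 22 * s) * T ≤ R * B ^ 2 * I := by
    have e1 : R * (B / T) ^ 2 * I = R * B ^ 2 * I / T ^ 2 := by ring
    have e2 : 2 * (SE / T) * (1 - 22 * s) = 2 * SE * (1 - 22 * s) / T := by ring
    rw [e1, e2, div_le_div_iff₀ hT (by positivity)] at h1
    have h4 : 2 * SE * (1 - 22 * s) * T ≤ R * B ^ 2 * I := by
      have : 2 * SE * (1 - 22 * s) * T * T ≤ R * B ^ 2 * I * T := by
        calc 2 * SE * (1 - 22 * s) * T * T = 2 * SE * (1 - 22 * s) * T ^ 2 := by ring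
          _ ≤ _ := h1
      exact le_of_mul_le_mul_right this hT
    refine le_trans ?_ h4
    exact mul_le_mul_of_nonneg_right (mul_le_mul_of_nonneg_right h2 h22) hT.le
  have h5 : R * B ^ 2 * I ≤ (1 + s) ^ 2 * (1 + 2 * s ^ 2) ^ 2 * I := by
    gcongr
  have h6 : (1 - 30 * s) * ((1 + s) ^ 2 * (1 + 2 * s ^ 2) ^ 2) ≤ (1 - s) ^ 2 * (1 - 22 * s) := by
    have a1 : (1 + 2 * s ^ 2) ^ 2 ≤ 1 + s := by nlinarith [pow_pos hs 2, pow_pos hs 3, pow_pos hs 4]
    have a2 : (1 + s) ^ 2 * (1 + 2 * s ^ 2) ^ 2 ≤ (1 + s) ^ 2 * (1 + s) := by gcongr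
    have a3 : (1 - 30 * s) * ((1 + s) ^ 2 * (1 + 2 * s ^ 2) ^ 2) ≤ (1 - 30 * s) * ((1 + s) ^ 2 * (1 + s)) :=
      mul_le_mul_of_nonneg_left a2 (by linarith)
    refine a3.trans ?_
    nlinarith [pow_pos hs 2, pow_pos hs 3, pow_pos hs 4]
  have h7 : (1 - 30 * s) * (T * L) * ((1 + s) ^ 2 * (1 + 2 * s ^ 2) ^ 2)
      ≤ I * ((1 + s) ^ 2 * (1 + 2 * s ^ 2) ^ 2) := by
    calc (1 - 30 * s) * (T * L) * ((1 + s) ^ 2 * (1 + 2 * s ^ 2) ^ 2)
        = ((1 - 30 * s) * ((1 + s) ^ 2 * (1 + 2 * s ^ 2) ^ 2)) * (T * L) := by ring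
      _ ≤ ((1 - s) ^ 2 * (1 - 22 * s)) * (T * L) :=
          mul_le_mul_of_nonneg_right h6 (by positivity)
      _ = (1 - s) ^ 2 * L * (1 - 22 * s) * T := by ring
      _ ≤ R * B ^ 2 * I := h3
      _ ≤ _ := h5
      _ = _ := by ring
  exact le_of_mul_le_mul_right h7 (by positivity)

/-- **Lower bound below the second moment**, over `[0, T]`. -/
theorem lower_two_zero {ε : ℝ} (hε : 0 < ε) : ∃ a0 : ℝ, 0 < a0 ∧ ∃ T0 : ℝ, 1 ≤ T0 ∧ ∀ a : ℝ, 0 ≤ a →
    a ≤ a0 → ∀ T : ℝ, T0 ≤ T → (1 - ε) * (T * Real.log T ^ ((1 - a) ^ 2))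
      ≤ ∫ t in (0 : ℝ)..T, ‖riemannZeta (1 / 2 + I * t)‖ ^ (2 * (1 - a)) := by
  obtain ⟨s, hsd⟩ : ∃ s : ℝ, s = min (ε / 40) (1 / 100) := ⟨_, rfl⟩
  have hs : 0 < s := by rw [hsd]; exact lt_min (by positivity) (by norm_num)
  have hs1 : s ≤ 1 / 100 := by rw [hsd]; exact min_le_right _ _
  have hsε : 40 * s ≤ ε := by
    have : s ≤ ε / 40 := by rw [hsd]; exact min_le_left _ _
    linarith
  have hs2 : 0 < s ^ 2 := by positivity
  obtain ⟨K, hK1, hK2, hK3⟩ := exists_good2 hs2 (by nlinarith)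
  obtain ⟨Tm, hTm1, hTm⟩ := mellin_upper K hK3 hs2
  obtain ⟨CF, hCF, hforms⟩ := forms_two
  obtain ⟨m, p1, hm1, hp1, hF⟩ := hforms (s ^ 2) hs2
  obtain ⟨n1, hn1⟩ := exists_nat_ge (1 / s)
  obtain ⟨p0, hp0d⟩ : ∃ p0 : ℕ, p0 = p1 + n1 + 10 := ⟨_, rfl⟩
  have hp0s : 1 / (p0 : ℝ) ≤ s := by
    have h1 : (n1 : ℝ) ≤ p0 := by rw [hp0d]; push_cast; linarith [Nat.cast_nonneg (α := ℝ) p1]
    have h2 : 1 / s ≤ p0 := hn1.trans h1
    have h3 : (0 : ℝ) < p0 := lt_of_lt_of_le (by positivity) h2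
    rw [div_le_iff₀ hs] at h2
    rw [div_le_iff₀ h3]
    linarith
  obtain ⟨n2, hn2⟩ := exists_nat_ge (CF + 40 / s)
  obtain ⟨N, hNd⟩ : ∃ N : ℕ, N = n2 + 4000 := ⟨_, rfl⟩
  have hN2 : CF + 40 / s ≤ N := by
    refine hn2.trans ?_
    rw [hNd]; push_cast; linarith
  have h40 : 0 < 40 / s := by positivity
  have hN40 : 40 / (N : ℝ) ≤ s := by
    have h2 : 40 / s ≤ N := by linarith
    have h3 : (0 : ℝ) < N := by linarith
    rw [div_le_iff₀ hs] at h2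
    rw [div_le_iff₀ h3]
    linarith
  have hN4000 : 4000 ≤ N := by omega
  obtain ⟨W, Y0, hW, hY0, hgood⟩ := good_two K hs hs1 hK1 hK2 hCF hm1 (p0 := p0) (by omega)
    (fun a ha0 ha1 Y hY J => hF m le_rfl p0 (by omega) a ha0 ha1 Y hY J) hN4000 (by linarith)
  have hlogW : 0 ≤ Real.log W := Real.log_nonneg hW
  have hlog1s : 0 < Real.log (1 + s) := Real.log_pos (by linarith)
  have hm' : (4000 : ℝ) ≤ m := by exact_mod_cast hm1
  have hN' : (4000 : ℝ) ≤ N := by exact_mod_cast hN4000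
  refine ⟨min (min (s / 12) 1) (Real.log (1 + s) / (2 * (Real.log W + 1))), ?_,
    max (max Tm (2 * K.L)) (Real.exp (8 * m * N * Y0)),
    hTm1.trans ((le_max_left _ _).trans (le_max_left _ _)), ?_⟩
  · refine lt_min (lt_min (by positivity) one_pos) (by positivity)
  intro a ha0 haa T hT
  have ha1 : a ≤ 1 := haa.trans ((min_le_left _ _).trans (min_le_right _ _))
  have has : a ≤ s / 12 := haa.trans ((min_le_left _ _).trans (min_le_left _ _))
  have haW : a ≤ Real.log (1 + s) / (2 * (Real.log W + 1)) := haa.trans (min_le_right _ _)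
  have hTm' : Tm ≤ T := ((le_max_left _ _).trans (le_max_left _ _)).trans hT
  have h2L : 2 * K.L ≤ T := ((le_max_right _ _).trans (le_max_left _ _)).trans hT
  have hTY : Real.exp (8 * m * N * Y0) ≤ T := (le_max_right _ _).trans hT
  have hT0 : 0 < T := by linarith
  have hA0 : (0 : ℝ) < 8 * m * N := by positivity
  obtain ⟨Y, hYd⟩ : ∃ Y : ℝ, Y = Real.log T / (8 * m * N) := ⟨_, rfl⟩
  have hAY : 8 * m * N * Y = Real.log T := by
    rw [hYd]
    field_simp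
  have hTe : Real.exp (8 * m * N * Y) = T := by rw [hAY, Real.exp_log hT0]
  have hYY : Y0 ≤ Y := by
    rw [hYd, le_div_iff₀ hA0]
    have h1 := Real.log_le_log (Real.exp_pos _) hTY
    rw [Real.log_exp] at h1
    linarith
  have hY1 : 1 ≤ Y := hY0.trans hYY
  have key := hgood Y hYY a ha0 ha1
  rw [hTe] at key
  obtain ⟨J, hJ⟩ : ∃ J : ℕ, J = ⌈Y⌉₊ + 1 := ⟨_, rfl⟩
  rw [← hJ] at key
  -- the upper bound for the integral over the good set
  have hsupp : ∀ n, (DD m p0 (-a) Y J).coeff n ≠ 0 → 1 ≤ n := fun n hn =>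
    ((bd_a (by linarith : 0 < Y) m p0 J (α := a) (by rw [abs_of_nonneg ha0]; exact ha1)
      (z := 1) le_rfl).1 n hn).1
  have hL := K.hL
  have hB : ∀ t : ℝ, T * wgt K T t ≤ 1 + s ^ 2 + s ^ 2 := fun t => hTm T hTm' t
  have hog := on_good (K := K) ha0 ha1 (by linarith : 0 ≤ W) hT0 hB (by omega : 1 ≤ m)
    (zeta_energy h2L hsupp).1
  have h1 := key.trans hog
  obtain ⟨z, hz⟩ : ∃ z : ℝ, z = Real.exp ((4 * N - 160) * m * Y) := ⟨_, rfl⟩
  rw [← hz] at h1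
  have h4N : (0 : ℝ) ≤ 4 * N - 160 := by linarith
  have hz1 : 1 ≤ z := by rw [hz]; exact Real.one_le_exp (by positivity)
  have hlogT : 0 < Real.log T := by rw [← hAY]; positivity
  have hk0 : 0 ≤ 1 - a := by linarith
  have hk1 : 1 - a ≤ 1 := by linarith
  have hmain := main_term_ge (A := 8 * m * N) (by nlinarith only [hm', hN']) hY1 (p0 := p0) (by omega) hz1 hk0 hk1
  rw [hAY] at hmain
  have hlogz : Real.log z = (4 * N - 160) * m * Y := by rw [hz, Real.log_exp]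
  have h2lz : (1 - s) * Real.log T ≤ 2 * Real.log z := by
    have e1 : 2 * Real.log z = (1 - 40 / N) * Real.log T := by
      rw [hlogz, ← hAY]
      field_simp
      ring
    rw [e1]
    exact mul_le_mul_of_nonneg_right (by linarith) hlogT.le
  have hexp1 : 1 - s ≤ Real.exp (-(1 / p0)) := by
    have := Real.add_one_le_exp (-(1 / (p0 : ℝ)))
    linarith
  have hSE : (1 - s) ^ 2 * Real.log T ^ ((1 - a) ^ 2)
      ≤ 2 * (SR p0 Y z * Real.exp ((1 - a) ^ 2 * VS p0 Y)) := by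
    have e1 : Real.log T ^ ((1 - a) ^ 2) = Real.log T * Real.log T ^ ((1 - a) ^ 2 - 1) := by
      rw [Real.rpow_sub_one hlogT.ne']
      field_simp
    have e2 : 0 ≤ Real.log T ^ ((1 - a) ^ 2 - 1) := by positivity
    calc (1 - s) ^ 2 * Real.log T ^ ((1 - a) ^ 2)
        = (1 - s) * ((1 - s) * Real.log T) * Real.log T ^ ((1 - a) ^ 2 - 1) := by rw [e1]; ring
      _ ≤ Real.exp (-(1 / p0)) * (2 * Real.log z) * Real.log T ^ ((1 - a) ^ 2 - 1) := by
          refine mul_le_mul_of_nonneg_right ?_ e2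
          refine mul_le_mul hexp1 h2lz ?_ (Real.exp_pos _).le
          exact mul_nonneg (by linarith) hlogT.le
      _ = 2 * (Real.exp (-(1 / p0)) * Real.log z * Real.log T ^ ((1 - a) ^ 2 - 1)) := by ring
      _ ≤ _ := by linarith
  have hR1 : Real.exp (6 * a * (1 / 3) ^ m) ≤ 1 + s := by
    have e1 : 6 * a * (1 / 3 : ℝ) ^ m ≤ s / 2 := by
      have : (1 / 3 : ℝ) ^ m ≤ 1 := pow_le_one₀ (by norm_num) (by norm_num)
      nlinarith only [this, ha0, has]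
    refine (Real.exp_le_exp.mpr e1).trans ?_
    have h3 := Real.abs_exp_sub_one_sub_id_le (x := s / 2)
      (by rw [abs_of_pos (by positivity)]; linarith only [hs1])
    have h4 := (abs_le.mp h3).2
    nlinarith only [h4, hs, hs1]
  have hR2 : W ^ (2 * a) ≤ 1 + s := by
    rw [Real.rpow_def_of_pos (by linarith), ← Real.exp_log (by linarith : 0 < 1 + s)]
    apply Real.exp_le_exp.mpr
    rw [le_div_iff₀ (by positivity)] at haW
    nlinarith only [haW, ha0]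
  have hI : ∫ t in (0 : ℝ)..T, ‖riemannZeta (1 / 2 + I * t)‖ ^ (2 * (1 - a))
      = ∫ t in Icc 0 T, ‖riemannZeta (1 / 2 + I * t)‖ ^ (2 * (1 - a)) := by
    rw [intervalIntegral.integral_of_le hT0.le, integral_Icc_eq_integral_Ioc]
  rw [hI]
  have hI0 : 0 ≤ ∫ t in Icc 0 T, ‖riemannZeta (1 / 2 + I * t)‖ ^ (2 * (1 - a)) :=
    setIntegral_nonneg measurableSet_Icc fun t _ => by positivity
  have hfin := final_algebra (R := Real.exp (6 * a * (1 / 3) ^ m) * W ^ (2 * a))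
    (B := 1 + s ^ 2 + s ^ 2) hs hs1 hT0 hI0 (L := Real.log T ^ ((1 - a) ^ 2)) (by positivity) ?_
    (by positivity) (by linarith) h1 hSE
  · refine le_trans ?_ hfin
    exact mul_le_mul_of_nonneg_right (by linarith) (by positivity)
  · calc Real.exp (6 * a * (1 / 3) ^ m) * W ^ (2 * a) ≤ (1 + s) * (1 + s) := by gcongr
      _ = (1 + s) ^ 2 := by ring

/-- **Lower bound below the second moment** -/
theorem lower_two_minus (x ε : ℝ) (hε : 0 < ε) : ∃ η0 : ℝ, 0 < η0 ∧ ∃ T0 : ℝ, ∀ β : ℝ,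
    2 - η0 ≤ β → β ≤ 2 → ∀ T : ℝ, T0 ≤ T → (1 - ε) * Real.log T ^ (β ^ 2 / 4) ≤ mom β x T :=
  shift_two x ε hε (lower_two_zero (by positivity))

end Pool.Agent.Lib.MP_f9aece_nt_h97
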