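import Mathlib
import Pool.Agent.Lib.MP_f9aece_nt_h24.CrossP
import Pool.Agent.Lib.MP_f9aece_nt_h85.BadSet

/-!
Mollified second moment on a set where another mollified value is large: comparison with the test
function and Chebyshev's inequality.
-/

set_option autoImplicit false

namespace Pool.Agent.Lib.MP_f9aece_nt_h97

open MeasureTheory Set Filter Topology Complex
open scoped ComplexConjugate
open Pool.Agent.Lib.MP_f9aece_nt (DP ev)
open Pool.Agent.Lib.MP_f9aece_nt_h85 (wgt zeta_energy)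

namespace Ker

variable (K : Ker)

/-- the test function `QB (n c) + V(n,c)`, with transform `(N + χ conj N) n φ~` where `N = ev c` -/
noncomputable def gt (T : ℝ) (n c : DP) (x : ℝ) : ℝ := QB (K.phi T) (n * c) x + K.VB T n c x

/-- distance between the mollified zeta function and the test function -/
noncomputable def Ediff (T : ℝ) (n c : DP) : ℝ :=
  Real.pi * ∫ x in Ioi (0 : ℝ), (QQ (K.phi T) n x - K.gt T n c x) ^ 2

lemma gt_MPc {T : ℝ} (hT : 2 * K.L ≤ T) {n c : DP} (hn : ∀ k, n.coeff k ≠ 0 → 1 ≤ k)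
    (hc : ∀ k, c.coeff k ≠ 0 → 1 ≤ k) : MPc (K.gt T n c) := by
  have hL := K.hL
  exact (K.QB_MPc hT (supp_mul hn hc)).add (K.VB_MPc (by linarith) hn hc)

lemma norm_gt {T : ℝ} (hT : 2 * K.L ≤ T) {a c : DP} (ha : ∀ n, a.coeff n ≠ 0 → 1 ≤ n)
    (hc : ∀ n, c.coeff n ≠ 0 → 1 ≤ n) (t : ℝ) :
    ‖mc (K.gt T a c) t‖ ≤ 2 * (‖ev t (a * c)‖ * wgt K T t) := by
  have hL := K.hL
  have e : K.gt T a c = fun x => QB (K.phi T) (a * c) x + K.VB T a c x := rfl
  rw [e, (K.QB_MPc hT (supp_mul ha hc)).mc_add (K.VB_MPc (by linarith) ha hc)]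
  refine (norm_add_le _ _).trans (le_of_eq ?_)
  rw [K.mc_QB hT (supp_mul ha hc), K.mc_VB hT ha hc, norm_mul, norm_mul, norm_mul,
    RCLike.norm_conj, K.norm_vv hT, map_mul, norm_mul]
  unfold wgt mc
  ring

lemma Ediff_eq {T : ℝ} (hT : 2 * K.L ≤ T) {n c : DP} (hn : ∀ k, n.coeff k ≠ 0 → 1 ≤ k)
    (hc : ∀ k, c.coeff k ≠ 0 → 1 ≤ k) :
    IntegrableOn (fun t : ℝ => ‖mc (QQ (K.phi T) n) t - mc (K.gt T n c) t‖ ^ 2) (Ioi 0) ∧
    ∫ t in Ioi (0 : ℝ), ‖mc (QQ (K.phi T) n) t - mc (K.gt T n c) t‖ ^ 2 = K.Ediff T n c := by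
  have m1 := K.QQ_MPc hT hn
  have m2 := (K.gt_MPc hT hn hc).const_mul (-1)
  have m3 := m1.add m2
  obtain ⟨p1, p2⟩ := m3.plancherel
  have e1 : ∀ t : ℝ, mc (fun x => QQ (K.phi T) n x + -1 * K.gt T n c x) t
      = mc (QQ (K.phi T) n) t - mc (K.gt T n c) t := by
    intro t
    rw [m1.mc_add m2]
    have : mc (fun x => -1 * K.gt T n c x) t = - mc (K.gt T n c) t := by
      unfold mc
      have e2 : (fun x : ℝ => ((-1 * K.gt T n c x : ℝ) : ℂ)) = fun x : ℝ => (-1 : ℂ) • (K.gt T n c x : ℂ) := by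
        funext x
        push_cast
        simp
      rw [e2, mellin_const_smul]
      simp
    rw [this, sub_eq_add_neg]
  simp_rw [e1] at p1 p2
  refine ⟨p1, ?_⟩
  rw [p2]
  unfold Ediff
  congr 1
  refine integral_congr_ae (Eventually.of_forall fun x => ?_)
  simp only
  ring

/-- the split -/
theorem tail_split {T : ℝ} (hT : 2 * K.L ≤ T) {n c d : DP} (hn : ∀ k, n.coeff k ≠ 0 → 1 ≤ k)
    (hc : ∀ k, c.coeff k ≠ 0 → 1 ≤ k) (hd : ∀ k, d.coeff k ≠ 0 → 1 ≤ k) {V : ℝ} (hV : 0 < V)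
    {B : Set ℝ} (hB : MeasurableSet B) (hBT : B ⊆ Icc 0 T)
    (hBV : ∀ t ∈ B, V ≤ ‖riemannZeta (1 / 2 + I * t) * ev t d‖) :
    ∫ t in B, (‖riemannZeta (1 / 2 + I * t) * ev t n‖ * wgt K T t) ^ 2
      ≤ 2 * K.Ediff T n c
        + 8 * (V ^ 2)⁻¹ * (Real.pi * ∫ x in Ioi (0 : ℝ), QQ (K.phi T) (n * c * d) x ^ 2) := by
  have hL := K.hL
  have hT0 : 0 < T := by linarith
  obtain ⟨d1, d2⟩ := K.Ediff_eq hT hn hc
  have hncd := supp_mul (supp_mul hn hc) hd
  obtain ⟨z1, z2⟩ := zeta_energy (K := K) hT hncd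
  obtain ⟨y1, -⟩ := zeta_energy (K := K) hT hn
  -- pass to the half-open interval
  set B' := B ∩ Ioc 0 T with hB'
  have hB'm : MeasurableSet B' := hB.inter measurableSet_Ioc
  have hBB' : ∫ t in B, (‖riemannZeta (1 / 2 + I * t) * ev t n‖ * wgt K T t) ^ 2
      = ∫ t in B', (‖riemannZeta (1 / 2 + I * t) * ev t n‖ * wgt K T t) ^ 2 := by
    refine setIntegral_congr_set ?_
    have h0 : ∀ᵐ t : ℝ ∂volume, t ≠ 0 := by
      rw [ae_iff]
      simp
    filter_upwards [h0] with t ht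
    refine propext ⟨fun h => ⟨h, lt_of_le_of_ne (hBT h).1 (Ne.symm ht), (hBT h).2⟩, fun h => h.1⟩
  rw [hBB']
  have hB'I : B' ⊆ Ioi 0 := fun t ht => ht.2.1
  have hB'T : B' ⊆ Icc 0 T := fun t ht => hBT ht.1
  have hpt : ∀ t ∈ B', (‖riemannZeta (1 / 2 + I * t) * ev t n‖ * wgt K T t) ^ 2
      ≤ 2 * ‖mc (QQ (K.phi T) n) t - mc (K.gt T n c) t‖ ^ 2
        + 8 * (V ^ 2)⁻¹ * (‖riemannZeta (1 / 2 + I * t) * ev t (n * c * d)‖ * wgt K T t) ^ 2 := by
    intro t ht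
    have e1 : ‖riemannZeta (1 / 2 + I * t) * ev t n‖ * wgt K T t = ‖mc (QQ (K.phi T) n) t‖ := by
      rw [K.mc_QQ hT hn (hB'I ht), norm_mul, norm_mul, norm_mul]
      unfold wgt mc
      ring
    rw [e1]
    have e2 := K.norm_gt hT hn hc t
    have e3 : ‖mc (QQ (K.phi T) n) t‖
        ≤ ‖mc (QQ (K.phi T) n) t - mc (K.gt T n c) t‖ + ‖mc (K.gt T n c) t‖ := by
      have := norm_add_le (mc (QQ (K.phi T) n) t - mc (K.gt T n c) t) (mc (K.gt T n c) t)
      rwa [sub_add_cancel] at this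
    have e4 := hBV t ht.1
    set x := ‖mc (QQ (K.phi T) n) t - mc (K.gt T n c) t‖ with hx
    have hx0 : 0 ≤ x := norm_nonneg _
    set w := wgt K T t with hw
    have hw0 : 0 ≤ w := norm_nonneg _
    set y := ‖ev t (n * c)‖ * w with hy
    have hy0 : 0 ≤ y := by positivity
    have e5 : ‖mc (QQ (K.phi T) n) t‖ ≤ x + 2 * y := e3.trans (by linarith)
    have e6 : V * y ≤ ‖riemannZeta (1 / 2 + I * t) * ev t (n * c * d)‖ * w := by
      have : ‖riemannZeta (1 / 2 + I * t) * ev t (n * c * d)‖ * w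
          = ‖riemannZeta (1 / 2 + I * t) * ev t d‖ * y := by
        rw [map_mul (ev t) (n * c) d, hy, norm_mul, norm_mul, norm_mul]
        ring
      rw [this]
      gcongr
    have e7 : y ^ 2 ≤ (V ^ 2)⁻¹ * (‖riemannZeta (1 / 2 + I * t) * ev t (n * c * d)‖ * w) ^ 2 := by
      rw [le_inv_mul_iff₀ (by positivity), ← mul_pow]
      gcongr
    calc ‖mc (QQ (K.phi T) n) t‖ ^ 2 ≤ (x + 2 * y) ^ 2 := by gcongr
      _ ≤ 2 * x ^ 2 + 8 * y ^ 2 := by nlinarith [sq_nonneg (x - 2 * y)]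
      _ ≤ _ := by linarith
  have i1 : IntegrableOn (fun t : ℝ => 2 * ‖mc (QQ (K.phi T) n) t - mc (K.gt T n c) t‖ ^ 2) B' :=
    (d1.mono_set hB'I).const_mul 2
  have i2 : IntegrableOn (fun t : ℝ => 8 * (V ^ 2)⁻¹
      * (‖riemannZeta (1 / 2 + I * t) * ev t (n * c * d)‖ * wgt K T t) ^ 2) B' :=
    (z1.mono_set hB'T).const_mul _
  have h3 : ∫ t in B', (‖riemannZeta (1 / 2 + I * t) * ev t n‖ * wgt K T t) ^ 2
      ≤ ∫ t in B', (2 * ‖mc (QQ (K.phi T) n) t - mc (K.gt T n c) t‖ ^ 2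
        + 8 * (V ^ 2)⁻¹ * (‖riemannZeta (1 / 2 + I * t) * ev t (n * c * d)‖ * wgt K T t) ^ 2) :=
    setIntegral_mono_on (y1.mono_set hB'T) (i1.add i2) hB'm hpt
  refine h3.trans ?_
  rw [integral_add i1 i2, integral_const_mul, integral_const_mul]
  refine add_le_add ?_ ?_
  · refine mul_le_mul_of_nonneg_left ?_ (by norm_num)
    rw [← d2]
    exact setIntegral_mono_set d1 (Eventually.of_forall fun t => by positivity)
      (LE.le.eventuallyLE hB'I)
  · refine mul_le_mul_of_nonneg_left ?_ (by positivity)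
    refine le_trans ?_ z2
    exact setIntegral_mono_set z1 (Eventually.of_forall fun t => by positivity)
      (LE.le.eventuallyLE hB'T)

end Ker

end Pool.Agent.Lib.MP_f9aece_nt_h97
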